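import Pool.Agent.X39.Near.Dep

/-!
# Integral polynomials at numbers without relations of bounded complexity
-/

set_option autoImplicit false

open NumberField Filter Topology

namespace Pool.Agent.X39.Near

open MvPolynomial

/-- **Integral polynomials.** Nonzero integral polynomials of bounded degree and height have values which are not small. -/
theorem int_of_not_dep {J : Type} {g : ℕ} {v : J → ℂ} {ξ : Fin g → ℂ} {F : Type} [Field F] [NumberField F]
    {ι : F →+* ℂ} {d : ℕ} {A B T : ℝ} (h : ¬ Dep v ξ F ι d A B T) (hT : 0 < T)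
    (P : MvPolynomial J ℤ) (hP : P ≠ 0) (hd : ∀ j, P.degreeOf j ≤ d) (hA : ∀ e, |((P.coeff e : ℤ) : ℝ)| ≤ T ^ A) :
    T ^ (-B) < ‖aeval v P‖ := by
  classical
  obtain ⟨e₀, he₀⟩ := ne_zero_iff.1 hP
  by_contra hle
  rw [not_lt] at hle
  apply h
  have hcf : (cf ξ F ι).comp (Int.castRingHom (MvPolynomial (Fin g) (𝓞 F))) = Int.castRingHom ℂ := RingHom.ext_int _ _
  have hc : ∀ c : ℤ, cf ξ F ι (Int.castRingHom (MvPolynomial (Fin g) (𝓞 F)) c) = (c : ℂ) := fun c =>
    RingHom.congr_fun hcf c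
  have hco : ∀ c : ℤ, Int.castRingHom (MvPolynomial (Fin g) (𝓞 F)) c = C ((c : ℤ) : 𝓞 F) := fun c => by simp
  have h1 : (1 : ℝ) ≤ ‖((P.coeff e₀ : ℤ) : ℂ)‖ := by
    rw [Complex.norm_intCast]
    exact_mod_cast Int.one_le_abs he₀
  refine ⟨MvPolynomial.map (Int.castRingHom _) P, fun x => (degreeOf_map _ P x).trans (hd x), fun e y => ?_,
    fun e s φ => ?_, e₀, ?_, ?_⟩
  · rw [coeff_map, hco, degreeOf_C]
    exact Nat.zero_le _
  · rw [coeff_map, hco, coeff_C]
    split_ifs
    · have h2 : φ ((((P.coeff e : ℤ) : 𝓞 F)) : F) = ((P.coeff e : ℤ) : ℂ) := by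
        rw [show ((((P.coeff e : ℤ) : 𝓞 F)) : F) = ((P.coeff e : ℤ) : F) from rfl, map_intCast]
      rw [h2, Complex.norm_intCast]
      exact hA e
    · have h1 : φ (((0 : 𝓞 F)) : F) = 0 := by simp
      rw [h1, norm_zero]
      exact (Real.rpow_pos_of_pos hT _).le
  · rw [coeff_map, hc]
    exact_mod_cast he₀
  · rw [coeff_map, hc, eval₂_map, hcf]
    have h2 : eval₂ (Int.castRingHom ℂ) v P = aeval v P := by
      rw [aeval_def]
      congr 1
    rw [h2]
    refine hle.trans ?_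
    calc T ^ (-B) = T ^ (-B) * 1 := (mul_one _).symm
      _ ≤ _ := mul_le_mul_of_nonneg_left h1 (Real.rpow_nonneg hT.le _)

/-- another index set -/
theorem Dep.equiv {J J' : Type} (e : J ≃ J') {g : ℕ} {v : J → ℂ} {v' : J' → ℂ} (hv : ∀ j, v' (e j) = v j)
    {ξ : Fin g → ℂ} {F : Type} [Field F] [NumberField F] {ι : F →+* ℂ} {d : ℕ} {A B T : ℝ}
    (h : Dep v ξ F ι d A B T) : Dep v' ξ F ι d A B T := by
  obtain ⟨P, h1, h2, h3, e₀, h4, h5⟩ := h
  have hco : ∀ s : J' →₀ ℕ, (rename e P).coeff s = P.coeff (s.mapDomain e.symm) := by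
    intro s
    have h6 : s = (s.mapDomain e.symm).mapDomain e := by
      rw [← Finsupp.mapDomain_comp]
      simp [Finsupp.mapDomain_id]
    conv_lhs => rw [h6]
    rw [coeff_rename_mapDomain e e.injective]
  have hsym : (e₀.mapDomain e).mapDomain e.symm = e₀ := by
    rw [← Finsupp.mapDomain_comp]
    simp [Finsupp.mapDomain_id]
  refine ⟨rename e P, fun x => ?_, fun s y => ?_, fun s s' φ => ?_, e₀.mapDomain e, ?_, ?_⟩
  · have h6 := degreeOf_rename_of_injective (p := P) e.injective (e.symm x)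
    rw [e.apply_symm_apply] at h6
    rw [h6]
    exact h1 _
  · rw [hco]
    exact h2 _ _
  · rw [hco]
    exact h3 _ _ φ
  · rw [hco, hsym]
    exact h4
  · rw [hco, hsym, eval₂_rename]
    have h6 : v' ∘ e = v := funext hv
    rw [h6]
    exact h5

end Pool.Agent.X39.Near
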