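import Pool.Agent.X39.Near.DepInt

/-!
# Functions of a point at which an injective function has an algebraic value
-/

set_option autoImplicit false

open Filter Topology NumberField

namespace Pool.Agent.X39.Near

open MvPolynomial

/-- images of open sets are open -/
theorem open_image {V : Set ℂ} {φ : ℂ → ℂ} (hφ : AnalyticOnNhd ℂ φ V) (hφ' : ∀ s ∈ V, deriv φ s ≠ 0) {W : Set ℂ}
    (hWV : W ⊆ V) (hW : IsOpen W) : IsOpen (φ '' W) := by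
  rw [isOpen_iff_mem_nhds]
  rintro _ ⟨s, hs, rfl⟩
  have h1 : HasStrictDerivAt φ (deriv φ s) s := (hφ s (hWV hs)).hasStrictDerivAt
  have h2 := h1.map_nhds_eq (hφ' s (hWV hs))
  rw [← h2]
  exact Filter.image_mem_map (hW.mem_nhds hs)

/-- solutions close to a point of a smaller set -/
theorem mem_of_close {V W : Set ℂ} {φ : ℂ → ℂ} (hφ : AnalyticOnNhd ℂ φ V) (hφ' : ∀ s ∈ V, deriv φ s ≠ 0)
    (hinj : Set.InjOn φ V) (hWV : W ⊆ V) (hW : IsOpen W) {s₀ : ℂ} (h0 : s₀ ∈ W) {ω : ℝ} (hω : 0 < ω) :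
    ∃ T₁ : ℝ, ∀ T : ℝ, T₁ ≤ T → ∀ s ∈ V, ‖φ s - φ s₀‖ ≤ T ^ (-ω) → s ∈ W := by
  obtain ⟨ε, hε, hball⟩ := Metric.isOpen_iff.1 (open_image hφ hφ' hWV hW) (φ s₀) ⟨s₀, h0, rfl⟩
  have hlim : Tendsto (fun T : ℝ => T ^ (-ω)) atTop (𝓝 0) := tendsto_rpow_neg_atTop hω
  obtain ⟨T₁, hT₁⟩ := Filter.eventually_atTop.1 (hlim.eventually (gt_mem_nhds hε))
  refine ⟨T₁, fun T hT s hs hss => ?_⟩
  have h1 : φ s ∈ Metric.ball (φ s₀) ε := by
    rw [Metric.mem_ball, dist_eq_norm]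
    exact hss.trans_lt (hT₁ T hT)
  obtain ⟨w, hw, hws⟩ := hball h1
  rwa [← hinj (hWV hw) hs hws]

/-- a function with nonzero derivative is injective on a ball with centre and radius in countable sets -/
theorem exists_ball_inj {U : Set ℂ} (hU : IsOpen U) {φ : ℂ → ℂ} {s₀ : ℂ} (hs : s₀ ∈ U) (hφ : AnalyticAt ℂ φ s₀)
    (hφ' : deriv φ s₀ ≠ 0) : ∃ n k : ℕ, s₀ ∈ Metric.ball (TopologicalSpace.denseSeq ℂ n) (1 / ((k : ℝ) + 1)) ∧
      Metric.ball (TopologicalSpace.denseSeq ℂ n) (1 / ((k : ℝ) + 1)) ⊆ U ∧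
      Set.InjOn φ (Metric.ball (TopologicalSpace.denseSeq ℂ n) (1 / ((k : ℝ) + 1))) := by
  have h1 := hφ.hasStrictDerivAt.hasStrictFDerivAt_equiv hφ'
  have h2 := h1.eventually_left_inverse
  obtain ⟨ρ, hρ, hball⟩ := Metric.mem_nhds_iff.1 (Filter.inter_mem h2 (hU.mem_nhds hs))
  obtain ⟨k, hk⟩ := exists_nat_one_div_lt (show (0 : ℝ) < ρ / 2 by linarith)
  have hk0 : (0 : ℝ) < 1 / ((k : ℝ) + 1) := by positivity
  obtain ⟨n, hn⟩ := (TopologicalSpace.denseRange_denseSeq ℂ).exists_dist_lt s₀ hk0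
  have hsub : Metric.ball (TopologicalSpace.denseSeq ℂ n) (1 / ((k : ℝ) + 1)) ⊆ Metric.ball s₀ ρ := by
    intro z hz
    rw [Metric.mem_ball] at hz ⊢
    have := dist_triangle z (TopologicalSpace.denseSeq ℂ n) s₀
    rw [dist_comm (TopologicalSpace.denseSeq ℂ n) s₀] at this
    linarith
  refine ⟨n, k, hn, fun z hz => (hball (hsub hz)).2, fun z hz w hw hzw => ?_⟩
  have e1 := (hball (hsub hz)).1
  have e2 := (hball (hsub hw)).1
  rw [Set.mem_ofPred_eq] at e1 e2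
  rw [← e1, ← e2, hzw]

/-- **Functions of the solutions `s` of `φ (s) = t`**, `t` algebraic, for an injective analytic function `φ` -/
theorem near_inj {J : Type} [Fintype J] {g : ℕ} {V : Set ℂ} (hV : IsOpen V) {φ : ℂ → ℂ}
    (hφ : AnalyticOnNhd ℂ φ V) (hinj : Set.InjOn φ V) (hφ' : ∀ s ∈ V, deriv φ s ≠ 0) (h : J → ℂ → ℂ)
    (han : ∀ j, ∀ s ∈ V, AnalyticAt ℂ (h j) s)
    (hind : ∀ s₀ ∈ V, ∀ P : MvPolynomial (Option J) ℂ,
      (∀ᶠ s in 𝓝 s₀, eval (fun o : Option J => o.elim (φ s) fun j => h j s) P = 0) → P = 0)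
    (ξ : Fin g → ℂ) :
    ∃ E : Set ℂ, dimH E = 0 ∧ ∀ s₀ ∈ V, φ s₀ ∉ E →
      ∀ (F : Type) [Field F] [NumberField F] (ι : F →+* ℂ) (d A : ℕ) (ω : ℝ), 0 < ω → ∃ B T₁ : ℝ, ∀ T : ℝ, T₁ ≤ T →
        ∀ t : F, Size F T t → ‖ι t - φ s₀‖ ≤ T ^ (-ω) → ∀ s ∈ V, φ s = ι t →
          ¬ Dep (fun j => h j s) ξ F ι d A B T := by
  classical
  have hopen : ∀ W ⊆ V, IsOpen W → IsOpen (φ '' W) := fun W hWV hW => open_image hφ hφ' hWV hW
  set ψ : ℂ → ℂ := Function.invFunOn φ V with hψ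
  have hψφ : ∀ s ∈ V, ψ (φ s) = s := fun s hs => hinj.leftInvOn_invFunOn hs
  have hφψ : ∀ t ∈ φ '' V, ψ t ∈ V ∧ φ (ψ t) = t := fun t ht =>
    ⟨Function.invFunOn_mem ht, Function.invFunOn_eq ht⟩
  have hcont : ∀ t ∈ φ '' V, ContinuousAt ψ t := by
    rintro _ ⟨s, hs, rfl⟩
    rw [ContinuousAt, hψφ s hs]
    intro N hN
    obtain ⟨W, hWN, hW, hsW⟩ := mem_nhds_iff.1 (Filter.inter_mem hN (hV.mem_nhds hs))
    have h1 : φ '' W ∈ 𝓝 (φ s) := (hopen W (fun z hz => (hWN hz).2) hW).mem_nhds ⟨s, hsW, rfl⟩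
    rw [Filter.mem_map]
    filter_upwards [h1] with t ht
    obtain ⟨z, hz, rfl⟩ := ht
    show ψ (φ z) ∈ N
    rw [hψφ z (hWN hz).2]
    exact (hWN hz).1
  have hΩ := hopen V Set.Subset.rfl hV
  have hdiff : DifferentiableOn ℂ ψ (φ '' V) := by
    intro t ht
    obtain ⟨h1, h2⟩ := hφψ t ht
    have h3 : HasDerivAt φ (deriv φ (ψ t)) (ψ t) := (hφ _ h1).differentiableAt.hasDerivAt
    have h4 : ∀ᶠ y in 𝓝 t, φ (ψ y) = y := by
      filter_upwards [hΩ.mem_nhds ht] with y hy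
      exact (hφψ y hy).2
    exact (HasDerivAt.of_local_left_inverse (hcont t ht) h3 (hφ' _ h1) h4).differentiableAt.differentiableWithinAt
  have hψan : ∀ t ∈ φ '' V, AnalyticAt ℂ ψ t := fun t ht => hdiff.analyticAt (hΩ.mem_nhds ht)
  obtain ⟨E, h1, h2, -⟩ := near_dep (φ '' V) hΩ (fun j t => h j (ψ t))
    (fun j t ht => AnalyticAt.fun_comp (g := h j) (f := ψ) (han j _ (hφψ t ht).1) (hψan t ht))
    (fun t ht P hP => by
      obtain ⟨s, hs, rfl⟩ := ht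
      apply hind s hs P
      have hc : Tendsto φ (𝓝 s) (𝓝 (φ s)) := (hφ s hs).continuousAt
      filter_upwards [hc.eventually hP, hV.mem_nhds hs] with z hz hzV
      rw [← hz]
      congr 2
      funext o
      rcases o with _ | j
      · rfl
      · show h j z = h j (ψ (φ z))
        rw [hψφ z hzV]) ξ
  refine ⟨E, h1, fun s₀ hs₀ hE F _ _ ι d A ω hω => ?_⟩
  obtain ⟨B, T₁, h3⟩ := h2 (φ s₀) ⟨s₀, hs₀, rfl⟩ hE F ι d A ω hω
  refine ⟨B, T₁, fun T hT t ht htx s hs hst => ?_⟩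
  have h4 := h3 T hT t ht htx
  rw [← hst] at h4
  simp only [hψφ s hs] at h4
  exact h4

end Pool.Agent.X39.Near
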