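import Pool.Agent.X39.Near.Master
import Pool.Agent.X255.RH.Reg

/-! The theorem for systems of functions which are algebraically independent over `ℂ(x)` on a connected
open set. -/

set_option autoImplicit false

namespace Pool.Agent.X39.Near

open Filter Topology MeasureTheory NumberField

/-- the two forms of algebraic independence -/
theorem aindep_of_indep {J : Type} {V : Set ℂ} {f : J → ℂ → ℂ} (h : Pool.Agent.X255.RH.Indep V f)
    (P : MvPolynomial (Option J) ℂ)
    (hP : ∀ t ∈ V, MvPolynomial.eval (fun o => o.elim t fun y => f y t) P = 0) : P = 0 := by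
  have hev : ∀ x, (Pool.Agent.X255.RH.evH f x).comp
      (MvPolynomial.optionEquivRight ℂ J : MvPolynomial (Option J) ℂ →+* MvPolynomial J (Polynomial ℂ)) =
      MvPolynomial.eval (fun o => o.elim x fun y => f y x) := by
    intro x
    apply MvPolynomial.ringHom_ext
    · intro a
      simp [Pool.Agent.X255.RH.evH]
    · rintro (_ | i) <;> simp [Pool.Agent.X255.RH.evH]
  have h1 : MvPolynomial.optionEquivRight ℂ J P = 0 := by
    apply h
    intro x hx
    rw [← Pool.Agent.X255.RH.evH_apply]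
    exact (RingHom.congr_fun (hev x) P).trans (hP x hx)
  exact (MvPolynomial.optionEquivRight ℂ J).injective (by rw [h1, map_zero])

/-- **The theorem for systems of functions independent on a connected open set.** -/
theorem master_indep {J : Type} [Fintype J] {q g : ℕ} (Ω : Set ℂ) (hΩ : IsOpen Ω)
    (hc : IsPreconnected Ω) (f : J → ℂ → ℂ)
    (han : ∀ i, AnalyticOnNhd ℂ (f i) Ω) (hind : Pool.Agent.X255.RH.Indep Ω f)
    (u : Fin q → Polynomial ℂ) (w : Polynomial ℂ) (hw : ∀ t ∈ Ω, w.eval t ≠ 0) (ξ : Fin g → ℂ) :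
    ∃ E : Set ℂ, dimH E = 0 ∧
      (∀ x ∈ Ω, x ∉ E → ∀ (F : Type) [Field F] [NumberField F] (ι : F →+* ℂ)
        (d A : ℕ) (ω : ℝ), 0 < ω → ∃ B T₁ : ℝ, ∀ T : ℝ, T₁ ≤ T → ∀ t : F, Size F T t →
          ‖ι t - x‖ ≤ T ^ (-ω) → ¬ Dependent f u w ξ F ι d A B T t) ∧
      ∀ x : ℝ, Irrational x → (x : ℂ) ∈ Ω → (x : ℂ) ∉ E → ∀ d A : ℕ, ∃ (B : ℝ) (n₀ : ℕ), ∀ k : ℕ,
        n₀ ≤ k → ¬ Dependent f u w ξ ℚ (algebraMap ℚ ℂ) d A B (x.convergent k).den
          (x.convergent k) :=
  master Ω hΩ f (fun i t ht => han i t ht)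
    (locInd_of hc f (fun i t ht => han i t ht) (aindep_of_indep hind)) u w hw ξ

end Pool.Agent.X39.Near
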