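import Pool.Agent.X39.Near.Rel
import Pool.Agent.Y549.GM.Gen

/-! The theorem for systems of analytic functions which are algebraically independent together with the
variable: relations whose coefficients are polynomials in rational functions of the parameter and in
arbitrary complex constants. -/

set_option autoImplicit false

namespace Pool.Agent.X39.Near

open Filter Topology MeasureTheory NumberField

/-- The value of a polynomial with coefficients in the integers of `F` at the numbers `u_k(t) / w(t)` and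
`ξ_i`. -/
noncomputable def coefAt {q g : ℕ} (u : Fin q → Polynomial ℂ) (w : Polynomial ℂ) (ξ : Fin g → ℂ)
    (F : Type) [Field F] (ι : F →+* ℂ) (t : F) : MvPolynomial (Fin q ⊕ Fin g) (𝓞 F) →+* ℂ :=
  MvPolynomial.eval₂Hom (ι.comp (algebraMap (𝓞 F) F))
    (Sum.elim (fun k => (u k).eval (ι t) / w.eval (ι t)) ξ)

/-- There is a polynomial `P` of degree at most `d` in each variable, whose coefficients are values of
polynomials of degree at most `d` in each variable, in the numbers `u_k(t) / w(t)` and `ξ_i`, with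
coefficients in the integers of `F` all of whose conjugates are at most `T ^ A`, such that the value of `P`
at the numbers `f_i(t)` is at most `T ^ (-B)` times the absolute value of some nonzero coefficient. -/
def Dependent {J : Type} {q g : ℕ} (f : J → ℂ → ℂ) (u : Fin q → Polynomial ℂ) (w : Polynomial ℂ)
    (ξ : Fin g → ℂ) (F : Type) [Field F] [NumberField F] (ι : F →+* ℂ) (d : ℕ) (A B T : ℝ) (t : F) :
    Prop :=
  ∃ P : MvPolynomial J (MvPolynomial (Fin q ⊕ Fin g) (𝓞 F)),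
    (∀ x, P.degreeOf x ≤ d) ∧ (∀ e v, (P.coeff e).degreeOf v ≤ d) ∧
    (∀ e s (φ : F →+* ℂ), ‖φ ((P.coeff e).coeff s : 𝓞 F)‖ ≤ T ^ A) ∧
    ∃ e₀, coefAt u w ξ F ι t (P.coeff e₀) ≠ 0 ∧
      ‖MvPolynomial.eval₂ (coefAt u w ξ F ι t) (fun j => f j (ι t)) P‖ ≤
        T ^ (-B) * ‖coefAt u w ξ F ι t (P.coeff e₀)‖

lemma degreeOf_map {σ R S : Type} [CommSemiring R] [CommSemiring S] (f : R →+* S) (P : MvPolynomial σ R)
    (x : σ) : (MvPolynomial.map f P).degreeOf x ≤ P.degreeOf x := by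
  classical
  rw [MvPolynomial.degreeOf_def, MvPolynomial.degreeOf_def]
  exact Multiset.count_le_of_le _ MvPolynomial.degrees_map_le

theorem Dependent.trans {J : Type} {q g : ℕ} (y : J → ℂ → ℂ) (u : Fin q → Polynomial ℂ)
    (w : Polynomial ℂ) (ξ : Fin g → ℂ) (F F' : Type) [Field F] [NumberField F] [Field F']
    [NumberField F'] (ι : F →+* ℂ)
    (ι' : F' →+* ℂ) (e : F ≃+* F') (he : ∀ t, ι' (e t) = ι t) (d : ℕ) (A B T : ℝ) (t : F)
    (h : Dependent y u w ξ F ι d A B T t) : Dependent y u w ξ F' ι' d A B T (e t) := by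
  obtain ⟨P, h1, h2, h3, e₀, h4, h5⟩ := h
  set f : 𝓞 F →+* 𝓞 F' := (RingOfIntegers.mapRingEquiv e : 𝓞 F →+* 𝓞 F') with hf
  have hcomp : (coefAt u w ξ F' ι' (e t)).comp (MvPolynomial.map f) = coefAt u w ξ F ι t := by
    apply MvPolynomial.ringHom_ext
    · intro r
      simp only [coefAt, RingHom.comp_apply, MvPolynomial.map_C, MvPolynomial.eval₂Hom_C]
      exact he _
    · intro v
      simp only [coefAt, RingHom.comp_apply, MvPolynomial.map_X, MvPolynomial.eval₂Hom_X', he]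
  have hc : ∀ c, coefAt u w ξ F' ι' (e t) (MvPolynomial.map f c) = coefAt u w ξ F ι t c :=
    fun c => RingHom.congr_fun hcomp c
  refine ⟨MvPolynomial.map (MvPolynomial.map f) P, fun x => (degreeOf_map _ P x).trans (h1 x),
    fun s v => ?_, fun s s' φ => ?_, e₀, ?_, ?_⟩
  · rw [MvPolynomial.coeff_map]
    exact (degreeOf_map _ _ v).trans (h2 s v)
  · rw [MvPolynomial.coeff_map, MvPolynomial.coeff_map]
    exact h3 s s' (φ.comp (e : F →+* F'))
  · rwa [MvPolynomial.coeff_map, hc]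
  · rw [MvPolynomial.coeff_map, hc, MvPolynomial.eval₂_map, hcomp, he]
    exact h5

theorem Dependent.level {J : Type} {q g : ℕ} (y : J → ℂ → ℂ) (u : Fin q → Polynomial ℂ)
    (w : Polynomial ℂ) (ξ : Fin g → ℂ) (F : Type) [Field F] [NumberField F] (ι : F →+* ℂ) (d : ℕ)
    (A B B' T T' : ℝ)
    (t : F) (hA : 0 ≤ A) (h1 : 1 ≤ T) (h2 : T ≤ T') (h3 : T' ≤ T ^ 2) (h4 : 2 * |B'| ≤ B)
    (h : Dependent y u w ξ F ι d A B T t) : Dependent y u w ξ F ι d A B' T' t := by
  obtain ⟨h5, h6⟩ := rpow_levels hA h1 h2 h3 h4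
  obtain ⟨P, p1, p2, p3, e₀, p4, p5⟩ := h
  exact ⟨P, p1, p2, fun e s φ => (p3 e s φ).trans h5, e₀, p4,
    p5.trans (mul_le_mul_of_nonneg_right h6 (norm_nonneg _))⟩

/-- the form of the library -/
theorem Dependent.mem {J : Type} {p q g : ℕ} (e₁ : J ≃ Fin 1 × Fin p) {f : J → ℂ → ℂ}
    {u : Fin q → Polynomial ℂ} {w : Polynomial ℂ} {ξ : Fin g → ℂ} {F : Type} [Field F]
    [NumberField F] {ι : F →+* ℂ} {d : ℕ} {A B T : ℝ} {t : F} {K : Set ℂ}
    (h : Dependent f u w ξ F ι d A B T t) (hs : Pool.Agent.Y120.HtLe F T t) (hK : ι t ∈ K) :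
    (fun _ => t) ∈ Pool.Agent.Y549.GM.Exc F ι d (fun _ : Fin 1 => fun i : Fin p => f (e₁.symm (0, i)))
      (fun _ => u) (fun _ => w) ξ (fun _ => K) A B T := by
  obtain ⟨P, h1, h2, h3, e₀, h4, h5⟩ := h
  set b : (Fin q ⊕ Fin g) ≃ ((Fin 1 × Fin q) ⊕ Fin g) :=
    Equiv.sumCongr (Equiv.uniqueProd (Fin q) (Fin 1)).symm (Equiv.refl _) with hb
  set ev : MvPolynomial ((Fin 1 × Fin q) ⊕ Fin g) (𝓞 F) →+* ℂ :=
    Pool.Agent.Y549.GM.evc F ι (fun _ : Fin 1 => u) (fun _ => w) ξ (fun _ => ι t) with hev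
  have hcomp : ev.comp (MvPolynomial.rename b : MvPolynomial (Fin q ⊕ Fin g) (𝓞 F) →ₐ[𝓞 F] _).toRingHom =
      coefAt u w ξ F ι t := by
    apply MvPolynomial.ringHom_ext
    · intro r
      simp [hev, Pool.Agent.Y549.GM.evc, coefAt]
    · rintro (v | v) <;> simp [hev, hb, Pool.Agent.Y549.GM.evc, Pool.Agent.Y549.GM.xv, coefAt]
  have hc : ∀ c, ev (MvPolynomial.rename b c) = coefAt u w ξ F ι t c :=
    fun c => RingHom.congr_fun hcomp c
  set P' : MvPolynomial (Fin 1 × Fin p) (MvPolynomial ((Fin 1 × Fin q) ⊕ Fin g) (𝓞 F)) :=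
    MvPolynomial.rename e₁ (MvPolynomial.map
      (MvPolynomial.rename b : MvPolynomial (Fin q ⊕ Fin g) (𝓞 F) →ₐ[𝓞 F] _).toRingHom P) with hP'
  have hcoef : ∀ s : (Fin 1 × Fin p) →₀ ℕ, P'.coeff s =
      MvPolynomial.rename b (P.coeff (s.mapDomain e₁.symm)) := by
    intro s
    have h6 : s = (s.mapDomain e₁.symm).mapDomain e₁ := by
      rw [← Finsupp.mapDomain_comp]
      simp [Finsupp.mapDomain_id]
    conv_lhs => rw [h6]
    rw [hP', MvPolynomial.coeff_rename_mapDomain e₁ e₁.injective, MvPolynomial.coeff_map]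
    rfl
  have hcoef' : ∀ (c : MvPolynomial (Fin q ⊕ Fin g) (𝓞 F)) (s : ((Fin 1 × Fin q) ⊕ Fin g) →₀ ℕ),
      (MvPolynomial.rename b c).coeff s = c.coeff (s.mapDomain b.symm) := by
    intro c s
    have h6 : s = (s.mapDomain b.symm).mapDomain b := by
      rw [← Finsupp.mapDomain_comp]
      simp [Finsupp.mapDomain_id]
    conv_lhs => rw [h6]
    rw [MvPolynomial.coeff_rename_mapDomain b b.injective]
  have hsym : (e₀.mapDomain e₁).mapDomain e₁.symm = e₀ := by
    rw [← Finsupp.mapDomain_comp]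
    simp [Finsupp.mapDomain_id]
  refine ⟨fun _ => ⟨hs, hK⟩, P', fun x => ?_, fun s v => ?_, fun s s' φ => ?_, e₀.mapDomain e₁, ?_, ?_⟩
  · have h6 := MvPolynomial.degreeOf_rename_of_injective (p := MvPolynomial.map
      (MvPolynomial.rename b : MvPolynomial (Fin q ⊕ Fin g) (𝓞 F) →ₐ[𝓞 F] _).toRingHom P)
      e₁.injective (e₁.symm x)
    rw [e₁.apply_symm_apply] at h6
    rw [hP', h6]
    exact (degreeOf_map _ P _).trans (h1 _)
  · rw [hcoef]
    have h6 := MvPolynomial.degreeOf_rename_of_injective (p := P.coeff (s.mapDomain e₁.symm))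
      b.injective (b.symm v)
    rw [b.apply_symm_apply] at h6
    rw [h6]
    exact h2 _ _
  · rw [hcoef, hcoef']
    exact h3 _ _ φ
  · rw [hcoef, hsym]
    exact (hc _).trans_ne h4
  · rw [hcoef, hsym]
    have h6 : MvPolynomial.eval₂ ev (fun x : Fin 1 × Fin p => f (e₁.symm (0, x.2)) (ι t)) P' =
        MvPolynomial.eval₂ (coefAt u w ξ F ι t) (fun j => f j (ι t)) P := by
      rw [hP', MvPolynomial.eval₂_rename, MvPolynomial.eval₂_map, hcomp]
      congr 1
      funext j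
      simp only [Function.comp]
      congr 1
      congr 1
      have h7 : ((0 : Fin 1), (e₁ j).2) = e₁ j := Prod.ext (Subsingleton.elim _ _) rfl
      rw [h7, e₁.symm_apply_apply]
    have h8 := hc (P.coeff e₀)
    change ‖MvPolynomial.eval₂ ev (fun x : Fin 1 × Fin p => f (e₁.symm (0, x.2)) (ι t)) P'‖ ≤
      T ^ (-B) * ‖ev (MvPolynomial.rename b (P.coeff e₀))‖
    rw [h6, h8]
    exact h5

/-- **The theorem for systems of functions.** -/
theorem master {J : Type} [Fintype J] {q g : ℕ} (Ω : Set ℂ) (hΩ : IsOpen Ω) (f : J → ℂ → ℂ)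
    (han : ∀ i, ∀ t ∈ Ω, AnalyticAt ℂ (f i) t) (hind : ∀ t ∈ Ω, Pool.Agent.Y124.LocInd f t)
    (u : Fin q → Polynomial ℂ) (w : Polynomial ℂ) (hw : ∀ t ∈ Ω, w.eval t ≠ 0) (ξ : Fin g → ℂ) :
    ∃ E : Set ℂ, dimH E = 0 ∧
      (∀ x ∈ Ω, x ∉ E → ∀ (F : Type) [Field F] [NumberField F] (ι : F →+* ℂ)
        (d A : ℕ) (ω : ℝ), 0 < ω → ∃ B T₁ : ℝ, ∀ T : ℝ, T₁ ≤ T → ∀ t : F, Size F T t →
          ‖ι t - x‖ ≤ T ^ (-ω) → ¬ Dependent f u w ξ F ι d A B T t) ∧
      ∀ x : ℝ, Irrational x → (x : ℂ) ∈ Ω → (x : ℂ) ∉ E → ∀ d A : ℕ, ∃ (B : ℝ) (n₀ : ℕ), ∀ k : ℕ,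
        n₀ ≤ k → ¬ Dependent f u w ξ ℚ (algebraMap ℚ ℂ) d A B (x.convergent k).den
          (x.convergent k) := by
  classical
  set p : ℕ := Fintype.card J with hp
  let e₂ : J ≃ Fin p := Fintype.equivFin J
  let e₁ : J ≃ Fin 1 × Fin p := e₂.trans (Equiv.uniqueProd (Fin p) (Fin 1)).symm
  have hlev := fun (F : Type) [Field F] [NumberField F] (ι : F →+* ℂ) (d : ℕ) (A B B' T T' : ℝ)
    (t : F) => Dependent.level f u w ξ F ι d A B B' T T' t
  have hind' : ∀ t ∈ Ω, Pool.Agent.Y124.LocInd (fun i : Fin p => f (e₁.symm (0, i))) t := by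
    intro t ht P hP
    have h1 : (MvPolynomial.rename (Option.map e₂.symm) P : MvPolynomial (Option J) ℂ) = 0 := by
      apply hind t ht
      filter_upwards [hP] with z hz
      rw [MvPolynomial.eval_rename, ← hz]
      have h0 : ((fun o : Option J => o.elim z fun y => f y z) ∘ Option.map e₂.symm) =
          fun o : Option (Fin p) => o.elim z fun y => f (e₁.symm (0, y)) z := by
        funext o
        rcases o with _ | i
        · rfl
        · rfl
      rw [h0]
    have hinj : Function.Injective (MvPolynomial.rename (R := ℂ) (Option.map e₂.symm)) :=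
      MvPolynomial.rename_injective _ (Option.map_injective e₂.symm.injective)
    exact hinj (by rw [h1, map_zero])
  obtain ⟨E, h1, h2⟩ := zero_dim Ω hΩ (fun F _ _ => Dependent f u w ξ F)
    (fun F F' _ _ _ _ ι ι' e he d A B T t => Dependent.trans f u w ξ F F' ι ι' e he d A B T t)
    (fun F _ _ ι d A B B' T T' t => hlev F ι d A B B' T T' t) (by
      intro K hK hKΩ m d A ε hA hε
      obtain ⟨B, C, T₀, -, hT₀, h⟩ := Pool.Agent.Y549.GM.general m 1 p q g d
        (fun _ => fun i : Fin p => f (e₁.symm (0, i)))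
        (fun _ => K) (fun _ => hK) (fun _ i t ht => han _ t (hKΩ ht))
        (fun _ t ht => hind' t (hKΩ ht))
        (fun _ => u) (fun _ => w) (fun _ t ht => hw t (hKΩ ht)) A ε hε
      refine ⟨B, C, T₀, fun F _ _ hF ι T hT => ?_⟩
      obtain ⟨h3, h4⟩ := h F hF ι ξ T hT
      have hT0 : 0 ≤ T := by linarith
      rw [Nat.sub_self, pow_zero, mul_one] at h4
      obtain ⟨h5, h6⟩ := tuples_count
        (S := {t : F | ι t ∈ K ∧ Size F T t ∧ Dependent f u w ξ F ι d A B T t})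
        (fun t ht => (by
          obtain ⟨h7, ⟨a, b, hb, hab, hx⟩, h9⟩ := ht
          exact h9.mem e₁ ⟨a, b, hb, Pool.Agent.Y120.house_le F hT0 fun φ => (hab φ).1,
            Pool.Agent.Y120.house_le F hT0 fun φ => (hab φ).2, hx⟩ h7)) h3
      exact ⟨h5, le_trans (by exact_mod_cast h6) h4⟩)
  exact ⟨E, h1, h2, fun x hx hxU hxE d A => conv_zero
    (fun F _ _ => Dependent f u w ξ F) (fun F _ _ ι d A B B' T T' t => hlev F ι d A B B' T T' t)
    h2 hx hxU hxE d A⟩

lemma an_eval {Y : Type} (f : Y → ℂ → ℂ) (t₀ : ℂ) (han : ∀ i, AnalyticAt ℂ (f i) t₀)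
    (P : MvPolynomial (Option Y) ℂ) :
    AnalyticAt ℂ (fun t => MvPolynomial.eval (fun o : Option Y => o.elim t fun y => f y t) P) t₀ := by
  induction P using MvPolynomial.induction_on with
  | C a => simpa using analyticAt_const
  | add p q hp hq =>
    simp only [map_add]
    exact hp.add hq
  | mul_X p o hp =>
    simp only [map_mul, MvPolynomial.eval_X]
    refine hp.mul ?_
    rcases o with _ | y
    · exact analyticAt_id
    · exact han y

/-- algebraic independence on a connected open set is algebraic independence near each of its points -/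
theorem locInd_of {Y : Type} {Ω : Set ℂ} (hc : IsPreconnected Ω) (f : Y → ℂ → ℂ)
    (han : ∀ i, ∀ t ∈ Ω, AnalyticAt ℂ (f i) t)
    (hind : ∀ P : MvPolynomial (Option Y) ℂ,
      (∀ t ∈ Ω, MvPolynomial.eval (fun o => o.elim t fun y => f y t) P = 0) → P = 0) :
    ∀ t ∈ Ω, Pool.Agent.Y124.LocInd f t := by
  intro t₀ ht₀ P hP
  apply hind P
  have hA : AnalyticOnNhd ℂ (fun t => MvPolynomial.eval (fun o : Option Y => o.elim t fun y => f y t) P)
      Ω := fun t ht => an_eval f t (fun i => han i t ht) P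
  exact fun t ht => hA.eqOn_zero_of_preconnected_of_eventuallyEq_zero hc ht₀ hP ht

end Pool.Agent.X39.Near
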