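import Pool.Agent.X39.Near.Dep
import Pool.Agent.Y776.Cv.Pad
import Pool.Agent.Y776.AxJ.Alg

/-!
# Algebraically independent systems of exponentials, logarithms and elliptic functions
-/

set_option autoImplicit false

open Filter Topology Set
open scoped PeriodPair

noncomputable section

namespace Pool.Agent.X39.Near

open H667R3 Pool.Agent.W245.EB Pool.Agent.TH813.Ell Pool.Agent.Y685 Pool.Agent.Y685.H2
open Pool.Agent.Y776.Fam (TS TS_countable Gn countable_Gn exists_D LF countable_zeros IndC exists_cf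
  exists_notMem exists_den)
open Pool.Agent.TH813.G (NoHom)
open Pool.Agent.TH813.Rel (DF MK rk_le_of_subset_cl subset_cl)
open Pool.Agent.Y776.Cv
open Pool.Agent.Y124 (LocInd)

variable {U : Set ℂ} {n s q : ℕ} {Λ : Fin q → PeriodPair} {ty : Fin n → Fin q}
  {u : Fin n → ℂ → ℂ} {l : Fin s → ℂ → ℂ}

/-- **all functions of a family are independent** -/
theorem loc_fix (h : FxM U Λ ty u l) (hns : 0 < s + n) (hne : U.Nonempty) {κ : Type} [Fintype κ] {y : κ → ℂ → ℂ}
    (hy : ∀ k, AnalyticOnNhd ℂ (y k) U) (hκ : Fintype.card κ = s + 2 * n) {G : Set ℂ}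
    (hG : G.Countable)
    (hsub : ∀ F : IntermediateField ℚ ℂ, G ⊆ F → ∀ z ∈ U, ∀ k,
      yf Λ ty u l k z ∈ clo F (insert z (Set.range fun k => y k z))) :
    ∀ t ∈ U, LocInd y t := by
  classical
  obtain ⟨zs, hzs⟩ := hne
  obtain ⟨F, hFc, hF⟩ := exists_cf
    (T := (TS y zs ∪ (Set.range (fun c => (Λ c).g₂) ∪ Set.range (fun c => (Λ c).g₃))) ∪ G)
    (((TS_countable _ _).union ((Set.countable_range _).union (Set.countable_range _))).union hG)
  obtain ⟨z₀, hz₀, hnot⟩ := exists_notMem h.isOpen ⟨zs, hzs⟩ (countable_Gp h hFc ⟨zs, hzs⟩)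
  have g : Gp U Λ ty u l F z₀ := by
    by_contra hcon
    exact hnot ⟨hz₀, hcon⟩
  have hr := rank_Gp h hns (fun c => hF (Or.inl (Or.inr (Or.inl ⟨c, rfl⟩))))
    (fun c => hF (Or.inl (Or.inr (Or.inr ⟨c, rfl⟩)))) g
  obtain ⟨e, he, hL⟩ := exists_sub h.conn h.isOpen hy hzs
    (fun x hx => hF (Or.inl (Or.inl hx))) hz₀ g.tr
    (hr.trans (rk_le_of_subset_cl (by
      rintro _ ⟨k, rfl⟩
      rw [← mem_clo_iff]
      exact hsub F (fun x hx => hF (Or.inr hx)) z₀ hz₀ k)))
  have hb : Function.Bijective e :=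
    (Fintype.bijective_iff_injective_and_card e).2 ⟨he, by rw [Fintype.card_fin, hκ]⟩
  exact fun t ht => Pool.Agent.Y776.AxJ.locInd_equiv (Equiv.ofBijective e hb) (hL t ht)

/-- exponentials only -/
theorem fx_exp (hU : IsOpen U) (hc : IsPreconnected U) (hl : ∀ k, AnalyticOnNhd ℂ (l k) U) (hi : IndC U l) :
    FxM U (fun i : Fin 0 => i.elim0) (fun i : Fin 0 => i) (fun i : Fin 0 => i.elim0) l where
  isOpen := hU
  conn := hc
  ni := fun c => c.elim0
  ua := fun i => i.elim0
  un := fun i => i.elim0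
  ui := fun c => c.elim0
  la := hl
  li := hi

/-- **exponentials and logarithms** -/
theorem loc_exp (hs : 0 < s) (hU : IsOpen U) (hc : IsPreconnected U) (hne : U.Nonempty)
    (hl : ∀ k, AnalyticOnNhd ℂ (l k) U) (hi : IndC U l)
    {κ : Type} [Fintype κ] {y : κ → ℂ → ℂ} (hy : ∀ k, AnalyticOnNhd ℂ (y k) U) (hκ : Fintype.card κ = s) {G : Set ℂ}
    (hG : G.Countable)
    (h1 : ∀ F : IntermediateField ℚ ℂ, G ⊆ F → ∀ z ∈ U, ∀ k, l k z ∈ clo F (insert z (Set.range fun k => y k z)))
    (h2 : ∀ F : IntermediateField ℚ ℂ, G ⊆ F → ∀ z ∈ U, ∀ k,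
      Complex.exp (l k z) ∈ clo F (insert z (Set.range fun k => y k z))) :
    ∀ t ∈ U, LocInd y t := by
  refine loc_fix (fx_exp hU hc hl hi) (by omega) hne hy (by omega) hG fun F hF z hz k => ?_
  rcases k with k | k | k | k | k
  · exact h1 F hF z hz k
  · exact h2 F hF z hz k
  · exact k.elim0
  · exact k.elim0
  · exact k.elim0

/-- linear functions -/
theorem indC_lin {γ : Fin s → ℂ} (hγ : ∀ m : Fin s → ℤ, ∑ k, (m k : ℂ) * γ k = 0 → m = 0) :
    IndC (Set.univ : Set ℂ) (fun k z => γ k * z) := by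
  intro m c h
  have h0 := h 0 (Set.mem_univ _)
  have h1 := h 1 (Set.mem_univ _)
  simp only [mul_zero, Finset.sum_const_zero] at h0
  simp only [mul_one] at h1
  exact hγ m (by rw [h1, ← h0])

/-- **exponentials of linear functions**: `z` and the `exp (γ_k z)` are algebraically independent -/
theorem loc_lin {γ : Fin s → ℂ} (hγ : ∀ m : Fin s → ℤ, ∑ k, (m k : ℂ) * γ k = 0 → m = 0) (t : ℂ) :
    LocInd (fun (k : Fin s) z => Complex.exp (γ k * z)) t := by
  rcases Nat.eq_zero_or_pos s with rfl | hs
  · intro P hP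
    -- polynomials in one variable
    by_contra hne
    have hinj : Function.Injective (fun _ : Unit => (none : Option (Fin 0))) := fun a b _ => Subsingleton.elim a b
    set Q : Polynomial ℂ := MvPolynomial.aeval (fun o : Option (Fin 0) => (Polynomial.X : Polynomial ℂ)) P with hQ
    have hev : ∀ z : ℂ, Q.eval z = MvPolynomial.eval (fun o : Option (Fin 0) => o.elim z fun k => Complex.exp (γ k * z)) P := by
      intro z
      rw [hQ, ← Polynomial.coe_evalRingHom, MvPolynomial.aeval_def, MvPolynomial.hom_eval₂]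
      have h1 : (Polynomial.evalRingHom z).comp (algebraMap ℂ (Polynomial ℂ)) = RingHom.id ℂ := by
        ext a
        simp
      rw [h1, ← MvPolynomial.eval₂_id]
      congr 1
      funext o
      rcases o with _ | k
      · simp
      · exact k.elim0
    have hQ0 : Q = 0 := by
      by_contra h0
      have h1 := (Polynomial.finite_setOfPred_isRoot h0)
      have h2 : ∀ᶠ z in 𝓝 t, Q.eval z = 0 := by
        filter_upwards [hP] with z hz
        rw [hev]
        exact hz
      have h3 : {z | Q.eval z = 0} ∈ 𝓝 t := h2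
      exact (infinite_of_mem_nhds t h3) h1
    apply hne
    have hb : Function.Bijective (fun _ : Option (Fin 0) => ()) := by
      constructor
      · rintro (_ | a) (_ | b) _
        · rfl
        · exact b.elim0
        · exact a.elim0
        · exact a.elim0
      · intro u
        exact ⟨none, rfl⟩
    set e : Option (Fin 0) ≃ Unit := Equiv.ofBijective _ hb with he
    have hre : MvPolynomial.rename e P = 0 := by
      apply (MvPolynomial.pUnitAlgEquiv ℂ).injective
      rw [map_zero, ← hQ0, hQ]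
      have h4 : (MvPolynomial.pUnitAlgEquiv ℂ).toAlgHom.comp (MvPolynomial.rename e) =
          MvPolynomial.aeval (fun o : Option (Fin 0) => (Polynomial.X : Polynomial ℂ)) := by
        apply MvPolynomial.algHom_ext
        intro o
        simp
      have h5 := DFunLike.congr_fun h4 P
      exact h5
    exact (MvPolynomial.rename_injective _ e.injective) (by rw [hre, map_zero])
  · refine loc_exp hs isOpen_univ isPreconnected_univ ⟨0, Set.mem_univ _⟩ (l := fun k z => γ k * z)
      (fun k z _ => analyticAt_const.mul analyticAt_id) (indC_lin hγ)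
      (fun k z _ => (analyticAt_const.mul analyticAt_id).cexp) (by simp) (G := Set.range γ)
      (Set.countable_range _) (fun F hF z _ k => ?_) (fun F hF z _ k => ?_) t (Set.mem_univ _)
    · exact mul_mem (base_clo (hF ⟨k, rfl⟩)) (subset_clo (Set.mem_insert _ _))
    · exact subset_clo (Or.inr ⟨k, rfl⟩)

end Pool.Agent.X39.Near
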