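import Pool.Agent.X174.WinVecV
import Pool.Agent.X39.Win.Basic

/-! Points `x t`, `t ∈ S`, of height `H t ≥ 1`, of which there are at most `X ^ (s + ε)` of height at most
`X` in bounded sets: outside a set of dimension at most `s / ω` every `α` has only finitely many
approximations `x t` with `|x t - α| ≤ A H(t) ^ (-ω)`, for all `A`. -/

set_option autoImplicit false

namespace Pool.Agent.X39.Near

open Filter Topology MeasureTheory

/-- **Approximations by the points of a thin set.** -/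
theorem nearVec {κ : Type} [Fintype κ] {T : Type} (S : Set T) (x : T → κ → ℝ) (H : T → ℝ)
    (hH : ∀ t ∈ S, 1 ≤ H t) {s ω : ℝ} (hs : 0 ≤ s) (hω : 0 < ω)
    (hS : ∀ (R : ℕ) (ε : ℝ), 0 < ε → ∃ C : ℝ, ∀ X : ℝ, 1 ≤ X →
      {t | t ∈ S ∧ (∀ j, |x t j| ≤ R) ∧ H t ≤ X}.Finite ∧
      ({t | t ∈ S ∧ (∀ j, |x t j| ≤ R) ∧ H t ≤ X}.ncard : ℝ) ≤ C * X ^ (s + ε)) :
    ∃ E : Set (κ → ℝ), dimH E ≤ ENNReal.ofReal (s / ω) ∧ ∀ α : κ → ℝ, α ∉ E → ∀ A : ℝ,
      {t | t ∈ S ∧ ∀ j, |x t j - α j| ≤ A * (H t) ^ (-ω)}.Finite := by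
  set w : ℕ → ℝ := fun k => ω * (1 - 1 / ((k : ℝ) + 2)) with hw
  have hk0 : ∀ k : ℕ, 0 < 1 / ((k : ℝ) + 2) := fun k => by positivity
  have hk1 : ∀ k : ℕ, 1 / ((k : ℝ) + 2) ≤ 1 / 2 := fun k => by
    apply one_div_le_one_div_of_le (by norm_num)
    have : (0 : ℝ) ≤ k := Nat.cast_nonneg k
    linarith
  have hw0 : ∀ k, 0 < w k := fun k => mul_pos hω (by linarith [hk1 k])
  have hw1 : ∀ k, w k < ω := fun k => by
    have := mul_lt_mul_of_pos_left (show 1 - 1 / ((k : ℝ) + 2) < 1 by linarith [hk0 k]) hω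
    rw [mul_one] at this
    exact this
  have hpos : ∀ n : ℕ, (1 : ℝ) ≤ (2 : ℝ) ^ n := fun n => one_le_pow₀ (by norm_num)
  have hgeo : Pool.Agent.Y854.GM.ExpLe (fun n : ℕ => (2 : ℝ) ^ n) 0 :=
    Pool.Agent.Y854.GM.expLe_geom 2 (by norm_num)
  have key : ∀ (k R : ℕ), ∃ E : Set (κ → ℝ), dimH E ≤ ENNReal.ofReal ((s + 0) / (1 - (1 - w k))) ∧
      ∀ α : κ → ℝ, α ∉ E → ∃ n0 : ℕ, ∀ n : ℕ, n0 ≤ n →
        ∀ t ∈ {t | t ∈ S ∧ (∀ j, |x t j| ≤ R) ∧ H t ≤ (2 : ℝ) * 2 ^ n},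
          ¬ ∀ j, |x t j * 2 ^ n - α j * 2 ^ n| ≤ ((2 : ℝ) ^ n) ^ (1 - w k) := by
    intro k R
    refine Pool.Agent.X174.windowsVecV
      (fun n => {t | t ∈ S ∧ (∀ j, |x t j| ≤ R) ∧ H t ≤ (2 : ℝ) * 2 ^ n})
      (fun n t j => x t j * 2 ^ n) hpos le_rfl hgeo hs (by linarith [hw0 k]) ?_
    intro ε hε
    obtain ⟨C, hC⟩ := hS R ε hε
    refine ⟨|C| * 2 ^ (s + ε), 0, fun n _ => ?_⟩
    have h2 : (1 : ℝ) ≤ 2 * 2 ^ n := by linarith [hpos n]
    obtain ⟨h3, h4⟩ := hC (2 * 2 ^ n) h2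
    refine ⟨h3, h4.trans ?_⟩
    rw [Real.mul_rpow (by norm_num) (by positivity), ← mul_assoc]
    refine mul_le_mul_of_nonneg_right ?_ (by positivity)
    exact mul_le_mul_of_nonneg_right (le_abs_self C) (by positivity)
  choose Es h1 h2 using key
  refine ⟨⋂ k, ⋃ R, Es k R, ?_, ?_⟩
  · have hlim : Tendsto (fun k : ℕ => ENNReal.ofReal (s / w k)) atTop (𝓝 (ENNReal.ofReal (s / ω))) := by
      apply ENNReal.tendsto_ofReal
      apply Tendsto.div tendsto_const_nhds _ hω.ne'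
      have h3 := (tendsto_const_nhds (x := (1 : ℝ))).sub (Pool.Agent.X39.Win.tendsto_inv 2)
      have h4 := h3.const_mul ω
      simpa [hw] using h4
    refine ge_of_tendsto' hlim fun k => ?_
    refine (dimH_mono (Set.iInter_subset _ k)).trans ?_
    rw [dimH_iUnion]
    refine iSup_le fun R => (h1 k R).trans (le_of_eq ?_)
    congr 1
    ring
  · intro α hα A
    rw [Set.mem_iInter] at hα
    push Not at hα
    obtain ⟨k, hk⟩ := hα
    rw [Set.mem_iUnion] at hk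
    push Not at hk
    -- a bound for the points
    obtain ⟨R, hR⟩ : ∃ R : ℕ, ∀ j, |α j| + |A| ≤ R := by
      obtain ⟨M, hM⟩ := Finset.exists_le (Finset.univ.image fun j => ⌈|α j| + |A|⌉₊)
      refine ⟨M, fun j => ?_⟩
      have h3 := hM ⌈|α j| + |A|⌉₊ (Finset.mem_image_of_mem _ (Finset.mem_univ j))
      exact (Nat.le_ceil _).trans (by exact_mod_cast h3)
    obtain ⟨n0, hn0⟩ := h2 k R α (hk R)
    obtain ⟨n1, hn1⟩ : ∃ n1 : ℕ, ∀ n : ℕ, n1 ≤ n → |A| ≤ ((2 : ℝ) ^ n) ^ (ω - w k) := by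
      have h3 : Tendsto (fun n : ℕ => ((2 : ℝ) ^ n) ^ (ω - w k)) atTop atTop :=
        (tendsto_rpow_atTop (sub_pos.2 (hw1 k))).comp (tendsto_pow_atTop_atTop_of_one_lt (by norm_num))
      exact (h3.eventually (eventually_ge_atTop |A|)).exists_forall_of_atTop
    obtain ⟨C, hC⟩ := hS R 1 one_pos
    refine (hC (2 ^ (max n0 n1)) (hpos _)).1.subset ?_
    rintro t ⟨ht, htA⟩
    have hHt := hH t ht
    have hx : ∀ j, |x t j| ≤ R := by
      intro j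
      have h3 := htA j
      have h4 : A * (H t) ^ (-ω) ≤ |A| := by
        have h5 : (H t) ^ (-ω) ≤ 1 := Real.rpow_le_one_of_one_le_of_nonpos hHt (by linarith)
        calc A * (H t) ^ (-ω) ≤ |A| * (H t) ^ (-ω) :=
              mul_le_mul_of_nonneg_right (le_abs_self A) (by positivity)
          _ ≤ |A| * 1 := mul_le_mul_of_nonneg_left h5 (abs_nonneg A)
          _ = |A| := mul_one _
      calc |x t j| = |α j + (x t j - α j)| := by ring_nf
        _ ≤ |α j| + |x t j - α j| := abs_add_le _ _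
        _ ≤ |α j| + |A| := by linarith
        _ ≤ R := hR j
    refine ⟨ht, hx, ?_⟩
    by_contra hcon
    rw [not_le] at hcon
    -- the dyadic level of `H t`
    obtain ⟨n, hn⟩ : ∃ n : ℕ, (2 : ℝ) ^ n ≤ H t ∧ H t < 2 ^ (n + 1) :=
      exists_nat_pow_near hHt (by norm_num)
    have hmax : max n0 n1 ≤ n := by
      by_contra h
      rw [not_le] at h
      have h3 : n + 1 ≤ max n0 n1 := h
      have h4 : (2 : ℝ) ^ (n + 1) ≤ 2 ^ (max n0 n1) := pow_le_pow_right₀ (by norm_num) h3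
      linarith [hn.2]
    refine hn0 n ((le_max_left _ _).trans hmax) t ⟨ht, hx, ?_⟩ ?_
    · have := hn.2.le
      rw [pow_succ] at this
      linarith
    · intro j
      have hp : (0 : ℝ) < 2 ^ n := by positivity
      rw [← sub_mul, abs_mul, abs_of_pos hp]
      have h3 := htA j
      have h4 : A * (H t) ^ (-ω) ≤ ((2 : ℝ) ^ n) ^ (-w k) := by
        have h5 : (H t) ^ (-ω) ≤ ((2 : ℝ) ^ n) ^ (-ω) :=
          Real.rpow_le_rpow_of_nonpos hp hn.1 (by linarith)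
        calc A * (H t) ^ (-ω) ≤ |A| * (H t) ^ (-ω) :=
              mul_le_mul_of_nonneg_right (le_abs_self A) (by positivity)
          _ ≤ ((2 : ℝ) ^ n) ^ (ω - w k) * ((2 : ℝ) ^ n) ^ (-ω) :=
              mul_le_mul (hn1 n ((le_max_right _ _).trans hmax)) h5 (by positivity) (by positivity)
          _ = ((2 : ℝ) ^ n) ^ (-w k) := by
              rw [← Real.rpow_add hp]
              ring_nf
      calc |x t j - α j| * 2 ^ n ≤ ((2 : ℝ) ^ n) ^ (-w k) * 2 ^ n :=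
            mul_le_mul_of_nonneg_right (h3.trans h4) hp.le
        _ = ((2 : ℝ) ^ n) ^ (1 - w k) := by
            rw [sub_eq_add_neg, add_comm, Real.rpow_add hp, Real.rpow_one]

/-- the case of real numbers -/
theorem near {T : Type} (S : Set T) (x : T → ℝ) (H : T → ℝ)
    (hH : ∀ t ∈ S, 1 ≤ H t) {s ω : ℝ} (hs : 0 ≤ s) (hω : 0 < ω)
    (hS : ∀ (R : ℕ) (ε : ℝ), 0 < ε → ∃ C : ℝ, ∀ X : ℝ, 1 ≤ X →
      {t | t ∈ S ∧ |x t| ≤ R ∧ H t ≤ X}.Finite ∧
      ({t | t ∈ S ∧ |x t| ≤ R ∧ H t ≤ X}.ncard : ℝ) ≤ C * X ^ (s + ε)) :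
    ∃ E : Set ℝ, dimH E ≤ ENNReal.ofReal (s / ω) ∧ ∀ α : ℝ, α ∉ E → ∀ A : ℝ,
      {t | t ∈ S ∧ |x t - α| ≤ A * (H t) ^ (-ω)}.Finite := by
  obtain ⟨E, h1, h2⟩ := nearVec (κ := Unit) S (fun t _ => x t) H hH hs hω (by simpa using hS)
  refine ⟨{a : ℝ | (fun _ => a : Unit → ℝ) ∈ E}, ?_, fun α hα A => ?_⟩
  · have hiso : Isometry (fun a : ℝ => (fun _ => a : Unit → ℝ)) := by
      refine Isometry.of_dist_eq fun a b => ?_
      simp [dist_pi_const]
    rw [← hiso.dimH_image]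
    refine (dimH_mono ?_).trans h1
    rintro _ ⟨a, ha, rfl⟩
    exact ha
  · have := h2 (fun _ => α) hα A
    simpa using this

end Pool.Agent.X39.Near
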