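import Pool.Agent.X39.Near.Lev

/-! Approximation of complex numbers by the elements of all number fields: if for each number field there
are only `C T ^ ε` elements of height at most `T` which are bad at the level `T`, then outside a set of
Hausdorff dimension `0` all complex numbers have, in every number field and for each `ω > 0`, only good
approximations of quality `T ^ (-ω)`. -/

set_option autoImplicit false

namespace Pool.Agent.X39.Near

open Filter Topology MeasureTheory NumberField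

/-- `t` is the quotient of two integers of `F` all of whose conjugates have absolute value at most `T`. -/
def Size (F : Type) [Field F] [NumberField F] (T : ℝ) (t : F) : Prop :=
  ∃ a b : 𝓞 F, b ≠ 0 ∧ (∀ φ : F →+* ℂ, ‖φ a‖ ≤ T ∧ ‖φ b‖ ≤ T) ∧ t = a / b

lemma Size.mono {F : Type} [Field F] [NumberField F] {T T' : ℝ} (h : T ≤ T') {t : F} (ht : Size F T t) :
    Size F T' t := by
  obtain ⟨a, b, hb, hab, rfl⟩ := ht
  exact ⟨a, b, hb, fun φ => ⟨(hab φ).1.trans h, (hab φ).2.trans h⟩, rfl⟩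

lemma Size.map {F F' : Type} [Field F] [NumberField F] [Field F'] [NumberField F'] (e : F ≃+* F')
    {T : ℝ} {t : F} (ht : Size F T t) : Size F' T (e t) := by
  obtain ⟨a, b, hb, hab, rfl⟩ := ht
  refine ⟨RingOfIntegers.mapRingEquiv e a, RingOfIntegers.mapRingEquiv e b, ?_, fun φ => ?_, ?_⟩
  · exact (map_ne_zero_iff _ (RingOfIntegers.mapRingEquiv e).injective).2 hb
  · exact hab (φ.comp (e : F →+* F'))
  · rw [map_div₀]
    rfl

open IntermediateField in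
lemma prim {k E : Type} [Field k] [Field E] [Algebra k E] [CharZero k] (F : IntermediateField k E)
    [FiniteDimensional k F] : ∃ α : E, IsAlgebraic k α ∧ k⟮α⟯ = F := by
  obtain ⟨α, hα⟩ := Field.exists_primitive_element k F
  refine ⟨(α : E), ?_, ?_⟩
  · have h2 : IsAlgebraic k α := Algebra.IsAlgebraic.isAlgebraic α
    exact h2.algebraMap
  · have h3 := congrArg IntermediateField.lift hα
    rw [IntermediateField.lift_adjoin_simple, IntermediateField.lift_top] at h3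
    exact h3

/-- the number fields in `ℂ` are countable in number -/
theorem countable_fields : {F : IntermediateField ℚ ℂ | NumberField F}.Countable := by
  have h1 : {α : ℂ | IsAlgebraic ℚ α}.Countable := Algebraic.countable ℚ ℂ
  refine (h1.image fun α => IntermediateField.adjoin ℚ {α}).mono ?_
  intro F hF
  have h2 : FiniteDimensional ℚ F := by
    have := hF.to_finiteDimensional
    convert this
  obtain ⟨α, h3, h4⟩ := prim F
  exact ⟨α, h3, h4⟩

/-- every number field with an embedding in `ℂ` is isomorphic to one of them -/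
theorem exists_iso (F : Type) [Field F] [NumberField F] (ι : F →+* ℂ) :
    ∃ (F' : IntermediateField ℚ ℂ) (_ : NumberField F') (e : F ≃+* F'), ∀ t, ((e t : F') : ℂ) = ι t := by
  let f : F →ₐ[ℚ] ℂ := RingHom.toRatAlgHom ι
  let e : F ≃ₐ[ℚ] f.fieldRange := AlgEquiv.ofInjectiveField f
  have hN : NumberField f.fieldRange := NumberField.of_ringEquiv _ _ e.toRingEquiv
  exact ⟨f.fieldRange, hN, e.toRingEquiv, fun t => rfl⟩

/-- the coordinates of a complex number -/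
def coord (z : ℂ) : Fin 2 → ℝ := ![z.re, z.im]

/-- the dimension of a set in the coordinates -/
theorem dimH_coord (E : Set (Fin 2 → ℝ)) : dimH (coord ⁻¹' E) ≤ dimH E := by
  let g : (Fin 2 → ℝ) → ℂ := fun α => (α 0 : ℂ) + α 1 * Complex.I
  have hg : LipschitzWith 2 g := by
    refine LipschitzWith.of_dist_le_mul fun a b => ?_
    have h1 : g a - g b = ((a 0 - b 0 : ℝ) : ℂ) + ((a 1 - b 1 : ℝ) : ℂ) * Complex.I := by
      simp only [g]
      push_cast
      ring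
    have h2 : |a 0 - b 0| ≤ dist a b := by
      have := dist_le_pi_dist a b 0
      rwa [Real.dist_eq] at this
    have h3 : |a 1 - b 1| ≤ dist a b := by
      have := dist_le_pi_dist a b 1
      rwa [Real.dist_eq] at this
    rw [dist_eq_norm, h1]
    calc ‖((a 0 - b 0 : ℝ) : ℂ) + ((a 1 - b 1 : ℝ) : ℂ) * Complex.I‖
        ≤ ‖((a 0 - b 0 : ℝ) : ℂ)‖ + ‖((a 1 - b 1 : ℝ) : ℂ) * Complex.I‖ := norm_add_le _ _
      _ = |a 0 - b 0| + |a 1 - b 1| := by
          rw [norm_mul, Complex.norm_I, mul_one, Complex.norm_real, Complex.norm_real,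
            Real.norm_eq_abs, Real.norm_eq_abs]
      _ ≤ (2 : NNReal) * dist a b := by
          push_cast
          linarith
  have h1 : coord ⁻¹' E ⊆ g '' E := by
    intro z hz
    refine ⟨coord z, hz, ?_⟩
    simp only [g, coord, Matrix.cons_val_zero, Matrix.cons_val_one]
    exact Complex.re_add_im z
  exact (dimH_mono h1).trans (hg.dimH_image_le E)

/-- one field, one compact set, one exponent -/
theorem local_dim {F : Type} (pt : F → ℂ) (S : ℝ → ℝ → Set F) {ω : ℝ} (hω : 0 < ω)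
    (h : ∀ ε : ℝ, 0 < ε → ∃ B C T₀ : ℝ, ∀ T : ℝ, T₀ ≤ T →
      (S B T).Finite ∧ ((S B T).ncard : ℝ) ≤ C * T ^ ε) :
    ∃ E : Set (Fin 2 → ℝ), dimH E = 0 ∧ ∀ α : Fin 2 → ℝ, α ∉ E → ∃ (B : ℝ) (n0 : ℕ),
      ∀ n : ℕ, n0 ≤ n → ∀ t ∈ S B (2 ^ (n + 1)),
        ¬ ∀ j, |coord (pt t) j * 2 ^ n - α j * 2 ^ n| ≤ ((2 : ℝ) ^ n) ^ (1 - ω) := by
  have hpos : ∀ n : ℕ, (1 : ℝ) ≤ (2 : ℝ) ^ n := fun n => one_le_pow₀ (by norm_num)
  have hgeo : Pool.Agent.Y854.GM.ExpLe (fun n : ℕ => (2 : ℝ) ^ n) 0 :=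
    Pool.Agent.Y854.GM.expLe_geom 2 (by norm_num)
  have key : ∀ k : ℕ, ∃ (B : ℝ) (E : Set (Fin 2 → ℝ)),
      dimH E ≤ ENNReal.ofReal ((1 / ((k : ℝ) + 1) + 0) / (1 - (1 - ω))) ∧
      ∀ α : Fin 2 → ℝ, α ∉ E → ∃ n0 : ℕ, ∀ n : ℕ, n0 ≤ n → ∀ t ∈ S B (2 ^ (n + 1)),
        ¬ ∀ j, |coord (pt t) j * 2 ^ n - α j * 2 ^ n| ≤ ((2 : ℝ) ^ n) ^ (1 - ω) := by
    intro k
    have hk : 0 < 1 / ((k : ℝ) + 1) := by positivity
    obtain ⟨B, C, T₀, hB⟩ := h _ hk
    refine ⟨B, ?_⟩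
    refine Pool.Agent.X174.windowsVecV (fun n => S B (2 ^ (n + 1)))
      (fun n t j => coord (pt t) j * 2 ^ n) hpos le_rfl hgeo hk.le (by linarith) ?_
    intro ε hε
    obtain ⟨n₁, hn₁⟩ : ∃ n₁ : ℕ, T₀ ≤ (2 : ℝ) ^ n₁ := by
      obtain ⟨n₁, h⟩ := pow_unbounded_of_one_lt T₀ (by norm_num : (1 : ℝ) < 2)
      exact ⟨n₁, h.le⟩
    refine ⟨|C| * 2 ^ (1 / ((k : ℝ) + 1)), n₁, fun n hn => ?_⟩
    have hT : T₀ ≤ (2 : ℝ) ^ (n + 1) :=
      hn₁.trans (pow_le_pow_right₀ (by norm_num) (hn.trans (Nat.le_succ n)))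
    obtain ⟨h1, h2⟩ := hB _ hT
    refine ⟨h1, h2.trans ?_⟩
    rw [pow_succ, mul_comm ((2 : ℝ) ^ n) 2, Real.mul_rpow (by norm_num) (by positivity), ← mul_assoc]
    calc C * 2 ^ (1 / ((k : ℝ) + 1)) * ((2 : ℝ) ^ n) ^ (1 / ((k : ℝ) + 1))
        ≤ |C| * 2 ^ (1 / ((k : ℝ) + 1)) * ((2 : ℝ) ^ n) ^ (1 / ((k : ℝ) + 1)) := by
          refine mul_le_mul_of_nonneg_right ?_ (by positivity)
          exact mul_le_mul_of_nonneg_right (le_abs_self C) (by positivity)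
      _ ≤ _ := mul_le_mul_of_nonneg_left
          (Real.rpow_le_rpow_of_exponent_le (hpos n) (by linarith)) (by positivity)
  choose B E h1 h2 using key
  refine ⟨⋂ k, E k, ?_, fun α hα => ?_⟩
  · have hlim : Tendsto (fun k : ℕ => ENNReal.ofReal ((1 / ((k : ℝ) + 1) + 0) / (1 - (1 - ω))))
        atTop (𝓝 (ENNReal.ofReal 0)) := by
      apply ENNReal.tendsto_ofReal
      have h3 := (Pool.Agent.X39.Win.tendsto_inv 1).div_const (1 - (1 - ω))
      simpa using h3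
    rw [ENNReal.ofReal_zero] at hlim
    exact le_antisymm (ge_of_tendsto' hlim fun k => (dimH_mono (Set.iInter_subset _ k)).trans (h1 k))
      bot_le
  · rw [Set.mem_iInter] at hα
    push Not at hα
    obtain ⟨k, hk⟩ := hα
    obtain ⟨n0, hn⟩ := h2 k α hk
    exact ⟨B k, n0, hn⟩

/-- **All number fields and all exponents: an exceptional set of Hausdorff dimension `0`.** `Rel F ι d A B
T t`: there is a relation at `t` of degree at most `d` and height at most `T ^ A`, up to `T ^ (-B)`. -/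
theorem zero_dim' (U : Set ℂ) (hU : IsOpen U)
    (Sz : ∀ (F : Type) [Field F] [NumberField F], ℝ → F → Prop)
    (hSz1 : ∀ (F : Type) [Field F] [NumberField F] (T T' : ℝ) (t : F), T ≤ T' → Sz F T t → Sz F T' t)
    (hSz2 : ∀ (F F' : Type) [Field F] [NumberField F] [Field F'] [NumberField F'] (e : F ≃+* F')
      (T : ℝ) (t : F), Sz F T t → Sz F' T (e t))
    (Rel : ∀ (F : Type) [Field F] [NumberField F], (F →+* ℂ) → ℕ → ℝ → ℝ → ℝ → F → Prop)
    (htrans : ∀ (F F' : Type) [Field F] [NumberField F] [Field F'] [NumberField F'] (ι : F →+* ℂ)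
      (ι' : F' →+* ℂ) (e : F ≃+* F'), (∀ t, ι' (e t) = ι t) → ∀ (d : ℕ) (A B T : ℝ) (t : F),
      Rel F ι d A B T t → Rel F' ι' d A B T (e t))
    (hlev : ∀ (F : Type) [Field F] [NumberField F] (ι : F →+* ℂ) (d : ℕ) (A B B' T T' : ℝ) (t : F),
      0 ≤ A → 1 ≤ T → T ≤ T' → T' ≤ T ^ 2 → 2 * |B'| ≤ B → Rel F ι d A B T t → Rel F ι d A B' T' t)
    (main : ∀ K : Set ℂ, IsCompact K → K ⊆ U → ∀ (F : Type) [Field F] [NumberField F] (ι : F →+* ℂ)
      (d : ℕ) (A ε : ℝ), 0 ≤ A → 0 < ε → ∃ B C T₀ : ℝ, ∀ T : ℝ, T₀ ≤ T →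
        {t : F | ι t ∈ K ∧ Sz F T t ∧ Rel F ι d A B T t}.Finite ∧
        ({t : F | ι t ∈ K ∧ Sz F T t ∧ Rel F ι d A B T t}.ncard : ℝ) ≤ C * T ^ ε) :
    ∃ E : Set ℂ, dimH E = 0 ∧ ∀ x ∈ U, x ∉ E → ∀ (F : Type) [Field F] [NumberField F] (ι : F →+* ℂ)
      (d A : ℕ) (ω : ℝ), 0 < ω → ∃ B T₁ : ℝ, ∀ T : ℝ, T₁ ≤ T → ∀ t : F, Sz F T t →
        ‖ι t - x‖ ≤ T ^ (-ω) → ¬ Rel F ι d A B T t := by
  classical
  -- the exceptional sets
  have key : ∀ (F : IntermediateField ℚ ℂ) (hF : NumberField F) (d A i k l : ℕ),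
      ∃ E : Set ℂ, dimH E = 0 ∧ (Metric.closedBall (TopologicalSpace.denseSeq ℂ i) (2 / ((k : ℝ) + 1)) ⊆ U →
        ∀ x : ℂ, x ∉ E → ∃ (B : ℝ) (n0 : ℕ), ∀ n : ℕ, n0 ≤ n → ∀ t : F,
          (t : ℂ) ∈ Metric.closedBall (TopologicalSpace.denseSeq ℂ i) (2 / ((k : ℝ) + 1)) →
          Sz F (2 ^ (n + 1)) t ∧ Rel F (algebraMap F ℂ) d A B (2 ^ (n + 1)) t →
          ¬ ∀ j, |coord (t : ℂ) j * 2 ^ n - coord x j * 2 ^ n| ≤
            ((2 : ℝ) ^ n) ^ (1 - 1 / ((l : ℝ) + 1))) := by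
    intro F hF d A i k l
    by_cases hsub : Metric.closedBall (TopologicalSpace.denseSeq ℂ i) (2 / ((k : ℝ) + 1)) ⊆ U
    · have hl : 0 < 1 / ((l : ℝ) + 1) := by positivity
      obtain ⟨E, h1, h2⟩ := local_dim (F := F) (fun t => (t : ℂ))
        (fun B T => {t : F | algebraMap F ℂ t ∈
          Metric.closedBall (TopologicalSpace.denseSeq ℂ i) (2 / ((k : ℝ) + 1)) ∧ Sz F T t ∧
          Rel F (algebraMap F ℂ) d A B T t}) hl (by
          intro ε hε
          exact main _ (isCompact_closedBall _ _) hsub F _ d A ε (Nat.cast_nonneg A) hε)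
      refine ⟨coord ⁻¹' E, le_antisymm ((dimH_coord E).trans h1.le) bot_le, fun _ x hx => ?_⟩
      obtain ⟨B, n0, h3⟩ := h2 (coord x) hx
      exact ⟨B, n0, fun n hn t ht hRel => h3 n hn t ⟨ht, hRel.1, hRel.2⟩⟩
    · exact ⟨∅, by simp, fun h => absurd h hsub⟩
  choose E h1 h2 using key
  have hcount : Countable {F : IntermediateField ℚ ℂ | NumberField F} := countable_fields.to_subtype
  refine ⟨⋃ F : {F : IntermediateField ℚ ℂ | NumberField F}, ⋃ d, ⋃ A, ⋃ i, ⋃ k, ⋃ l,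
    E F.1 F.2 d A i k l, ?_, ?_⟩
  · simp only [dimH_iUnion, h1]
    simp
  · intro x hx hxE F _ _ ι d A ω hω
    simp only [Set.mem_iUnion, not_exists] at hxE
    obtain ⟨F', hF', e, he⟩ := exists_iso F ι
    -- the compact set
    obtain ⟨r, hr, hrU⟩ := Metric.isOpen_iff.1 hU x hx
    obtain ⟨k, hk⟩ := exists_nat_one_div_lt (show 0 < r / 4 by linarith)
    have hk0 : 0 < 1 / ((k : ℝ) + 1) := by positivity
    obtain ⟨i, hi⟩ : ∃ i, dist x (TopologicalSpace.denseSeq ℂ i) < 1 / ((k : ℝ) + 1) :=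
      (TopologicalSpace.denseRange_denseSeq ℂ).exists_dist_lt x hk0
    have h2k : 2 / ((k : ℝ) + 1) = 1 / ((k : ℝ) + 1) + 1 / ((k : ℝ) + 1) := by ring
    have hsub : Metric.closedBall (TopologicalSpace.denseSeq ℂ i) (2 / ((k : ℝ) + 1)) ⊆ U := by
      intro z hz
      refine hrU ?_
      rw [Metric.mem_closedBall, h2k] at hz
      rw [Metric.mem_ball]
      calc dist z x ≤ dist z (TopologicalSpace.denseSeq ℂ i) + dist (TopologicalSpace.denseSeq ℂ i) x :=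
            dist_triangle _ _ _
        _ < r := by rw [dist_comm _ x]; linarith
    obtain ⟨l, hl⟩ := exists_nat_one_div_lt hω
    obtain ⟨B, n0, h3⟩ := h2 F' hF' d A i k l hsub x (hxE ⟨F', hF'⟩ d A i k l)
    -- the level
    obtain ⟨T₂, hT₂⟩ : ∃ T₂ : ℝ, ∀ T : ℝ, T₂ ≤ T → T ^ (-ω) ≤ 1 / ((k : ℝ) + 1) := by
      have h4 : Tendsto (fun T : ℝ => T ^ (-ω)) atTop (𝓝 0) := tendsto_rpow_neg_atTop hω
      exact (h4.eventually (ge_mem_nhds hk0)).exists_forall_of_atTop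
    refine ⟨2 * |B|, max (max 2 T₂) (2 ^ (n0 + 1)), fun T hT t hsz hclose hRel => ?_⟩
    have hT2 : 2 ≤ T := ((le_max_left _ _).trans (le_max_left _ _)).trans hT
    have hTT : T₂ ≤ T := ((le_max_right _ _).trans (le_max_left _ _)).trans hT
    have hTn : (2 : ℝ) ^ (n0 + 1) ≤ T := (le_max_right _ _).trans hT
    obtain ⟨n, hn⟩ : ∃ n : ℕ, (2 : ℝ) ^ n ≤ T ∧ T < 2 ^ (n + 1) :=
      exists_nat_pow_near (by linarith) (by norm_num)
    have hn0 : n0 ≤ n := by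
      by_contra hcon
      rw [not_le] at hcon
      have h5 : (2 : ℝ) ^ (n + 1) ≤ 2 ^ (n0 + 1) := pow_le_pow_right₀ (by norm_num) (by omega)
      linarith [hn.2]
    have hp : (0 : ℝ) < 2 ^ n := by positivity
    have hp1 : (1 : ℝ) ≤ 2 ^ n := one_le_pow₀ (by norm_num)
    have hball : ((e t : F') : ℂ) ∈
        Metric.closedBall (TopologicalSpace.denseSeq ℂ i) (2 / ((k : ℝ) + 1)) := by
      rw [he, Metric.mem_closedBall, h2k]
      calc dist (ι t) (TopologicalSpace.denseSeq ℂ i)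
          ≤ dist (ι t) x + dist x (TopologicalSpace.denseSeq ℂ i) := dist_triangle _ _ _
        _ ≤ 1 / ((k : ℝ) + 1) + 1 / ((k : ℝ) + 1) := by
            refine add_le_add ?_ hi.le
            rw [dist_eq_norm]
            exact hclose.trans (hT₂ T hTT)
    refine h3 n hn0 (e t) hball ⟨hSz1 _ _ _ _ hn.2.le (hSz2 _ _ e _ _ hsz), ?_⟩ ?_
    · have h5 : T ≤ 2 ^ (n + 1) := hn.2.le
      have h6 : (2 : ℝ) ^ (n + 1) ≤ T ^ 2 := by
        rw [pow_succ, sq]
        nlinarith [hn.1]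
      exact hlev _ _ _ _ _ _ _ _ _ (Nat.cast_nonneg A) (by linarith) h5 h6 le_rfl
        (htrans F F' ι (algebraMap F' ℂ) e he d A _ T t hRel)
    · intro j
      rw [← sub_mul, abs_mul, abs_of_pos hp, he]
      have h5 : |coord (ι t) j - coord x j| ≤ ‖ι t - x‖ := by
        fin_cases j
        · simpa [coord] using Complex.abs_re_le_norm (ι t - x)
        · simpa [coord] using Complex.abs_im_le_norm (ι t - x)
      have h6 : ‖ι t - x‖ ≤ ((2 : ℝ) ^ n) ^ (-(1 / ((l : ℝ) + 1))) := by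
        refine hclose.trans ?_
        calc T ^ (-ω) ≤ ((2 : ℝ) ^ n) ^ (-ω) := Real.rpow_le_rpow_of_nonpos hp hn.1 (by linarith)
          _ ≤ _ := Real.rpow_le_rpow_of_exponent_le hp1 (by linarith)
      calc |coord (ι t) j - coord x j| * 2 ^ n
          ≤ ((2 : ℝ) ^ n) ^ (-(1 / ((l : ℝ) + 1))) * 2 ^ n :=
            mul_le_mul_of_nonneg_right (h5.trans h6) hp.le
        _ = ((2 : ℝ) ^ n) ^ (1 - 1 / ((l : ℝ) + 1)) := by
            have h7 : 1 - 1 / ((l : ℝ) + 1) = -(1 / ((l : ℝ) + 1)) + 1 := by ring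
            rw [h7, Real.rpow_add hp, Real.rpow_one]

/-- the case of quotients of integers with bounded conjugates, uniformly in the number field -/
theorem zero_dim (U : Set ℂ) (hU : IsOpen U)
    (Rel : ∀ (F : Type) [Field F] [NumberField F], (F →+* ℂ) → ℕ → ℝ → ℝ → ℝ → F → Prop)
    (htrans : ∀ (F F' : Type) [Field F] [NumberField F] [Field F'] [NumberField F'] (ι : F →+* ℂ)
      (ι' : F' →+* ℂ) (e : F ≃+* F'), (∀ t, ι' (e t) = ι t) → ∀ (d : ℕ) (A B T : ℝ) (t : F),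
      Rel F ι d A B T t → Rel F' ι' d A B T (e t))
    (hlev : ∀ (F : Type) [Field F] [NumberField F] (ι : F →+* ℂ) (d : ℕ) (A B B' T T' : ℝ) (t : F),
      0 ≤ A → 1 ≤ T → T ≤ T' → T' ≤ T ^ 2 → 2 * |B'| ≤ B → Rel F ι d A B T t → Rel F ι d A B' T' t)
    (main : ∀ K : Set ℂ, IsCompact K → K ⊆ U → ∀ (m d : ℕ) (A ε : ℝ), 0 ≤ A → 0 < ε →
      ∃ B C T₀ : ℝ, ∀ (F : Type) [Field F] [NumberField F], Module.finrank ℚ F ≤ m →
        ∀ (ι : F →+* ℂ) (T : ℝ), T₀ ≤ T →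
          {t : F | ι t ∈ K ∧ Size F T t ∧ Rel F ι d A B T t}.Finite ∧
          ({t : F | ι t ∈ K ∧ Size F T t ∧ Rel F ι d A B T t}.ncard : ℝ) ≤ C * T ^ ε) :
    ∃ E : Set ℂ, dimH E = 0 ∧ ∀ x ∈ U, x ∉ E → ∀ (F : Type) [Field F] [NumberField F] (ι : F →+* ℂ)
      (d A : ℕ) (ω : ℝ), 0 < ω → ∃ B T₁ : ℝ, ∀ T : ℝ, T₁ ≤ T → ∀ t : F, Size F T t →
        ‖ι t - x‖ ≤ T ^ (-ω) → ¬ Rel F ι d A B T t :=
  zero_dim' U hU (fun F _ _ => Size F) (fun F _ _ T T' t h ht => ht.mono h)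
    (fun F F' _ _ _ _ e T t ht => ht.map e) Rel htrans hlev (by
      intro K hK hKU F _ _ ι d A ε hA hε
      obtain ⟨B, C, T₀, h⟩ := main K hK hKU (Module.finrank ℚ F) d A ε hA hε
      exact ⟨B, C, T₀, fun T hT => h F le_rfl ι T hT⟩)

end Pool.Agent.X39.Near
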