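import Pool.Agent.X39.Near.Master

/-!
# Relations between numbers; logarithms of all algebraic numbers close to a given number
-/

set_option autoImplicit false

open NumberField Filter Topology

namespace Pool.Agent.X39.Near

open MvPolynomial

/-- the value at the numbers `ξ_i` of a polynomial with coefficients in the integers of `F` -/
noncomputable def cf {g : ℕ} (ξ : Fin g → ℂ) (F : Type) [Field F] (ι : F →+* ℂ) :
    MvPolynomial (Fin g) (𝓞 F) →+* ℂ := eval₂Hom (ι.comp (algebraMap (𝓞 F) F)) ξ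

/-- There is a polynomial `P` of degree at most `d` in each variable, whose coefficients are values at the `ξ_i` of
polynomials of degree at most `d` in each variable with coefficients in the integers of `F` all of whose
conjugates are at most `T ^ A`, such that the absolute value of `P (v)` is at most `T ^ (-B)` times that of some nonzero
coefficient. -/
def Dep {J : Type} {g : ℕ} (v : J → ℂ) (ξ : Fin g → ℂ) (F : Type) [Field F] [NumberField F] (ι : F →+* ℂ)
    (d : ℕ) (A B T : ℝ) : Prop :=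
  ∃ P : MvPolynomial J (MvPolynomial (Fin g) (𝓞 F)), (∀ x, P.degreeOf x ≤ d) ∧
    (∀ e y, (P.coeff e).degreeOf y ≤ d) ∧ (∀ e s (φ : F →+* ℂ), ‖φ ((P.coeff e).coeff s : 𝓞 F)‖ ≤ T ^ A) ∧
    ∃ e₀, cf ξ F ι (P.coeff e₀) ≠ 0 ∧ ‖eval₂ (cf ξ F ι) v P‖ ≤ T ^ (-B) * ‖cf ξ F ι (P.coeff e₀)‖

theorem Dep.dependent {J : Type} {g : ℕ} {f : J → ℂ → ℂ} {ξ : Fin g → ℂ} {F : Type} [Field F] [NumberField F]
    {ι : F →+* ℂ} {d : ℕ} {A B T : ℝ} {t : F} {v : J → ℂ} (hv : ∀ j, v j = f j (ι t)) (hT : 0 ≤ T)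
    (h : Dep v ξ F ι d A B T) : Dependent f (fun k : Fin 0 => k.elim0) 1 ξ F ι d A B T t := by
  classical
  obtain ⟨P, h1, h2, h3, e₀, h4, h5⟩ := h
  set r : MvPolynomial (Fin g) (𝓞 F) →+* MvPolynomial (Fin 0 ⊕ Fin g) (𝓞 F) :=
    (rename (R := 𝓞 F) (Sum.inr : Fin g → Fin 0 ⊕ Fin g)).toRingHom with hr
  have hcf : (coefAt (fun k : Fin 0 => k.elim0) 1 ξ F ι t).comp r = cf ξ F ι := by
    apply ringHom_ext
    · intro a
      simp [coefAt, cf, hr]
    · intro i
      simp [coefAt, cf, hr]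
  have hc : ∀ c, coefAt (fun k : Fin 0 => k.elim0) 1 ξ F ι t (r c) = cf ξ F ι c := fun c => RingHom.congr_fun hcf c
  refine ⟨MvPolynomial.map r P, fun x => (degreeOf_map _ P x).trans (h1 x), fun e y => ?_, fun e s φ => ?_, e₀, ?_, ?_⟩
  · rw [coeff_map]
    rcases y with y | y
    · exact y.elim0
    · have h6 : r (P.coeff e) = rename Sum.inr (P.coeff e) := rfl
      rw [h6, degreeOf_rename_of_injective Sum.inr_injective]
      exact h2 e y
  · rw [coeff_map]
    have h6 : r (P.coeff e) = rename Sum.inr (P.coeff e) := rfl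
    rw [h6]
    by_cases hu : ∃ u, Finsupp.mapDomain (Sum.inr : Fin g → Fin 0 ⊕ Fin g) u = s
    · obtain ⟨u, rfl⟩ := hu
      rw [coeff_rename_mapDomain _ Sum.inr_injective]
      exact h3 e u φ
    · rw [coeff_rename_eq_zero _ _ _ fun u' hu' => absurd ⟨u', hu'⟩ hu]
      have h1 : φ (((0 : 𝓞 F)) : F) = 0 := by simp
      rw [h1, norm_zero]
      exact Real.rpow_nonneg hT _
  · rw [coeff_map, hc]
    exact h4
  · rw [coeff_map, hc, eval₂_map, hcf]
    have h7 : (fun j => f j (ι t)) = v := funext fun j => (hv j).symm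
    rw [h7]
    exact h5

/-- **The theorem for systems of functions**, in terms of `Dep` -/
theorem near_dep {J : Type} [Fintype J] {g : ℕ} (Ω : Set ℂ) (hΩ : IsOpen Ω) (f : J → ℂ → ℂ)
    (han : ∀ i, ∀ t ∈ Ω, AnalyticAt ℂ (f i) t) (hind : ∀ t ∈ Ω, Pool.Agent.Y124.LocInd f t) (ξ : Fin g → ℂ) :
    ∃ E : Set ℂ, dimH E = 0 ∧
      (∀ x ∈ Ω, x ∉ E → ∀ (F : Type) [Field F] [NumberField F] (ι : F →+* ℂ)
        (d A : ℕ) (ω : ℝ), 0 < ω → ∃ B T₁ : ℝ, ∀ T : ℝ, T₁ ≤ T → ∀ t : F, Size F T t →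
          ‖ι t - x‖ ≤ T ^ (-ω) → ¬ Dep (fun j => f j (ι t)) ξ F ι d A B T) ∧
      ∀ x : ℝ, Irrational x → (x : ℂ) ∈ Ω → (x : ℂ) ∉ E → ∀ d A : ℕ, ∃ (B : ℝ) (n₀ : ℕ), ∀ k : ℕ,
        n₀ ≤ k → ¬ Dep (fun j => f j ((x.convergent k : ℚ) : ℂ)) ξ ℚ (algebraMap ℚ ℂ) d A B (x.convergent k).den := by
  obtain ⟨E, h1, h2, h3⟩ := master Ω hΩ f han hind (fun k : Fin 0 => k.elim0) 1 (by simp) ξ
  refine ⟨E, h1, fun x hx hxE F _ _ ι d A ω hω => ?_, fun x hx hxO hxE d A => ?_⟩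
  · obtain ⟨B, T₁, h4⟩ := h2 x hx hxE F ι d A ω hω
    refine ⟨B, max T₁ 0, fun T hT t ht htx h => h4 T ((le_max_left _ _).trans hT) t ht htx ?_⟩
    exact h.dependent (fun _ => rfl) ((le_max_right _ _).trans hT)
  · obtain ⟨B, n₀, h4⟩ := h3 x hx hxO hxE d A
    exact ⟨B, n₀, fun k hk h => h4 k hk (h.dependent (fun j => by simp) (Nat.cast_nonneg _))⟩

/-- the branch of the logarithm with imaginary part in `(π k - π, π k + π)` -/
noncomputable def Br (k : ℤ) (z : ℂ) : ℂ := Complex.log ((-1) ^ k * z) + Real.pi * k * Complex.I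

/-- its domain -/
def BrD (k : ℤ) : Set ℂ := {z | (-1 : ℂ) ^ k * z ∈ Complex.slitPlane}

theorem exp_pi_int (k : ℤ) : Complex.exp (Real.pi * k * Complex.I) = (-1) ^ k := by
  rw [show (Real.pi * k * Complex.I : ℂ) = k * (Real.pi * Complex.I) by ring, Complex.exp_int_mul,
    Complex.exp_pi_mul_I]

theorem neg_one_sq (k : ℤ) : ((-1 : ℂ) ^ k) * (-1) ^ k = 1 := by
  rw [← zpow_add₀ (by norm_num), ← two_mul, zpow_mul]
  norm_num

theorem BrD_open (k : ℤ) : IsOpen (BrD k) :=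
  Complex.isOpen_slitPlane.preimage (continuous_const.mul continuous_id)

theorem Br_an {k : ℤ} {z : ℂ} (hz : z ∈ BrD k) : AnalyticAt ℂ (Br k) z :=
  ((analyticAt_const.mul analyticAt_id).clog hz).add analyticAt_const

theorem exp_Br {k : ℤ} {z : ℂ} (hz : z ∈ BrD k) : Complex.exp (Br k z) = z := by
  have h0 : (-1 : ℂ) ^ k * z ≠ 0 := Complex.slitPlane_ne_zero hz
  rw [Br, Complex.exp_add, Complex.exp_log h0, exp_pi_int, mul_right_comm, neg_one_sq, one_mul]

/-- a number with imaginary part close to `π k` is the value of the branch -/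
theorem Br_eq {k : ℤ} {ℓ : ℂ} (h : |ℓ.im - Real.pi * k| < Real.pi) :
    Complex.exp ℓ ∈ BrD k ∧ Br k (Complex.exp ℓ) = ℓ := by
  set w : ℂ := ℓ - Real.pi * k * Complex.I with hw
  have him : w.im = ℓ.im - Real.pi * k := by
    rw [hw, Complex.sub_im]
    congr 1
    rw [show (Real.pi * k * Complex.I : ℂ) = ((Real.pi * k : ℝ) : ℂ) * Complex.I by push_cast; ring]
    simp
  have hab := abs_lt.1 h
  have he : (-1 : ℂ) ^ k * Complex.exp ℓ = Complex.exp w := by
    rw [hw, Complex.exp_sub, exp_pi_int, eq_div_iff (zpow_ne_zero k (by norm_num)), mul_right_comm, neg_one_sq, one_mul]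
  have hlog : Complex.log (Complex.exp w) = w := Complex.log_exp (by rw [him]; linarith) (by rw [him]; linarith)
  constructor
  · show (-1 : ℂ) ^ k * Complex.exp ℓ ∈ Complex.slitPlane
    rw [he, Complex.mem_slitPlane_iff_arg]
    refine ⟨?_, Complex.exp_ne_zero _⟩
    rw [← Complex.log_im, hlog, him]
    linarith
  · rw [Br, he, hlog, hw]
    ring

/-- the rounding -/
theorem exists_br (l₀ : ℂ) : ∃ k : ℤ, ∀ ℓ : ℂ, ‖ℓ - l₀‖ < 1 → |ℓ.im - Real.pi * k| < Real.pi := by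
  refine ⟨round (l₀.im / Real.pi), fun ℓ hℓ => ?_⟩
  have hpi := Real.pi_gt_three
  have h1 := abs_sub_round (l₀.im / Real.pi)
  have h2 : |l₀.im - Real.pi * (round (l₀.im / Real.pi) : ℤ)| ≤ Real.pi / 2 := by
    have h3 : l₀.im - Real.pi * (round (l₀.im / Real.pi) : ℤ) =
        Real.pi * (l₀.im / Real.pi - (round (l₀.im / Real.pi) : ℤ)) := by
      field_simp
    rw [h3, abs_mul, abs_of_pos Real.pi_pos]
    calc Real.pi * |l₀.im / Real.pi - (round (l₀.im / Real.pi) : ℤ)| ≤ Real.pi * (1 / 2) :=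
          mul_le_mul_of_nonneg_left h1 Real.pi_pos.le
      _ = _ := by ring
  have h4 : |ℓ.im - l₀.im| ≤ ‖ℓ - l₀‖ := by
    rw [← Complex.sub_im]
    exact Complex.abs_im_le_norm _
  have h5 : ℓ.im - Real.pi * (round (l₀.im / Real.pi) : ℤ) =
      (ℓ.im - l₀.im) + (l₀.im - Real.pi * (round (l₀.im / Real.pi) : ℤ)) := by ring
  rw [h5]
  refine (abs_add_le _ _).trans_lt ?_
  linarith

/-- **Functions of the logarithms of algebraic numbers.** -/
theorem near_log {J : Type} [Fintype J] {g : ℕ} (h : J → ℂ → ℂ) (han : ∀ j s, AnalyticAt ℂ (h j) s)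
    (hind : ∀ (s₀ : ℂ) (P : MvPolynomial (Option J) ℂ),
      (∀ᶠ s in 𝓝 s₀, eval (fun o : Option J => o.elim (Complex.exp s) fun j => h j s) P = 0) → P = 0)
    (ξ : Fin g → ℂ) :
    ∃ E : Set ℂ, dimH E = 0 ∧ ∀ x : ℂ, x ∉ E → ∀ l₀ : ℂ, Complex.exp l₀ = x →
      ∀ (F : Type) [Field F] [NumberField F] (ι : F →+* ℂ) (d A : ℕ) (ω : ℝ), 0 < ω → ∃ B T₁ : ℝ, ∀ T : ℝ, T₁ ≤ T →
        ∀ t : F, Size F T t → ‖ι t - x‖ ≤ T ^ (-ω) → ∀ ℓ : ℂ, Complex.exp ℓ = ι t → ‖ℓ - l₀‖ < 1 →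
          ¬ Dep (fun j => h j ℓ) ξ F ι d A B T := by
  have H : ∀ k : ℤ, ∃ E : Set ℂ, dimH E = 0 ∧ ∀ x ∈ BrD k, x ∉ E → ∀ (F : Type) [Field F] [NumberField F]
      (ι : F →+* ℂ) (d A : ℕ) (ω : ℝ), 0 < ω → ∃ B T₁ : ℝ, ∀ T : ℝ, T₁ ≤ T → ∀ t : F, Size F T t →
          ‖ι t - x‖ ≤ T ^ (-ω) → ¬ Dep (fun j => h j (Br k (ι t))) ξ F ι d A B T := by
    intro k
    have hloc : ∀ z ∈ BrD k, Pool.Agent.Y124.LocInd (fun j z => h j (Br k z)) z := by
      intro z hz P hP
      apply hind (Br k z) P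
      have hc : Tendsto Complex.exp (𝓝 (Br k z)) (𝓝 z) := by
        have := Complex.continuous_exp.tendsto (Br k z)
        rwa [exp_Br hz] at this
      have hclose : ∀ᶠ s in 𝓝 (Br k z), |s.im - Real.pi * k| < Real.pi := by
        have h1 : |(Br k z).im - Real.pi * k| < Real.pi := by
          have h2 : (Br k z).im - Real.pi * k = (Complex.log ((-1) ^ k * z)).im := by
            rw [Br, Complex.add_im]
            have h3 : (Real.pi * k * Complex.I : ℂ).im = Real.pi * k := by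
              rw [show (Real.pi * k * Complex.I : ℂ) = ((Real.pi * k : ℝ) : ℂ) * Complex.I by push_cast; ring]
              simp
            rw [h3]
            ring
          rw [h2, abs_lt]
          refine ⟨Complex.neg_pi_lt_log_im _, lt_of_le_of_ne (Complex.log_im_le_pi _) ?_⟩
          rw [Complex.log_im]
          exact (Complex.mem_slitPlane_iff_arg.1 hz).1
        have h4 : Continuous fun s : ℂ => |s.im - Real.pi * k| := by fun_prop
        exact h4.continuousAt.eventually_lt continuousAt_const h1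
      filter_upwards [hc.eventually hP, hclose] with s hs hs'
      rw [(Br_eq hs').2] at hs
      exact hs
    obtain ⟨E, h1, h2, -⟩ := near_dep (BrD k) (BrD_open k) (fun j z => h j (Br k z))
      (fun j z hz => AnalyticAt.fun_comp (g := h j) (f := Br k) (han j _) (Br_an hz)) hloc ξ
    exact ⟨E, h1, h2⟩
  choose E hE0 hE using H
  refine ⟨⋃ k, E k, by rw [dimH_iUnion]; simp [hE0], fun x hx l₀ hl F _ _ ι d A ω hω => ?_⟩
  obtain ⟨k, hk⟩ := exists_br l₀
  have h1 := Br_eq (hk l₀ (by simp))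
  rw [hl] at h1
  obtain ⟨B, T₁, h2⟩ := hE k x h1.1 (fun h => hx (Set.mem_iUnion.2 ⟨k, h⟩)) F ι d A ω hω
  refine ⟨B, T₁, fun T hT t ht htx ℓ hℓ hℓl => ?_⟩
  have h3 := (Br_eq (hk ℓ hℓl)).2
  rw [hℓ] at h3
  have h4 := h2 T hT t ht htx
  rw [h3] at h4
  exact h4

end Pool.Agent.X39.Near
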