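import Pool.Agent.X39.Near.Ax
import Pool.Agent.TH21.MS.JFun

/-!
# Eisenstein series: algebraic independence of `z`, `q`, `E₂`, `E₄`, `E₆`
-/

set_option autoImplicit false

open Filter Topology UpperHalfPlane ModularForm EisensteinSeries

noncomputable section

namespace Pool.Agent.X39.Near.Eis

open Pool.Agent.Y685 (LL LC h1 LC_ω₂)
open Pool.Agent.Y776 (jf be0)
open Pool.Agent.Y776.AxJ (dlf dlf_ne der_dl)
open Pool.Agent.TH21.MS (E4 E6 E4_eq E6_eq)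

/-- the Eisenstein series of weight two -/
def E2s (τ : ℂ) : ℂ :=
  1 - 24 * ∑' m : ℕ, ((ArithmeticFunction.sigma 1 (m + 1) : ℕ) : ℂ) *
    Complex.exp (2 * (Real.pi : ℂ) * Complex.I * τ) ^ (m + 1)

theorem E2s_eq (z : ℍ) : E2s z = E2 z := by
  rw [E2_eq_tsum_cexp, tsum_pnat_eq_tsum_succ (f := fun n : ℕ => ((ArithmeticFunction.sigma 1 n : ℕ) : ℂ) *
    Complex.exp (2 * Real.pi * Complex.I * z) ^ n), E2s]

theorem G_eq {k : ℕ} (hk : 3 ≤ k) (z : ℍ) : (LL z).G k = ∑' v, eisSummand k v z := by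
  have h0 : (LL z).G k = ∑' x : ℤ × ℤ, ((((LL z).latticeEquivProd.symm x : (LL z).lattice) : ℂ) ^ k)⁻¹ := by
    unfold PeriodPair.G
    exact ((LL z).latticeEquivProd.symm.toEquiv.tsum_eq (fun l : (LL z).lattice => ((l : ℂ) ^ k)⁻¹)).symm
  rw [h0, ← ((finTwoArrowEquiv ℤ).trans (Equiv.prodComm ℤ ℤ)).tsum_eq]
  refine tsum_congr fun v => ?_
  have h1 : ((finTwoArrowEquiv ℤ).trans (Equiv.prodComm ℤ ℤ)) v = (v 1, v 0) := rfl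
  rw [PeriodPair.latticeEquiv_symm_apply, eisSummand, h1, Pool.Agent.Y685.LL_ω₁, Pool.Agent.Y685.LL_ω₂, mul_one,
    zpow_neg, zpow_natCast, add_comm]

theorem G_E {k : ℕ} (hk : 3 ≤ k) (z : ℍ) : (LL z).G k = 2 * riemannZeta k * E hk z := by
  rw [G_eq hk, tsum_eisSummand_eq_riemannZeta_mul_eisensteinSeries hk z,
    show E hk z = (1 / 2 : ℂ) • eisensteinSeriesSIF (N := 1) 0 k z from rfl, eisensteinSeriesSIF_apply 0 k z]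
  simp only [smul_eq_mul]
  ring

theorem zeta_six : riemannZeta 6 = (Real.pi : ℂ) ^ 6 / 945 := by
  have h := riemannZeta_two_mul_nat (k := 3) (by norm_num)
  have h1 : (2 * ((3 : ℕ) : ℂ)) = 6 := by norm_num
  rw [h1, show 2 * 3 = 6 by norm_num, show bernoulli 6 = 1 / 42 by decide +kernel] at h
  rw [h]
  norm_num [Nat.factorial]
  ring

theorem g2_eq {τ : ℂ} (hτ : 0 < τ.im) : (LC τ).g₂ = 4 * (Real.pi : ℂ) ^ 4 / 3 * E4 τ := by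
  have h1 : LC τ = LL ⟨τ, hτ⟩ := Pool.Agent.Y685.LC_coe ⟨τ, hτ⟩
  have h2 := E4_eq ⟨τ, hτ⟩
  have h3 : ((⟨τ, hτ⟩ : ℍ) : ℂ) = τ := rfl
  rw [h3] at h2
  rw [h1, PeriodPair.g₂, G_E (k := 4) (by norm_num), h2]
  have h4 : riemannZeta ((4 : ℕ) : ℂ) = (Real.pi : ℂ) ^ 4 / 90 := by
    push_cast
    exact riemannZeta_four
  rw [h4, show (E₄ (⟨τ, hτ⟩ : ℍ) : ℂ) = E (k := 4) (by norm_num) ⟨τ, hτ⟩ from rfl]
  ring

theorem g3_eq {τ : ℂ} (hτ : 0 < τ.im) : (LC τ).g₃ = 8 * (Real.pi : ℂ) ^ 6 / 27 * E6 τ := by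
  have h1 : LC τ = LL ⟨τ, hτ⟩ := Pool.Agent.Y685.LC_coe ⟨τ, hτ⟩
  have h2 := E6_eq ⟨τ, hτ⟩
  have h3 : ((⟨τ, hτ⟩ : ℍ) : ℂ) = τ := rfl
  rw [h3] at h2
  rw [h1, PeriodPair.g₃, G_E (k := 6) (by norm_num), h2]
  have h4 : riemannZeta ((6 : ℕ) : ℂ) = (Real.pi : ℂ) ^ 6 / 945 := by
    push_cast
    exact zeta_six
  rw [h4, show (E₆ (⟨τ, hτ⟩ : ℍ) : ℂ) = E (k := 6) (by norm_num) ⟨τ, hτ⟩ from rfl]
  ring

theorem dlf_eq {τ : ℂ} (hτ : 0 < τ.im) : dlf τ = (2 * (Real.pi : ℂ)) ^ 12 * eta τ ^ 24 := by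
  have h1 := discriminant_eq_E₄_cube_sub_E₆_sq ⟨τ, hτ⟩
  have h2 : (discriminant (⟨τ, hτ⟩ : ℍ) : ℂ) = eta τ ^ 24 := rfl
  have h3 := E4_eq ⟨τ, hτ⟩
  have h4 := E6_eq ⟨τ, hτ⟩
  have h5 : ((⟨τ, hτ⟩ : ℍ) : ℂ) = τ := rfl
  rw [h5] at h3 h4
  rw [← h3, ← h4] at h1
  rw [dlf, g2_eq hτ, g3_eq hτ, ← h2, h1]
  ring

/-- `E₂` and the quasi-period of `1` -/
theorem h1_eq {τ : ℂ} (hτ : 0 < τ.im) : 12 * be0 * h1 τ = 2 * Real.pi * Complex.I * E2s τ := by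
  have h2 := der_dl hτ
  have h3 : dlf =ᶠ[𝓝 τ] fun z => (2 * (Real.pi : ℂ)) ^ 12 * eta z ^ 24 := by
    filter_upwards [Pool.Agent.Y776.AxJ.isOpen_H.mem_nhds hτ] with z hz
    exact dlf_eq hz
  have h4 : DifferentiableAt ℂ eta τ := differentiableAt_eta_of_mem_upperHalfPlaneSet hτ
  have h5 : HasDerivAt (fun z => (2 * (Real.pi : ℂ)) ^ 12 * eta z ^ 24)
      ((2 * (Real.pi : ℂ)) ^ 12 * (24 * eta τ ^ 23 * deriv eta τ)) τ := by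
    simpa using (h4.hasDerivAt.pow 24).const_mul ((2 * (Real.pi : ℂ)) ^ 12)
  have h6 := (h5.congr_of_eventuallyEq h3).unique h2
  have h7 := logDeriv_eta_eq_E2 ⟨τ, hτ⟩
  have h8 : ((⟨τ, hτ⟩ : ℍ) : ℂ) = τ := rfl
  have h9 := E2s_eq ⟨τ, hτ⟩
  rw [h8] at h7 h9
  rw [← h9] at h7
  have h10 : eta τ ≠ 0 := eta_ne_zero hτ
  rw [logDeriv_apply, div_eq_iff h10] at h7
  rw [h7, dlf_eq hτ] at h6
  have h11 : (2 * (Real.pi : ℂ)) ^ 12 ≠ 0 := pow_ne_zero _ (mul_ne_zero two_ne_zero (by exact_mod_cast Real.pi_ne_zero))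
  have h12 : eta τ ^ 24 ≠ 0 := pow_ne_zero _ h10
  have h13 : (2 * (Real.pi : ℂ)) ^ 12 * eta τ ^ 24 * (12 * be0 * h1 τ) =
      (2 * (Real.pi : ℂ)) ^ 12 * eta τ ^ 24 * (2 * Real.pi * Complex.I * E2s τ) := by
    linear_combination (-1 : ℂ) * h6
  exact mul_left_cancel₀ (mul_ne_zero h11 h12) h13

end Pool.Agent.X39.Near.Eis
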