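import Pool.Agent.X39.Near.Eis

/-!
# Mahler's theorem: `z`, `q`, `E₂`, `E₄`, `E₆` are algebraically independent
-/

set_option autoImplicit false

open Filter Topology

noncomputable section

namespace Pool.Agent.X39.Near.Eis

open Pool.Agent.Y685 (LL LC h1 LC_ω₂ clo subset_clo base_clo)
open Pool.Agent.Y776 (jf be0)
open Pool.Agent.Y776.AxJ (dlf dlf_ne der_dl Fmj yj b4 deriv_j deriv_dj isOpen_H preconn_H loc_all)
open Pool.Agent.TH21.MS (E4 E6 E4_eq E6_eq)

/-- the upper half-plane -/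
def Hp : Set ℂ := {z | 0 < z.im}

/-- `q`, `E₂`, `E₄`, `E₆` -/
def ev (z : ℂ) : Fin 4 → ℂ := ![Complex.exp (2 * (Real.pi : ℂ) * Complex.I * z), E2s z, E4 z, E6 z]

theorem pi_ne : (Real.pi : ℂ) ≠ 0 := by exact_mod_cast Real.pi_ne_zero

theorem E4_eq' {z : ℂ} (hz : 0 < z.im) : E4 z = (LC z).g₂ / (4 * (Real.pi : ℂ) ^ 4 / 3) := by
  rw [g2_eq hz, mul_div_cancel_left₀]
  exact div_ne_zero (mul_ne_zero (by norm_num) (pow_ne_zero _ pi_ne)) (by norm_num)

theorem E6_eq' {z : ℂ} (hz : 0 < z.im) : E6 z = (LC z).g₃ / (8 * (Real.pi : ℂ) ^ 6 / 27) := by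
  rw [g3_eq hz, mul_div_cancel_left₀]
  exact div_ne_zero (mul_ne_zero (by norm_num) (pow_ne_zero _ pi_ne)) (by norm_num)

theorem E2s_eq' {z : ℂ} (hz : 0 < z.im) : E2s z = 12 * be0 * h1 z / (2 * Real.pi * Complex.I) := by
  rw [h1_eq hz, mul_div_cancel_left₀]
  exact Complex.two_pi_I_ne_zero

theorem ev_an (k : Fin 4) : AnalyticOnNhd ℂ (fun z => ev z k) Hp := by
  fin_cases k
  · exact fun z _ => (analyticAt_const.mul analyticAt_id).cexp
  · intro z hz
    have h1 : AnalyticAt ℂ (fun z => 12 * be0 * h1 z / (2 * Real.pi * Complex.I)) z :=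
      (analyticAt_const.mul (Pool.Agent.Y776.AxJ.an_h z hz)).div analyticAt_const Complex.two_pi_I_ne_zero
    refine h1.congr ?_
    filter_upwards [isOpen_H.mem_nhds hz] with w hw
    exact (E2s_eq' hw).symm
  · intro z hz
    have h1 : AnalyticAt ℂ (fun z => (LC z).g₂ / (4 * (Real.pi : ℂ) ^ 4 / 3)) z :=
      (Pool.Agent.Y776.AxJ.an_p z hz).div analyticAt_const
        (div_ne_zero (mul_ne_zero (by norm_num) (pow_ne_zero _ pi_ne)) (by norm_num))
    refine h1.congr ?_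
    filter_upwards [isOpen_H.mem_nhds hz] with w hw
    exact (E4_eq' hw).symm
  · intro z hz
    have h1 : AnalyticAt ℂ (fun z => (LC z).g₃ / (8 * (Real.pi : ℂ) ^ 6 / 27)) z :=
      (Pool.Agent.Y776.AxJ.an_q z hz).div analyticAt_const
        (div_ne_zero (mul_ne_zero (by norm_num) (pow_ne_zero _ pi_ne)) (by norm_num))
    refine h1.congr ?_
    filter_upwards [isOpen_H.mem_nhds hz] with w hw
    exact (E6_eq' hw).symm

/-- the constants -/
def Gs : Set ℂ := {(Real.pi : ℂ), Complex.I, be0}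

theorem fmj : Fmj Hp (fun (_ : Fin 1) z => z) (fun (_ : Fin 1) z => 2 * (Real.pi : ℂ) * Complex.I * z) where
  op := isOpen_H
  conn := preconn_H
  ne := ⟨Complex.I, by simp [Hp]⟩
  ta := fun _ => analyticOnNhd_id
  im := fun _ z hz => hz
  nc := by
    intro _ c
    by_cases hc : c = Complex.I
    · refine ⟨2 * Complex.I, by simp [Hp], fun h => ?_⟩
      have h2 : (2 : ℂ) * Complex.I = 1 * Complex.I := by rw [one_mul]; exact h.trans hc
      have := mul_right_cancel₀ Complex.I_ne_zero h2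
      norm_num at this
    · exact ⟨Complex.I, by simp [Hp], fun h => hc h.symm⟩
  ji := fun i k hik => absurd (Subsingleton.elim i k) hik
  wa := fun _ z _ => analyticAt_const.mul analyticAt_id
  wi := by
    intro m c h
    have h0 := h Complex.I (by simp [Hp])
    have h1 := h (2 * Complex.I) (by simp [Hp])
    simp only [Fin.sum_univ_one] at h0 h1
    funext k
    have h2 : (m 0 : ℂ) * (2 * (Real.pi : ℂ) * Complex.I * Complex.I) = 0 := by
      linear_combination h1 - h0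
    have h3 : (2 * (Real.pi : ℂ) * Complex.I * Complex.I) ≠ 0 :=
      mul_ne_zero Complex.two_pi_I_ne_zero Complex.I_ne_zero
    have h4 : (m 0 : ℂ) = 0 := (mul_eq_zero.1 h2).resolve_right h3
    rw [Subsingleton.elim k 0]
    exact_mod_cast h4

theorem mem_all {K : IntermediateField ℚ ℂ} {z : ℂ} (hz : 0 < z.im) (mpi : (Real.pi : ℂ) ∈ K) (mI : Complex.I ∈ K)
    (mb : be0 ∈ K) (mz : z ∈ K) (mq : Complex.exp (2 * (Real.pi : ℂ) * Complex.I * z) ∈ K) (mE2 : E2s z ∈ K)
    (mE4 : E4 z ∈ K) (mE6 : E6 z ∈ K) (k) :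
    Pool.Agent.Y776.AxJ.yj (fun (_ : Fin 1) z => z) (fun (_ : Fin 1) z => 2 * (Real.pi : ℂ) * Complex.I * z) k z ∈ K := by
  have mn : ∀ n : ℕ, (n : ℂ) ∈ K := fun n => natCast_mem _ n
  have m2 := mn 2
  have m3 := mn 3
  have m4 := mn 4
  have m8 := mn 8
  have m12 := mn 12
  have m27 := mn 27
  have m1728 := mn 1728
  have m31104 := mn 31104
  push_cast at m2 m3 m4 m8 m12 m27 m1728 m31104
  have mg2 : (LC z).g₂ ∈ K := by
    rw [g2_eq hz]
    exact mul_mem (div_mem (mul_mem m4 (pow_mem mpi 4)) m3) mE4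
  have mg3 : (LC z).g₃ ∈ K := by
    rw [g3_eq hz]
    exact mul_mem (div_mem (mul_mem m8 (pow_mem mpi 6)) m27) mE6
  have mh : h1 z ∈ K := by
    have h := h1_eq hz
    have hb : (12 : ℂ) * be0 ≠ 0 := mul_ne_zero (by norm_num) Pool.Agent.Y776.AxJ.be0_ne
    have h2 : h1 z = 2 * Real.pi * Complex.I * E2s z / (12 * be0) := by
      rw [← h, mul_div_cancel_left₀ _ hb]
    rw [h2]
    exact div_mem (mul_mem (mul_mem (mul_mem m2 mpi) mI) mE2) (mul_mem m12 mb)
  have md : dlf z ∈ K := sub_mem (pow_mem mg2 3) (mul_mem m27 (pow_mem mg3 2))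
  rcases k with ⟨i, m⟩ | i | i
  · fin_cases m
    · exact mz
    · exact div_mem (mul_mem m1728 (pow_mem mg2 3)) md
    · show deriv jf z ∈ _
      rw [deriv_j hz]
      exact div_mem (mul_mem (mul_mem (mul_mem (neg_mem m31104) mb) (pow_mem mg2 2)) mg3) md
    · show deriv (deriv jf) z ∈ _
      rw [deriv_dj hz]
      exact div_mem (mul_mem (mul_mem (neg_mem m31104) (pow_mem mb 2)) (sub_mem (sub_mem
        (mul_mem (mul_mem (mul_mem m2 mh) (pow_mem mg2 2)) mg3)
        (mul_mem (mul_mem m12 mg2) (pow_mem mg3 2))) (div_mem (pow_mem mg2 4) m3))) md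
  · exact mul_mem (mul_mem (mul_mem m2 mpi) mI) mz
  · exact mq

/-- **Mahler**: `z`, `q`, `E₂`, `E₄`, `E₆` are algebraically independent -/
theorem ev_ind : ∀ t ∈ Hp, Pool.Agent.Y124.LocInd (fun (k : Fin 4) z => ev z k) t := by
  refine loc_all fmj one_pos (y := fun (k : Fin 4) z => ev z k) ev_an (by simp) (G := Gs)
    (by unfold Gs; exact (Set.toFinite _).countable) ?_
  intro F hG z hz _ k
  have mO : ∀ k, ev z k ∈ clo F (insert z (Set.range fun k => ev z k)) := fun k =>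
    subset_clo (Or.inr ⟨k, rfl⟩)
  exact mem_all hz (base_clo (hG (Or.inl rfl))) (base_clo (hG (Or.inr (Or.inl rfl))))
    (base_clo (hG (Or.inr (Or.inr rfl)))) (subset_clo (Or.inl rfl)) (mO 0) (mO 1) (mO 2) (mO 3) k

/-- `q`, `π E₂`, `π² E₄`, `π³ E₆` -/
def evp (z : ℂ) : Fin 4 → ℂ := ![Complex.exp (2 * (Real.pi : ℂ) * Complex.I * z), (Real.pi : ℂ) * E2s z,
  (Real.pi : ℂ) ^ 2 * E4 z, (Real.pi : ℂ) ^ 3 * E6 z]

theorem evp_an (k : Fin 4) : AnalyticOnNhd ℂ (fun z => evp z k) Hp := by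
  fin_cases k
  · exact ev_an 0
  · exact fun z hz => analyticAt_const.mul (ev_an 1 z hz)
  · exact fun z hz => analyticAt_const.mul (ev_an 2 z hz)
  · exact fun z hz => analyticAt_const.mul (ev_an 3 z hz)

theorem evp_ind : ∀ t ∈ Hp, Pool.Agent.Y124.LocInd (fun (k : Fin 4) z => evp z k) t := by
  refine loc_all fmj one_pos (y := fun (k : Fin 4) z => evp z k) evp_an (by simp) (G := Gs)
    (by unfold Gs; exact (Set.toFinite _).countable) ?_
  intro F hG z hz _ k
  have mpi : (Real.pi : ℂ) ∈ clo F (insert z (Set.range fun k => evp z k)) := base_clo (hG (Or.inl rfl))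
  have mO : ∀ k, evp z k ∈ clo F (insert z (Set.range fun k => evp z k)) := fun k =>
    subset_clo (Or.inr ⟨k, rfl⟩)
  have m1 : E2s z ∈ clo F (insert z (Set.range fun k => evp z k)) := by
    have h := div_mem (mO 1) mpi
    rwa [show evp z 1 = (Real.pi : ℂ) * E2s z from rfl, mul_div_cancel_left₀ _ pi_ne] at h
  have m2 : E4 z ∈ clo F (insert z (Set.range fun k => evp z k)) := by
    have h := div_mem (mO 2) (pow_mem mpi 2)
    rwa [show evp z 2 = (Real.pi : ℂ) ^ 2 * E4 z from rfl, mul_div_cancel_left₀ _ (pow_ne_zero _ pi_ne)] at h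
  have m3 : E6 z ∈ clo F (insert z (Set.range fun k => evp z k)) := by
    have h := div_mem (mO 3) (pow_mem mpi 3)
    rwa [show evp z 3 = (Real.pi : ℂ) ^ 3 * E6 z from rfl, mul_div_cancel_left₀ _ (pow_ne_zero _ pi_ne)] at h
  exact mem_all hz mpi (base_clo (hG (Or.inr (Or.inl rfl))))
    (base_clo (hG (Or.inr (Or.inr rfl)))) (subset_clo (Or.inl rfl)) (mO 0) m1 m2 m3 k

end Pool.Agent.X39.Near.Eis
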