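import Pool.Agent.X39.Near.Rat

/-! Approximations by the points of a set of which few have a height in a dyadic interval. -/

set_option autoImplicit false

namespace Pool.Agent.X39.Near

open Filter Topology MeasureTheory

/-- **Dyadic form.** The elements of `S` with `2 ^ n ≤ H t ≤ 2 ^ (n + 1)` in a bounded set are at most
`C (2 ^ n) ^ (s + ε)` in number. -/
theorem nearFam {κ : Type} [Fintype κ] {T : Type} (S : Set T) (x : T → κ → ℝ) (H : T → ℝ)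
    (hH : ∀ t ∈ S, 1 ≤ H t) {s ω : ℝ} (hs : 0 ≤ s) (hω : 0 < ω)
    (hfin : ∀ R n : ℕ, {t | t ∈ S ∧ (∀ j, |x t j| ≤ R) ∧ H t ≤ (2 : ℝ) ^ n}.Finite)
    (hS : ∀ (R : ℕ) (ε : ℝ), 0 < ε → ∃ (C : ℝ) (n₁ : ℕ), ∀ n : ℕ, n₁ ≤ n →
      ({t | t ∈ S ∧ (∀ j, |x t j| ≤ R) ∧ (2 : ℝ) ^ n ≤ H t ∧ H t ≤ 2 ^ (n + 1)}.ncard : ℝ) ≤
        C * ((2 : ℝ) ^ n) ^ (s + ε)) :
    ∃ E : Set (κ → ℝ), dimH E ≤ ENNReal.ofReal (s / ω) ∧ ∀ α : κ → ℝ, α ∉ E → ∀ A : ℝ,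
      {t | t ∈ S ∧ ∀ j, |x t j - α j| ≤ A * (H t) ^ (-ω)}.Finite := by
  set w : ℕ → ℝ := fun k => ω * (1 - 1 / ((k : ℝ) + 2)) with hw
  have hk0 : ∀ k : ℕ, 0 < 1 / ((k : ℝ) + 2) := fun k => by positivity
  have hk1 : ∀ k : ℕ, 1 / ((k : ℝ) + 2) ≤ 1 / 2 := fun k => by
    apply one_div_le_one_div_of_le (by norm_num)
    have : (0 : ℝ) ≤ k := Nat.cast_nonneg k
    linarith
  have hw0 : ∀ k, 0 < w k := fun k => mul_pos hω (by linarith [hk1 k])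
  have hw1 : ∀ k, w k < ω := fun k => by
    have := mul_lt_mul_of_pos_left (show 1 - 1 / ((k : ℝ) + 2) < 1 by linarith [hk0 k]) hω
    rw [mul_one] at this
    exact this
  have hpos : ∀ n : ℕ, (1 : ℝ) ≤ (2 : ℝ) ^ n := fun n => one_le_pow₀ (by norm_num)
  have hgeo : Pool.Agent.Y854.GM.ExpLe (fun n : ℕ => (2 : ℝ) ^ n) 0 :=
    Pool.Agent.Y854.GM.expLe_geom 2 (by norm_num)
  have hfin' : ∀ R n : ℕ, {t | t ∈ S ∧ (∀ j, |x t j| ≤ R) ∧ (2 : ℝ) ^ n ≤ H t ∧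
      H t ≤ 2 ^ (n + 1)}.Finite := fun R n =>
    (hfin R (n + 1)).subset fun t ht => ⟨ht.1, ht.2.1, ht.2.2.2⟩
  have key : ∀ (k R : ℕ), ∃ E : Set (κ → ℝ), dimH E ≤ ENNReal.ofReal ((s + 0) / (1 - (1 - w k))) ∧
      ∀ α : κ → ℝ, α ∉ E → ∃ n0 : ℕ, ∀ n : ℕ, n0 ≤ n →
        ∀ t ∈ {t | t ∈ S ∧ (∀ j, |x t j| ≤ R) ∧ (2 : ℝ) ^ n ≤ H t ∧ H t ≤ 2 ^ (n + 1)},
          ¬ ∀ j, |x t j * 2 ^ n - α j * 2 ^ n| ≤ ((2 : ℝ) ^ n) ^ (1 - w k) := by
    intro k R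
    refine Pool.Agent.X174.windowsVecV
      (fun n => {t | t ∈ S ∧ (∀ j, |x t j| ≤ R) ∧ (2 : ℝ) ^ n ≤ H t ∧ H t ≤ 2 ^ (n + 1)})
      (fun n t j => x t j * 2 ^ n) hpos le_rfl hgeo hs (by linarith [hw0 k]) ?_
    intro ε hε
    obtain ⟨C, n₁, hC⟩ := hS R ε hε
    exact ⟨C, n₁, fun n hn => ⟨hfin' R n, hC n hn⟩⟩
  choose Es h1 h2 using key
  refine ⟨⋂ k, ⋃ R, Es k R, ?_, ?_⟩
  · have hlim : Tendsto (fun k : ℕ => ENNReal.ofReal (s / w k)) atTop (𝓝 (ENNReal.ofReal (s / ω))) := by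
      apply ENNReal.tendsto_ofReal
      apply Tendsto.div tendsto_const_nhds _ hω.ne'
      have h3 := (tendsto_const_nhds (x := (1 : ℝ))).sub (Pool.Agent.X39.Win.tendsto_inv 2)
      have h4 := h3.const_mul ω
      simpa [hw] using h4
    refine ge_of_tendsto' hlim fun k => ?_
    refine (dimH_mono (Set.iInter_subset _ k)).trans ?_
    rw [dimH_iUnion]
    refine iSup_le fun R => (h1 k R).trans (le_of_eq ?_)
    congr 1
    ring
  · intro α hα A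
    rw [Set.mem_iInter] at hα
    push Not at hα
    obtain ⟨k, hk⟩ := hα
    rw [Set.mem_iUnion] at hk
    push Not at hk
    obtain ⟨R, hR⟩ : ∃ R : ℕ, ∀ j, |α j| + |A| ≤ R := by
      obtain ⟨M, hM⟩ := Finset.exists_le (Finset.univ.image fun j => ⌈|α j| + |A|⌉₊)
      refine ⟨M, fun j => ?_⟩
      have h3 := hM ⌈|α j| + |A|⌉₊ (Finset.mem_image_of_mem _ (Finset.mem_univ j))
      exact (Nat.le_ceil _).trans (by exact_mod_cast h3)
    obtain ⟨n0, hn0⟩ := h2 k R α (hk R)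
    obtain ⟨n1, hn1⟩ : ∃ n1 : ℕ, ∀ n : ℕ, n1 ≤ n → |A| ≤ ((2 : ℝ) ^ n) ^ (ω - w k) := by
      have h3 : Tendsto (fun n : ℕ => ((2 : ℝ) ^ n) ^ (ω - w k)) atTop atTop :=
        (tendsto_rpow_atTop (sub_pos.2 (hw1 k))).comp (tendsto_pow_atTop_atTop_of_one_lt (by norm_num))
      exact (h3.eventually (eventually_ge_atTop |A|)).exists_forall_of_atTop
    refine (hfin R (max n0 n1)).subset ?_
    rintro t ⟨ht, htA⟩
    have hHt := hH t ht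
    have hx : ∀ j, |x t j| ≤ R := by
      intro j
      have h3 := htA j
      have h4 : A * (H t) ^ (-ω) ≤ |A| := by
        have h5 : (H t) ^ (-ω) ≤ 1 := Real.rpow_le_one_of_one_le_of_nonpos hHt (by linarith)
        calc A * (H t) ^ (-ω) ≤ |A| * (H t) ^ (-ω) :=
              mul_le_mul_of_nonneg_right (le_abs_self A) (by positivity)
          _ ≤ |A| * 1 := mul_le_mul_of_nonneg_left h5 (abs_nonneg A)
          _ = |A| := mul_one _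
      calc |x t j| = |α j + (x t j - α j)| := by ring_nf
        _ ≤ |α j| + |x t j - α j| := abs_add_le _ _
        _ ≤ |α j| + |A| := by linarith
        _ ≤ R := hR j
    refine ⟨ht, hx, ?_⟩
    by_contra hcon
    rw [not_le] at hcon
    obtain ⟨n, hn⟩ : ∃ n : ℕ, (2 : ℝ) ^ n ≤ H t ∧ H t < 2 ^ (n + 1) :=
      exists_nat_pow_near hHt (by norm_num)
    have hmax : max n0 n1 ≤ n := by
      by_contra h
      rw [not_le] at h
      have h3 : n + 1 ≤ max n0 n1 := h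
      have h4 : (2 : ℝ) ^ (n + 1) ≤ 2 ^ (max n0 n1) := pow_le_pow_right₀ (by norm_num) h3
      linarith [hn.2]
    refine hn0 n ((le_max_left _ _).trans hmax) t ⟨ht, hx, hn.1, hn.2.le⟩ ?_
    intro j
    have hp : (0 : ℝ) < 2 ^ n := by positivity
    rw [← sub_mul, abs_mul, abs_of_pos hp]
    have h3 := htA j
    have h4 : A * (H t) ^ (-ω) ≤ ((2 : ℝ) ^ n) ^ (-w k) := by
      have h5 : (H t) ^ (-ω) ≤ ((2 : ℝ) ^ n) ^ (-ω) :=
        Real.rpow_le_rpow_of_nonpos hp hn.1 (by linarith)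
      calc A * (H t) ^ (-ω) ≤ |A| * (H t) ^ (-ω) :=
            mul_le_mul_of_nonneg_right (le_abs_self A) (by positivity)
        _ ≤ ((2 : ℝ) ^ n) ^ (ω - w k) * ((2 : ℝ) ^ n) ^ (-ω) :=
            mul_le_mul (hn1 n ((le_max_right _ _).trans hmax)) h5 (by positivity) (by positivity)
        _ = ((2 : ℝ) ^ n) ^ (-w k) := by
            rw [← Real.rpow_add hp]
            ring_nf
    calc |x t j - α j| * 2 ^ n ≤ ((2 : ℝ) ^ n) ^ (-w k) * 2 ^ n :=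
          mul_le_mul_of_nonneg_right (h3.trans h4) hp.le
      _ = ((2 : ℝ) ^ n) ^ (1 - w k) := by
          rw [sub_eq_add_neg, add_comm, Real.rpow_add hp, Real.rpow_one]

/-- the largest denominator of a tuple of rational numbers, as a real number; at least `1` -/
noncomputable def maxDen {κ : Type} [Fintype κ] (q : κ → ℚ) : ℝ :=
  max 1 (⨆ j, ((q j).den : ℝ))

lemma one_le_maxDen {κ : Type} [Fintype κ] (q : κ → ℚ) : 1 ≤ maxDen q := le_max_left _ _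

lemma den_le_maxDen {κ : Type} [Fintype κ] (q : κ → ℚ) (j : κ) : ((q j).den : ℝ) ≤ maxDen q :=
  (le_ciSup (f := fun j => ((q j).den : ℝ)) (Set.finite_range _).bddAbove j).trans (le_max_right _ _)

lemma maxDen_le {κ : Type} [Fintype κ] {q : κ → ℚ} {X : ℝ} (hX : 1 ≤ X)
    (h : ∀ j, ((q j).den : ℝ) ≤ X) : maxDen q ≤ X := by
  refine max_le hX ?_
  rcases isEmpty_or_nonempty κ with hκ | hκ
  · rw [Real.iSup_of_isEmpty]
    linarith
  · exact ciSup_le h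

/-- **Tuples of rational numbers in a box.** `Exc T` is a set of tuples with at most `C T ^ s` elements,
and the tuples of `S` with largest denominator in `[T / 2, T]` are in `Exc T`, for large `T`. -/
theorem nearTuples {κ : Type} [Fintype κ] (S : Set (κ → ℚ)) (Exc : ℝ → Set (κ → ℚ)) {s ω C T₀ : ℝ}
    (hs : 0 ≤ s) (hω : 0 < ω)
    (hE : ∀ T : ℝ, 1 ≤ T → (Exc T).Finite ∧ ((Exc T).ncard : ℝ) ≤ C * T ^ s)
    (hSE : ∀ T : ℝ, T₀ ≤ T → ∀ q ∈ S, T ≤ 2 * maxDen q → maxDen q ≤ T → q ∈ Exc T) :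
    ∃ E : Set (κ → ℝ), dimH E ≤ ENNReal.ofReal (s / ω) ∧ ∀ ξ : κ → ℝ, ξ ∉ E → ∀ A : ℝ,
      {q | q ∈ S ∧ ∀ j, |(q j : ℝ) - ξ j| ≤ A * (maxDen q) ^ (-ω)}.Finite := by
  refine nearFam S (fun q j => (q j : ℝ)) maxDen (fun q _ => one_le_maxDen q) hs hω ?_ ?_
  · intro R n
    have h1 : {q : κ → ℚ | ∀ j, q j ∈ {t : ℚ | |(t.num : ℝ)| ≤ (R : ℝ) * 2 ^ n ∧
        (t.den : ℝ) ≤ 2 ^ n}}.Finite := Set.Finite.pi' fun _ => finite_box _ _
    refine h1.subset ?_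
    rintro q ⟨-, h2, h3⟩ j
    have h4 := (den_le_maxDen q j).trans h3
    exact ⟨num_le (h2 j) h4, h4⟩
  · intro R ε hε
    obtain ⟨n₁, hn₁⟩ : ∃ n₁ : ℕ, T₀ ≤ (2 : ℝ) ^ n₁ := by
      obtain ⟨n₁, h⟩ := pow_unbounded_of_one_lt T₀ (by norm_num : (1 : ℝ) < 2)
      exact ⟨n₁, h.le⟩
    refine ⟨|C| * 2 ^ s, n₁, fun n hn => ?_⟩
    have hp : (1 : ℝ) ≤ 2 ^ n := one_le_pow₀ (by norm_num)
    have hp1 : (1 : ℝ) ≤ 2 ^ (n + 1) := one_le_pow₀ (by norm_num)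
    have hT : T₀ ≤ (2 : ℝ) ^ (n + 1) :=
      hn₁.trans (pow_le_pow_right₀ (by norm_num) (hn.trans (Nat.le_succ n)))
    obtain ⟨h1, h2⟩ := hE (2 ^ (n + 1)) hp1
    have hsub : {t | t ∈ S ∧ (∀ j, |(t j : ℝ)| ≤ R) ∧ (2 : ℝ) ^ n ≤ maxDen t ∧
        maxDen t ≤ 2 ^ (n + 1)} ⊆ Exc (2 ^ (n + 1)) := by
      rintro q ⟨h3, -, h4, h5⟩
      refine hSE _ hT q h3 ?_ h5
      rw [pow_succ]
      linarith
    have h3 : (({t | t ∈ S ∧ (∀ j, |(t j : ℝ)| ≤ R) ∧ (2 : ℝ) ^ n ≤ maxDen t ∧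
        maxDen t ≤ 2 ^ (n + 1)}.ncard : ℕ) : ℝ) ≤ C * ((2 : ℝ) ^ (n + 1)) ^ s := by
      refine le_trans ?_ h2
      exact_mod_cast Set.ncard_le_ncard hsub h1
    refine h3.trans ?_
    rw [pow_succ, mul_comm ((2 : ℝ) ^ n) 2, Real.mul_rpow (by norm_num) (by positivity), ← mul_assoc]
    calc C * 2 ^ s * ((2 : ℝ) ^ n) ^ s ≤ |C| * 2 ^ s * ((2 : ℝ) ^ n) ^ s := by
          refine mul_le_mul_of_nonneg_right ?_ (by positivity)
          exact mul_le_mul_of_nonneg_right (le_abs_self C) (by positivity)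
      _ ≤ |C| * 2 ^ s * ((2 : ℝ) ^ n) ^ (s + ε) :=
          mul_le_mul_of_nonneg_left (Real.rpow_le_rpow_of_exponent_le hp (by linarith)) (by positivity)

/-- the case of one rational number -/
theorem nearOne (S : Set ℚ) (Exc : ℝ → Set ℚ) {s ω C T₀ : ℝ} (hs : 0 ≤ s) (hω : 0 < ω)
    (hE : ∀ T : ℝ, 1 ≤ T → (Exc T).Finite ∧ ((Exc T).ncard : ℝ) ≤ C * T ^ s)
    (hSE : ∀ T : ℝ, T₀ ≤ T → ∀ q ∈ S, T ≤ 2 * (q.den : ℝ) → (q.den : ℝ) ≤ T → q ∈ Exc T) :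
    ∃ E : Set ℝ, dimH E ≤ ENNReal.ofReal (s / ω) ∧ ∀ ξ : ℝ, ξ ∉ E → ∀ A : ℝ,
      {q | q ∈ S ∧ |(q : ℝ) - ξ| ≤ A * (q.den : ℝ) ^ (-ω)}.Finite := by
  have hmax : ∀ q : Unit → ℚ, maxDen q = ((q ()).den : ℝ) := by
    intro q
    refine le_antisymm (maxDen_le (by exact_mod_cast (q ()).pos) fun j => le_rfl) (den_le_maxDen q ())
  obtain ⟨E, h1, h2⟩ := nearTuples (κ := Unit) {q | q () ∈ S} (fun T => {q | q () ∈ Exc T})
    (s := s) (ω := ω) (C := C) (T₀ := T₀) hs hω (by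
      intro T hT
      obtain ⟨h3, h4⟩ := hE T hT
      have hinj : Set.InjOn (fun q : Unit → ℚ => q ()) {q | q () ∈ Exc T} := by
        intro a _ b _ hab
        funext u
        exact hab
      have him : (fun q : Unit → ℚ => q ()) '' {q | q () ∈ Exc T} ⊆ Exc T := by
        rintro _ ⟨q, hq, rfl⟩
        exact hq
      refine ⟨Set.Finite.of_finite_image (h3.subset him) hinj, ?_⟩
      rw [← hinj.ncard_image]
      refine le_trans ?_ h4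
      exact_mod_cast Set.ncard_le_ncard him h3)
    (by
      intro T hT q hq h3 h4
      rw [hmax] at h3 h4
      exact hSE T hT _ hq h3 h4)
  refine ⟨{a : ℝ | (fun _ => a : Unit → ℝ) ∈ E}, ?_, fun ξ hξ A => ?_⟩
  · have hiso : Isometry (fun a : ℝ => (fun _ => a : Unit → ℝ)) := by
      refine Isometry.of_dist_eq fun a b => ?_
      simp [dist_pi_const]
    rw [← hiso.dimH_image]
    refine (dimH_mono ?_).trans h1
    rintro _ ⟨a, ha, rfl⟩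
    exact ha
  · have h3 := h2 (fun _ => ξ) hξ A
    have h4 : Function.Injective (fun q : ℚ => (fun _ => q : Unit → ℚ)) := fun a b hab =>
      congrFun hab ()
    refine (h3.preimage h4.injOn).subset ?_
    rintro q ⟨h5, h6⟩
    refine ⟨h5, fun _ => ?_⟩
    rw [hmax]
    exact h6

end Pool.Agent.X39.Near
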