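import Pool.Agent.X39.Near.Poly

/-!
# Relations between the entries of a `2 × 2` matrix with given determinant
-/

set_option autoImplicit false
set_option linter.unusedSectionVars false

open NumberField Filter

namespace Pool.Agent.X39.Near

open MvPolynomial Pool.Agent.X255.NP

section L1

variable {τ : Type}

theorem l1_pow (p : MvPolynomial τ ℂ) (n : ℕ) : l1 (p ^ n) ≤ l1 p ^ n := by
  induction n with
  | zero => rw [pow_zero, pow_zero, l1_one]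
  | succ n ih =>
    rw [pow_succ, pow_succ]
    exact (l1_mul _ _).trans (mul_le_mul_of_nonneg_right ih (l1_nonneg _))

theorem l1_prod' {κ : Type*} (s : Finset κ) (p : κ → MvPolynomial τ ℂ) : l1 (∏ i ∈ s, p i) ≤ ∏ i ∈ s, l1 (p i) := by
  classical
  induction s using Finset.induction_on with
  | empty => rw [Finset.prod_empty, Finset.prod_empty, l1_one]
  | insert a s ha ih =>
    rw [Finset.prod_insert ha, Finset.prod_insert ha]
    exact (l1_mul _ _).trans (mul_le_mul_of_nonneg_left ih (l1_nonneg _))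

theorem l1_C (c : ℂ) : l1 (C c : MvPolynomial τ ℂ) = ‖c‖ := l1_monomial 0 c

theorem l1_X (i : τ) : l1 (X i : MvPolynomial τ ℂ) = 1 := by
  rw [X, l1_monomial, norm_one]

end L1

variable {F : Type} [Field F] [NumberField F]

/-- the polynomial in the determinant and the first three entries -/
noncomputable def elim (D : ℕ) (Q : MvPolynomial (Fin 4) (𝓞 F)) : MvPolynomial (Fin 1 ⊕ Fin 3) (𝓞 F) :=
  ∑ s ∈ Q.support, C (Q.coeff s) * (X (Sum.inr 0) ^ (s 0 + D - s 3) * (X (Sum.inr 1) ^ (s 1) *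
    (X (Sum.inr 2) ^ (s 2) * (X (Sum.inl 0) + X (Sum.inr 1) * X (Sum.inr 2)) ^ (s 3))))

theorem elim_eval {D : ℕ} {Q : MvPolynomial (Fin 4) (𝓞 F)} (hQ : ∀ i, Q.degreeOf i ≤ D) (ψ : 𝓞 F →+* ℂ) (M : Fin 4 → ℂ) :
    eval₂ ψ (Sum.elim (fun _ : Fin 1 => M 0 * M 3 - M 1 * M 2) ![M 0, M 1, M 2]) (elim D Q) =
      M 0 ^ D * eval₂ ψ M Q := by
  classical
  rw [elim, eval₂_sum, eval₂_eq', Finset.mul_sum]
  refine Finset.sum_congr rfl fun s hs => ?_
  have h3 : s 3 ≤ D := (monomial_le_degreeOf _ hs).trans (hQ 3)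
  simp only [eval₂_mul, eval₂_C, eval₂_pow, eval₂_X, eval₂_add, Sum.elim_inr, Sum.elim_inl, Matrix.cons_val_zero,
    Matrix.cons_val_one, Matrix.cons_val]
  rw [Fin.prod_univ_four, show M 0 * M 3 - M 1 * M 2 + M 1 * M 2 = M 0 * M 3 by ring, mul_pow]
  have h4 : M 0 ^ (s 0 + D - s 3) * M 0 ^ (s 3) = M 0 ^ D * M 0 ^ (s 0) := by
    rw [← pow_add, ← pow_add]
    congr 1
    omega
  linear_combination (ψ (coeff s Q) * M 1 ^ s 1 * M 2 ^ s 2 * M 3 ^ s 3) * h4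

theorem elim_deg {D : ℕ} {Q : MvPolynomial (Fin 4) (𝓞 F)} (hQ : ∀ i, Q.degreeOf i ≤ D) (i : Fin 1 ⊕ Fin 3) :
    (elim D Q).degreeOf i ≤ 6 * D := by
  classical
  refine (degreeOf_le_totalDegree _ _).trans ?_
  rw [elim]
  refine totalDegree_finsetSum_le fun s hs => ?_
  have hi : ∀ i, s i ≤ D := fun i => (monomial_le_degreeOf _ hs).trans (hQ i)
  have h0 := hi 0
  have h1 := hi 1
  have h2 := hi 2
  have h3 := hi 3
  have hX : ∀ (i : Fin 1 ⊕ Fin 3) (n : ℕ), (X i ^ n : MvPolynomial (Fin 1 ⊕ Fin 3) (𝓞 F)).totalDegree ≤ n := by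
    intro i n
    exact (totalDegree_pow _ _).trans (by rw [totalDegree_X, mul_one])
  have hY : (X (Sum.inl 0) + X (Sum.inr 1) * X (Sum.inr 2) : MvPolynomial (Fin 1 ⊕ Fin 3) (𝓞 F)).totalDegree ≤ 2 := by
    refine (totalDegree_add _ _).trans (max_le ?_ ?_)
    · rw [totalDegree_X]; norm_num
    · refine (totalDegree_mul _ _).trans ?_
      rw [totalDegree_X, totalDegree_X]
  have hYp : ((X (Sum.inl 0) + X (Sum.inr 1) * X (Sum.inr 2) : MvPolynomial (Fin 1 ⊕ Fin 3) (𝓞 F)) ^ (s 3)).totalDegree ≤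
      s 3 * 2 := (totalDegree_pow _ _).trans (Nat.mul_le_mul_left _ hY)
  refine (totalDegree_mul _ _).trans ?_
  rw [totalDegree_C]
  refine le_trans (Nat.add_le_add_left ((totalDegree_mul _ _).trans (Nat.add_le_add (hX _ _)
    ((totalDegree_mul _ _).trans (Nat.add_le_add (hX _ _) ((totalDegree_mul _ _).trans
      (Nat.add_le_add (hX _ _) hYp)))))) 0) ?_
  omega

theorem elim_coeff {D : ℕ} {Q : MvPolynomial (Fin 4) (𝓞 F)} (hQ : ∀ i, Q.degreeOf i ≤ D) {R : ℝ}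
    (hR : ∀ s (φ : F →+* ℂ), ‖φ ((Q.coeff s : 𝓞 F) : F)‖ ≤ R) (hR0 : 0 ≤ R) (s : Fin 1 ⊕ Fin 3 →₀ ℕ) (φ : F →+* ℂ) :
    ‖φ (((elim D Q).coeff s : 𝓞 F) : F)‖ ≤ (D + 1) ^ 4 * (R * 2 ^ D) := by
  classical
  set ψ := φ.comp (algebraMap (𝓞 F) F) with hψ
  have h1 : φ (((elim D Q).coeff s : 𝓞 F) : F) = (MvPolynomial.map ψ (elim D Q)).coeff s := by
    rw [coeff_map]
    rfl
  rw [h1]
  refine (coeff_le_l1 _ _).trans ?_
  rw [elim, map_sum]
  refine (l1_sum _ _).trans ?_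
  have h2 : ∀ s ∈ Q.support, l1 (MvPolynomial.map ψ (C (Q.coeff s) * (X (Sum.inr 0) ^ (s 0 + D - s 3) * (X (Sum.inr 1) ^ (s 1) *
    (X (Sum.inr 2) ^ (s 2) * (X (Sum.inl 0) + X (Sum.inr 1) * X (Sum.inr 2)) ^ (s 3)))) :
      MvPolynomial (Fin 1 ⊕ Fin 3) (𝓞 F))) ≤ R * 2 ^ D := by
    intro s hs
    have h3 : s 3 ≤ D := (monomial_le_degreeOf _ hs).trans (hQ 3)
    simp only [map_mul, map_pow, map_add, MvPolynomial.map_C, MvPolynomial.map_X]
    have hX : ∀ (i : Fin 1 ⊕ Fin 3) (n : ℕ), l1 (X i ^ n : MvPolynomial (Fin 1 ⊕ Fin 3) ℂ) ≤ 1 := by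
      intro i n
      refine (l1_pow _ _).trans ?_
      rw [l1_X, one_pow]
    have hY : l1 ((X (Sum.inl 0) + X (Sum.inr 1) * X (Sum.inr 2) : MvPolynomial (Fin 1 ⊕ Fin 3) ℂ) ^ (s 3)) ≤ 2 ^ D := by
      refine (l1_pow _ _).trans ?_
      have h4 : l1 (X (Sum.inl 0) + X (Sum.inr 1) * X (Sum.inr 2) : MvPolynomial (Fin 1 ⊕ Fin 3) ℂ) ≤ 2 := by
        refine (l1_add _ _).trans ?_
        have h5 := l1_mul (X (Sum.inr 1) : MvPolynomial (Fin 1 ⊕ Fin 3) ℂ) (X (Sum.inr 2))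
        rw [l1_X, l1_X] at h5
        rw [l1_X]
        linarith
      exact (pow_le_pow_left₀ (l1_nonneg _) h4 _).trans (pow_le_pow_right₀ one_le_two h3)
    have hmul : ∀ (p q : MvPolynomial (Fin 1 ⊕ Fin 3) ℂ) (a : ℝ), l1 p ≤ 1 → l1 q ≤ a → l1 (p * q) ≤ a := by
      intro p q a hp hq
      refine (l1_mul _ _).trans ?_
      calc l1 p * l1 q ≤ 1 * l1 q := mul_le_mul_of_nonneg_right hp (l1_nonneg _)
        _ ≤ a := by rw [one_mul]; exact hq
    refine (l1_mul _ _).trans ?_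
    rw [l1_C]
    have hc : ‖ψ (Q.coeff s)‖ ≤ R := hR s φ
    have e1 := hmul _ _ _ (hX (Sum.inr 2) (s 2)) hY
    have e2 := hmul _ _ _ (hX (Sum.inr 1) (s 1)) e1
    have e3 := hmul _ _ _ (hX (Sum.inr 0) (s 0 + D - s 3)) e2
    exact mul_le_mul hc e3 (l1_nonneg _) hR0
  refine (Finset.sum_le_sum h2).trans ?_
  rw [Finset.sum_const, nsmul_eq_mul]
  refine mul_le_mul_of_nonneg_right ?_ (by positivity)
  have h3 := card_support Q hQ
  rw [Fintype.card_fin] at h3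
  exact_mod_cast h3

/-- if the determinant of `M` is not constrained, the relation is trivial -/
theorem zero_of_elim {D : ℕ} {Q : MvPolynomial (Fin 4) (𝓞 F)} (hQ : ∀ i, Q.degreeOf i ≤ D) (io : F →+* ℂ)
    (h : elim D Q = 0) : Q = 0 := by
  classical
  set ψ := io.comp (algebraMap (𝓞 F) F) with hψ
  have hinj : Function.Injective ψ := io.injective.comp (FaithfulSMul.algebraMap_injective (𝓞 F) F)
  have h1 : (X 0 : MvPolynomial (Fin 4) ℂ) * MvPolynomial.map ψ Q = 0 := by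
    apply MvPolynomial.funext
    intro M
    rw [map_mul, map_zero, eval_X, eval_map]
    by_cases h0 : M 0 = 0
    · rw [h0, zero_mul]
    · have h2 := elim_eval hQ ψ M
      rw [h, eval₂_zero] at h2
      rw [(mul_eq_zero.1 h2.symm).resolve_left (pow_ne_zero _ h0), mul_zero]
  have h2 : MvPolynomial.map ψ Q = 0 := by
    rcases mul_eq_zero.1 h1 with h3 | h3
    · exact absurd h3 (X_ne_zero 0)
    · exact h3
  exact (MvPolynomial.map_injective ψ hinj) (by rw [h2, map_zero])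

/-- **Matrices.** -/
theorem gl2 {q : ℕ} (f : Fin 3 → ℂ → ℂ) (u : Fin q → Polynomial ℂ) (w₀ : Polynomial ℂ) {c : ℂ}
    (hc : Transcendental ℚ c) (io : F →+* ℂ) {D : ℕ} {A B T : ℝ} {t : F}
    (h : ¬ Dependent f u w₀ (fun _ : Fin 1 => c) F io (6 * D) A B T t) (hT : 0 < T)
    {Q : MvPolynomial (Fin 4) (𝓞 F)} (hQ : ∀ i, Q.degreeOf i ≤ D) {R : ℝ}
    (hR : ∀ s (φ : F →+* ℂ), ‖φ ((Q.coeff s : 𝓞 F) : F)‖ ≤ R) (hR0 : 0 ≤ R) (hb : (D + 1) ^ 4 * (R * 2 ^ D) ≤ T ^ A)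
    (M : Fin 4 → ℂ) (h0 : M 0 = f 0 (io t)) (h1 : M 1 = f 1 (io t)) (h2 : M 2 = f 2 (io t))
    (h3 : M 0 * M 3 - M 1 * M 2 = c) (hM : eval₂ (io.comp (algebraMap (𝓞 F) F)) M Q = 0) : Q = 0 := by
  classical
  refine zero_of_elim hQ io (poly_zero f u w₀ hc F io h hT (elim D Q) (elim_deg hQ)
    (fun s φ => (elim_coeff hQ hR hR0 s φ).trans hb) ?_)
  have h4 := elim_eval hQ (io.comp (algebraMap (𝓞 F) F)) M
  rw [hM, mul_zero, h3] at h4
  rw [← h4]
  congr 2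
  funext j
  fin_cases j
  · exact h0.symm
  · exact h1.symm
  · exact h2.symm

/-! Composition with polynomials. -/

/-- the composition -/
noncomputable def comp {m : ℕ} (R : Fin m → MvPolynomial (Fin 4) ℤ) (Q : MvPolynomial (Fin m) (𝓞 F)) :
    MvPolynomial (Fin 4) (𝓞 F) :=
  eval₂ C (fun k => (R k).map (Int.castRingHom (𝓞 F))) Q

theorem comp_eval {m : ℕ} (R : Fin m → MvPolynomial (Fin 4) ℤ) (Q : MvPolynomial (Fin m) (𝓞 F)) (ψ : 𝓞 F →+* ℂ)
    (M : Fin 4 → ℂ) : eval₂ ψ M (comp R Q) = eval₂ ψ (fun k => aeval M (R k)) Q := by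
  have h1 : (eval₂Hom ψ M).comp (eval₂Hom C (fun k => (R k).map (Int.castRingHom (𝓞 F)))) =
      eval₂Hom ψ (fun k => aeval M (R k)) := by
    apply MvPolynomial.ringHom_ext
    · intro a
      simp
    · intro k
      simp only [RingHom.comp_apply, eval₂Hom_X', coe_eval₂Hom, eval₂_map, aeval_def]
      congr 1
      exact Subsingleton.elim _ _
  exact RingHom.congr_fun h1 Q

theorem pow_deg {σ S : Type} [CommSemiring S] {P : MvPolynomial σ S} {ρ : ℕ} (h : P.totalDegree ≤ ρ) (n : ℕ) :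
    (P ^ n).totalDegree ≤ n * ρ := (totalDegree_pow _ _).trans (Nat.mul_le_mul_left _ h)

theorem prod_deg {σ S : Type} [CommSemiring S] {m : ℕ} {P : Fin m → MvPolynomial σ S} {ρ : ℕ}
    (h : ∀ k, (P k).totalDegree ≤ ρ) (s : Fin m → ℕ) : (∏ k, P k ^ s k).totalDegree ≤ (∑ k, s k) * ρ := by
  refine (totalDegree_finsetProd _ _).trans ?_
  rw [Finset.sum_mul]
  exact Finset.sum_le_sum fun k _ => pow_deg (h k) _

theorem mono_deg {σ S : Type} [CommSemiring S] {m : ℕ} {P : Fin m → MvPolynomial σ S} {ρ δ : ℕ}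
    (h : ∀ k, (P k).totalDegree ≤ ρ) (s : Fin m → ℕ) (hs : ∑ k, s k ≤ δ) (a : S) :
    (C a * ∏ k, P k ^ s k).totalDegree ≤ δ * ρ := by
  refine (totalDegree_mul _ _).trans ?_
  rw [totalDegree_C, zero_add]
  exact (prod_deg h s).trans (Nat.mul_le_mul_right _ hs)

theorem comp_deg {m : ℕ} {R : Fin m → MvPolynomial (Fin 4) ℤ} {ρ δ : ℕ} (hR : ∀ k, (R k).totalDegree ≤ ρ)
    {Q : MvPolynomial (Fin m) (𝓞 F)} (hQ : Q.totalDegree ≤ δ) (i : Fin 4) : (comp R Q).degreeOf i ≤ δ * ρ := by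
  classical
  refine (degreeOf_le_totalDegree _ _).trans ?_
  have h0 : ∀ k, ((R k).map (Int.castRingHom (𝓞 F))).totalDegree ≤ ρ := fun k =>
    (Finset.sup_mono (support_map_subset _ _)).trans (hR k)
  have h2 : ∀ s ∈ Q.support, ∑ k, s k ≤ δ := by
    intro s hs
    have h3 := le_totalDegree hs
    rw [Finsupp.sum_fintype _ _ fun _ => rfl] at h3
    exact h3.trans hQ
  rw [comp, eval₂_eq']
  exact totalDegree_finsetSum_le fun s hs => mono_deg h0 s (h2 s hs) _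

theorem comp_coeff {m : ℕ} {R : Fin m → MvPolynomial (Fin 4) ℤ} {L : ℝ} (hL : 1 ≤ L)
    (hR : ∀ k, l1 ((R k).map (Int.castRingHom ℂ)) ≤ L) {δ : ℕ} {Q : MvPolynomial (Fin m) (𝓞 F)} (hQ : Q.totalDegree ≤ δ)
    {H : ℝ} (hH : ∀ s (φ : F →+* ℂ), ‖φ ((Q.coeff s : 𝓞 F) : F)‖ ≤ H) (hH0 : 0 ≤ H) (s : Fin 4 →₀ ℕ) (φ : F →+* ℂ) :
    ‖φ (((comp R Q).coeff s : 𝓞 F) : F)‖ ≤ (δ + 1) ^ m * (H * L ^ δ) := by
  classical
  set ψ := φ.comp (algebraMap (𝓞 F) F) with hψ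
  have h1 : φ (((comp R Q).coeff s : 𝓞 F) : F) = (MvPolynomial.map ψ (comp R Q)).coeff s := by
    rw [coeff_map]
    rfl
  rw [h1]
  refine (coeff_le_l1 _ _).trans ?_
  rw [comp, eval₂_eq', map_sum]
  refine (l1_sum _ _).trans ?_
  have h2 : ∀ s ∈ Q.support, l1 (MvPolynomial.map ψ (C (Q.coeff s) * ∏ k, ((R k).map (Int.castRingHom (𝓞 F))) ^ s k)) ≤
      H * L ^ δ := by
    intro s hs
    rw [map_mul, MvPolynomial.map_C, map_prod]
    refine (l1_mul _ _).trans ?_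
    rw [l1_C]
    refine mul_le_mul (hH s φ) ?_ (l1_nonneg _) hH0
    refine (l1_prod' _ _).trans ?_
    have h3 : ∀ k ∈ (Finset.univ : Finset (Fin m)), l1 (MvPolynomial.map ψ (((R k).map (Int.castRingHom (𝓞 F))) ^ s k)) ≤
        L ^ s k := by
      intro k _
      rw [map_pow, MvPolynomial.map_map]
      refine (l1_pow _ _).trans (pow_le_pow_left₀ (l1_nonneg _) ?_ _)
      have h4 : ψ.comp (Int.castRingHom (𝓞 F)) = Int.castRingHom ℂ := Subsingleton.elim _ _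
      rw [h4]
      exact hR k
    refine (Finset.prod_le_prod (fun k _ => l1_nonneg _) h3).trans ?_
    rw [Finset.prod_pow_eq_pow_sum]
    refine pow_le_pow_right₀ hL (le_trans ?_ hQ)
    have h5 := le_totalDegree hs
    rwa [Finsupp.sum_fintype _ _ fun _ => rfl] at h5
  refine (Finset.sum_le_sum h2).trans ?_
  rw [Finset.sum_const, nsmul_eq_mul]
  refine mul_le_mul_of_nonneg_right ?_ (by positivity)
  have h3 := card_support Q (D := δ) fun i => (degreeOf_le_totalDegree _ _).trans hQ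
  rw [Fintype.card_fin] at h3
  exact_mod_cast h3

end Pool.Agent.X39.Near
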