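import Pool.Agent.X39.Near.Sch

/-!
# `j (τ₁)` and `j (τ₂)` are algebraically independent if `exp (2 π i τ₁)`, `exp (2 π i τ₂)` are multiplicatively
independent polynomials
-/

set_option autoImplicit false

open Filter Topology MvPolynomial

noncomputable section

namespace Pool.Agent.X39.Near.Sch

open Pool.Agent.Y685 Pool.Agent.Y776 Pool.Agent.Y776.AxJ
open Pool.Agent.TH813.Rel (DF MK exists_derF bracket_mem)
open Pool.Agent.TH813.Ell (mem_cl_iff)
open Pool.Agent.Y776.Fam (TS TS_countable Gn countable_Gn countable_zeros IndC exists_cf exists_notMem countable_fam)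
open Pool.Agent.Y776.Cv (FInd)

variable {U : Set ℂ} {τ : Fin 2 → ℂ → ℂ} {P : Fin 2 → Polynomial ℂ}

/-- the functions `2 π i τ_k` -/
def ww {n : ℕ} (τ : Fin n → ℂ → ℂ) (k : Fin n) (z : ℂ) : ℂ := 2 * (Real.pi : ℂ) * Complex.I * τ k z

/-- two logarithms of polynomials -/
structure Two (U : Set ℂ) (τ : Fin 2 → ℂ → ℂ) (P : Fin 2 → Polynomial ℂ) : Prop where
  op : IsOpen U
  conn : IsPreconnected U
  ne : U.Nonempty
  an : ∀ i, AnalyticOnNhd ℂ (τ i) U
  im : ∀ i, ∀ z ∈ U, 0 < (τ i z).im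
  ind : IndC U (ww τ)
  exp : ∀ k, ∀ z ∈ U, Complex.exp (2 * (Real.pi : ℂ) * Complex.I * τ k z) = (P k).eval z

theorem nc_of {n : ℕ} {τ : Fin n → ℂ → ℂ} (h : IndC U (ww τ)) (i : Fin n) (c : ℂ) : ∃ z ∈ U, τ i z ≠ c := by
  classical
  by_contra hcon
  push Not at hcon
  have h1 := h (Pi.single i 1) (2 * (Real.pi : ℂ) * Complex.I * c) (fun z hz => by
    rw [Finset.sum_eq_single i]
    · rw [Pi.single_eq_same, Int.cast_one, one_mul, ww, hcon z hz]
    · intro k _ hk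
      rw [Pi.single_eq_of_ne hk, Int.cast_zero, zero_mul]
    · intro h
      exact absurd (Finset.mem_univ i) h)
  have h2 := congrFun h1 i
  rw [Pi.single_eq_same] at h2
  exact one_ne_zero h2

/-- the family with one point and two logarithms -/
theorem Two.fmj (h : Two U τ P) : Fmj U (fun _ : Fin 1 => τ 0) (ww τ) where
  op := h.op
  conn := h.conn
  ne := h.ne
  ta := fun _ => h.an 0
  im := fun _ => h.im 0
  nc := fun _ c => nc_of h.ind 0 c
  ji := fun i k hik => absurd (Subsingleton.elim i k) hik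
  wa := fun k z hz => analyticAt_const.mul (h.an k z hz)
  wi := h.ind

/-- five functions -/
def ys (τ : Fin 2 → ℂ → ℂ) (k : Fin 5) (z : ℂ) : ℂ :=
  ![τ 0 z, τ 1 z, h1 (τ 0 z), (LC (τ 0 z)).g₂, (LC (τ 0 z)).g₃] k

theorem Two.b_an (h : Two U τ P) (i : Fin 2) (m : Fin 5) : AnalyticOnNhd ℂ (fun z => b5 m (τ i z)) U := fun z hz =>
  AnalyticAt.fun_comp (g := b5 m) (f := τ i) (b5_an m _ (h.im i z hz)) (h.an i z hz)

theorem Two.ys_an (h : Two U τ P) (k : Fin 5) : AnalyticOnNhd ℂ (ys τ k) U := by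
  fin_cases k
  · exact h.b_an 0 0
  · exact h.b_an 1 0
  · exact h.b_an 0 1
  · exact h.b_an 0 2
  · exact h.b_an 0 3

theorem eval_mem {K : IntermediateField ℚ ℂ} {p : Polynomial ℂ} (hp : ∀ i, p.coeff i ∈ K) {z : ℂ} (hz : z ∈ K) :
    p.eval z ∈ K := by
  rw [Polynomial.eval_eq_sum_range]
  exact sum_mem fun i _ => mul_mem (hp i) (pow_mem hz i)

/-- the constants -/
def Gc (P : Fin 2 → Polynomial ℂ) : Set ℂ :=
  {(Real.pi : ℂ), Complex.I, be0} ∪ ⋃ k, Set.range fun i => (P k).coeff i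

theorem Gc_countable (P : Fin 2 → Polynomial ℂ) : (Gc P).Countable :=
  (by exact (Set.toFinite _).countable : ({(Real.pi : ℂ), Complex.I, be0} : Set ℂ).Countable).union
    (Set.countable_iUnion fun k => Set.countable_range _)

theorem Two.loc (h : Two U τ P) : ∀ t ∈ U, Pool.Agent.Y124.LocInd (ys τ) t := by
  refine loc_all h.fmj one_pos (y := ys τ) h.ys_an (by simp) (G := Gc P) (Gc_countable P) ?_
  intro F hG z hz _ k
  set K := clo F (insert z (Set.range fun k => ys τ k z)) with hK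
  have mpi : (Real.pi : ℂ) ∈ K := base_clo (hG (Or.inl (Or.inl rfl)))
  have mI : Complex.I ∈ K := base_clo (hG (Or.inl (Or.inr (Or.inl rfl))))
  have mb : be0 ∈ K := base_clo (hG (Or.inl (Or.inr (Or.inr rfl))))
  have mz : z ∈ K := subset_clo (Or.inl rfl)
  have mO : ∀ k, ys τ k z ∈ K := fun k => subset_clo (Or.inr ⟨k, rfl⟩)
  have mn : ∀ n : ℕ, (n : ℂ) ∈ K := fun n => natCast_mem _ n
  have m2 := mn 2
  have m3 := mn 3
  have m12 := mn 12
  have m27 := mn 27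
  have m1728 := mn 1728
  have m31104 := mn 31104
  push_cast at m2 m3 m12 m27 m1728 m31104
  have mt0 : τ 0 z ∈ K := mO 0
  have mt1 : τ 1 z ∈ K := mO 1
  have mh : h1 (τ 0 z) ∈ K := mO 2
  have mg2 : (LC (τ 0 z)).g₂ ∈ K := mO 3
  have mg3 : (LC (τ 0 z)).g₃ ∈ K := mO 4
  have md : dlf (τ 0 z) ∈ K := sub_mem (pow_mem mg2 3) (mul_mem m27 (pow_mem mg3 2))
  rcases k with ⟨i, m⟩ | i | i
  · fin_cases m
    · exact mt0
    · exact div_mem (mul_mem m1728 (pow_mem mg2 3)) md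
    · show deriv jf (τ 0 z) ∈ _
      rw [deriv_j (h.im 0 z hz)]
      exact div_mem (mul_mem (mul_mem (mul_mem (neg_mem m31104) mb) (pow_mem mg2 2)) mg3) md
    · show deriv (deriv jf) (τ 0 z) ∈ _
      rw [deriv_dj (h.im 0 z hz)]
      exact div_mem (mul_mem (mul_mem (neg_mem m31104) (pow_mem mb 2)) (sub_mem (sub_mem
        (mul_mem (mul_mem (mul_mem m2 mh) (pow_mem mg2 2)) mg3)
        (mul_mem (mul_mem m12 mg2) (pow_mem mg3 2))) (div_mem (pow_mem mg2 4) m3))) md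
  · show 2 * (Real.pi : ℂ) * Complex.I * τ i z ∈ K
    refine mul_mem (mul_mem (mul_mem m2 mpi) mI) ?_
    fin_cases i
    · exact mt0
    · exact mt1
  · show Complex.exp (2 * (Real.pi : ℂ) * Complex.I * τ i z) ∈ K
    rw [h.exp i z hz]
    exact eval_mem (fun j => base_clo (hG (Or.inr (Set.mem_iUnion.2 ⟨i, j, rfl⟩)))) mz

/-- the base functions -/
def bs (τ : Fin 2 → ℂ → ℂ) (o : Option (Fin 2 × Fin 5)) : ℂ → ℂ := o.elim (fun z => z) fun p z => b5 p.2 (τ p.1 z)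

theorem Two.bs_an (h : Two U τ P) (o : Option (Fin 2 × Fin 5)) : AnalyticOnNhd ℂ (bs τ o) U := by
  rcases o with _ | ⟨i, m⟩
  · exact analyticOnNhd_id
  · exact h.b_an i m

/-- all derivatives -/
def fm (τ : Fin 2 → ℂ → ℂ) (k : Option (Fin 2 × Fin 5) × ℕ) : ℂ → ℂ := deriv^[k.2] (bs τ k.1)

theorem Two.fm_an (h : Two U τ P) (k : Option (Fin 2 × Fin 5) × ℕ) : AnalyticOnNhd ℂ (fm τ k) U :=
  (h.bs_an k.1).iterated_deriv k.2

/-- the names -/
def nm (o : Option (Fin 5)) : Option (Fin 2 × Fin 5) × ℕ :=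
  (o.elim none fun k => some ((![(0, 0), (1, 0), (0, 1), (0, 2), (0, 3)] : Fin 5 → Fin 2 × Fin 5) k), 0)

theorem nm_eq (τ : Fin 2 → ℂ → ℂ) (o : Option (Fin 5)) (z : ℂ) : fm τ (nm o) z = o.elim z fun k => ys τ k z := by
  rcases o with _ | k
  · rfl
  · fin_cases k <;> rfl

theorem Two.find (h : Two U τ P) : FInd U (fun o : Option (Fin 5) => fm τ (nm o)) := by
  intro Q hQ
  obtain ⟨t, ht⟩ := h.ne
  refine h.loc t ht Q ?_
  filter_upwards [h.op.mem_nhds ht] with z hz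
  rw [← hQ z hz]
  congr 2
  funext o
  exact (nm_eq τ o z).symm

/-- generic points -/
structure Gp2 (U : Set ℂ) (τ : Fin 2 → ℂ → ℂ) (F : IntermediateField ℚ ℂ) (z₀ : ℂ) : Prop where
  mem : z₀ ∈ U
  gn : Gn U F (fm τ) z₀
  dt : ∀ i, deriv (τ i) z₀ ≠ 0
  t0 : ∀ i, τ i z₀ ∉ T0

theorem Two.countable (h : Two U τ P) {F : IntermediateField ℚ ℂ} (hF : (F : Set ℂ).Countable) :
    {z | z ∈ U ∧ ¬ Gp2 U τ F z}.Countable := by
  classical
  have hFc : Countable F := hF.to_subtype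
  have c2 := countable_Gn h.conn hF h.fm_an
  have c3 := countable_fam h.conn (ι := Fin 2) (fun i => deriv (τ i)) (fun i => (h.an i).deriv)
    (fun i => deriv_ne h.op h.conn h.ne (h.an i) (nc_of h.ind i))
  have c4 : {z | z ∈ U ∧ ∃ i, τ i z ∈ T0}.Countable := by
    refine (Set.countable_iUnion fun i : Fin 2 => T0_spec.1.biUnion (fun c _ =>
      countable_zeros h.conn (f := fun z => τ i z - c) ((h.an i).sub analyticOnNhd_const) ?_)).mono ?_
    · obtain ⟨z, hz, hzne⟩ := nc_of h.ind i c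
      exact ⟨z, hz, sub_ne_zero.2 hzne⟩
    · rintro z ⟨hz, i, hT⟩
      exact Set.mem_iUnion.2 ⟨i, Set.mem_biUnion hT ⟨hz, sub_self _⟩⟩
  refine ((c2.union c3).union c4).mono ?_
  rintro z ⟨hz, hg⟩
  by_contra hcon
  simp only [Set.mem_union, not_or] at hcon
  obtain ⟨⟨d2, d3⟩, d4⟩ := hcon
  apply hg
  refine ⟨hz, ?_, fun i h0 => d3 ⟨hz, i, h0⟩, fun i h0 => d4 ⟨hz, i, h0⟩⟩
  by_contra hG
  exact d2 ⟨hz, hG⟩

/-- two numbers, the first one not constant, which satisfy an equation -/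
theorem mem_of_eq {C : IntermediateField ℚ ℂ} {D : Derivation ℚ ℂ ℂ} (hD : D ∈ DF C) {x y : ℂ} (hx : D x ≠ 0)
    {Q : MvPolynomial (Fin 2) C} (hQ : Q ≠ 0) (h : aeval ![x, y] Q = 0) : y ∈ clo C {x} := by
  classical
  by_contra hcon
  have h1 : x ∉ (MK C).closure ∅ := by
    intro hx'
    exact hx ((mem_cl_iff ∅ x).1 hx' D hD (fun y hy => absurd hy (Set.notMem_empty y)))
  obtain ⟨i1, -⟩ := ((MK C).empty_indep.notMem_closure_iff (Set.mem_univ _)).1 h1
  have h2 : y ∉ (MK C).closure (insert x ∅) := by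
    rw [← mem_clo_iff]
    simpa using hcon
  obtain ⟨i2, hne⟩ := (i1.notMem_closure_iff (Set.mem_univ _)).1 h2
  have hind : AlgebraicIndependent C (fun i : ↥(insert y (insert x (∅ : Set ℂ))) => (i : ℂ)) := i2
  have hxy : y ≠ x := fun h => hne (Or.inl h)
  have hcomp := hind.comp (![⟨x, Or.inr (Or.inl rfl)⟩, ⟨y, Or.inl rfl⟩] : Fin 2 → ↥(insert y (insert x (∅ : Set ℂ))))
    (by
      intro a b hab
      fin_cases a <;> fin_cases b
      · rfl
      · exact absurd (congrArg Subtype.val hab) hxy.symm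
      · exact absurd (congrArg Subtype.val hab) hxy
      · rfl)
  have hfun : ((fun i : ↥(insert y (insert x (∅ : Set ℂ))) => (i : ℂ)) ∘
      (![⟨x, Or.inr (Or.inl rfl)⟩, ⟨y, Or.inl rfl⟩] : Fin 2 → ↥(insert y (insert x (∅ : Set ℂ))))) = ![x, y] := by
    funext a
    fin_cases a <;> rfl
  rw [hfun] at hcomp
  exact hQ ((injective_iff_map_eq_zero _).1 hcomp Q h)

/-- **the theorem on pairs** -/
theorem Two.jind (h : Two U τ P) : FInd U (fun (m : Fin 2) z => jf (τ m z)) := by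
  classical
  intro Q hQ
  by_contra hne
  obtain ⟨F, hFc, hF⟩ := exists_cf (T := Gc P ∪ (Q.coeffs : Set ℂ)) ((Gc_countable P).union (Finset.countable_toSet _))
  obtain ⟨z₀, hz₀, hnot⟩ := exists_notMem h.op h.ne (h.countable hFc)
  have g : Gp2 U τ F z₀ := by
    by_contra hcon
    exact hnot ⟨hz₀, hcon⟩
  obtain ⟨D, hDF, hD⟩ := exists_Dinf h.op hz₀ h.fm_an g.gn
  have hder : ∀ {k : Option (Fin 2 × Fin 5)} {d : ℂ}, HasDerivAt (bs τ k) d z₀ → D (bs τ k z₀) = d := by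
    intro k d hd
    have h1 := hD (k, 0)
    exact h1.trans hd.deriv
  have hai := fun i => T0_spec.2 (τ i z₀) (h.im i z₀ hz₀) (g.t0 i)
  have hok : ∀ i, (QL (τ i z₀)).Ok := fun i => QL_ok (hai i)
  have hDb : D be0 = 0 := hDF _ (hF (Or.inl (Or.inl (Or.inr (Or.inr rfl)))))
  have hDpi : D (Real.pi : ℂ) = 0 := hDF _ (hF (Or.inl (Or.inl (Or.inl rfl))))
  have hDI : D Complex.I = 0 := hDF _ (hF (Or.inl (Or.inl (Or.inr (Or.inl rfl)))))
  have hDz : D z₀ = 1 := hder (k := none) (hasDerivAt_id z₀)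
  have hτ : ∀ i, HasDerivAt (τ i) (deriv (τ i) z₀) z₀ := fun i => (h.an i z₀ hz₀).differentiableAt.hasDerivAt
  have hDt : ∀ i, D (τ i z₀) = deriv (τ i) z₀ := fun i => hder (k := some (i, 0)) (hτ i)
  have fl : ∀ i, Fl D be0 (h1 (τ i z₀)) (LC (τ i z₀)).g₂ (LC (τ i z₀)).g₃ (deriv (τ i) z₀) := fun i =>
    { b0 := be0_ne
      c0 := g.dt i
      p0 := (hok i).p0
      q0 := (hok i).q0
      d0 := (hok i).dl
      db := hDb
      dh := hder (k := some (i, 1)) ((der_h (h.im i z₀ hz₀)).comp z₀ (hτ i))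
      dp := hder (k := some (i, 2)) ((der_p (h.im i z₀ hz₀)).comp z₀ (hτ i))
      dq := hder (k := some (i, 3)) ((der_q (h.im i z₀ hz₀)).comp z₀ (hτ i)) }
  -- the derivatives of the points
  have hc : ∀ i, deriv (τ i) z₀ ∈ clo (Cst D) {z₀} := by
    intro i
    have e1 : HasDerivAt (fun z => Complex.exp (2 * (Real.pi : ℂ) * Complex.I * τ i z))
        (Complex.exp (2 * (Real.pi : ℂ) * Complex.I * τ i z₀) * (2 * (Real.pi : ℂ) * Complex.I * deriv (τ i) z₀)) z₀ :=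
      ((hτ i).const_mul _).cexp
    have e2 : (fun z => Complex.exp (2 * (Real.pi : ℂ) * Complex.I * τ i z)) =ᶠ[𝓝 z₀] fun z => (P i).eval z := by
      filter_upwards [h.op.mem_nhds hz₀] with z hz
      exact h.exp i z hz
    have e3 := ((P i).hasDerivAt z₀).congr_of_eventuallyEq e2
    have e4 := e1.unique e3
    rw [h.exp i z₀ hz₀] at e4
    have n1 : (P i).eval z₀ ≠ 0 := by
      rw [← h.exp i z₀ hz₀]
      exact Complex.exp_ne_zero _
    have e5 : deriv (τ i) z₀ = (P i).derivative.eval z₀ / ((P i).eval z₀ * (2 * (Real.pi : ℂ) * Complex.I)) := by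
      rw [eq_div_iff (mul_ne_zero n1 Complex.two_pi_I_ne_zero), ← e4]
      ring
    have mcf : ∀ j, (P i).coeff j ∈ clo (Cst D) {z₀} := fun j => base_clo
      (show (P i).coeff j ∈ Cst D from hDF _ (hF (Or.inl (Or.inr (Set.mem_iUnion.2 ⟨i, j, rfl⟩)))))
    have mz : z₀ ∈ clo (Cst D) {z₀} := subset_clo rfl
    have m2 : (2 : ℂ) ∈ clo (Cst D) {z₀} := by
      have := natCast_mem (clo (Cst D) {z₀}) 2
      exact_mod_cast this
    rw [e5]
    refine div_mem (eval_mem (fun j => ?_) mz) (mul_mem (eval_mem mcf mz) (mul_mem (mul_mem m2 (base_clo hDpi)) (base_clo hDI)))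
    rw [Polynomial.coeff_derivative]
    refine mul_mem (mcf _) ?_
    have := natCast_mem (clo (Cst D) {z₀}) (j + 1)
    exact_mod_cast this
  -- the invariants
  have hjg := fun i => gg_of_j (h.im i z₀ hz₀) (hok i)
  have hdg : ∀ i, D (gg (QL (τ i z₀))) ≠ 0 := fun i => (fl i).dg0
  have m1728 : ∀ S : Set ℂ, (1728 : ℂ) ∈ clo (Cst D) S := fun S => by
    have := natCast_mem (clo (Cst D) S) 1728
    exact_mod_cast this
  have m27 : ∀ S : Set ℂ, (27 : ℂ) ∈ clo (Cst D) S := fun S => by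
    have := natCast_mem (clo (Cst D) S) 27
    exact_mod_cast this
  have hx0 : D (jf (τ 0 z₀)) ≠ 0 := by
    intro h0
    apply hdg 0
    have hx : gg (QL (τ 0 z₀)) ∈ clo (Cst D) {jf (τ 0 z₀)} := by
      rw [(hjg 0).2.1]
      exact div_mem (mul_mem (m27 _) (subset_clo rfl)) (sub_mem (subset_clo rfl) (m1728 _))
    exact hx D (D_mem D) (fun s hs => by rw [Set.mem_singleton_iff.1 hs]; exact h0)
  obtain ⟨Q', hQ'⟩ : ∃ Q' : MvPolynomial (Fin 2) (Cst D), MvPolynomial.map (algebraMap (Cst D) ℂ) Q' = Q := by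
    have h1 : Q ∈ Set.range (MvPolynomial.map (σ := Fin 2) (algebraMap (Cst D) ℂ)) := by
      rw [mem_range_map_iff_coeffs_subset]
      intro c hc
      exact ⟨⟨c, hDF c (hF (Or.inr hc))⟩, rfl⟩
    exact h1
  have hQ0 : Q' ≠ 0 := by
    rintro rfl
    rw [map_zero] at hQ'
    exact hne hQ'.symm
  have hQe : aeval ![jf (τ 0 z₀), jf (τ 1 z₀)] Q' = 0 := by
    have h1 := hQ z₀ hz₀
    rw [← hQ', eval_map, ← aeval_def] at h1
    rw [← h1]
    congr 1
    apply congrArg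
    funext m
    fin_cases m <;> rfl
  have hx1 := mem_of_eq (D_mem D) hx0 hQ0 hQe
  have hg : gg (QL (τ 1 z₀)) ∈ clo (Cst D) {gg (QL (τ 0 z₀))} := by
    have s1 : jf (τ 0 z₀) ∈ clo (Cst D) {gg (QL (τ 0 z₀))} := by
      rw [(hjg 0).2.2]
      exact div_mem (mul_mem (m1728 _) (subset_clo rfl)) (sub_mem (subset_clo rfl) (m27 _))
    have s2 : jf (τ 1 z₀) ∈ clo (Cst D) {gg (QL (τ 0 z₀))} :=
      clo_le (fun s hs => by rw [Set.mem_singleton_iff.1 hs]; exact s1) hx1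
    rw [(hjg 1).2.1]
    exact div_mem (mul_mem (m27 _) s2) (sub_mem s2 (m1728 _))
  -- independence of the values over the constants
  have hind := const_indep (f := fm τ) (d := fun k => (k.1, k.2 + 1)) h.op h.conn hz₀ h.fm_an
    (fun k z _ => by rw [fm, fm, Function.iterate_succ_apply']) hD nm h.find
  have hv : ∀ o, fm τ (nm o) z₀ = o.elim z₀ fun k => ys τ k z₀ := fun o => nm_eq τ o z₀
  have hS : S2 D (deriv (τ 1) z₀) = S2 D (deriv (τ 0) z₀) := by
    refine step (fl 0) (fl 1) hDz (hc 0) (hc 1) hg ?_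
    obtain ⟨δ, hδ, hv'⟩ := exists_derF (Cst D) hind (fun o => o.elim 0
      ![0, 0, 0, 2 * (LC (τ 0 z₀)).g₂, 3 * (LC (τ 0 z₀)).g₃])
    refine ⟨δ, hδ, ?_, ?_, ?_⟩
    · have := hv' none
      rwa [hv none] at this
    · have := hv' (some 3)
      rwa [hv (some 3)] at this
    · have := hv' (some 4)
      rwa [hv (some 4)] at this
  refine step2 hDz (hDt 0) (hDt 1) (g.dt 0) (g.dt 1) (hc 0) (hc 1) hS ?_
  obtain ⟨δ, hδ, hv'⟩ := exists_derF (Cst D) hind (fun o => o.elim 0 ![1, 0, 0, 0, 0])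
  refine ⟨δ, hδ, ?_, ?_, ?_⟩
  · have := hv' none
    rwa [hv none] at this
  · have := hv' (some 0)
    rwa [hv (some 0)] at this
  · have := hv' (some 1)
    rwa [hv (some 1)] at this

end Pool.Agent.X39.Near.Sch
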