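import Pool.Agent.X39.Near.Eis
import Pool.Agent.X39.Near.SchF
import Pool.Agent.X39.Near.DepInt
import Pool.Agent.X39.Near.MasterI
import Pool.Agent.X255.RH.LogR

/-!
# The function `J (q)` and its derivatives at the values of polynomials
-/

set_option autoImplicit false

open Filter Topology

noncomputable section

namespace Pool.Agent.X39.Near.JQ

open Pool.Agent.Y685 (LC h1 clo subset_clo base_clo)
open Pool.Agent.Y776 (jf be0)
open Pool.Agent.Y776.AxJ (dlf dlf_ne Fmj an_j an_dj deriv_j deriv_dj loc_all)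
open Pool.Agent.Y776.Fam (IndC)
open Pool.Agent.Y776.Cv (FInd)
open Pool.Agent.X39.Near.Sch (ww Two eval_mem)
open Pool.Agent.X39.Near.Eis (g2_eq g3_eq)

/-- the normalised Eisenstein series of weight `4` as a function of the nome -/
def E4 (q : ℂ) : ℂ := 1 + 240 * ∑' m : ℕ, ((ArithmeticFunction.sigma 3 (m + 1) : ℕ) : ℂ) * q ^ (m + 1)

/-- the normalised Eisenstein series of weight `6` as a function of the nome -/
def E6 (q : ℂ) : ℂ := 1 - 504 * ∑' m : ℕ, ((ArithmeticFunction.sigma 5 (m + 1) : ℕ) : ℂ) * q ^ (m + 1)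

/-- the function `J (q) = q⁻¹ + 744 + 196884 q + ⋯` -/
def J (q : ℂ) : ℂ := 1728 * E4 q ^ 3 / (E4 q ^ 3 - E6 q ^ 2)

/-- `J (q)`, `D J (q)`, `D² J (q)`, where `D = q d/dq` -/
def three (q : ℂ) : Fin 3 → ℂ := ![J q, q * deriv J q, q * deriv (fun u => u * deriv J u) q]

theorem pi_ne : (Real.pi : ℂ) ≠ 0 := by exact_mod_cast Real.pi_ne_zero

theorem J_exp {τ : ℂ} (hτ : 0 < τ.im) : J (Complex.exp (2 * (Real.pi : ℂ) * Complex.I * τ)) = jf τ := by
  have h1 : jf τ = 1728 * (LC τ).g₂ ^ 3 / dlf τ := rfl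
  have h2 : E4 (Complex.exp (2 * (Real.pi : ℂ) * Complex.I * τ)) = Pool.Agent.TH21.MS.E4 τ := rfl
  have h3 : E6 (Complex.exp (2 * (Real.pi : ℂ) * Complex.I * τ)) = Pool.Agent.TH21.MS.E6 τ := rfl
  have h4 := dlf_ne hτ
  rw [h1, J, h2, h3]
  have h5 : dlf τ = 64 / 27 * (Real.pi : ℂ) ^ 12 * (Pool.Agent.TH21.MS.E4 τ ^ 3 - Pool.Agent.TH21.MS.E6 τ ^ 2) := by
    rw [dlf, g2_eq hτ, g3_eq hτ]
    ring
  have h6 : Pool.Agent.TH21.MS.E4 τ ^ 3 - Pool.Agent.TH21.MS.E6 τ ^ 2 ≠ 0 := by
    intro h0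
    rw [h5, h0, mul_zero] at h4
    exact h4 rfl
  have h7 := pi_ne
  rw [h5, g2_eq hτ]
  field_simp
  ring

/-- the derivative with respect to the nome -/
theorem der_q {F f : ℂ → ℂ} (h : ∀ τ : ℂ, 0 < τ.im → F (Complex.exp (2 * (Real.pi : ℂ) * Complex.I * τ)) = f τ)
    (hf : ∀ τ : ℂ, 0 < τ.im → DifferentiableAt ℂ f τ) {τ : ℂ} (hτ : 0 < τ.im) :
    HasDerivAt F (deriv f τ / (2 * (Real.pi : ℂ) * Complex.I * Complex.exp (2 * (Real.pi : ℂ) * Complex.I * τ)))
      (Complex.exp (2 * (Real.pi : ℂ) * Complex.I * τ)) := by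
  set q₀ := Complex.exp (2 * (Real.pi : ℂ) * Complex.I * τ) with hq
  have hq0 : q₀ ≠ 0 := Complex.exp_ne_zero _
  have hpi := Complex.two_pi_I_ne_zero
  set L : ℂ → ℂ := fun q => τ + Complex.log (q / q₀) / (2 * (Real.pi : ℂ) * Complex.I) with hL
  have hL0 : L q₀ = τ := by
    rw [hL]
    simp [div_self hq0]
  have hd1 : HasDerivAt (fun q : ℂ => q / q₀) (1 / q₀) q₀ := by
    simpa using (hasDerivAt_id q₀).div_const q₀
  have hs : q₀ / q₀ ∈ Complex.slitPlane := by
    rw [div_self hq0]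
    exact Complex.one_mem_slitPlane
  have hd2 : HasDerivAt L (1 / (2 * (Real.pi : ℂ) * Complex.I * q₀)) q₀ := by
    have h1 := ((hd1.clog hs).div_const (2 * (Real.pi : ℂ) * Complex.I)).const_add τ
    refine h1.congr_deriv ?_
    rw [div_self hq0]
    field_simp
  have hev : F =ᶠ[𝓝 q₀] fun q => f (L q) := by
    have c1 : ∀ᶠ q in 𝓝 q₀, 0 < (L q).im := by
      have hc : ContinuousAt L q₀ := hd2.continuousAt
      have h2 : {w : ℂ | 0 < w.im} ∈ 𝓝 (L q₀) := by
        rw [hL0]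
        exact Pool.Agent.Y776.AxJ.isOpen_H.mem_nhds hτ
      exact hc h2
    have c2 : ∀ᶠ q in 𝓝 q₀, q ≠ 0 := isOpen_ne.mem_nhds hq0
    filter_upwards [c1, c2] with q h1 h2
    rw [← h (L q) h1]
    congr 1
    rw [hL]
    simp only
    rw [mul_add, mul_div_cancel₀ _ hpi, Complex.exp_add, Complex.exp_log (div_ne_zero h2 hq0), ← hq,
      mul_div_cancel₀ _ hq0]
  have hf' : HasDerivAt f (deriv f τ) (L q₀) := by
    rw [hL0]
    exact (hf τ hτ).hasDerivAt
  have h3 := (hf'.comp q₀ hd2).congr_of_eventuallyEq hev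
  refine h3.congr_deriv ?_
  rw [mul_one_div]

theorem J1_exp {τ : ℂ} (hτ : 0 < τ.im) : Complex.exp (2 * (Real.pi : ℂ) * Complex.I * τ) *
    deriv J (Complex.exp (2 * (Real.pi : ℂ) * Complex.I * τ)) = deriv jf τ / (2 * (Real.pi : ℂ) * Complex.I) := by
  rw [(der_q (fun τ hτ => J_exp hτ) (fun τ hτ => (an_j τ hτ).differentiableAt) hτ).deriv]
  have hpi := Complex.two_pi_I_ne_zero
  have hq0 := Complex.exp_ne_zero (2 * (Real.pi : ℂ) * Complex.I * τ)
  field_simp

theorem J2_exp {τ : ℂ} (hτ : 0 < τ.im) : Complex.exp (2 * (Real.pi : ℂ) * Complex.I * τ) *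
    deriv (fun u => u * deriv J u) (Complex.exp (2 * (Real.pi : ℂ) * Complex.I * τ)) =
      deriv (deriv jf) τ / (2 * (Real.pi : ℂ) * Complex.I) ^ 2 := by
  have hd : ∀ τ : ℂ, 0 < τ.im → HasDerivAt (fun τ => deriv jf τ / (2 * (Real.pi : ℂ) * Complex.I))
      (deriv (deriv jf) τ / (2 * (Real.pi : ℂ) * Complex.I)) τ := fun τ hτ =>
    (an_dj τ hτ).differentiableAt.hasDerivAt.div_const _
  rw [(der_q (F := fun u => u * deriv J u) (fun τ hτ => J1_exp hτ) (fun τ hτ => (hd τ hτ).differentiableAt) hτ).deriv,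
    (hd τ hτ).deriv]
  have hpi := Complex.two_pi_I_ne_zero
  have hq0 := Complex.exp_ne_zero (2 * (Real.pi : ℂ) * Complex.I * τ)
  field_simp

/-- subfamilies of independent families -/
theorem loc_comp {κ κ' : Type} {y : κ → ℂ → ℂ} (e : κ' → κ) (he : Function.Injective e) {t : ℂ}
    (h : Pool.Agent.Y124.LocInd y t) : Pool.Agent.Y124.LocInd (fun k => y (e k)) t := by
  intro P hP
  have h2 : ∀ᶠ t in 𝓝 t, MvPolynomial.eval (fun o : Option κ => o.elim t
      fun k => y k t) (MvPolynomial.rename (Option.map e) P) = 0 := by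
    filter_upwards [hP] with t ht
    rw [MvPolynomial.eval_rename]
    rw [← ht]
    congr 2
    funext o
    rcases o with _ | k <;> rfl
  have h3 := h _ h2
  exact (MvPolynomial.rename_injective _ (Option.map_injective he)) (by rw [h3, map_zero])

/-- several logarithms of polynomials -/
structure Many (U : Set ℂ) {n : ℕ} (τ : Fin n → ℂ → ℂ) (P : Fin n → Polynomial ℂ) : Prop where
  op : IsOpen U
  conn : IsPreconnected U
  ne : U.Nonempty
  an : ∀ i, AnalyticOnNhd ℂ (τ i) U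
  im : ∀ i, ∀ z ∈ U, 0 < (τ i z).im
  nc : ∀ i c, ∃ z ∈ U, τ i z ≠ c
  pair : ∀ i k, i ≠ k → IndC U (ww (fun m : Fin 2 => τ (![i, k] m)))
  exp : ∀ k, ∀ z ∈ U, Complex.exp (2 * (Real.pi : ℂ) * Complex.I * τ k z) = (P k).eval z

variable {U : Set ℂ} {n : ℕ} {τ : Fin n → ℂ → ℂ} {P : Fin n → Polynomial ℂ}

theorem Many.ji (h : Many U τ P) (i k : Fin n) (hik : i ≠ k) : FInd U (fun (m : Fin 2) (z : ℂ) => jf (τ (![i, k] m) z)) :=
  Two.jind (τ := fun m => τ (![i, k] m)) (P := fun m => P (![i, k] m))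
    { op := h.op
      conn := h.conn
      ne := h.ne
      an := fun m => h.an _
      im := fun m => h.im _
      ind := h.pair i k hik
      exp := fun m => h.exp _ }

/-- independence of the logarithms in a subset -/
def IndS (U : Set ℂ) (τ : Fin n → ℂ → ℂ) (S : Finset (Fin n)) : Prop :=
  ∀ (m : Fin n → ℤ) (c : ℂ), (∀ i, i ∉ S → m i = 0) → (∀ z ∈ U, ∑ i, (m i : ℂ) * ww τ i z = c) → m = 0

theorem exists_max (U : Set ℂ) (τ : Fin n → ℂ → ℂ) : ∃ S, IndS U τ S ∧ ∀ k, k ∉ S → ∃ (m : Fin n → ℤ) (c : ℂ), m k ≠ 0 ∧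
    (∀ i, i ∉ S → i ≠ k → m i = 0) ∧ ∀ z ∈ U, ∑ i, (m i : ℂ) * ww τ i z = c := by
  classical
  have h0 : IndS U τ ∅ := fun m c hm _ => funext fun i => hm i (Finset.notMem_empty i)
  obtain ⟨S, hS, hmax⟩ := Finset.exists_max_image (Finset.univ.filter fun S : Finset (Fin n) => IndS U τ S) Finset.card
    ⟨∅, by simp [h0]⟩
  rw [Finset.mem_filter] at hS
  refine ⟨S, hS.2, fun k hk => ?_⟩
  have h1 : ¬ IndS U τ (insert k S) := by
    intro h
    have h2 := hmax (insert k S) (by simp [h])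
    rw [Finset.card_insert_of_notMem hk] at h2
    omega
  unfold IndS at h1
  push Not at h1
  obtain ⟨m, c, h2, h3, h4⟩ := h1
  refine ⟨m, c, ?_, fun i hi hik => h2 i (by simp [hi, hik]), h3⟩
  intro hmk
  apply h4
  refine hS.2 m c (fun i hi => ?_) h3
  by_cases hik : i = k
  · rw [hik, hmk]
  · exact h2 i (by simp [hi, hik])

/-- the logarithms in a subset -/
def wS (τ : Fin n → ℂ → ℂ) (S : Finset (Fin n)) (a : Fin S.card) : ℂ → ℂ := ww τ (S.equivFin.symm a)

theorem wS_ind {S : Finset (Fin n)} (h : IndS U τ S) : IndC U (wS τ S) := by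
  classical
  intro m c hm
  have h1 := h (fun i => if hi : i ∈ S then m (S.equivFin ⟨i, hi⟩) else 0) c (fun i hi => by simp [hi]) (fun z hz => by
    rw [← hm z hz]
    have e1 : ∑ i, (((if hi : i ∈ S then m (S.equivFin ⟨i, hi⟩) else 0 : ℤ)) : ℂ) * ww τ i z =
        ∑ i ∈ S, (((if hi : i ∈ S then m (S.equivFin ⟨i, hi⟩) else 0 : ℤ)) : ℂ) * ww τ i z := by
      symm
      refine Finset.sum_subset (Finset.subset_univ S) fun i _ hi => ?_
      simp [hi]
    rw [e1, ← Finset.sum_coe_sort S, ← S.equivFin.symm.sum_comp]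
    refine Finset.sum_congr rfl fun a _ => ?_
    rw [dif_pos (S.equivFin.symm a).2]
    simp [wS])
  funext a
  have h2 := congrFun h1 (S.equivFin.symm a)
  simp only [Finset.coe_mem, dite_true, Pi.zero_apply] at h2
  simpa using h2

theorem Many.fmj (h : Many U τ P) {S : Finset (Fin n)} (hS : IndS U τ S) : Fmj U τ (wS τ S) where
  op := h.op
  conn := h.conn
  ne := h.ne
  ta := h.an
  im := h.im
  nc := h.nc
  ji := h.ji
  wa := fun a z hz => analyticAt_const.mul (h.an _ z hz)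
  wi := wS_ind hS

/-- the functions -/
def yJ (τ : Fin n → ℂ → ℂ) (P : Fin n → Polynomial ℂ) (S : Finset (Fin n)) : Fin S.card ⊕ (Fin n × Fin 3) → ℂ → ℂ
  | Sum.inl a, z => wS τ S a z
  | Sum.inr (i, m), z => three ((P i).eval z) m

theorem three_an (h : Many U τ P) (i : Fin n) (m : Fin 3) : AnalyticOnNhd ℂ (fun z => three ((P i).eval z) m) U := by
  intro z hz
  have hev : ∀ᶠ w in 𝓝 z, w ∈ U := h.op.mem_nhds hz
  have hcomp : ∀ {f : ℂ → ℂ}, AnalyticOnNhd ℂ f {τ : ℂ | 0 < τ.im} → AnalyticAt ℂ (fun z => f (τ i z)) z := fun hf =>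
    AnalyticAt.fun_comp (g := _) (f := τ i) (hf _ (h.im i z hz)) (h.an i z hz)
  fin_cases m
  · refine (hcomp an_j).congr ?_
    filter_upwards [hev] with w hw
    show jf (τ i w) = J ((P i).eval w)
    rw [← h.exp i w hw, J_exp (h.im i w hw)]
  · refine ((hcomp an_dj).div_const (c := 2 * (Real.pi : ℂ) * Complex.I)).congr ?_
    filter_upwards [hev] with w hw
    show _ = (P i).eval w * deriv J ((P i).eval w)
    rw [← h.exp i w hw, J1_exp (h.im i w hw)]
  · refine ((hcomp Pool.Agent.Y776.AxJ.an_ddj).div_const (c := (2 * (Real.pi : ℂ) * Complex.I) ^ 2)).congr ?_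
    filter_upwards [hev] with w hw
    show _ = (P i).eval w * deriv (fun u => u * deriv J u) ((P i).eval w)
    rw [← h.exp i w hw, J2_exp (h.im i w hw)]

theorem yJ_an (h : Many U τ P) (S : Finset (Fin n)) (k) : AnalyticOnNhd ℂ (yJ τ P S k) U := by
  rcases k with a | ⟨i, m⟩
  · exact fun z hz => analyticAt_const.mul (h.an _ z hz)
  · exact three_an h i m

/-- **the functions `J`, `D J`, `D² J` of the values of the polynomials are independent** -/
theorem Many.loc (h : Many U τ P) (hn : 0 < n) :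
    ∀ t ∈ U, Pool.Agent.Y124.LocInd (fun (k : Fin n × Fin 3) z => three ((P k.1).eval z) k.2) t := by
  classical
  obtain ⟨S, hS, hmax⟩ := exists_max U τ
  choose! m c hmk hms hmc using hmax
  set G : Set ℂ := {(Real.pi : ℂ), Complex.I} ∪ ((⋃ k, Set.range fun i => (P k).coeff i) ∪ Set.range c) with hG
  have hGc : G.Countable := (by exact (Set.toFinite _).countable : ({(Real.pi : ℂ), Complex.I} : Set ℂ).Countable).union
    ((Set.countable_iUnion fun k => Set.countable_range _).union (Set.countable_range _))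
  have hall := loc_all (h.fmj hS) hn (y := yJ τ P S) (yJ_an h S) (by simp; ring) (G := G) hGc (by
    intro F hGF z hz _ k
    set K := clo F (insert z (Set.range fun k => yJ τ P S k z)) with hK
    have mpi : (Real.pi : ℂ) ∈ K := base_clo (hGF (Or.inl (Or.inl rfl)))
    have mI : Complex.I ∈ K := base_clo (hGF (Or.inl (Or.inr rfl)))
    have mz : z ∈ K := subset_clo (Or.inl rfl)
    have mO : ∀ k, yJ τ P S k z ∈ K := fun k => subset_clo (Or.inr ⟨k, rfl⟩)
    have m2 : (2 : ℂ) ∈ K := by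
      have := natCast_mem K 2
      exact_mod_cast this
    have mw : 2 * (Real.pi : ℂ) * Complex.I ∈ K := mul_mem (mul_mem m2 mpi) mI
    have hpi := Complex.two_pi_I_ne_zero
    have mwS : ∀ i ∈ S, ww τ i z ∈ K := by
      intro i hi
      have h1 := mO (Sum.inl (S.equivFin ⟨i, hi⟩))
      have h2 : yJ τ P S (Sum.inl (S.equivFin ⟨i, hi⟩)) z = ww τ i z := by
        show ww τ (S.equivFin.symm (S.equivFin ⟨i, hi⟩)) z = ww τ i z
        rw [Equiv.symm_apply_apply]
      rwa [h2] at h1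
    have mwA : ∀ i, ww τ i z ∈ K := by
      intro i
      by_cases hi : i ∈ S
      · exact mwS i hi
      · have h1 := hmc i hi z hz
        rw [← Finset.add_sum_erase _ _ (Finset.mem_univ i)] at h1
        have h2 : ∑ x ∈ Finset.univ.erase i, (m i x : ℂ) * ww τ x z ∈ K := by
          refine sum_mem fun x hx => ?_
          have hxi := (Finset.mem_erase.1 hx).1
          by_cases hxS : x ∈ S
          · exact mul_mem (intCast_mem K _) (mwS x hxS)
          · rw [hms i hi x hxS hxi, Int.cast_zero, zero_mul]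
            exact zero_mem _
        have h3 : (m i i : ℂ) ≠ 0 := by exact_mod_cast hmk i hi
        have h4 : ww τ i z = (c i - ∑ x ∈ Finset.univ.erase i, (m i x : ℂ) * ww τ x z) / (m i i : ℂ) := by
          rw [eq_div_iff h3, ← h1]
          ring
        rw [h4]
        exact div_mem (sub_mem (base_clo (hGF (Or.inr (Or.inr ⟨i, rfl⟩)))) h2) (intCast_mem K _)
    have mτ : ∀ i, τ i z ∈ K := by
      intro i
      have h1 := div_mem (mwA i) mw
      rwa [ww, mul_div_cancel_left₀ _ hpi] at h1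
    have mJ : ∀ i (l : Fin 3), three ((P i).eval z) l ∈ K := fun i l => mO (Sum.inr (i, l))
    rcases k with ⟨i, l⟩ | a | a
    · fin_cases l
      · exact mτ i
      · have h1 := mJ i 0
        have h2 : three ((P i).eval z) 0 = jf (τ i z) := by
          show J ((P i).eval z) = _
          rw [← h.exp i z hz, J_exp (h.im i z hz)]
        rwa [h2] at h1
      · have h1 := mul_mem (mJ i 1) mw
        have h2 : three ((P i).eval z) 1 = deriv jf (τ i z) / (2 * (Real.pi : ℂ) * Complex.I) := by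
          show (P i).eval z * deriv J ((P i).eval z) = _
          rw [← h.exp i z hz, J1_exp (h.im i z hz)]
        rwa [h2, div_mul_cancel₀ _ hpi] at h1
      · have h1 := mul_mem (mJ i 2) (pow_mem mw 2)
        have h2 : three ((P i).eval z) 2 = deriv (deriv jf) (τ i z) / (2 * (Real.pi : ℂ) * Complex.I) ^ 2 := by
          show (P i).eval z * deriv (fun u => u * deriv J u) ((P i).eval z) = _
          rw [← h.exp i z hz, J2_exp (h.im i z hz)]
        rwa [h2, div_mul_cancel₀ _ (pow_ne_zero 2 hpi)] at h1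
    · exact mwA _
    · show Complex.exp (2 * (Real.pi : ℂ) * Complex.I * τ (S.equivFin.symm a) z) ∈ K
      rw [h.exp _ z hz]
      exact eval_mem (fun j => base_clo (hGF (Or.inr (Or.inl (Set.mem_iUnion.2 ⟨_, j, rfl⟩))))) mz)
  intro t ht
  have h1 := loc_comp (y := yJ τ P S) Sum.inr Sum.inr_injective (hall t ht)
  exact h1

end Pool.Agent.X39.Near.JQ
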