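import Pool.Agent.X39.Near.JQ

/-!
# `log q`, `J (q)` and its derivatives at the values of multiplicatively independent polynomials
-/

set_option autoImplicit false

open Filter Topology

noncomputable section

namespace Pool.Agent.X39.Near.JQ

open Pool.Agent.Y685 (LC h1 clo subset_clo base_clo)
open Pool.Agent.Y776 (jf be0)
open Pool.Agent.Y776.AxJ (dlf dlf_ne Fmj an_j an_dj deriv_j deriv_dj loc_all)
open Pool.Agent.Y776.Fam (IndC)
open Pool.Agent.Y776.Cv (FInd)
open Pool.Agent.X39.Near.Sch (ww Two eval_mem)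

variable {U : Set ℂ} {n : ℕ} {τ : Fin n → ℂ → ℂ} {P : Fin n → Polynomial ℂ}

/-- the functions, with the logarithms -/
def yL (τ : Fin n → ℂ → ℂ) (P : Fin n → Polynomial ℂ) : Fin n ⊕ (Fin n × Fin 3) → ℂ → ℂ
  | Sum.inl i, z => ww τ i z
  | Sum.inr (i, m), z => three ((P i).eval z) m

theorem yL_an (h : Many U τ P) (k) : AnalyticOnNhd ℂ (yL τ P k) U := by
  rcases k with i | ⟨i, m⟩
  · exact fun z hz => analyticAt_const.mul (h.an _ z hz)
  · exact three_an h i m

/-- pairs of an independent family -/
theorem pair_of (hw : IndC U (ww τ)) (i k : Fin n) (hik : i ≠ k) : IndC U (ww (fun m : Fin 2 => τ (![i, k] m))) := by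
  classical
  intro m c hm
  have h1 := hw (Pi.single i (m 0) + Pi.single k (m 1)) c (fun z hz => by
    rw [← hm z hz, Fin.sum_univ_two]
    have e : ∀ j, ((Pi.single i (m 0) + Pi.single k (m 1) : Fin n → ℤ) j : ℂ) * ww τ j z =
        (if j = i then (m 0 : ℂ) * ww τ i z else 0) + (if j = k then (m 1 : ℂ) * ww τ k z else 0) := by
      intro j
      rw [Pi.add_apply, Int.cast_add, add_mul]
      congr 1
      · by_cases h : j = i
        · rw [h, Pi.single_eq_same, if_pos rfl]
        · rw [Pi.single_eq_of_ne h, if_neg h, Int.cast_zero, zero_mul]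
      · by_cases h : j = k
        · rw [h, Pi.single_eq_same, if_pos rfl]
        · rw [Pi.single_eq_of_ne h, if_neg h, Int.cast_zero, zero_mul]
    rw [Finset.sum_congr rfl fun j _ => e j, Finset.sum_add_distrib, Finset.sum_ite_eq' Finset.univ i,
      Finset.sum_ite_eq' Finset.univ k, if_pos (Finset.mem_univ _), if_pos (Finset.mem_univ _)]
    rfl)
  have h2 := congrFun h1 i
  have h3 := congrFun h1 k
  rw [Pi.add_apply, Pi.single_eq_same, Pi.single_eq_of_ne hik, add_zero, Pi.zero_apply] at h2
  rw [Pi.add_apply, Pi.single_eq_same, Pi.single_eq_of_ne hik.symm, zero_add, Pi.zero_apply] at h3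
  funext a
  fin_cases a
  · exact h2
  · exact h3

/-- **the functions `log q`, `J`, `D J`, `D² J` of the values of the polynomials are independent** -/
theorem Many.loc_logs (h : Many U τ P) (hn : 0 < n) (hw : IndC U (ww τ)) :
    ∀ t ∈ U, Pool.Agent.Y124.LocInd (yL τ P) t := by
  classical
  have hf : Fmj U τ (ww τ) :=
    { op := h.op
      conn := h.conn
      ne := h.ne
      ta := h.an
      im := h.im
      nc := h.nc
      ji := h.ji
      wa := fun a z hz => analyticAt_const.mul (h.an _ z hz)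
      wi := hw }
  set G : Set ℂ := {(Real.pi : ℂ), Complex.I} ∪ (⋃ k, Set.range fun i => (P k).coeff i) with hG
  have hGc : G.Countable := (by exact (Set.toFinite _).countable : ({(Real.pi : ℂ), Complex.I} : Set ℂ).Countable).union
    (Set.countable_iUnion fun k => Set.countable_range _)
  refine loc_all hf hn (y := yL τ P) (yL_an h) (by simp; ring) (G := G) hGc ?_
  intro F hGF z hz _ k
  set K := clo F (insert z (Set.range fun k => yL τ P k z)) with hK
  have mpi : (Real.pi : ℂ) ∈ K := base_clo (hGF (Or.inl (Or.inl rfl)))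
  have mI : Complex.I ∈ K := base_clo (hGF (Or.inl (Or.inr rfl)))
  have mz : z ∈ K := subset_clo (Or.inl rfl)
  have mO : ∀ k, yL τ P k z ∈ K := fun k => subset_clo (Or.inr ⟨k, rfl⟩)
  have m2 : (2 : ℂ) ∈ K := by
    have := natCast_mem K 2
    exact_mod_cast this
  have mw : 2 * (Real.pi : ℂ) * Complex.I ∈ K := mul_mem (mul_mem m2 mpi) mI
  have hpi := Complex.two_pi_I_ne_zero
  have mwA : ∀ i, ww τ i z ∈ K := fun i => mO (Sum.inl i)
  have mJ : ∀ i (l : Fin 3), three ((P i).eval z) l ∈ K := fun i l => mO (Sum.inr (i, l))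
  rcases k with ⟨i, l⟩ | a | a
  · fin_cases l
    · have h1 := div_mem (mwA i) mw
      rwa [ww, mul_div_cancel_left₀ _ hpi] at h1
    · have h1 := mJ i 0
      have h2 : three ((P i).eval z) 0 = jf (τ i z) := by
        show J ((P i).eval z) = _
        rw [← h.exp i z hz, J_exp (h.im i z hz)]
      rwa [h2] at h1
    · have h1 := mul_mem (mJ i 1) mw
      have h2 : three ((P i).eval z) 1 = deriv jf (τ i z) / (2 * (Real.pi : ℂ) * Complex.I) := by
        show (P i).eval z * deriv J ((P i).eval z) = _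
        rw [← h.exp i z hz, J1_exp (h.im i z hz)]
      rwa [h2, div_mul_cancel₀ _ hpi] at h1
    · have h1 := mul_mem (mJ i 2) (pow_mem mw 2)
      have h2 : three ((P i).eval z) 2 = deriv (deriv jf) (τ i z) / (2 * (Real.pi : ℂ) * Complex.I) ^ 2 := by
        show (P i).eval z * deriv (fun u => u * deriv J u) ((P i).eval z) = _
        rw [← h.exp i z hz, J2_exp (h.im i z hz)]
      rwa [h2, div_mul_cancel₀ _ (pow_ne_zero 2 hpi)] at h1
  · exact mwA a
  · show Complex.exp (2 * (Real.pi : ℂ) * Complex.I * τ a z) ∈ K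
    rw [h.exp _ z hz]
    exact eval_mem (fun j => base_clo (hGF (Or.inr (Set.mem_iUnion.2 ⟨_, j, rfl⟩)))) mz

end Pool.Agent.X39.Near.JQ
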