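import Pool.Agent.X39.Near.Fam

/-! Approximations in a box, with exceptional sets which depend on the level. -/

set_option autoImplicit false

namespace Pool.Agent.X39.Near

open Filter Topology MeasureTheory

/-- sets of dimension less than the number of coordinates are null sets -/
theorem vol_zero_vec {κ : Type} [Fintype κ] {E : Set (κ → ℝ)} {D : ℝ} (h : dimH E ≤ ENNReal.ofReal D)
    (h0 : 0 ≤ D) (hD : D < Fintype.card κ) : volume E = 0 := by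
  have h1 : dimH E < (((Fintype.card κ : ℕ) : NNReal) : ENNReal) := by
    refine lt_of_le_of_lt h ?_
    have h3 : (((Fintype.card κ : ℕ) : NNReal) : ENNReal) = ENNReal.ofReal ((Fintype.card κ : ℕ) : ℝ) := by
      rw [ENNReal.ofReal_natCast]
      rfl
    rw [h3]
    exact (ENNReal.ofReal_lt_ofReal_iff (lt_of_le_of_lt h0 hD)).2 hD
  have h2 : Measure.hausdorffMeasure (X := κ → ℝ) (Fintype.card κ : ℝ) E = 0 := by
    simpa using hausdorffMeasure_of_dimH_lt (d := ((Fintype.card κ : ℕ) : NNReal)) h1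
  rwa [hausdorffMeasure_pi_real] at h2

/-- **Tuples of rational numbers in a box.** `Exc T` has at most `C T ^ s` elements and contains the
tuples of the box with the property `Bad` and with largest denominator in `[T / 2, T]`. -/
theorem levTuples {κ : Type} [Fintype κ] (a b : κ → ℝ) (Bad : (κ → ℚ) → Prop)
    (Exc : ℝ → Set (κ → ℚ)) {s ω C T₀ : ℝ} (hs : 0 ≤ s) (hω : 0 < ω)
    (hE : ∀ T : ℝ, 1 ≤ T → (Exc T).Finite ∧ ((Exc T).ncard : ℝ) ≤ C * T ^ s)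
    (hSE : ∀ T : ℝ, T₀ ≤ T → ∀ q : κ → ℚ, (∀ j, a j ≤ q j ∧ (q j : ℝ) ≤ b j) → Bad q →
      T ≤ 2 * maxDen q → maxDen q ≤ T → q ∈ Exc T) :
    ∃ E : Set (κ → ℝ), dimH E ≤ ENNReal.ofReal (s / ω) ∧ ∀ ξ : κ → ℝ, ξ ∉ E →
      (∀ j, a j < ξ j ∧ ξ j < b j) → ∀ A : ℝ,
      {q : κ → ℚ | (∀ j, |(q j : ℝ) - ξ j| ≤ A * (maxDen q) ^ (-ω)) ∧ Bad q}.Finite := by
  obtain ⟨E, h1, h2⟩ := nearTuples {q : κ → ℚ | (∀ j, a j ≤ q j ∧ (q j : ℝ) ≤ b j) ∧ Bad q} Exc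
    (s := s) (ω := ω) (C := C) (T₀ := T₀) hs hω hE (fun T hT q hq => hSE T hT q hq.1 hq.2)
  refine ⟨E, h1, fun ξ hξ hbox A => ?_⟩
  -- the tuples outside the box have bounded denominators
  obtain ⟨δ, hδ, hδ1⟩ : ∃ δ : ℝ, 0 < δ ∧ ∀ j, a j ≤ ξ j - δ ∧ ξ j + δ ≤ b j := by
    rcases isEmpty_or_nonempty κ with hκ | hκ
    · exact ⟨1, one_pos, fun j => (hκ.false j).elim⟩
    · obtain ⟨j₀, -, hj₀⟩ := Finset.exists_min_image Finset.univ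
        (fun j => min (ξ j - a j) (b j - ξ j)) Finset.univ_nonempty
      refine ⟨min (ξ j₀ - a j₀) (b j₀ - ξ j₀), lt_min (sub_pos.2 (hbox j₀).1) (sub_pos.2 (hbox j₀).2),
        fun j => ?_⟩
      have h3 := hj₀ j (Finset.mem_univ j)
      have h4 := h3.trans (min_le_left _ _)
      have h5 := h3.trans (min_le_right _ _)
      constructor <;> linarith
  obtain ⟨X, hX1, hX⟩ : ∃ X : ℝ, 1 ≤ X ∧ ∀ y : ℝ, X ≤ y → A * y ^ (-ω) ≤ δ := by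
    have h3 : Tendsto (fun y : ℝ => A * y ^ (-ω)) atTop (𝓝 0) := by
      have := (tendsto_rpow_neg_atTop hω).const_mul A
      simpa using this
    obtain ⟨X, hX⟩ := (h3.eventually (ge_mem_nhds hδ)).exists_forall_of_atTop
    exact ⟨max 1 X, le_max_left _ _, fun y hy => hX y ((le_max_right _ _).trans hy)⟩
  have hfin : {q : κ → ℚ | (∀ j, |(q j : ℝ) - ξ j| ≤ |A|) ∧ maxDen q ≤ X}.Finite := by
    obtain ⟨R, hR⟩ : ∃ R : ℕ, ∀ j, |ξ j| + |A| ≤ R := by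
      obtain ⟨M, hM⟩ := Finset.exists_le (Finset.univ.image fun j => ⌈|ξ j| + |A|⌉₊)
      refine ⟨M, fun j => ?_⟩
      have h3 := hM ⌈|ξ j| + |A|⌉₊ (Finset.mem_image_of_mem _ (Finset.mem_univ j))
      exact (Nat.le_ceil _).trans (by exact_mod_cast h3)
    have h3 : {q : κ → ℚ | ∀ j, q j ∈ {t : ℚ | |(t.num : ℝ)| ≤ (R : ℝ) * X ∧ (t.den : ℝ) ≤ X}}.Finite :=
      Set.Finite.pi' fun _ => finite_box _ _
    refine h3.subset ?_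
    rintro q ⟨h4, h5⟩ j
    have h6 := (den_le_maxDen q j).trans h5
    refine ⟨num_le ?_ h6, h6⟩
    calc |(q j : ℝ)| = |ξ j + ((q j : ℝ) - ξ j)| := by ring_nf
      _ ≤ |ξ j| + |(q j : ℝ) - ξ j| := abs_add_le _ _
      _ ≤ |ξ j| + |A| := by linarith [h4 j]
      _ ≤ R := hR j
  refine (hfin.union (h2 ξ hξ A)).subset ?_
  rintro q ⟨h3, h4⟩
  rcases le_or_gt (maxDen q) X with h5 | h5
  · left
    refine ⟨fun j => (h3 j).trans ?_, h5⟩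
    have h6 : (maxDen q) ^ (-ω) ≤ 1 :=
      Real.rpow_le_one_of_one_le_of_nonpos (one_le_maxDen q) (by linarith)
    have h7 : 0 ≤ (maxDen q) ^ (-ω) := Real.rpow_nonneg (by linarith [one_le_maxDen q]) _
    calc A * (maxDen q) ^ (-ω) ≤ |A| * (maxDen q) ^ (-ω) :=
          mul_le_mul_of_nonneg_right (le_abs_self A) h7
      _ ≤ |A| * 1 := mul_le_mul_of_nonneg_left h6 (abs_nonneg A)
      _ = |A| := mul_one _
  · right
    refine ⟨⟨fun j => ?_, h4⟩, h3⟩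
    have h6 := abs_le.1 ((h3 j).trans (hX _ h5.le))
    constructor
    · linarith [(hδ1 j).1, h6.1]
    · linarith [(hδ1 j).2, h6.2]

/-- **Rational numbers in an interval.** -/
theorem levOne (a b : ℝ) (Bad : ℚ → Prop) (Exc : ℝ → Set ℚ) {s ω C T₀ : ℝ} (hs : 0 ≤ s) (hω : 0 < ω)
    (hE : ∀ T : ℝ, 1 ≤ T → (Exc T).Finite ∧ ((Exc T).ncard : ℝ) ≤ C * T ^ s)
    (hSE : ∀ T : ℝ, T₀ ≤ T → ∀ q : ℚ, a ≤ q → (q : ℝ) ≤ b → Bad q →
      T ≤ 2 * (q.den : ℝ) → (q.den : ℝ) ≤ T → q ∈ Exc T) :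
    ∃ E : Set ℝ, dimH E ≤ ENNReal.ofReal (s / ω) ∧ ∀ ξ : ℝ, ξ ∉ E → a < ξ → ξ < b → ∀ A : ℝ,
      {q : ℚ | |(q : ℝ) - ξ| ≤ A * (q.den : ℝ) ^ (-ω) ∧ Bad q}.Finite := by
  have hmax : ∀ q : Unit → ℚ, maxDen q = ((q ()).den : ℝ) := by
    intro q
    refine le_antisymm (maxDen_le (by exact_mod_cast (q ()).pos) fun j => le_rfl) (den_le_maxDen q ())
  obtain ⟨E, h1, h2⟩ := levTuples (κ := Unit) (fun _ => a) (fun _ => b) (fun q => Bad (q ()))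
    (fun T => {q | q () ∈ Exc T}) (s := s) (ω := ω) (C := C) (T₀ := T₀) hs hω (by
      intro T hT
      obtain ⟨h3, h4⟩ := hE T hT
      have hinj : Set.InjOn (fun q : Unit → ℚ => q ()) {q | q () ∈ Exc T} := by
        intro a _ b _ hab
        funext u
        exact hab
      have him : (fun q : Unit → ℚ => q ()) '' {q | q () ∈ Exc T} ⊆ Exc T := by
        rintro _ ⟨q, hq, rfl⟩
        exact hq
      refine ⟨Set.Finite.of_finite_image (h3.subset him) hinj, ?_⟩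
      rw [← hinj.ncard_image]
      refine le_trans ?_ h4
      exact_mod_cast Set.ncard_le_ncard him h3)
    (by
      intro T hT q hq hb h3 h4
      rw [hmax] at h3 h4
      exact hSE T hT _ (hq ()).1 (hq ()).2 hb h3 h4)
  refine ⟨{a : ℝ | (fun _ => a : Unit → ℝ) ∈ E}, ?_, fun ξ hξ ha hb A => ?_⟩
  · have hiso : Isometry (fun a : ℝ => (fun _ => a : Unit → ℝ)) := by
      refine Isometry.of_dist_eq fun a b => ?_
      simp [dist_pi_const]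
    rw [← hiso.dimH_image]
    refine (dimH_mono ?_).trans h1
    rintro _ ⟨a, ha, rfl⟩
    exact ha
  · have h3 := h2 (fun _ => ξ) hξ (fun _ => ⟨ha, hb⟩) A
    have h4 : Function.Injective (fun q : ℚ => (fun _ => q : Unit → ℚ)) := fun a b hab =>
      congrFun hab ()
    refine (h3.preimage h4.injOn).subset ?_
    rintro q ⟨h5, h6⟩
    refine ⟨fun _ => ?_, h6⟩
    rw [hmax]
    exact h5

/-- the convergents of an irrational number do not have the property `Bad`, from some point on -/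
theorem conv_bad {ξ : ℝ} (hξ : Irrational ξ) {Bad : ℚ → Prop}
    (h : {q : ℚ | |(q : ℝ) - ξ| ≤ 1 * (q.den : ℝ) ^ (-(2 : ℝ)) ∧ Bad q}.Finite) :
    ∃ n₀ : ℕ, ∀ n : ℕ, n₀ ≤ n → ¬ Bad (ξ.convergent n) :=
  conv hξ (S := {q | Bad q}) (h.subset fun _ hq => ⟨hq.2, hq.1⟩)

/-- almost all real numbers are irrational -/
theorem ae_irrational : ∀ᵐ ξ : ℝ, Irrational ξ := by
  have h := (Set.countable_range ((↑) : ℚ → ℝ)).measure_zero volume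
  filter_upwards [measure_eq_zero_iff_ae_notMem.1 h] with ξ hξ
  exact hξ

/-- a power with a negative exponent at the level `T` -/
lemma rpow_level {D T B : ℝ} (hD : 1 ≤ D) (hT : 4 ≤ T) (h : T ≤ 2 * D) :
    D ^ (-(2 * |B|)) ≤ T ^ (-B) := by
  have h1 : T ≤ D ^ (2 : ℝ) := by
    have h2 : D ^ (2 : ℝ) = D * D := by rw [Real.rpow_two, sq]
    rw [h2]
    nlinarith
  calc D ^ (-(2 * |B|)) = (D ^ (2 : ℝ)) ^ (-|B|) := by
        rw [← Real.rpow_mul (by linarith)]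
        ring_nf
    _ ≤ T ^ (-|B|) := Real.rpow_le_rpow_of_nonpos (by linarith) h1 (by linarith [abs_nonneg B])
    _ ≤ T ^ (-B) := Real.rpow_le_rpow_of_exponent_le (by linarith) (by linarith [le_abs_self B])

/-- **The forms for one rational parameter.** `Bad d A B q`: the numbers at `q` satisfy a relation of
degree at most `d` and height at most `den(q) ^ A`, up to `den(q) ^ (-B)`. -/
theorem levPack (a b : ℝ) (Bad : ℕ → ℝ → ℝ → ℚ → Prop) (β₀ : ℕ → ℝ) (h0 : ∀ d, 0 ≤ β₀ d)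
    (h2 : ∀ d, β₀ d < 2)
    (main : ∀ (d : ℕ) (A β : ℝ), 0 ≤ A → β₀ d < β → ∃ (B C T₀ : ℝ) (Exc : ℝ → Set ℚ),
      (∀ T : ℝ, 1 ≤ T → (Exc T).Finite ∧ ((Exc T).ncard : ℝ) ≤ C * T ^ β) ∧
      ∀ T : ℝ, T₀ ≤ T → ∀ q : ℚ, a ≤ q → (q : ℝ) ≤ b → Bad d A B q →
        T ≤ 2 * (q.den : ℝ) → (q.den : ℝ) ≤ T → q ∈ Exc T) :
    (∀ (d : ℕ) (A β : ℝ), 0 ≤ A → β₀ d < β → ∃ B : ℝ,
      (∀ ω : ℝ, 0 < ω → ∃ E : Set ℝ, dimH E ≤ ENNReal.ofReal (β / ω) ∧ ∀ ξ : ℝ, ξ ∉ E →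
        a < ξ → ξ < b → ∀ K : ℝ,
          {q : ℚ | |(q : ℝ) - ξ| ≤ K * (q.den : ℝ) ^ (-ω) ∧ Bad d A B q}.Finite) ∧
      ∃ E : Set ℝ, dimH E ≤ ENNReal.ofReal (β / 2) ∧ ∀ ξ : ℝ, Irrational ξ → ξ ∉ E →
        a < ξ → ξ < b → ∃ n₀ : ℕ, ∀ k : ℕ, n₀ ≤ k → ¬ Bad d A B (ξ.convergent k)) ∧
    ∃ B : ℕ → ℕ → ℝ, ∀ᵐ ξ : ℝ, a < ξ → ξ < b → ∀ d A : ℕ,
      ∃ n₀ : ℕ, ∀ k : ℕ, n₀ ≤ k → ¬ Bad d A (B d A) (ξ.convergent k) := by
  have first : ∀ (d : ℕ) (A β : ℝ), 0 ≤ A → β₀ d < β → ∃ B : ℝ,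
      (∀ ω : ℝ, 0 < ω → ∃ E : Set ℝ, dimH E ≤ ENNReal.ofReal (β / ω) ∧ ∀ ξ : ℝ, ξ ∉ E →
        a < ξ → ξ < b → ∀ K : ℝ,
          {q : ℚ | |(q : ℝ) - ξ| ≤ K * (q.den : ℝ) ^ (-ω) ∧ Bad d A B q}.Finite) ∧
      ∃ E : Set ℝ, dimH E ≤ ENNReal.ofReal (β / 2) ∧ ∀ ξ : ℝ, Irrational ξ → ξ ∉ E →
        a < ξ → ξ < b → ∃ n₀ : ℕ, ∀ k : ℕ, n₀ ≤ k → ¬ Bad d A B (ξ.convergent k) := by
    intro d A β hA hβ
    obtain ⟨B, C, T₀, Exc, hE, hSE⟩ := main d A β hA hβ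
    have h3 : ∀ ω : ℝ, 0 < ω → ∃ E : Set ℝ, dimH E ≤ ENNReal.ofReal (β / ω) ∧ ∀ ξ : ℝ, ξ ∉ E →
        a < ξ → ξ < b → ∀ K : ℝ,
          {q : ℚ | |(q : ℝ) - ξ| ≤ K * (q.den : ℝ) ^ (-ω) ∧ Bad d A B q}.Finite := fun ω hω =>
      levOne a b (Bad d A B) Exc ((h0 d).trans hβ.le) hω hE hSE
    refine ⟨B, h3, ?_⟩
    obtain ⟨E, h4, h5⟩ := h3 2 two_pos
    exact ⟨E, h4, fun ξ hirr hξ ha hb => conv_bad hirr (h5 ξ hξ ha hb 1)⟩
  refine ⟨first, ?_⟩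
  have second : ∀ d A : ℕ, ∃ B : ℝ, ∀ᵐ ξ : ℝ, a < ξ → ξ < b →
      ∃ n₀ : ℕ, ∀ k : ℕ, n₀ ≤ k → ¬ Bad d A B (ξ.convergent k) := by
    intro d A
    obtain ⟨B, -, E, h4, h5⟩ := first d A ((β₀ d + 2) / 2) (Nat.cast_nonneg A) (by linarith [h2 d])
    refine ⟨B, ?_⟩
    have h6 : ∀ᵐ ξ : ℝ, ξ ∉ E := measure_eq_zero_iff_ae_notMem.1
      (Pool.Agent.X39.Win.vol_zero h4 (by linarith [h2 d]))
    filter_upwards [h6, ae_irrational] with ξ h7 h8 ha hb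
    exact h5 ξ h8 h7 ha hb
  choose B hB using second
  refine ⟨B, ?_⟩
  have h6 := ae_all_iff.2 fun d : ℕ => ae_all_iff.2 fun A : ℕ => hB d A
  filter_upwards [h6] with ξ hξ ha hb d A
  exact hξ d A ha hb

/-- **The forms for tuples of rational parameters.** -/
theorem levPackVec (n : ℕ) (hn : 1 ≤ n) (a b : Fin n → ℝ) (Bad : ℕ → ℝ → ℝ → (Fin n → ℚ) → Prop)
    (β₀ : ℕ → ℝ) (h0 : ∀ d, 0 ≤ β₀ d) (h2 : ∀ d, β₀ d < 2)
    (main : ∀ (d : ℕ) (A β : ℝ), 0 ≤ A → β₀ d < β → ∃ (B C T₀ : ℝ) (Exc : ℝ → Set (Fin n → ℚ)),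
      (∀ T : ℝ, 1 ≤ T → (Exc T).Finite ∧ ((Exc T).ncard : ℝ) ≤ C * T ^ (2 * ((n : ℝ) - 1) + β)) ∧
      ∀ T : ℝ, T₀ ≤ T → ∀ q : Fin n → ℚ, (∀ j, a j ≤ q j ∧ (q j : ℝ) ≤ b j) → Bad d A B q →
        T ≤ 2 * maxDen q → maxDen q ≤ T → q ∈ Exc T) :
    (∀ (d : ℕ) (A β : ℝ), 0 ≤ A → β₀ d < β → ∃ B : ℝ, ∀ ω : ℝ, 0 < ω →
      ∃ E : Set (Fin n → ℝ), dimH E ≤ ENNReal.ofReal ((2 * ((n : ℝ) - 1) + β) / ω) ∧
        ∀ ξ : Fin n → ℝ, ξ ∉ E → (∀ j, a j < ξ j ∧ ξ j < b j) → ∀ K : ℝ,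
          {q : Fin n → ℚ | (∀ j, |(q j : ℝ) - ξ j| ≤ K * (maxDen q) ^ (-ω)) ∧ Bad d A B q}.Finite) ∧
    ∃ (B : ℕ → ℕ → ℝ) (δ : ℕ → ℝ), (∀ d, 0 < δ d) ∧
      ∀ᵐ ξ : Fin n → ℝ, (∀ j, a j < ξ j ∧ ξ j < b j) → ∀ d A : ℕ,
        (∀ K : ℝ, {q : Fin n → ℚ | (∀ j, |(q j : ℝ) - ξ j| ≤ K * (maxDen q) ^ (-(2 - δ d))) ∧
          Bad d A (B d A) q}.Finite) ∧
        ∃ X : ℝ, ∀ k : Fin n → ℕ, X ≤ maxDen (fun j => (ξ j).convergent (k j)) →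
          (∀ j, (maxDen (fun j => (ξ j).convergent (k j))) ^ (2 - δ d) ≤
            (((ξ j).convergent (k j)).den : ℝ) ^ 2) →
          ¬ Bad d A (B d A) (fun j => (ξ j).convergent (k j)) := by
  have hn0 : (1 : ℝ) ≤ n := by exact_mod_cast hn
  have first : ∀ (d : ℕ) (A β : ℝ), 0 ≤ A → β₀ d < β → ∃ B : ℝ, ∀ ω : ℝ, 0 < ω →
      ∃ E : Set (Fin n → ℝ), dimH E ≤ ENNReal.ofReal ((2 * ((n : ℝ) - 1) + β) / ω) ∧
        ∀ ξ : Fin n → ℝ, ξ ∉ E → (∀ j, a j < ξ j ∧ ξ j < b j) → ∀ K : ℝ,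
          {q : Fin n → ℚ | (∀ j, |(q j : ℝ) - ξ j| ≤ K * (maxDen q) ^ (-ω)) ∧
            Bad d A B q}.Finite := by
    intro d A β hA hβ
    obtain ⟨B, C, T₀, Exc, hE, hSE⟩ := main d A β hA hβ
    refine ⟨B, fun ω hω => levTuples a b (Bad d A B) Exc ?_ hω hE hSE⟩
    linarith [h0 d]
  refine ⟨first, ?_⟩
  set δ : ℕ → ℝ := fun d => (2 - β₀ d) / (4 * n) with hδ
  have hδ0 : ∀ d, 0 < δ d := fun d => div_pos (by linarith [h2 d]) (by linarith)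
  have hnδ : ∀ d, n * δ d = (2 - β₀ d) / 4 := by
    intro d
    rw [hδ]
    field_simp
  have hδ2 : ∀ d, δ d < 2 := by
    intro d
    have h3 : δ d ≤ n * δ d := by nlinarith [hδ0 d]
    rw [hnδ] at h3
    linarith [h0 d]
  have second : ∀ d A : ℕ, ∃ B : ℝ, ∀ᵐ ξ : Fin n → ℝ, (∀ j, a j < ξ j ∧ ξ j < b j) → ∀ K : ℝ,
      {q : Fin n → ℚ | (∀ j, |(q j : ℝ) - ξ j| ≤ K * (maxDen q) ^ (-(2 - δ d))) ∧
        Bad d A B q}.Finite := by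
    intro d A
    obtain ⟨B, h3⟩ := first d A ((β₀ d + 2) / 2) (Nat.cast_nonneg A) (by linarith [h2 d])
    obtain ⟨E, h4, h5⟩ := h3 (2 - δ d) (by linarith [hδ2 d])
    refine ⟨B, ?_⟩
    have hpos : 0 < 2 - δ d := by linarith [hδ2 d]
    have h6 : ∀ᵐ ξ : Fin n → ℝ, ξ ∉ E := by
      refine measure_eq_zero_iff_ae_notMem.1 (vol_zero_vec h4 ?_ ?_)
      · exact div_nonneg (by linarith [h0 d]) hpos.le
      · rw [Fintype.card_fin, div_lt_iff₀ hpos]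
        nlinarith [hnδ d, h2 d]
    filter_upwards [h6] with ξ h7 hbox K
    exact h5 ξ h7 hbox K
  choose B hB using second
  refine ⟨B, δ, hδ0, ?_⟩
  have h6 := ae_all_iff.2 fun d : ℕ => ae_all_iff.2 fun A : ℕ => hB d A
  have h7 : ∀ᵐ ξ : Fin n → ℝ, ∀ j, Irrational (ξ j) := by
    rw [ae_all_iff]
    intro j
    exact (MeasureTheory.Measure.quasiMeasurePreserving_eval _ j).ae ae_irrational
  filter_upwards [h6, h7] with ξ hξ hirr hbox d A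
  refine ⟨hξ d A hbox, ?_⟩
  have hf := hξ d A hbox 1
  obtain ⟨X, hX⟩ := (hf.image maxDen).bddAbove
  refine ⟨X + 1, fun k hk hcmp hbad => ?_⟩
  have hmem : (fun j => (ξ j).convergent (k j)) ∈
      {q : Fin n → ℚ | (∀ j, |(q j : ℝ) - ξ j| ≤ 1 * (maxDen q) ^ (-(2 - δ d))) ∧
        Bad d A (B d A) q} := by
    refine ⟨fun j => ?_, hbad⟩
    have h8 := Pool.Agent.X123.ML.convergent_close (ξ j) (hirr j) (k j)
    have h10 : 0 ≤ maxDen (fun j => (ξ j).convergent (k j)) :=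
      le_trans zero_le_one (one_le_maxDen _)
    rw [abs_sub_comm, one_mul, Real.rpow_neg h10]
    refine h8.trans ?_
    rw [one_div]
    refine inv_anti₀ ?_ (hcmp j)
    exact Real.rpow_pos_of_pos (lt_of_lt_of_le one_pos (one_le_maxDen _)) _
  have h9 : maxDen (fun j => (ξ j).convergent (k j)) ≤ X := hX (Set.mem_image_of_mem _ hmem)
  linarith

end Pool.Agent.X39.Near
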