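import Pool.Agent.X39.Near.PolyL

/-!
# Linear forms in numbers without relations of bounded complexity and constants
-/

set_option autoImplicit false

open NumberField Filter

namespace Pool.Agent.X39.Near

open MvPolynomial

/-- the linear form with coefficients `c` -/
noncomputable def lf {I R : Type} [Fintype I] [CommRing R] (c : I → R) : MvPolynomial I R := ∑ i, C (c i) * X i

theorem single_inj {I : Type} : Function.Injective fun i : I => (Finsupp.single i 1 : I →₀ ℕ) :=
  fun _ _ h => Finsupp.single_left_injective one_ne_zero h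

theorem lf_eq {I R : Type} [Fintype I] [CommRing R] (c : I → R) :
    lf c = ∑ i, monomial (Finsupp.single i 1) (c i) := by
  unfold lf
  exact Finset.sum_congr rfl fun i _ => by rw [C_mul_X_eq_monomial]

/-- **Linear forms.** The value is not much smaller than the coefficients of the unknowns. -/
theorem lin_lower {J : Type} [Fintype J] [DecidableEq J] {q g : ℕ} (f : J → ℂ → ℂ)
    (u : Fin q → Polynomial ℂ) (w₀ : Polynomial ℂ) (ξ : Fin g → ℂ) (F : Type) [Field F] [NumberField F]
    (io : F →+* ℂ) {d : ℕ} {A B T : ℝ} {t : F} (h : ¬ Dependent f u w₀ ξ F io d A B T t)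
    (hT : 0 < T) (hd : 1 ≤ d) (m : Fin g → 𝓞 F) (n : J → 𝓞 F)
    (hm : ∀ b (φ : F →+* ℂ), ‖φ ((m b : 𝓞 F) : F)‖ ≤ T ^ A)
    (hn : ∀ j (φ : F →+* ℂ), ‖φ ((n j : 𝓞 F) : F)‖ ≤ T ^ A) (k : J) (hk : n k ≠ 0) :
    T ^ (-B) * ‖io ((n k : 𝓞 F) : F)‖ <
      ‖∑ b, ξ b * io ((m b : 𝓞 F) : F) + ∑ j, f j (io t) * io ((n j : 𝓞 F) : F)‖ := by
  classical
  have hTA : 0 ≤ T ^ A := Real.rpow_nonneg hT.le _
  set c : Fin g ⊕ J → 𝓞 F := Sum.elim m n with hc
  have hcb : ∀ i (φ : F →+* ℂ), ‖φ ((c i : 𝓞 F) : F)‖ ≤ T ^ A := by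
    rintro (b | j) φ
    · exact hm b φ
    · exact hn j φ
  have hev : eval₂ (io.comp (algebraMap (𝓞 F) F)) (Sum.elim ξ fun j => f j (io t)) (lf c) =
      ∑ b, ξ b * io ((m b : 𝓞 F) : F) + ∑ j, f j (io t) * io ((n j : 𝓞 F) : F) := by
    unfold lf
    rw [eval₂_sum, Fintype.sum_sum_type]
    simp only [eval₂_mul, eval₂_C, eval₂_X, hc, Sum.elim_inl, Sum.elim_inr]
    congr 1
    · exact Finset.sum_congr rfl fun b _ => mul_comm _ _
    · exact Finset.sum_congr rfl fun b _ => mul_comm _ _
  have hdo : ∀ i, (lf c).degreeOf i ≤ d := by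
    intro i
    rw [lf_eq]
    refine (degreeOf_mono single_inj c fun i' => ?_).trans hd
    rw [Finsupp.single_apply]
    split_ifs <;> omega
  have hbound : ∀ (s : Fin g ⊕ J →₀ ℕ) (φ : F →+* ℂ), ‖φ (((lf c).coeff s : 𝓞 F) : F)‖ ≤ T ^ A := by
    intro s φ
    rw [lf_eq]
    rcases coeff_mono' single_inj c s with h1 | ⟨i, -, h1⟩
    · rw [h1]
      simpa using hTA
    · rw [h1]
      exact hcb i φ
  set l : J → Fin (d + 1) := fun j => if j = k then 1 else 0 with hl
  have h1v : ((1 : Fin (d + 1)) : ℕ) = 1 := by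
    rw [Fin.val_one']
    exact Nat.mod_eq_of_lt (by omega)
  have hs : ∀ β : Fin g → Fin (d + 1), (lf c).coeff (Pool.Agent.X255.RH.sV2 β l) = if β = 0 then n k else 0 := by
    intro β
    split_ifs with hβ
    · have h1 : Pool.Agent.X255.RH.sV2 β l = Finsupp.single (Sum.inr k) 1 := by
        ext i
        rw [hβ]
        rcases i with b | j
        · simp [Pool.Agent.X255.RH.sV2]
        · simp only [Pool.Agent.X255.RH.sV2, Finsupp.coe_equivFunOnFinite_symm, Sum.elim_inr, hl, Finsupp.single_apply,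
            Sum.inr.injEq, eq_comm (a := k)]
          split_ifs
          · exact h1v
          · simp
      rw [h1, lf_eq]
      exact coeff_mono single_inj c (Sum.inr k)
    · have h1 : ∀ i, (Finsupp.single i 1 : Fin g ⊕ J →₀ ℕ) ≠ Pool.Agent.X255.RH.sV2 β l := by
        intro i h2
        apply hβ
        have h3 : i = Sum.inr k := by
          by_contra h4
          have h5 := DFunLike.congr_fun h2 (Sum.inr k)
          rw [Finsupp.single_apply, if_neg h4] at h5
          simp only [Pool.Agent.X255.RH.sV2, Finsupp.coe_equivFunOnFinite_symm, Sum.elim_inr, hl, if_true, h1v] at h5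
          exact absurd h5 (by norm_num)
        funext b
        have h5 := DFunLike.congr_fun h2 (Sum.inl b)
        rw [h3, Finsupp.single_apply, if_neg (by simp)] at h5
        exact Fin.ext (by simpa [Pool.Agent.X255.RH.sV2] using h5.symm)
      rw [lf_eq, coeff_sum]
      refine Finset.sum_eq_zero fun i _ => ?_
      rw [coeff_monomial, if_neg (h1 i)]
  have hsum : ∑ β : Fin g → Fin (d + 1), (∏ b, ξ b ^ (β b : ℕ)) *
      (io.comp (algebraMap (𝓞 F) F)) ((lf c).coeff (Pool.Agent.X255.RH.sV2 β l)) = io ((n k : 𝓞 F) : F) := by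
    rw [Finset.sum_eq_single 0]
    · rw [hs, if_pos rfl]
      simp
    · intro β _ hβ
      rw [hs, if_neg hβ]
      simp
    · exact fun h0 => absurd (Finset.mem_univ _) h0
  have hne : io ((n k : 𝓞 F) : F) ≠ 0 := by
    rw [Ne, map_eq_zero]
    simpa using hk
  have h2 := poly_lower f u w₀ ξ F io h hT (lf c) hdo hbound l (by rw [hsum]; exact hne)
  rwa [hsum, hev] at h2

end Pool.Agent.X39.Near
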