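import Pool.Agent.X39.Near.Lin
import Pool.Agent.X255.RH.LogR

/-!
# Logarithms of values of polynomials at all rational numbers close to a number outside a set of dimension zero
-/

set_option autoImplicit false

open Polynomial MeasureTheory NumberField

namespace Pool.Agent.X39.Near.Logs

open Pool.Agent.X39.Near (Size)

/-- the rational polynomials are multiplicatively independent modulo constants -/
def Independent {s : ℕ} (p : Fin s → ℚ[X]) : Prop :=
  ∀ (m n : Fin s → ℕ) (c : ℚ), ∏ k, p k ^ m k = C c * ∏ k, p k ^ n k → m = n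

theorem p_ne {s : ℕ} {p : Fin s → ℚ[X]} (hp : Independent p) (k : Fin s) : p k ≠ 0 := by
  classical
  intro h0
  have h1 := hp (fun j => if j = k then 1 else 0) (fun j => if j = k then 2 else 0) 1 (by
    rw [Finset.prod_eq_zero (Finset.mem_univ k) (by simp [h0]), Finset.prod_eq_zero (Finset.mem_univ k) (by simp [h0]),
      mul_zero])
  have h2 := congrFun h1 k
  simp at h2

/-- the polynomial `± p_k` over `ℂ` -/
noncomputable def PC {s : ℕ} (p : Fin s → ℚ[X]) (e : Fin s → ℚ) (k : Fin s) : ℂ[X] :=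
  (C (e k) * p k).map (algebraMap ℚ ℂ)

theorem ind_C {s : ℕ} {p : Fin s → ℚ[X]} (hp : Independent p) {e : Fin s → ℚ} (he : ∀ k, e k ≠ 0) (m n : Fin s → ℕ)
    (c : ℂ) (h : ∏ k, PC p e k ^ m k * (1 : ℂ[X]) ^ n k = C c * ∏ k, PC p e k ^ n k * (1 : ℂ[X]) ^ m k) : m = n := by
  classical
  have hprod : ∀ m : Fin s → ℕ, ∏ k, PC p e k ^ m k = (∏ k, (C (e k) * p k) ^ m k).map (algebraMap ℚ ℂ) := by
    intro m
    rw [Polynomial.map_prod]
    refine Finset.prod_congr rfl fun k _ => ?_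
    rw [Polynomial.map_pow]
    rfl
  simp only [one_pow, mul_one, hprod] at h
  set A := ∏ k, (C (e k) * p k) ^ m k with hA
  set B := ∏ k, (C (e k) * p k) ^ n k with hB
  have hB0 : B ≠ 0 := Finset.prod_ne_zero_iff.2 fun k _ =>
    pow_ne_zero _ (mul_ne_zero (by simpa using he k) (p_ne hp k))
  have hlB : (algebraMap ℚ ℂ) B.leadingCoeff ≠ 0 := by
    rw [Ne, map_eq_zero]
    exact leadingCoeff_ne_zero.2 hB0
  have h1 := congrArg leadingCoeff h
  rw [leadingCoeff_mul, leadingCoeff_C, leadingCoeff_map, leadingCoeff_map] at h1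
  have h2 : c = algebraMap ℚ ℂ (A.leadingCoeff / B.leadingCoeff) := by
    rw [map_div₀, eq_div_iff hlB, h1]
  have h3 : A = C (A.leadingCoeff / B.leadingCoeff) * B := by
    apply Polynomial.map_injective (algebraMap ℚ ℂ) (algebraMap ℚ ℂ).injective
    rw [h, Polynomial.map_mul, Polynomial.map_C, ← h2]
  have h4 : ∀ m : Fin s → ℕ, ∏ k, (C (e k) * p k) ^ m k = C (∏ k, e k ^ m k) * ∏ k, p k ^ m k := by
    intro m
    rw [map_prod, ← Finset.prod_mul_distrib]
    refine Finset.prod_congr rfl fun k _ => ?_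
    rw [mul_pow, C_pow]
  have h5 : ∀ m : Fin s → ℕ, ∏ k, e k ^ m k ≠ 0 := fun m => Finset.prod_ne_zero_iff.2 fun k _ => pow_ne_zero _ (he k)
  rw [hA, hB, h4, h4] at h3
  apply hp m n ((∏ k, e k ^ m k)⁻¹ * ((C (∏ k, e k ^ m k) * ∏ k, p k ^ m k).leadingCoeff /
    (C (∏ k, e k ^ n k) * ∏ k, p k ^ n k).leadingCoeff) * ∏ k, e k ^ n k)
  rw [C_mul, C_mul, mul_assoc, mul_assoc, ← h3, ← mul_assoc, ← C_mul, inv_mul_cancel₀ (h5 m), C_1, one_mul]

/-- the branches of the logarithms -/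
noncomputable def LC {s : ℕ} (p : Fin s → ℚ[X]) (e : Fin s → ℚ) (k : Fin s) (z : ℂ) : ℂ :=
  Complex.log ((PC p e k).eval z)

/-- a good disc -/
def Disc {s : ℕ} (p : Fin s → ℚ[X]) (e : Fin s → ℚ) (c r : ℚ) : Prop :=
  Independent p ∧ (∀ k, e k ≠ 0) ∧ 0 < r ∧
    ∀ k, ∀ z ∈ Metric.ball ((c : ℝ) : ℂ) (r : ℝ), 0 < ((PC p e k).eval z).re

/-- the theorem on a disc -/
theorem onDisc {s g : ℕ} (p : Fin s → ℚ[X]) (e : Fin s → ℚ) (c r : ℚ) (q : Fin g → ℚ) :
    ∃ E : Set ℂ, dimH E = 0 ∧ (Disc p e c r → ∀ x : ℝ, (x : ℂ) ∈ Metric.ball ((c : ℝ) : ℂ) (r : ℝ) → (x : ℂ) ∉ E →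
      ∀ (d A : ℕ) (ω : ℝ), 0 < ω → ∃ B T₁ : ℝ, ∀ T : ℝ, T₁ ≤ T → ∀ t : ℚ, Size ℚ T t →
          ‖((algebraMap ℚ ℂ) t) - x‖ ≤ T ^ (-ω) → ¬ Pool.Agent.X39.Near.Dependent (LC p e)
            (fun k : Fin 0 => k.elim0) 1 (fun b => ((Real.log (q b) : ℝ) : ℂ)) ℚ (algebraMap ℚ ℂ) d A B T t) := by
  classical
  by_cases h : Disc p e c r
  · obtain ⟨h1, h2, h3, h4⟩ := h
    have han : ∀ k, AnalyticOnNhd ℂ (LC p e k) (Metric.ball ((c : ℝ) : ℂ) (r : ℝ)) := by
      intro k z hz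
      refine AnalyticAt.clog ?_ (Or.inl (h4 k z hz))
      exact (PC p e k).differentiable.analyticAt z
    have hind : Pool.Agent.X255.RH.Indep (Metric.ball ((c : ℝ) : ℂ) (r : ℝ)) (LC p e) := by
      refine Pool.Agent.X255.RH.logR_indep (convex_ball _ _).isPreconnected Metric.isOpen_ball
        (Metric.nonempty_ball.2 (by exact_mod_cast h3)) (PC p e) (fun _ => 1) (fun k h0 => ?_) (fun _ => one_ne_zero)
        (ind_C h1 h2) (LC p e) han fun k z hz => ?_
      · have := h4 k _ (Metric.mem_ball_self (by exact_mod_cast h3))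
        rw [h0, eval_zero, Complex.zero_re] at this
        exact lt_irrefl _ this
      · have hne : (PC p e k).eval z ≠ 0 := by
          intro h0
          have := h4 k z hz
          rw [h0, Complex.zero_re] at this
          exact lt_irrefl _ this
        rw [LC, Complex.exp_log hne]
        simp
    obtain ⟨E, e1, e2, -⟩ := Pool.Agent.X39.Near.master_indep (q := 0) _ Metric.isOpen_ball
      (convex_ball _ _).isPreconnected (LC p e) han hind (fun k : Fin 0 => k.elim0) 1 (by simp)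
      (fun b => ((Real.log (q b) : ℝ) : ℂ))
    exact ⟨E, e1, fun _ x hx hxE d A ω hω => e2 x hx hxE ℚ (algebraMap ℚ ℂ) d A ω hω⟩
  · exact ⟨∅, dimH_empty, fun h' => absurd h' h⟩

/-- the index set -/
def Ix : Type := Σ s g : ℕ, (Fin s → ℚ[X]) × (Fin s → ℚ) × ℚ × ℚ × (Fin g → ℚ)

instance : Countable Ix := by
  have : Countable ℚ[X] := by
    rw [← Cardinal.mk_le_aleph0_iff]
    exact Polynomial.cardinalMk_le_max.trans (by simp)
  unfold Ix
  infer_instance

/-- on a good disc the branch is the real logarithm -/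
theorem LC_real {s : ℕ} {p : Fin s → ℚ[X]} {e : Fin s → ℚ} (he : ∀ k, |e k| = 1) {k : Fin s} {z : ℚ}
    (h : 0 < ((PC p e k).eval ((algebraMap ℚ ℂ) z)).re) :
    (p k).eval z ≠ 0 ∧ LC p e k ((algebraMap ℚ ℂ) z) = ((Real.log |((p k).eval z : ℚ)| : ℝ) : ℂ) := by
  have h1 : (PC p e k).eval ((algebraMap ℚ ℂ) z) = (((e k * (p k).eval z : ℚ) : ℝ) : ℂ) := by
    rw [PC, Polynomial.eval_map_algebraMap, Polynomial.aeval_algebraMap_apply]
    simp
  rw [h1, Complex.ofReal_re] at h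
  have h2 : 0 < e k * (p k).eval z := by exact_mod_cast h
  have h3 : e k * (p k).eval z = |(p k).eval z| := by
    rw [← abs_of_pos h2, abs_mul, he, one_mul]
  refine ⟨fun h0 => by rw [h0, mul_zero] at h2; exact lt_irrefl _ h2, ?_⟩
  rw [LC, h1, h3, ← Complex.ofReal_log (by positivity)]
  simp

/-- **Theorem.** -/
theorem logs : ∃ E : Set ℝ, dimH E = 0 ∧ ∀ x : ℝ, x ∉ E → ∀ (s g : ℕ) (p : Fin s → ℚ[X]) (q : Fin g → ℚ),
    Independent p → ∃ e : Fin s → ℚ, ∀ (d A : ℕ) (ω : ℝ), 0 < ω → ∃ B T₁ : ℝ, 1 ≤ T₁ ∧ ∀ T : ℝ, T₁ ≤ T →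
      ∀ z : ℚ, |(z.num : ℝ)| ≤ T → (z.den : ℝ) ≤ T → |(z : ℝ) - x| ≤ T ^ (-ω) →
      (∀ k, (p k).eval z ≠ 0 ∧ LC p e k ((algebraMap ℚ ℂ) z) = ((Real.log |((p k).eval z : ℚ)| : ℝ) : ℂ)) ∧
      ¬ Pool.Agent.X39.Near.Dependent (LC p e) (fun k : Fin 0 => k.elim0) 1
        (fun b => ((Real.log (q b) : ℝ) : ℂ)) ℚ (algebraMap ℚ ℂ) d A B T z := by
  classical
  choose E hE0 hE using fun i : Ix => onDisc i.2.2.1 i.2.2.2.1 i.2.2.2.2.1 i.2.2.2.2.2.1 i.2.2.2.2.2.2
  have hiso : Isometry (Complex.ofReal : ℝ → ℂ) := Complex.isometry_ofReal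
  refine ⟨{x : ℝ | IsAlgebraic ℚ x} ∪ ⋃ i : Ix, Complex.ofReal ⁻¹' E i, ?_, ?_⟩
  · rw [dimH_union, dimH_iUnion]
    have h1 : dimH {x : ℝ | IsAlgebraic ℚ x} = 0 := Set.Countable.dimH_zero (Algebraic.countable ℚ ℝ)
    have h2 : ∀ i, dimH (Complex.ofReal ⁻¹' E i : Set ℝ) = 0 := by
      intro i
      rw [← hiso.dimH_image]
      exact le_antisymm ((dimH_mono (Set.image_preimage_subset _ _)).trans (hE0 i).le) bot_le
    rw [h1]
    simp [h2]
  intro x hx s g p q hp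
  have hxt : ¬ IsAlgebraic ℚ x := fun h => hx (Or.inl h)
  have hxE : ∀ i, (x : ℂ) ∉ E i := fun i hi => hx (Or.inr (Set.mem_iUnion.2 ⟨i, hi⟩))
  have hpx : ∀ k, Polynomial.aeval x (p k) ≠ 0 := fun k h0 => hxt ⟨p k, p_ne hp k, h0⟩
  set e : Fin s → ℚ := fun k => if 0 < Polynomial.aeval x (p k) then 1 else -1 with he
  have he1 : ∀ k, |e k| = 1 := by
    intro k
    simp only [he]
    split_ifs <;> simp
  have he0 : ∀ k, e k ≠ 0 := by
    intro k h0
    have := he1 k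
    rw [h0, abs_zero] at this
    exact zero_ne_one this
  have hre : ∀ k, 0 < ((PC p e k).eval (x : ℂ)).re := by
    intro k
    have h1 : (PC p e k).eval (x : ℂ) = (((e k : ℝ) * Polynomial.aeval x (p k) : ℝ) : ℂ) := by
      rw [PC, Polynomial.eval_map_algebraMap, map_mul, Polynomial.aeval_C]
      have h2 : Polynomial.aeval (x : ℂ) (p k) = ((Polynomial.aeval x (p k) : ℝ) : ℂ) :=
        Polynomial.aeval_algebraMap_apply ℂ x (p k)
      rw [h2]
      push_cast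
      rfl
    rw [h1, Complex.ofReal_re]
    simp only [he]
    split_ifs with h2
    · simpa using h2
    · have := lt_of_le_of_ne (not_lt.1 h2) (hpx k)
      push_cast
      linarith
  -- a good disc
  have hopen : IsOpen (⋂ k, {z : ℂ | 0 < ((PC p e k).eval z).re}) :=
    isOpen_iInter_of_finite fun k => isOpen_lt continuous_const
      (Complex.continuous_re.comp (PC p e k).continuous)
  obtain ⟨δ, hδ, hδU⟩ := Metric.isOpen_iff.1 hopen (x : ℂ) (Set.mem_iInter.2 hre)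
  obtain ⟨r, hr0, hr⟩ := exists_rat_btwn (half_pos hδ)
  obtain ⟨c, hc1, hc2⟩ := exists_rat_btwn (show x - r < x by linarith)
  have hxc : dist (x : ℂ) ((c : ℝ) : ℂ) < r := by
    rw [Complex.dist_eq, ← Complex.ofReal_sub, Complex.norm_real, Real.norm_eq_abs, abs_lt]
    constructor <;> linarith
  have hball : ∀ z ∈ Metric.ball ((c : ℝ) : ℂ) (r : ℝ), ∀ k, 0 < ((PC p e k).eval z).re := by
    intro z hz k
    have h1 : z ∈ Metric.ball (x : ℂ) δ := by
      rw [Metric.mem_ball] at hz ⊢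
      calc dist z x ≤ dist z ((c : ℝ) : ℂ) + dist ((c : ℝ) : ℂ) x := dist_triangle _ _ _
        _ < r + r := add_lt_add hz (by rw [dist_comm]; exact hxc)
        _ < δ := by linarith
    exact Set.mem_iInter.1 (hδU h1) k
  have hdisc : Disc p e c r := ⟨hp, he0, by exact_mod_cast hr0, fun k z hz => hball z hz k⟩
  refine ⟨e, fun d A ω hω => ?_⟩
  obtain ⟨B, T₁, hB⟩ := hE ⟨s, g, p, e, c, r, q⟩ hdisc x hxc (hxE _) d A ω hω
  -- points close to `x` are in the disc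
  obtain ⟨T₂, hT₂⟩ : ∃ T₂ : ℝ, ∀ T : ℝ, T₂ ≤ T → T ^ (-ω) < r - dist (x : ℂ) ((c : ℝ) : ℂ) := by
    have h1 := (tendsto_rpow_neg_atTop hω).eventually (gt_mem_nhds (show 0 < r - dist (x : ℂ) ((c : ℝ) : ℂ) by linarith))
    obtain ⟨T₂, h2⟩ := Filter.eventually_atTop.1 h1
    exact ⟨T₂, h2⟩
  refine ⟨B, max (max T₁ T₂) 1, le_max_right _ _, fun T hT z hz1 hz2 hzx => ?_⟩
  have hTa : T₁ ≤ T := (le_max_left _ _).trans ((le_max_left _ _).trans hT)
  have hTb : T₂ ≤ T := (le_max_right _ _).trans ((le_max_left _ _).trans hT)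
  have hzz : (algebraMap ℚ ℂ) z = ((z : ℝ) : ℂ) := by simp
  have hnorm : ‖((algebraMap ℚ ℂ) z) - x‖ ≤ T ^ (-ω) := by
    rw [hzz, ← Complex.ofReal_sub, Complex.norm_real, Real.norm_eq_abs]
    exact hzx
  have hzb : (algebraMap ℚ ℂ) z ∈ Metric.ball ((c : ℝ) : ℂ) (r : ℝ) := by
    rw [Metric.mem_ball]
    have h1 := hT₂ T hTb
    calc dist ((algebraMap ℚ ℂ) z) ((c : ℝ) : ℂ) ≤ dist ((algebraMap ℚ ℂ) z) x + dist (x : ℂ) ((c : ℝ) : ℂ) :=
          dist_triangle _ _ _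
      _ < r := by rw [dist_eq_norm]; linarith
  exact ⟨fun k => LC_real he1 (hball _ hzb k), hB T hTa z (Pool.Agent.X39.Near.size_rat hz1 hz2) hnorm⟩

/-- **Linear forms.** -/
theorem logs_lin : ∃ E : Set ℝ, dimH E = 0 ∧ ∀ x : ℝ, x ∉ E → ∀ (s g : ℕ) (p : Fin s → ℚ[X]) (q : Fin g → ℚ),
    Independent p → ∀ (A : ℕ) (ω : ℝ), 0 < ω → ∃ B T₁ : ℝ, ∀ T : ℝ, T₁ ≤ T →
      ∀ z : ℚ, |(z.num : ℝ)| ≤ T → (z.den : ℝ) ≤ T → |(z : ℝ) - x| ≤ T ^ (-ω) → ∀ (m : Fin g → ℤ) (n : Fin s → ℤ),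
        (∀ b, |(m b : ℝ)| ≤ T ^ A) → (∀ k, |(n k : ℝ)| ≤ T ^ A) → n ≠ 0 →
        (∀ k, (p k).eval z ≠ 0) ∧
        T ^ (-B) < |∑ b, m b * Real.log (q b) + ∑ k, n k * (Real.log |((p k).eval z : ℚ)|)| := by
  classical
  obtain ⟨E, hE, H⟩ := logs
  refine ⟨E, hE, fun x hx s g p q hp A ω hω => ?_⟩
  obtain ⟨e, He⟩ := H x hx s g p q hp
  obtain ⟨B, T₁, hT₁, HB⟩ := He 1 A ω hω
  refine ⟨B, T₁, fun T hT z hz1 hz2 hzx m n hm hn hn0 => ?_⟩
  obtain ⟨h1, h2⟩ := HB T hT z hz1 hz2 hzx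
  refine ⟨fun k => (h1 k).1, ?_⟩
  have hT0 : 0 < T := by linarith
  obtain ⟨k, hk⟩ : ∃ k, n k ≠ 0 := by
    by_contra hcon
    push Not at hcon
    exact hn0 (funext hcon)
  have h3 := lin_lower (LC p e) (fun k : Fin 0 => k.elim0) 1 (fun b => ((Real.log (q b) : ℝ) : ℂ)) ℚ (algebraMap ℚ ℂ)
    h2 hT0 le_rfl (fun b => ((m b : ℤ) : 𝓞 ℚ)) (fun k => ((n k : ℤ) : 𝓞 ℚ))
    (fun b φ => by rw [Real.rpow_natCast]; simpa using hm b) (fun k φ => by rw [Real.rpow_natCast]; simpa using hn k) k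
    (by exact_mod_cast hk)
  have hcast : ∀ v : ℤ, (algebraMap ℚ ℂ) (((v : ℤ) : 𝓞 ℚ) : ℚ) = ((v : ℝ) : ℂ) := fun v => by simp
  have h4 : ∑ b, ((Real.log (q b) : ℝ) : ℂ) * (algebraMap ℚ ℂ) (((m b : ℤ) : 𝓞 ℚ) : ℚ) +
      ∑ k, LC p e k ((algebraMap ℚ ℂ) z) * (algebraMap ℚ ℂ) (((n k : ℤ) : 𝓞 ℚ) : ℚ) =
      ((∑ b, m b * Real.log (q b) + ∑ k, n k * Real.log |((p k).eval z : ℚ)| : ℝ) : ℂ) := by
    push_cast
    congr 1
    · exact Finset.sum_congr rfl fun b _ => by rw [hcast]; push_cast; ring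
    · exact Finset.sum_congr rfl fun k _ => by rw [hcast, (h1 k).2]; push_cast; ring
  rw [h4, hcast, Complex.norm_real, Complex.norm_real, Real.norm_eq_abs, Real.norm_eq_abs] at h3
  refine lt_of_le_of_lt ?_ h3
  have h5 : (1 : ℝ) ≤ |(n k : ℝ)| := by
    rw [← Int.cast_abs]
    exact_mod_cast Int.one_le_abs hk
  exact le_mul_of_one_le_right (Real.rpow_nonneg hT0.le _) h5

open UniqueFactorizationMonoid in
theorem nf_prod {s : ℕ} (p : Fin s → ℚ[X]) (hm : ∀ k, (p k).Monic) (hi : ∀ k, Irreducible (p k)) (m : Fin s → ℕ)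
    (S : Finset (Fin s)) : normalizedFactors (∏ k ∈ S, p k ^ m k) = ∑ k ∈ S, m k • ({p k} : Multiset ℚ[X]) := by
  classical
  induction S using Finset.induction_on with
  | empty => simp
  | insert a S ha ih =>
    rw [Finset.prod_insert ha, Finset.sum_insert ha, normalizedFactors_mul, ih, normalizedFactors_pow,
      normalizedFactors_irreducible (hi a), (hm a).normalize_eq_self]
    · exact pow_ne_zero _ (hi a).ne_zero
    · exact Finset.prod_ne_zero_iff.2 fun k _ => pow_ne_zero _ (hi k).ne_zero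

theorem independent_irr {s : ℕ} (p : Fin s → ℚ[X]) (hm : ∀ k, (p k).Monic) (hi : ∀ k, Irreducible (p k))
    (hp : Function.Injective p) : Independent p := by
  classical
  intro m n c h
  have h1 : ∀ m : Fin s → ℕ, (∏ k, p k ^ m k).Monic := fun m => monic_prod_of_monic _ _ fun k _ => (hm k).pow _
  have h2 : c = 1 := by
    have h3 := congrArg leadingCoeff h
    rw [(h1 m).leadingCoeff, leadingCoeff_mul, (h1 n).leadingCoeff, leadingCoeff_C, mul_one] at h3
    exact h3.symm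
  rw [h2, C_1, one_mul] at h
  have h3 := congrArg UniqueFactorizationMonoid.normalizedFactors h
  rw [nf_prod p hm hi, nf_prod p hm hi] at h3
  funext k
  have h4 := congrArg (Multiset.count (p k)) h3
  simp only [Multiset.count_sum', Multiset.count_nsmul, Multiset.count_singleton, hp.eq_iff, mul_ite, mul_one, mul_zero,
    Finset.sum_ite_eq, Finset.mem_univ, if_true] at h4
  exact h4

theorem exists_factor {n : ℕ} (P : Fin n → ℚ[X]) (hP : ∀ j, P j ≠ 0) :
    ∃ (s : ℕ) (p : Fin s → ℚ[X]) (v : Fin n → Fin s → ℕ) (c : Fin n → ℚ), Independent p ∧ (∀ j, c j ≠ 0) ∧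
      ∀ j, P j = C (c j) * ∏ k, p k ^ v j k := by
  classical
  set S : Finset ℚ[X] := Finset.univ.biUnion fun j => (UniqueFactorizationMonoid.normalizedFactors (P j)).toFinset with hS
  have hSm : ∀ a ∈ S, ∃ j, a ∈ UniqueFactorizationMonoid.normalizedFactors (P j) := by
    intro a ha
    obtain ⟨j, -, hj⟩ := Finset.mem_biUnion.1 ha
    exact ⟨j, Multiset.mem_toFinset.1 hj⟩
  set p : Fin S.card → ℚ[X] := fun k => (S.equivFin.symm k : ℚ[X]) with hp
  have hpi : ∀ k, Irreducible (p k) := fun k => by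
    obtain ⟨j, hj⟩ := hSm _ (S.equivFin.symm k).2
    exact UniqueFactorizationMonoid.irreducible_of_normalized_factor _ hj
  have hpm : ∀ k, (p k).Monic := fun k => by
    obtain ⟨j, hj⟩ := hSm _ (S.equivFin.symm k).2
    have h1 := UniqueFactorizationMonoid.normalize_normalized_factor _ hj
    have h2 : normalize (p k) = p k := h1
    rw [← h2]
    exact monic_normalize (hpi k).ne_zero
  refine ⟨S.card, p, fun j k => (UniqueFactorizationMonoid.normalizedFactors (P j)).count (p k),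
    fun j => (P j).leadingCoeff, independent_irr p hpm hpi (fun k l h => S.equivFin.symm.injective (Subtype.ext h)),
    fun j => leadingCoeff_ne_zero.2 (hP j), fun j => ?_⟩
  have h1 : ∏ k, p k ^ (UniqueFactorizationMonoid.normalizedFactors (P j)).count (p k) =
      (UniqueFactorizationMonoid.normalizedFactors (P j)).prod := by
    rw [Finset.prod_multiset_count_of_subset _ S (Finset.subset_biUnion_of_mem
      (fun j => (UniqueFactorizationMonoid.normalizedFactors (P j)).toFinset) (Finset.mem_univ j))]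
    rw [← Finset.prod_coe_sort S fun a => a ^ (UniqueFactorizationMonoid.normalizedFactors (P j)).count a]
    exact Equiv.prod_comp S.equivFin.symm fun a : S => (a : ℚ[X]) ^ (UniqueFactorizationMonoid.normalizedFactors (P j)).count (a : ℚ[X])
  rw [h1]
  have h2 := UniqueFactorizationMonoid.prod_normalizedFactors_eq (hP j)
  rw [h2, normalize_apply, coe_normUnit_of_ne_zero (hP j), mul_comm (P j), ← mul_assoc, ← C_mul,
    mul_inv_cancel₀ (leadingCoeff_ne_zero.2 (hP j)), C_1, one_mul]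
/-- The product of the `P_j ^ b_j` is constant. -/
def ConstantProduct {n : ℕ} (P : Fin n → ℚ[X]) (b : Fin n → ℤ) : Prop :=
  ∃ c : ℚ, ∏ j, P j ^ (b j).toNat = C c * ∏ j, P j ^ (-b j).toNat

theorem sum_pos_neg {n s : ℕ} (v : Fin n → Fin s → ℕ) (b : Fin n → ℤ) (h : ∀ k, ∑ j, b j * (v j k : ℤ) = 0) (k : Fin s) :
    ∑ j, v j k * (b j).toNat = ∑ j, v j k * (-b j).toNat := by
  have h1 : (∑ j, (v j k : ℤ) * ((b j).toNat : ℤ)) - ∑ j, (v j k : ℤ) * ((-b j).toNat : ℤ) =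
      ∑ j, b j * (v j k : ℤ) := by
    rw [← Finset.sum_sub_distrib]
    refine Finset.sum_congr rfl fun j _ => ?_
    have h2 : ((b j).toNat : ℤ) - (-b j).toNat = b j := Int.toNat_sub_toNat_neg _
    linear_combination (v j k : ℤ) * h2
  rw [h k, sub_eq_zero] at h1
  exact_mod_cast h1

/-- **Arbitrary polynomials.** -/
theorem lang : ∃ E : Set ℝ, dimH E = 0 ∧ ∀ x : ℝ, x ∉ E → ∀ (n : ℕ) (P : Fin n → ℚ[X]), (∀ j, P j ≠ 0) →
    ∀ (A : ℕ) (ω : ℝ), 0 < ω → ∃ C T₁ : ℝ, ∀ T : ℝ, T₁ ≤ T → ∀ z : ℚ, |(z.num : ℝ)| ≤ T → (z.den : ℝ) ≤ T →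
      |(z : ℝ) - x| ≤ T ^ (-ω) → ∀ b : Fin n → ℤ, (∀ j, |(b j : ℝ)| ≤ T ^ A) → ¬ ConstantProduct P b →
        (∀ j, (P j).eval z ≠ 0) ∧ T ^ (-C) < |∑ j, b j * (Real.log |((P j).eval z : ℚ)|)| := by
  classical
  obtain ⟨E, hE, H⟩ := logs_lin
  refine ⟨E, hE, fun x hx n P hP A ω hω => ?_⟩
  obtain ⟨s, p, v, c, hind, hc, hPf⟩ := exists_factor P hP
  obtain ⟨B, T₂, HB⟩ := H x hx s n p (fun j => |c j|) hind (A + 1) ω hω
  refine ⟨B, max T₂ (1 + ∑ k, ∑ j, (v j k : ℝ)), fun T hT z hz1 hz2 hzx b hb hcon => ?_⟩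
  have hTa : T₂ ≤ T := (le_max_left _ _).trans hT
  have hTb : 1 + ∑ k, ∑ j, (v j k : ℝ) ≤ T := (le_max_right _ _).trans hT
  have hV0 : 0 ≤ ∑ k, ∑ j, (v j k : ℝ) := Finset.sum_nonneg fun k _ => Finset.sum_nonneg fun j _ => Nat.cast_nonneg _
  have hT1 : 1 ≤ T := by linarith
  have hV : ∀ k, ∑ j, (v j k : ℝ) ≤ T := fun k =>
    le_trans (Finset.single_le_sum (f := fun k => ∑ j, (v j k : ℝ))
      (fun k _ => Finset.sum_nonneg fun j _ => Nat.cast_nonneg _) (Finset.mem_univ k)) (by linarith)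
  have hTA : (0 : ℝ) ≤ T ^ A := by positivity
  set m : Fin s → ℤ := fun k => ∑ j, b j * (v j k : ℤ) with hm
  have hmb : ∀ k, |(m k : ℝ)| ≤ T ^ (A + 1) := by
    intro k
    simp only [hm, Int.cast_sum, Int.cast_mul, Int.cast_natCast]
    calc |∑ j, (b j : ℝ) * (v j k : ℝ)| ≤ ∑ j, |(b j : ℝ) * (v j k : ℝ)| := Finset.abs_sum_le_sum_abs _ _
      _ ≤ ∑ j, T ^ A * (v j k : ℝ) := Finset.sum_le_sum fun j _ => by
          rw [abs_mul, Nat.abs_cast]
          exact mul_le_mul_of_nonneg_right (hb j) (Nat.cast_nonneg _)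
      _ = T ^ A * ∑ j, (v j k : ℝ) := by rw [Finset.mul_sum]
      _ ≤ T ^ A * T := mul_le_mul_of_nonneg_left (hV k) hTA
      _ = T ^ (A + 1) := by rw [pow_succ]
  have hm0 : m ≠ 0 := by
    intro h0
    apply hcon
    have h3 : ∀ k, ∑ j, b j * (v j k : ℤ) = 0 := fun k => congrFun h0 k
    have h4 : ∀ w : Fin n → ℕ, ∏ j, P j ^ w j = C (∏ j, c j ^ w j) * ∏ k, p k ^ ∑ j, v j k * w j := by
      intro w
      rw [map_prod]
      have h5 : ∏ k, p k ^ ∑ j, v j k * w j = ∏ j, ∏ k, p k ^ (v j k * w j) := by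
        rw [Finset.prod_comm]
        exact Finset.prod_congr rfl fun k _ => (Finset.prod_pow_eq_pow_sum _ _ _).symm
      rw [h5, ← Finset.prod_mul_distrib]
      refine Finset.prod_congr rfl fun j _ => ?_
      conv_lhs => rw [hPf j]
      rw [mul_pow, C_pow, ← Finset.prod_pow]
      congr 1
      exact Finset.prod_congr rfl fun k _ => by rw [pow_mul]
    have h6 : ∏ j, c j ^ (-b j).toNat ≠ 0 := Finset.prod_ne_zero_iff.2 fun j _ => pow_ne_zero _ (hc j)
    refine ⟨(∏ j, c j ^ (b j).toNat) / ∏ j, c j ^ (-b j).toNat, ?_⟩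
    rw [h4, h4, ← mul_assoc, ← C_mul, div_mul_cancel₀ _ h6]
    simp only [sum_pos_neg v b h3]
  obtain ⟨h1, h2⟩ := HB T hTa z hz1 hz2 hzx b m (fun j => (hb j).trans (pow_le_pow_right₀ hT1 (Nat.le_succ A))) hmb hm0
  · have hev : ∀ j, (P j).eval z = c j * ∏ k, (p k).eval z ^ v j k := by
      intro j
      conv_lhs => rw [hPf j]
      rw [eval_mul, eval_C, eval_prod]
      simp only [eval_pow]
    have hne : ∀ j, (P j).eval z ≠ 0 := by
      intro j
      rw [hev]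
      exact mul_ne_zero (hc j) (Finset.prod_ne_zero_iff.2 fun k _ => pow_ne_zero _ (h1 k))
    refine ⟨hne, ?_⟩
    have hlog : ∀ j, Real.log |((P j).eval z : ℚ)| = Real.log (|c j| : ℚ) + ∑ k, v j k * Real.log |((p k).eval z : ℚ)| := by
      intro j
      rw [hev]
      push_cast
      rw [abs_mul, Finset.abs_prod, Real.log_mul, Real.log_prod]
      · congr 1
        refine Finset.sum_congr rfl fun k _ => ?_
        rw [abs_pow, Real.log_pow]
      · intro k _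
        exact abs_ne_zero.2 (pow_ne_zero _ (by exact_mod_cast h1 k))
      · exact abs_ne_zero.2 (by exact_mod_cast hc j)
      · exact Finset.prod_ne_zero_iff.2 fun k _ => abs_ne_zero.2 (pow_ne_zero _ (by exact_mod_cast h1 k))
    have h3 : ∑ j, b j * (Real.log |((P j).eval z : ℚ)|) = ∑ j, b j * Real.log (|c j| : ℚ) +
        ∑ k, m k * Real.log |((p k).eval z : ℚ)| := by
      simp only [hlog, mul_add, Finset.sum_add_distrib]
      congr 1
      simp only [hm, Int.cast_sum, Int.cast_mul, Int.cast_natCast, Finset.sum_mul, Finset.mul_sum]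
      rw [Finset.sum_comm]
      refine Finset.sum_congr rfl fun k _ => Finset.sum_congr rfl fun j _ => ?_
      ring
    rw [h3]
    exact h2

end Pool.Agent.X39.Near.Logs
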