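import Pool.Agent.X39.Near.MasterI

/-! The consequence for integral polynomials of all heights between two powers of the level. -/

set_option autoImplicit false

namespace Pool.Agent.X39.Near

open Filter Topology MeasureTheory NumberField

/-- Lower bounds for heights between `T ^ (1 / k)` and `T ^ k`: every nonzero integral polynomial `P` of total degree at
most `k` and height at most `H` satisfies `|P (x)| ≥ H ^ (-C)`. -/
def Inequality {J : Type} (k : ℕ) (C T : ℝ) (x : J → ℂ) : Prop :=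
  ∀ H : ℝ, T ^ ((1 : ℝ) / k) ≤ H → H ≤ T ^ k → ∀ P : MvPolynomial J ℤ, P ≠ 0 → P.totalDegree ≤ k →
    (∀ m, |((P.coeff m : ℤ) : ℝ)| ≤ H) → H ^ (-C) ≤ ‖MvPolynomial.aeval x P‖

theorem int_bound {J : Type} {q g : ℕ} {f : J → ℂ → ℂ} {u : Fin q → Polynomial ℂ}
    {w : Polynomial ℂ} {ξ : Fin g → ℂ} {F : Type} [Field F] [NumberField F] {ι : F →+* ℂ} {k : ℕ}
    {B T : ℝ} {t : F} (hk : 1 ≤ k) (hT : 1 ≤ T) (h : ¬ Dependent f u w ξ F ι k k B T t) :
    Inequality k (k * max B 0) T (fun j => f j (ι t)) := by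
  intro H hH1 hH2 P hP hd hc
  set B' : ℝ := max B 0 with hB'
  have hB0 : 0 ≤ B' := le_max_right _ _
  have hk0 : (0 : ℝ) < k := by exact_mod_cast hk
  have hT0 : 0 < T := by linarith
  have hH1' : 1 ≤ H := le_trans (Real.one_le_rpow hT (by positivity)) hH1
  have hTH : T ≤ H ^ k := by
    have h1 : T = (T ^ ((1 : ℝ) / k)) ^ k := by
      rw [← Real.rpow_natCast, ← Real.rpow_mul hT0.le]
      have : (1 : ℝ) / k * k = 1 := by field_simp
      rw [this, Real.rpow_one]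
    rw [h1]
    exact pow_le_pow_left₀ (by positivity) hH1 k
  obtain ⟨e₀, he₀⟩ : ∃ e, P.coeff e ≠ 0 := by
    by_contra hcon
    push Not at hcon
    exact hP (MvPolynomial.ext _ _ fun e => by simpa using hcon e)
  by_contra hlt
  push Not at hlt
  apply h
  set φ : ℤ →+* MvPolynomial (Fin q ⊕ Fin g) (𝓞 F) := Int.castRingHom _ with hφ
  have hcoe : ∀ e, (MvPolynomial.map φ P).coeff e = MvPolynomial.C ((P.coeff e : ℤ) : 𝓞 F) := by
    intro e
    rw [MvPolynomial.coeff_map]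
    simp [hφ]
  have hval : ∀ e, coefAt u w ξ F ι t ((MvPolynomial.map φ P).coeff e) = ((P.coeff e : ℤ) : ℂ) := by
    intro e
    rw [hcoe]
    simp [coefAt]
  refine ⟨MvPolynomial.map φ P, fun x => ?_, fun e v => ?_, fun e s ψ => ?_, e₀, ?_, ?_⟩
  · exact ((degreeOf_map φ P x).trans (MvPolynomial.degreeOf_le_totalDegree P x)).trans hd
  · rw [hcoe, MvPolynomial.degreeOf_C]
    exact Nat.zero_le _
  · rw [hcoe]
    have h2 : ‖ψ ((((P.coeff e : ℤ) : 𝓞 F)) : F)‖ ≤ T ^ (k : ℝ) := by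
      have e1 : ((((P.coeff e : ℤ) : 𝓞 F)) : F) = ((P.coeff e : ℤ) : F) := rfl
      rw [e1, map_intCast, Complex.norm_intCast, Real.rpow_natCast]
      exact (hc e).trans hH2
    by_cases hs : s = 0
    · subst hs
      rw [MvPolynomial.coeff_C, if_pos rfl]
      exact h2
    · rw [MvPolynomial.coeff_C, if_neg (fun h0 => hs h0.symm)]
      have e2 : ψ (((0 : 𝓞 F)) : F) = 0 := by simp
      rw [e2, norm_zero]
      positivity
  · rw [hval]
    exact_mod_cast he₀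
  · rw [hval]
    have h1 : MvPolynomial.eval₂ (coefAt u w ξ F ι t) (fun j => f j (ι t)) (MvPolynomial.map φ P) =
        MvPolynomial.aeval (fun j => f j (ι t)) P := by
      rw [MvPolynomial.eval₂_map, MvPolynomial.aeval_def]
      congr 1
      exact RingHom.ext_int _ _
    rw [h1]
    have h3 : (1 : ℝ) ≤ ‖((P.coeff e₀ : ℤ) : ℂ)‖ := by
      rw [Complex.norm_intCast]
      exact_mod_cast Int.one_le_abs he₀
    have h4 : H ^ (-(k * B')) ≤ T ^ (-B) := by
      have h5 : H ^ (-(k * B')) = (H ^ k) ^ (-B') := by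
        rw [← Real.rpow_natCast H k, ← Real.rpow_mul (by linarith)]
        congr 1
        ring
      rw [h5]
      calc (H ^ k) ^ (-B') ≤ T ^ (-B') := Real.rpow_le_rpow_of_nonpos hT0 hTH (neg_nonpos.2 hB0)
        _ ≤ T ^ (-B) := Real.rpow_le_rpow_of_exponent_le hT (neg_le_neg (le_max_left _ _))
    calc ‖MvPolynomial.aeval (fun j => f j (ι t)) P‖ ≤ H ^ (-(k * B')) := hlt.le
      _ ≤ T ^ (-B) := h4
      _ ≤ T ^ (-B) * ‖((P.coeff e₀ : ℤ) : ℂ)‖ := le_mul_of_one_le_right (by positivity) h3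

/-- the inequalities for all algebraic numbers close to `x` -/
theorem ineq_of {J : Type} {q g : ℕ} {f : J → ℂ → ℂ} {u : Fin q → Polynomial ℂ}
    {w : Polynomial ℂ} {ξ : Fin g → ℂ} {Ω E : Set ℂ}
    (h : ∀ x ∈ Ω, x ∉ E → ∀ (F : Type) [Field F] [NumberField F] (ι : F →+* ℂ)
        (d A : ℕ) (ω : ℝ), 0 < ω → ∃ B T₁ : ℝ, ∀ T : ℝ, T₁ ≤ T → ∀ t : F, Size F T t →
          ‖ι t - x‖ ≤ T ^ (-ω) → ¬ Dependent f u w ξ F ι d A B T t) :
    ∀ x ∈ Ω, x ∉ E → ∀ (F : Type) [Field F] [NumberField F] (ι : F →+* ℂ)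
        (k : ℕ) (ω : ℝ), 1 ≤ k → 0 < ω → ∃ C T₁ : ℝ, ∀ T : ℝ, T₁ ≤ T → ∀ t : F, Size F T t →
          ‖ι t - x‖ ≤ T ^ (-ω) → Inequality k C T (fun j => f j (ι t)) := by
  intro x hx hxE F _ _ ι k ω hk hω
  obtain ⟨B, T₁, h1⟩ := h x hx hxE F ι k k ω hω
  exact ⟨k * max B 0, max T₁ 1, fun T hT t ht hd =>
    int_bound hk ((le_max_right _ _).trans hT) (h1 T ((le_max_left _ _).trans hT) t ht hd)⟩

end Pool.Agent.X39.Near
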