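import Pool.Agent.X39.Near.Words
import Pool.Agent.X142.MZ.Gen

/-!
# Multiple Hurwitz zeta values at all algebraic points close to any number outside a set of dimension zero
-/

set_option autoImplicit false

open NumberField Filter

namespace Pool.Agent.X39.Near

open MvPolynomial Pool.Agent.X142.MZ
open Pool.Agent.X142.AZ (Om mem_Om)

/-- lower bound for the linear forms, with coefficients polynomials in `ξ` over the integers of `F`, in the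
multiple Hurwitz zeta values at `t` -/
def Bound {g : ℕ} (ξ : Fin g → ℂ) (I : Finset (List ℕ)) (F : Type) [Field F] [NumberField F] (ι : F →+* ℂ)
    (d : ℕ) (A B T : ℝ) (t : F) : Prop :=
  ∀ c : List ℕ → MvPolynomial (Fin g) (𝓞 F), (∀ s ∈ I, ∀ v, (c s).degreeOf v ≤ d) →
    (∀ s ∈ I, ∀ m (φ : F →+* ℂ), ‖φ ((c s).coeff m : 𝓞 F)‖ ≤ T ^ A) → ∀ s₀ ∈ I,
    T ^ (-B) * ‖eval₂ (ι.comp (algebraMap (𝓞 F) F)) ξ (c s₀)‖ ≤
      ‖∑ s ∈ I, eval₂ (ι.comp (algebraMap (𝓞 F) F)) ξ (c s) * mhz s (ι t)‖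

theorem isOpen_Om : IsOpen Om := by
  have h1 : Om = {z : ℂ | (Complex.Gamma z)⁻¹ ≠ 0} := by
    ext z
    rw [mem_Om]
    simp only [Set.mem_ofPred_eq, ne_eq, inv_eq_zero, Complex.Gamma_eq_zero_iff, not_exists]
  rw [h1]
  exact isOpen_ne_fun Complex.differentiable_one_div_Gamma.continuous continuous_const

/-- one finite set of indices -/
theorem mhz_one {g : ℕ} (ξ : Fin g → ℂ) (I : Finset (List ℕ)) (hI : ∀ s ∈ I, Adm s) :
    ∃ E : Set ℂ, dimH E = 0 ∧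
      (∀ x ∈ Om, x ∉ E → ∀ (F : Type) [Field F] [NumberField F] (ι : F →+* ℂ)
        (d A : ℕ) (ω : ℝ), 0 < ω → ∃ B T₁ : ℝ, ∀ T : ℝ, T₁ ≤ T → ∀ t : F, Size F T t →
          ‖ι t - x‖ ≤ T ^ (-ω) → Bound ξ I F ι d A B T t) ∧
      ∀ x : ℝ, Irrational x → (x : ℂ) ∈ Om → (x : ℂ) ∉ E → ∀ d A : ℕ, ∃ (B : ℝ) (n₀ : ℕ), ∀ k : ℕ,
        n₀ ≤ k → Bound ξ I ℚ (algebraMap ℚ ℂ) d A B (x.convergent k).den (x.convergent k) := by
  classical
  obtain ⟨κ, hκ, f, G, han, hind, hev, hG⟩ := exists_poly I hI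
  obtain ⟨E, hE, h1, h2⟩ := master Om isOpen_Om f (fun i t ht => han i t ht) hind (fun k : Fin 0 => k.elim0) 1
    (by simp) ξ
  obtain ⟨d₀, T₀, H⟩ := words_lower G hG
  have key : ∀ (F : Type) [Field F] [NumberField F] (ι : F →+* ℂ) (d A : ℕ) (B T : ℝ) (t : F), T₀ ≤ T →
      ¬ Dependent f (fun k : Fin 0 => k.elim0) 1 ξ F ι (max d d₀) ((A + 1 : ℕ) : ℝ) B T t →
      Bound ξ I F ι d A (B + 1) T t := by
    intro F _ _ ι d A B T t hT hdep c hcd hcA s₀ hs₀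
    push_cast at hdep
    have h3 := H g f ξ F ι (max d d₀) A B T t hT (le_max_right _ _) hdep (fun w : I => c w)
      (fun w v => (hcd w w.2 v).trans (le_max_left _ _)) (fun w s φ => hcA w w.2 s φ) ⟨s₀, hs₀⟩
    refine h3.trans (le_of_eq ?_)
    congr 1
    rw [← Finset.sum_coe_sort I fun s => eval₂ (ι.comp (algebraMap (𝓞 F) F)) ξ (c s) * mhz s (ι t)]
    exact Finset.sum_congr rfl fun s _ => by rw [hev]
  refine ⟨E, hE, ?_, ?_⟩
  · intro x hx hxE F _ _ ι d A ω hω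
    obtain ⟨B, T₁, h3⟩ := h1 x hx hxE F ι (max d d₀) (A + 1) ω hω
    exact ⟨B + 1, max T₀ T₁, fun T hT t ht htx => key F ι d A B T t ((le_max_left _ _).trans hT)
      (h3 T ((le_max_right _ _).trans hT) t ht htx)⟩
  · intro x hx hxO hxE d A
    obtain ⟨B, n₀, h3⟩ := h2 x hx hxO hxE (max d d₀) (A + 1)
    obtain ⟨n₁, h5⟩ := den_conv hx T₀
    exact ⟨B + 1, max n₀ n₁, fun k hk => key ℚ _ d A B _ _ (h5 k ((le_max_right _ _).trans hk)).le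
      (h3 k ((le_max_left _ _).trans hk))⟩

/-- **Linear forms**, all finite sets of indices -/
theorem mhz_lin {g : ℕ} (ξ : Fin g → ℂ) :
    ∃ E : Set ℂ, dimH E = 0 ∧ {x : ℂ | IsAlgebraic ℚ x} ⊆ E ∧ ∀ I : Finset (List ℕ), (∀ s ∈ I, Adm s) →
      (∀ x : ℂ, x ∉ E → ∀ (F : Type) [Field F] [NumberField F] (ι : F →+* ℂ)
        (d A : ℕ) (ω : ℝ), 0 < ω → ∃ B T₁ : ℝ, ∀ T : ℝ, T₁ ≤ T → ∀ t : F, Size F T t →
          ‖ι t - x‖ ≤ T ^ (-ω) → Bound ξ I F ι d A B T t) ∧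
      ∀ x : ℝ, (x : ℂ) ∉ E → ∀ d A : ℕ, ∃ (B : ℝ) (n₀ : ℕ), ∀ k : ℕ,
        n₀ ≤ k → Bound ξ I ℚ (algebraMap ℚ ℂ) d A B (x.convergent k).den (x.convergent k) := by
  classical
  have H : ∀ I : Finset (List ℕ), ∃ E : Set ℂ, dimH E = 0 ∧ ((∀ s ∈ I, Adm s) →
      (∀ x ∈ Om, x ∉ E → ∀ (F : Type) [Field F] [NumberField F] (ι : F →+* ℂ)
        (d A : ℕ) (ω : ℝ), 0 < ω → ∃ B T₁ : ℝ, ∀ T : ℝ, T₁ ≤ T → ∀ t : F, Size F T t →
          ‖ι t - x‖ ≤ T ^ (-ω) → Bound ξ I F ι d A B T t) ∧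
      ∀ x : ℝ, Irrational x → (x : ℂ) ∈ Om → (x : ℂ) ∉ E → ∀ d A : ℕ, ∃ (B : ℝ) (n₀ : ℕ), ∀ k : ℕ,
        n₀ ≤ k → Bound ξ I ℚ (algebraMap ℚ ℂ) d A B (x.convergent k).den (x.convergent k)) := by
    intro I
    by_cases hI : ∀ s ∈ I, Adm s
    · obtain ⟨E, h1, h2, h3⟩ := mhz_one ξ I hI
      exact ⟨E, h1, fun _ => ⟨h2, h3⟩⟩
    · exact ⟨∅, dimH_empty, fun h => absurd h hI⟩
  choose E hE0 hE using H
  refine ⟨{x : ℂ | IsAlgebraic ℚ x} ∪ ⋃ I, E I, ?_, Set.subset_union_left, ?_⟩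
  · rw [dimH_union, dimH_iUnion, Set.Countable.dimH_zero (Algebraic.countable ℚ ℂ)]
    simp [hE0]
  intro I hI
  have hmem : ∀ x : ℂ, x ∉ {x : ℂ | IsAlgebraic ℚ x} ∪ ⋃ I, E I → ¬ IsAlgebraic ℚ x ∧ x ∈ Om ∧ x ∉ E I := by
    intro x hx
    refine ⟨fun h => hx (Or.inl h), mem_Om.2 fun n h => hx (Or.inl ?_), fun h => hx (Or.inr (Set.mem_iUnion.2 ⟨I, h⟩))⟩
    show IsAlgebraic ℚ x
    rw [h]
    exact (isAlgebraic_natCast n).neg
  refine ⟨fun x hx => ?_, fun x hx => ?_⟩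
  · obtain ⟨h1, h2, h3⟩ := hmem x hx
    exact (hE I hI).1 x h2 h3
  · obtain ⟨h1, h2, h3⟩ := hmem x hx
    refine (hE I hI).2 x (fun h => h1 ?_) h2 h3
    obtain ⟨y, rfl⟩ := h
    have h4 : (((y : ℝ)) : ℂ) = algebraMap ℚ ℂ y := by simp
    rw [h4]
    exact isAlgebraic_algebraMap y

/-- lower bound for polynomials, with coefficients polynomials in `ξ` over the integers of `F`, in the
multiple Hurwitz zeta values at `t`, in terms of the linearization -/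
def PBound {g : ℕ} (M : Finset (List ℕ →₀ ℕ)) (W : Finset (List ℕ)) (n : (List ℕ →₀ ℕ) → List ℕ →₀ ℤ)
    (ξ : Fin g → ℂ) (F : Type) [Field F] [NumberField F] (ι : F →+* ℂ) (d : ℕ) (A B T : ℝ) (t : F) : Prop :=
  ∀ c : (List ℕ →₀ ℕ) → MvPolynomial (Fin g) (𝓞 F), (∀ e ∈ M, ∀ v, (c e).degreeOf v ≤ d) →
    (∀ e ∈ M, ∀ m (φ : F →+* ℂ), ‖φ ((c e).coeff m : 𝓞 F)‖ ≤ T ^ A) → ∀ w ∈ W,
    T ^ (-B) * ‖∑ e ∈ M, ((n e w : ℤ) : ℂ) * eval₂ (ι.comp (algebraMap (𝓞 F) F)) ξ (c e)‖ ≤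
      ‖∑ e ∈ M, eval₂ (ι.comp (algebraMap (𝓞 F) F)) ξ (c e) * e.prod fun s k => mhz s (ι t) ^ k‖

theorem poly_of_bound (M : Finset (List ℕ →₀ ℕ)) (hM : ∀ d ∈ M, ∀ s ∈ d.support, Adm s) :
    ∃ W : Finset (List ℕ), (∀ w ∈ W, Adm w) ∧ ∃ n : (List ℕ →₀ ℕ) → List ℕ →₀ ℤ,
      (∀ (R : Type) [CommRing R] (c : (List ℕ →₀ ℕ) → R),
        ∑ d ∈ M, monomial d (c d) - ∑ w ∈ W, C (∑ d ∈ M, ((n d w : ℤ) : R) * c d) * X w ∈ J R) ∧
      ∃ T₀ : ℝ, 1 ≤ T₀ ∧ (∀ w ∈ W, ∑ d ∈ M, |(n d w : ℝ)| ≤ T₀) ∧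
        ∀ (g : ℕ) (ξ : Fin g → ℂ) (F : Type) [Field F] [NumberField F]
        (ι : F →+* ℂ) (d : ℕ) (A B T : ℝ) (t : F), T₀ ≤ T → Bound ξ W F ι d (A + 1) B T t →
        PBound M W n ξ F ι d A B T t := by
  classical
  have hex : ∀ d : List ℕ →₀ ℕ, ∃ n : List ℕ →₀ ℤ, d ∈ M → (∀ w ∈ n.support, Adm w) ∧
      monomial d (1 : ℤ) - Ln n ∈ J ℤ := fun d => by
    by_cases hd : d ∈ M
    · obtain ⟨n, hn⟩ := expand d (hM d hd)
      exact ⟨n, fun _ => hn⟩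
    · exact ⟨0, fun h => absurd h hd⟩
  choose n hn using hex
  set W : Finset (List ℕ) := M.biUnion fun d => (n d).support with hW
  have hWa : ∀ w ∈ W, Adm w := fun w hw => by
    obtain ⟨d, hd, h⟩ := Finset.mem_biUnion.1 hw
    exact (hn d hd).1 w h
  have hWs : ∀ d ∈ M, (n d).support ⊆ W := fun d hd => Finset.subset_biUnion_of_mem (fun d => (n d).support) hd
  have hJ : ∀ (R : Type) [CommRing R] (c : (List ℕ →₀ ℕ) → R),
        ∑ d ∈ M, monomial d (c d) - ∑ w ∈ W, C (∑ d ∈ M, ((n d w : ℤ) : R) * c d) * X w ∈ J R :=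
    fun R _ c => expand_map (fun d hd => (hn d hd).2) hWs c
  set N0 : ℝ := ∑ w ∈ W, ∑ d ∈ M, |(n d w : ℝ)| with hN0
  have hN0w : ∀ w ∈ W, ∑ d ∈ M, |(n d w : ℝ)| ≤ N0 := fun w hw =>
    Finset.single_le_sum (f := fun w => ∑ d ∈ M, |(n d w : ℝ)|)
      (fun _ _ => Finset.sum_nonneg fun _ _ => abs_nonneg _) hw
  refine ⟨W, hWa, n, hJ, max N0 1, le_max_right _ _, fun w hw => (hN0w w hw).trans (le_max_left _ _), ?_⟩
  intro g ξ F _ _ ι d A B T t hT hB c hcd hcA w hw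
  have hTN : N0 ≤ T := (le_max_left _ _).trans hT
  have hT1 : 1 ≤ T := (le_max_right _ _).trans hT
  have hTp : 0 < T := lt_of_lt_of_le one_pos hT1
  set e := ι.comp (algebraMap (𝓞 F) F) with he
  set b : List ℕ → MvPolynomial (Fin g) (𝓞 F) := fun s => ∑ u ∈ M, C ((n u s : ℤ) : 𝓞 F) * c u with hb
  have hbd : ∀ s ∈ W, ∀ v, (b s).degreeOf v ≤ d := by
    intro s _ v
    refine (degreeOf_sum_le _ _ _).trans (Finset.sup_le fun u hu => ?_)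
    exact (degreeOf_C_mul_le _ _ _).trans (hcd u hu v)
  have hbA : ∀ s ∈ W, ∀ m (φ : F →+* ℂ), ‖φ (((b s).coeff m : 𝓞 F) : F)‖ ≤ T ^ (A + 1) := by
    intro s hs m φ
    have h1 : (b s).coeff m = ∑ u ∈ M, ((n u s : ℤ) : 𝓞 F) * (c u).coeff m := by
      rw [hb]
      simp only
      rw [coeff_sum]
      exact Finset.sum_congr rfl fun u _ => by rw [coeff_C_mul]
    have h2 : φ (((b s).coeff m : 𝓞 F) : F) = ∑ u ∈ M, (n u s : ℂ) * φ (((c u).coeff m : 𝓞 F) : F) := by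
      rw [h1, show ((∑ u ∈ M, ((n u s : ℤ) : 𝓞 F) * (c u).coeff m : 𝓞 F) : F) =
        ∑ u ∈ M, (n u s : F) * (((c u).coeff m : 𝓞 F) : F) by simp [map_sum], map_sum]
      refine Finset.sum_congr rfl fun w _ => ?_
      rw [map_mul, map_intCast]
    rw [h2]
    refine (norm_sum_le _ _).trans ?_
    have h3 : ∀ u ∈ M, ‖((n u s : ℤ) : ℂ) * φ (((c u).coeff m : 𝓞 F) : F)‖ ≤ |(n u s : ℝ)| * T ^ A := fun u hu => by
      rw [norm_mul, Complex.norm_intCast]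
      exact mul_le_mul_of_nonneg_left (hcA u hu m φ) (abs_nonneg _)
    refine (Finset.sum_le_sum h3).trans ?_
    rw [← Finset.sum_mul, Real.rpow_add hTp, Real.rpow_one, mul_comm]
    exact mul_le_mul_of_nonneg_left ((hN0w s hs).trans hTN) (Real.rpow_nonneg hTp.le _)
  have hbe : ∀ s, eval₂ e ξ (b s) = ∑ u ∈ M, ((n u s : ℤ) : ℂ) * eval₂ e ξ (c u) := by
    intro s
    rw [hb]
    simp only
    rw [eval₂_sum]
    refine Finset.sum_congr rfl fun u _ => ?_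
    rw [eval₂_mul, eval₂_C, map_intCast]
  have h3 := hB b hbd hbA w hw
  rw [← he] at h3
  simp only [hbe] at h3
  refine h3.trans (le_of_eq ?_)
  congr 1
  have h5 := J_eval (RingHom.id ℂ) (ι t) (hJ ℂ fun u => eval₂ e ξ (c u))
  rw [← coe_eval₂Hom, map_sub, sub_eq_zero, map_sum, map_sum] at h5
  simp only [map_mul, coe_eval₂Hom, eval₂_C, eval₂_X, eval₂_monomial, RingHom.id_apply] at h5
  exact h5.symm

/-- every near relation is a consequence of the stuffle product -/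
theorem mem_J_of_bound (M : Finset (List ℕ →₀ ℕ)) (hM : ∀ d ∈ M, ∀ s ∈ d.support, Adm s) :
    ∃ W : Finset (List ℕ), (∀ w ∈ W, Adm w) ∧ ∃ T₀ : ℝ,
      ∀ (ξ : Fin 0 → ℂ) (F : Type) [Field F] [NumberField F] (ι : F →+* ℂ) (A B T : ℝ) (t : F), T₀ ≤ T → 0 ≤ A →
        Bound ξ W F ι 0 (A + 1) B T t → ∀ P : MvPolynomial (List ℕ) (𝓞 F), P.support ⊆ M →
          (∀ d (φ : F →+* ℂ), ‖φ (P.coeff d : 𝓞 F)‖ ≤ T ^ A) →
          ‖eval₂ (ι.comp (algebraMap (𝓞 F) F)) (fun s => mhz s (ι t)) P‖ ≤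
            T ^ (-(B + (A + 1) * (Module.finrank ℚ F : ℕ) + 1)) → P ∈ J (𝓞 F) := by
  classical
  obtain ⟨W, hWa, n, hJ, T₀, hT₀, hN0w, H⟩ := poly_of_bound M hM
  refine ⟨W, hWa, max T₀ 2, fun ξ F _ _ ι A B T t hT hA hB P hPM hPA hsmall => ?_⟩
  have hT0 : T₀ ≤ T := (le_max_left _ _).trans hT
  have hT2 : 2 ≤ T := (le_max_right _ _).trans hT
  have hT1 : 1 ≤ T := one_le_two.trans hT2
  have hTp : 0 < T := lt_of_lt_of_le one_pos hT1
  have h1 := H 0 ξ F ι 0 A B T t hT0 hB (fun e => C (P.coeff e)) (fun e _ v => v.elim0) (fun e _ m φ => by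
    rw [coeff_C]
    split_ifs
    · exact hPA e φ
    · have h1 : φ (((0 : 𝓞 F)) : F) = 0 := by simp
      rw [h1, norm_zero]
      exact (Real.rpow_pos_of_pos hTp _).le)
  have hPsum : P = ∑ d ∈ M, monomial d (P.coeff d) := by
    conv_lhs => rw [P.as_sum]
    refine Finset.sum_subset hPM fun d _ hd => ?_
    rw [notMem_support_iff.1 hd, map_zero]
  have h2 := hJ (𝓞 F) fun d => P.coeff d
  rw [← hPsum] at h2
  -- the linear part vanishes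
  have h3 : ∀ w ∈ W, ∑ d ∈ M, ((n d w : ℤ) : 𝓞 F) * P.coeff d = 0 := by
    intro w hw
    by_contra hne
    have h4 : ∀ φ : F →+* ℂ, φ ((∑ d ∈ M, ((n d w : ℤ) : 𝓞 F) * P.coeff d : 𝓞 F) : F) =
        ∑ d ∈ M, ((n d w : ℤ) : ℂ) * φ (P.coeff d : 𝓞 F) := by
      intro φ
      show φ (algebraMap (𝓞 F) F (∑ d ∈ M, ((n d w : ℤ) : 𝓞 F) * P.coeff d)) = _
      rw [map_sum, map_sum]
      refine Finset.sum_congr rfl fun d _ => ?_
      rw [map_mul, map_mul, map_intCast, map_intCast]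
    have h5 : ∀ φ : F →+* ℂ, ‖φ ((∑ d ∈ M, ((n d w : ℤ) : 𝓞 F) * P.coeff d : 𝓞 F) : F)‖ ≤
        T ^ (A + 1) := by
      intro φ
      rw [h4]
      refine (norm_sum_le _ _).trans ?_
      have h6 : ∀ d ∈ M, ‖((n d w : ℤ) : ℂ) * φ (P.coeff d : 𝓞 F)‖ ≤ |(n d w : ℝ)| * T ^ A :=
        fun d hd => by
          rw [norm_mul, Complex.norm_intCast]
          exact mul_le_mul_of_nonneg_left (hPA d φ) (abs_nonneg _)
      refine (Finset.sum_le_sum h6).trans ?_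
      rw [← Finset.sum_mul, Real.rpow_add hTp, Real.rpow_one, mul_comm]
      exact mul_le_mul_of_nonneg_left ((hN0w w hw).trans hT0) (Real.rpow_nonneg hTp.le _)
    have h7 := liouville hne ι (Real.one_le_rpow hT1 (by positivity)) h5 le_rfl
    rw [h4] at h7
    have h8 := h1 w hw
    simp only [eval₂_C] at h8
    have h9 : ∑ d ∈ M, (ι.comp (algebraMap (𝓞 F) F)) (P.coeff d) * d.prod (fun s k => mhz s (ι t) ^ k) =
        eval₂ (ι.comp (algebraMap (𝓞 F) F)) (fun s => mhz s (ι t)) P := by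
      conv_rhs => rw [hPsum]
      rw [← coe_eval₂Hom, map_sum]
      refine Finset.sum_congr rfl fun d _ => ?_
      rw [coe_eval₂Hom, eval₂_monomial]
    rw [h9] at h8
    have h10 : T ^ (-B) * ‖∑ d ∈ M, ((n d w : ℤ) : ℂ) * ι (P.coeff d : 𝓞 F)‖ ≤
        T ^ (-(B + (A + 1) * (Module.finrank ℚ F : ℕ) + 1)) := h8.trans hsmall
    set m : ℕ := Module.finrank ℚ F with hm
    have h11 : (T ^ (A + 1)) ^ m = T ^ ((A + 1) * m) := by
      rw [← Real.rpow_natCast, ← Real.rpow_mul hTp.le]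
    rw [h11] at h7
    have h12 : T ^ (-B) ≤ T ^ (-B - 1) := by
      calc T ^ (-B) = T ^ (-B) * 1 := (mul_one _).symm
        _ ≤ T ^ (-B) * (‖∑ d ∈ M, ((n d w : ℤ) : ℂ) * ι (P.coeff d : 𝓞 F)‖ * T ^ ((A + 1) * m)) :=
            mul_le_mul_of_nonneg_left h7 (Real.rpow_nonneg hTp.le _)
        _ = (T ^ (-B) * ‖∑ d ∈ M, ((n d w : ℤ) : ℂ) * ι (P.coeff d : 𝓞 F)‖) * T ^ ((A + 1) * m) := by ring
        _ ≤ T ^ (-(B + (A + 1) * m + 1)) * T ^ ((A + 1) * m) :=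
            mul_le_mul_of_nonneg_right h10 (Real.rpow_nonneg hTp.le _)
        _ = T ^ (-B - 1) := by
            rw [← Real.rpow_add hTp]
            congr 1
            ring
    have h13 : T ^ (-B - 1) < T ^ (-B) :=
      Real.rpow_lt_rpow_of_exponent_lt (lt_of_lt_of_le one_lt_two hT2) (by linarith)
    exact absurd h12 (not_le.2 h13)
  have h14 : ∑ w ∈ W, C (∑ d ∈ M, ((n d w : ℤ) : 𝓞 F) * P.coeff d) * (MvPolynomial.X w : MvPolynomial (List ℕ) (𝓞 F)) = 0 :=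
    Finset.sum_eq_zero fun w hw => by rw [h3 w hw, C_0, zero_mul]
  rw [h14, sub_zero] at h2
  exact h2

/-- an assignment with the stuffle product kills the ideal -/
theorem J_hom {R S : Type} [CommRing R] [CommRing S] (f : R →+* S) (v : List ℕ → S) (h0 : v [] = 1)
    (hv : ∀ a b, Adm a → Adm b → v a * v b = ((stuffle a b).map v).sum) {p : MvPolynomial (List ℕ) R}
    (hp : p ∈ J R) : eval₂ f v p = 0 := by
  have h1 : J R ≤ RingHom.ker (eval₂Hom f v) := by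
    refine Ideal.span_le.2 ?_
    rintro q (hq | ⟨a, b, ha, hb, rfl⟩)
    · rw [Set.mem_singleton_iff.1 hq]
      show eval₂Hom f v (X [] - 1) = 0
      rw [map_sub, map_one, eval₂Hom_X', h0, sub_self]
    · show eval₂Hom f v _ = 0
      rw [map_sub, map_mul, eval₂Hom_X', eval₂Hom_X', map_list_sum, List.map_map, hv a b ha hb, sub_eq_zero]
      congr 1
      exact List.map_congr_left fun w _ => (eval₂Hom_X' f v w).symm
  exact h1 hp

end Pool.Agent.X39.Near
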