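import Pool.Agent.X39.Near.Sing
import Pool.Agent.H340R2.LW

/-!
# Polynomial relations between numbers without relations of bounded complexity
-/

set_option autoImplicit false

open NumberField Filter

namespace Pool.Agent.X39.Near

open MvPolynomial Pool.Agent.X255.NP

/-- **Polynomials.** All the coefficients, as polynomials in the unknowns, vanish. -/
theorem poly_of_notDep {J : Type} [Fintype J] [DecidableEq J] {q g : ℕ} (f : J → ℂ → ℂ)
    (u : Fin q → Polynomial ℂ) (w₀ : Polynomial ℂ) (ξ : Fin g → ℂ) (F : Type) [Field F] [NumberField F]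
    (io : F →+* ℂ) {d : ℕ} {A B T : ℝ} {t : F} (h : ¬ Dependent f u w₀ ξ F io d A B T t)
    (hT : 0 < T) (PP : MvPolynomial (Fin g ⊕ J) (𝓞 F)) (hdo : ∀ i, PP.degreeOf i ≤ d)
    (hbound : ∀ (s : Fin g ⊕ J →₀ ℕ) (φ : F →+* ℂ), ‖φ ((PP.coeff s : 𝓞 F) : F)‖ ≤ T ^ A)
    (hev : eval₂ (io.comp (algebraMap (𝓞 F) F)) (Sum.elim ξ fun j => f j (io t)) PP = 0) (l : J → Fin (d + 1)) :
    ∑ β : Fin g → Fin (d + 1), (∏ b, ξ b ^ (β b : ℕ)) *
      (io.comp (algebraMap (𝓞 F) F)) (PP.coeff (Pool.Agent.X255.RH.sV2 β l)) = 0 := by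
  classical
  have hTA : 0 ≤ T ^ A := Real.rpow_nonneg hT.le _
  set a : (J → Fin (d + 1)) → MvPolynomial (Fin q ⊕ Fin g) (𝓞 F) := fun l =>
    ∑ β : Fin g → Fin (d + 1), monomial (eC q β) (PP.coeff (Pool.Agent.X255.RH.sV2 β l)) with ha
  set P : MvPolynomial J (MvPolynomial (Fin q ⊕ Fin g) (𝓞 F)) := ∑ l, monomial (eJ l) (a l) with hP
  have haev : ∀ l, coefAt u w₀ ξ F io t (a l) = ∑ β : Fin g → Fin (d + 1), (∏ b, ξ b ^ (β b : ℕ)) *
      (io.comp (algebraMap (𝓞 F) F)) (PP.coeff (Pool.Agent.X255.RH.sV2 β l)) := by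
    intro l
    rw [ha]
    simp only [coefAt, map_sum]
    refine Finset.sum_congr rfl fun β _ => ?_
    rw [coe_eval₂Hom, eval₂_monomial, mul_comm]
    congr 1
    rw [Finsupp.prod_fintype _ _ fun i => pow_zero _, Fintype.prod_sum_type]
    simp [eC]
  have hbox := fun y => Pool.Agent.X255.RH.eval_box2 (io.comp (algebraMap (𝓞 F) F)) PP (k := d) (k' := d)
    (fun a => hdo _) (fun q => hdo _) ξ y
  have hval : MvPolynomial.eval₂ (coefAt u w₀ ξ F io t) (fun j => f j (io t)) P = 0 := by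
    have h1 : MvPolynomial.eval₂ (coefAt u w₀ ξ F io t) (fun j => f j (io t)) P =
        ∑ l : J → Fin (d + 1), (∑ β : Fin g → Fin (d + 1), (∏ b, ξ b ^ (β b : ℕ)) *
          (io.comp (algebraMap (𝓞 F) F)) (PP.coeff (Pool.Agent.X255.RH.sV2 β l))) * ∏ j, f j (io t) ^ (l j : ℕ) := by
      rw [hP, eval₂_sum]
      refine Finset.sum_congr rfl fun l _ => ?_
      rw [eval₂_monomial, haev, Finsupp.prod_fintype _ _ fun i => pow_zero _]
      rfl
    rw [h1, ← hbox]
    exact hev
  rw [← haev]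
  by_contra hl
  apply h
  refine ⟨P, fun x => degreeOf_mono eJ_inj a fun l => Nat.lt_succ_iff.1 (l x).2, fun e v => ?_, fun e s φ => ?_,
    eJ l, ?_, ?_⟩
  · rcases coeff_mono' eJ_inj a e with h1 | ⟨l', -, h1⟩
    · rw [hP, h1]
      simp
    · rw [hP, h1]
      refine degreeOf_mono (eC_inj q) _ fun β => ?_
      rcases v with v | v
      · simp [eC]
      · exact Nat.lt_succ_iff.1 (β v).2
  · rcases coeff_mono' eJ_inj a e with h1 | ⟨l', -, h1⟩
    · rw [hP, h1]
      simpa using hTA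
    · rw [hP, h1]
      rcases coeff_mono' (eC_inj q) (fun β => PP.coeff (Pool.Agent.X255.RH.sV2 β l')) s with h2 | ⟨β, -, h2⟩
      · have h3 : (a l').coeff s = 0 := h2
        rw [h3]
        simpa using hTA
      · have h3 : (a l').coeff s = PP.coeff (Pool.Agent.X255.RH.sV2 β l') := h2
        rw [h3]
        exact hbound _ φ
  · rw [hP, coeff_mono eJ_inj]
    exact hl
  · rw [hval, norm_zero]
    exact mul_nonneg (Real.rpow_nonneg hT.le _) (norm_nonneg _)

/-- a number transcendental over `ℚ` satisfies no relation over a number field -/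
theorem zero_of_trans {c : ℂ} (hc : Transcendental ℚ c) (F : Type) [Field F] [NumberField F] (io : F →+* ℂ)
    (p : Polynomial F) (hp : p.eval₂ io c = 0) : p = 0 := by
  let _ : Algebra F ℂ := io.toAlgebra
  have : IsScalarTower ℚ F ℂ := IsScalarTower.of_algebraMap_eq' (Subsingleton.elim _ _)
  by_contra hne
  exact hc (IsAlgebraic.restrictScalars ℚ (S := F) ⟨p, hne, hp⟩)

/-- with one transcendental constant, the polynomial vanishes -/
theorem poly_zero {J : Type} [Fintype J] [DecidableEq J] {q : ℕ} (f : J → ℂ → ℂ)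
    (u : Fin q → Polynomial ℂ) (w₀ : Polynomial ℂ) {c : ℂ} (hc : Transcendental ℚ c) (F : Type) [Field F] [NumberField F]
    (io : F →+* ℂ) {d : ℕ} {A B T : ℝ} {t : F} (h : ¬ Dependent f u w₀ (fun _ : Fin 1 => c) F io d A B T t)
    (hT : 0 < T) (PP : MvPolynomial (Fin 1 ⊕ J) (𝓞 F)) (hdo : ∀ i, PP.degreeOf i ≤ d)
    (hbound : ∀ (s : Fin 1 ⊕ J →₀ ℕ) (φ : F →+* ℂ), ‖φ ((PP.coeff s : 𝓞 F) : F)‖ ≤ T ^ A)
    (hev : eval₂ (io.comp (algebraMap (𝓞 F) F)) (Sum.elim (fun _ : Fin 1 => c) fun j => f j (io t)) PP = 0) : PP = 0 := by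
  classical
  have key := poly_of_notDep f u w₀ (fun _ : Fin 1 => c) F io h hT PP hdo hbound hev
  have h1 : ∀ (l : J → Fin (d + 1)) (β : Fin 1 → Fin (d + 1)), PP.coeff (Pool.Agent.X255.RH.sV2 β l) = 0 := by
    intro l β
    let p : Polynomial F := ∑ b : Fin (d + 1), Polynomial.C ((PP.coeff (Pool.Agent.X255.RH.sV2 (fun _ : Fin 1 => b) l) : 𝓞 F) : F) *
      Polynomial.X ^ (b : ℕ)
    have h2 : p.eval₂ io c = 0 := by
      rw [← key l, ← (Equiv.funUnique (Fin 1) (Fin (d + 1))).symm.sum_comp, Polynomial.eval₂_finsetSum]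
      refine Finset.sum_congr rfl fun b _ => ?_
      have h6 : (Equiv.funUnique (Fin 1) (Fin (d + 1))).symm b = fun _ => b := by
        ext i
        simp
      rw [Polynomial.eval₂_mul, Polynomial.eval₂_C, Polynomial.eval₂_X_pow, mul_comm, h6]
      congr 1
      simp
    have h3 := zero_of_trans hc F io p h2
    have h4 : p.coeff (β 0) = ((PP.coeff (Pool.Agent.X255.RH.sV2 β l) : 𝓞 F) : F) := by
      simp only [p, Polynomial.finsetSum_coeff, Polynomial.coeff_C_mul_X_pow]
      rw [Finset.sum_eq_single (β 0)]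
      · rw [if_pos rfl]
        congr 4
        funext i
        rw [Subsingleton.elim i 0]
      · intro b _ hb
        rw [if_neg fun h5 => hb (Fin.ext h5.symm)]
      · intro h5
        exact absurd (Finset.mem_univ _) h5
    rw [h3, Polynomial.coeff_zero] at h4
    exact_mod_cast h4.symm
  refine MvPolynomial.ext _ _ fun s => ?_
  rw [coeff_zero]
  by_cases hs : s ∈ PP.support
  · have h2 : ∀ i, s i < d + 1 := fun i => Nat.lt_succ_of_le ((monomial_le_degreeOf _ hs).trans (hdo i))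
    have h3 : s = Pool.Agent.X255.RH.sV2 (fun a : Fin 1 => (⟨s (Sum.inl a), h2 _⟩ : Fin (d + 1)))
        (fun b : J => (⟨s (Sum.inr b), h2 _⟩ : Fin (d + 1))) := by
      ext i
      rcases i with a | b <;> rfl
    rw [h3, h1]
  · exact notMem_support_iff.1 hs

/-- the number of monomials -/
theorem card_support {σ R : Type} [Fintype σ] [CommSemiring R] (P : MvPolynomial σ R) {D : ℕ} (h : ∀ i, P.degreeOf i ≤ D) :
    P.support.card ≤ (D + 1) ^ Fintype.card σ := by
  classical
  have h1 : P.support.card ≤ Fintype.card (σ → Fin (D + 1)) := by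
    rw [← Fintype.card_coe]
    refine Fintype.card_le_of_injective (fun s i => (⟨s.1 i, Nat.lt_succ_of_le ((monomial_le_degreeOf _ s.2).trans (h i))⟩ :
      Fin (D + 1))) ?_
    intro s s' hss
    apply Subtype.ext
    ext i
    exact congrArg Fin.val (congrFun hss i)
  simpa using h1

end Pool.Agent.X39.Near
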