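import Pool.Agent.X39.Near.Sing

/-!
# Lower bounds for polynomials in numbers without relations of bounded complexity and constants
-/

set_option autoImplicit false

open NumberField Filter

namespace Pool.Agent.X39.Near

open MvPolynomial

/-- **Polynomials.** The value is not much smaller than the nonzero coefficients with respect to the unknowns. -/
theorem poly_lower {J : Type} [Fintype J] [DecidableEq J] {q g : ℕ} (f : J → ℂ → ℂ)
    (u : Fin q → Polynomial ℂ) (w₀ : Polynomial ℂ) (ξ : Fin g → ℂ) (F : Type) [Field F] [NumberField F]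
    (io : F →+* ℂ) {d : ℕ} {A B T : ℝ} {t : F} (h : ¬ Dependent f u w₀ ξ F io d A B T t)
    (hT : 0 < T) (PP : MvPolynomial (Fin g ⊕ J) (𝓞 F)) (hdo : ∀ i, PP.degreeOf i ≤ d)
    (hbound : ∀ (s : Fin g ⊕ J →₀ ℕ) (φ : F →+* ℂ), ‖φ ((PP.coeff s : 𝓞 F) : F)‖ ≤ T ^ A)
    (l : J → Fin (d + 1)) (hl : ∑ β : Fin g → Fin (d + 1), (∏ b, ξ b ^ (β b : ℕ)) *
      (io.comp (algebraMap (𝓞 F) F)) (PP.coeff (Pool.Agent.X255.RH.sV2 β l)) ≠ 0) :
    T ^ (-B) * ‖∑ β : Fin g → Fin (d + 1), (∏ b, ξ b ^ (β b : ℕ)) *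
      (io.comp (algebraMap (𝓞 F) F)) (PP.coeff (Pool.Agent.X255.RH.sV2 β l))‖ <
      ‖eval₂ (io.comp (algebraMap (𝓞 F) F)) (Sum.elim ξ fun j => f j (io t)) PP‖ := by
  classical
  have hTA : 0 ≤ T ^ A := Real.rpow_nonneg hT.le _
  set a : (J → Fin (d + 1)) → MvPolynomial (Fin q ⊕ Fin g) (𝓞 F) := fun l =>
    ∑ β : Fin g → Fin (d + 1), monomial (eC q β) (PP.coeff (Pool.Agent.X255.RH.sV2 β l)) with ha
  set P : MvPolynomial J (MvPolynomial (Fin q ⊕ Fin g) (𝓞 F)) := ∑ l, monomial (eJ l) (a l) with hP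
  have haev : ∀ l, coefAt u w₀ ξ F io t (a l) = ∑ β : Fin g → Fin (d + 1), (∏ b, ξ b ^ (β b : ℕ)) *
      (io.comp (algebraMap (𝓞 F) F)) (PP.coeff (Pool.Agent.X255.RH.sV2 β l)) := by
    intro l
    rw [ha]
    simp only [coefAt, map_sum]
    refine Finset.sum_congr rfl fun β _ => ?_
    rw [coe_eval₂Hom, eval₂_monomial, mul_comm]
    congr 1
    rw [Finsupp.prod_fintype _ _ fun i => pow_zero _, Fintype.prod_sum_type]
    simp [eC]
  have hbox := fun y => Pool.Agent.X255.RH.eval_box2 (io.comp (algebraMap (𝓞 F) F)) PP (k := d) (k' := d)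
    (fun a => hdo _) (fun q => hdo _) ξ y
  have hval : MvPolynomial.eval₂ (coefAt u w₀ ξ F io t) (fun j => f j (io t)) P =
      eval₂ (io.comp (algebraMap (𝓞 F) F)) (Sum.elim ξ fun j => f j (io t)) PP := by
    rw [hbox, hP, eval₂_sum]
    refine Finset.sum_congr rfl fun l _ => ?_
    rw [eval₂_monomial, haev, Finsupp.prod_fintype _ _ fun i => pow_zero _]
    rfl
  by_contra hle
  apply h
  refine ⟨P, fun x => degreeOf_mono eJ_inj a fun l => Nat.lt_succ_iff.1 (l x).2, fun e v => ?_, fun e s φ => ?_,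
    eJ l, ?_, ?_⟩
  · rcases coeff_mono' eJ_inj a e with h1 | ⟨l', -, h1⟩
    · rw [hP, h1]
      simp
    · rw [hP, h1]
      refine degreeOf_mono (eC_inj q) _ fun β => ?_
      rcases v with v | v
      · simp [eC]
      · exact Nat.lt_succ_iff.1 (β v).2
  · rcases coeff_mono' eJ_inj a e with h1 | ⟨l', -, h1⟩
    · rw [hP, h1]
      simpa using hTA
    · rw [hP, h1]
      rcases coeff_mono' (eC_inj q) (fun β => PP.coeff (Pool.Agent.X255.RH.sV2 β l')) s with h2 | ⟨β, -, h2⟩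
      · have h3 : (a l').coeff s = 0 := h2
        rw [h3]
        simpa using hTA
      · have h3 : (a l').coeff s = PP.coeff (Pool.Agent.X255.RH.sV2 β l') := h2
        rw [h3]
        exact hbound _ φ
  · rw [hP, coeff_mono eJ_inj, haev]
    exact hl
  · rw [hval, hP, coeff_mono eJ_inj, haev]
    exact not_lt.1 hle

/-- lower bounds for the polynomials in the constants -/
def LowerBound {g : ℕ} (ξ : Fin g → ℂ) (k : ℕ) (H μ : ℝ) : Prop :=
  ∀ Q : MvPolynomial (Fin g) ℤ, Q.totalDegree ≤ k → (∀ m, |((Q.coeff m : ℤ) : ℝ)| ≤ H) →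
    aeval ξ Q ≠ 0 → μ ≤ ‖aeval ξ Q‖

/-- exponents -/
noncomputable def eG {g k : ℕ} (β : Fin g → Fin (k + 1)) : Fin g →₀ ℕ := Finsupp.equivFunOnFinite.symm fun x => (β x : ℕ)

theorem eG_inj {g k : ℕ} : Function.Injective (eG : (Fin g → Fin (k + 1)) → Fin g →₀ ℕ) := by
  intro l l' h
  funext x
  exact Fin.ext (DFunLike.congr_fun h x)

/-- **Integral polynomials.** -/
theorem int_lower {J : Type} [Fintype J] [DecidableEq J] {q g : ℕ} (f : J → ℂ → ℂ)
    (u : Fin q → Polynomial ℂ) (w₀ : Polynomial ℂ) (ξ : Fin g → ℂ) (F : Type) [Field F] [NumberField F]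
    (io : F →+* ℂ) {k : ℕ} {A B T : ℝ} {t : F} (h : ¬ Dependent f u w₀ ξ F io k A B T t)
    (hT : 0 < T) (R : MvPolynomial (Fin g ⊕ J) ℤ) (hdeg : R.totalDegree ≤ k) {H μ : ℝ} (hH : H ≤ T ^ A)
    (hR : ∀ m, |((R.coeff m : ℤ) : ℝ)| ≤ H) (hμ : LowerBound ξ k H μ)
    (hne : aeval (Sum.elim ξ fun j => f j (io t)) R ≠ 0) :
    T ^ (-B) * μ < ‖aeval (Sum.elim ξ fun j => f j (io t)) R‖ := by
  classical
  set PP : MvPolynomial (Fin g ⊕ J) (𝓞 F) := R.map (Int.castRingHom (𝓞 F)) with hPP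
  have hco : ∀ s, PP.coeff s = ((R.coeff s : ℤ) : 𝓞 F) := fun s => by rw [hPP, coeff_map]; rfl
  have hev : eval₂ (io.comp (algebraMap (𝓞 F) F)) (Sum.elim ξ fun j => f j (io t)) PP =
      aeval (Sum.elim ξ fun j => f j (io t)) R := by
    rw [hPP, eval₂_map, aeval_def]
    congr 1
    exact Subsingleton.elim _ _
  have hdo : ∀ i, PP.degreeOf i ≤ k := fun i => (degreeOf_map _ R i).trans ((degreeOf_le_totalDegree _ _).trans hdeg)
  have hbound : ∀ (s : Fin g ⊕ J →₀ ℕ) (φ : F →+* ℂ), ‖φ ((PP.coeff s : 𝓞 F) : F)‖ ≤ T ^ A := by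
    intro s φ
    rw [hco]
    have e1 : ((((R.coeff s : ℤ) : 𝓞 F)) : F) = ((R.coeff s : ℤ) : F) := rfl
    rw [e1, map_intCast, Complex.norm_intCast]
    exact (hR s).trans hH
  have hbox := Pool.Agent.X255.RH.eval_box2 (io.comp (algebraMap (𝓞 F) F)) PP (k := k) (k' := k)
    (fun a => hdo _) (fun q => hdo _) ξ fun j => f j (io t)
  obtain ⟨l, hl⟩ : ∃ l : J → Fin (k + 1), ∑ β : Fin g → Fin (k + 1), (∏ b, ξ b ^ (β b : ℕ)) *
      (io.comp (algebraMap (𝓞 F) F)) (PP.coeff (Pool.Agent.X255.RH.sV2 β l)) ≠ 0 := by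
    by_contra hcon
    push Not at hcon
    apply hne
    rw [← hev, hbox]
    exact Finset.sum_eq_zero fun l _ => by rw [hcon l, zero_mul]
  have h1 := poly_lower f u w₀ ξ F io h hT PP hdo hbound l hl
  rw [hev] at h1
  refine lt_of_le_of_lt (mul_le_mul_of_nonneg_left ?_ (Real.rpow_nonneg hT.le _)) h1
  set S : MvPolynomial (Fin g) ℤ := ∑ β : Fin g → Fin (k + 1), monomial (eG β) (R.coeff (Pool.Agent.X255.RH.sV2 β l)) with hS
  have hSe : aeval ξ S = ∑ β : Fin g → Fin (k + 1), (∏ b, ξ b ^ (β b : ℕ)) *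
      (io.comp (algebraMap (𝓞 F) F)) (PP.coeff (Pool.Agent.X255.RH.sV2 β l)) := by
    rw [hS, map_sum]
    refine Finset.sum_congr rfl fun β _ => ?_
    rw [aeval_monomial, hco, mul_comm, Finsupp.prod_fintype _ _ fun i => pow_zero _]
    congr 1
    simp
  rw [← hSe] at hl ⊢
  refine hμ S ?_ ?_ hl
  · refine Finset.sup_le fun m hm => ?_
    rcases coeff_mono' (eG_inj (k := k)) (fun β => R.coeff (Pool.Agent.X255.RH.sV2 β l)) m with h2 | ⟨β, hβ, h2⟩
    · exact absurd h2 (mem_support_iff.1 hm)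
    · have h3 : Pool.Agent.X255.RH.sV2 β l ∈ R.support := by
        rw [mem_support_iff]
        intro h4
        exact mem_support_iff.1 hm (by rw [hS, h2]; exact h4)
      have h4 := (le_totalDegree h3).trans hdeg
      rw [Finsupp.sum_fintype _ _ fun _ => rfl, Fintype.sum_sum_type] at h4
      rw [hβ, Finsupp.sum_fintype _ _ fun _ => rfl]
      exact le_trans (Nat.le_add_right _ _) h4
  · intro m
    rcases coeff_mono' (eG_inj (k := k)) (fun β => R.coeff (Pool.Agent.X255.RH.sV2 β l)) m with h2 | ⟨β, -, h2⟩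
    · rw [hS, h2]
      simpa using (abs_nonneg _).trans (hR 0)
    · rw [hS, h2]
      exact hR _

end Pool.Agent.X39.Near
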