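import Pool.Agent.X39.Near.Ax

/-!
# The logarithm and powers of all algebraic numbers close to a given number
-/

set_option autoImplicit false

open Filter Topology

noncomputable section

namespace Pool.Agent.X39.Near

open MvPolynomial

/-- `ℓ` and the `exp (γ_k ℓ)` -/
def pw {m : ℕ} (γ : Fin m → ℂ) : Option (Fin m) → ℂ → ℂ
  | none, ℓ => ℓ
  | some k, ℓ => Complex.exp (γ k * ℓ)

/-- `1, γ_1, …, γ_m` are linearly independent over `ℚ` -/
def Ind1 {m : ℕ} (γ : Fin m → ℂ) : Prop :=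
  ∀ (c₀ : ℤ) (c : Fin m → ℤ), (c₀ : ℂ) + ∑ k, (c k : ℂ) * γ k = 0 → c₀ = 0 ∧ c = 0

/-- the exchange of the variables -/
def swV {m : ℕ} : Option (Option (Fin m)) → Option (Fin (m + 1))
  | none => some 0
  | some none => none
  | some (some k) => some k.succ

theorem swV_inj {m : ℕ} : Function.Injective (swV (m := m)) := by
  rintro (_ | _ | a) (_ | _ | b) h
  · rfl
  · simp [swV] at h
  · simp only [swV, Option.some.injEq] at h
    exact absurd h.symm (Fin.succ_ne_zero _)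
  · simp [swV] at h
  · rfl
  · simp [swV] at h
  · simp only [swV, Option.some.injEq] at h
    exact absurd h (Fin.succ_ne_zero _)
  · simp [swV] at h
  · simp only [swV, Option.some.injEq, Fin.succ_inj] at h
    rw [h]

theorem pw_ind {m : ℕ} {γ : Fin m → ℂ} (hγ : Ind1 γ) (s₀ : ℂ) (P : MvPolynomial (Option (Option (Fin m))) ℂ)
    (hP : ∀ᶠ s in 𝓝 s₀, eval (fun o : Option (Option (Fin m)) => o.elim (Complex.exp s) fun j => pw γ j s) P = 0) :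
    P = 0 := by
  have h1 := loc_lin (s := m + 1) (γ := Fin.cons 1 γ) (fun c hc => by
    rw [Fin.sum_univ_succ] at hc
    simp only [Fin.cons_zero, Fin.cons_succ, mul_one] at hc
    obtain ⟨h2, h3⟩ := hγ _ _ hc
    funext k
    refine Fin.cases h2 (fun k => congrFun h3 k) k) s₀
  apply rename_injective _ (swV_inj (m := m))
  rw [map_zero]
  apply h1
  filter_upwards [hP] with s hs
  rw [eval_rename, ← hs]
  congr 2
  funext o
  rcases o with _ | _ | k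
  · simp [swV]
  · simp [swV, pw]
  · simp [swV, pw]

theorem pw_an {m : ℕ} (γ : Fin m → ℂ) (j : Option (Fin m)) (s : ℂ) : AnalyticAt ℂ (pw γ j) s := by
  rcases j with _ | k
  · exact analyticAt_id
  · exact (analyticAt_const.mul analyticAt_id).cexp

/-- **Logarithm and powers**, exponents in a countable set -/
theorem pw_near {g : ℕ} (Γ : Set ℂ) (hΓ : Γ.Countable) (ξ : Fin g → ℂ) :
    ∃ E : Set ℂ, dimH E = 0 ∧ ∀ x : ℂ, x ∉ E → ∀ l₀ : ℂ, Complex.exp l₀ = x →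
      ∀ (m : ℕ) (γ : Fin m → ℂ), (∀ k, γ k ∈ Γ) → Ind1 γ →
      ∀ (F : Type) [Field F] [NumberField F] (ι : F →+* ℂ) (d A : ℕ) (ω : ℝ), 0 < ω → ∃ B T₁ : ℝ, ∀ T : ℝ, T₁ ≤ T →
        ∀ t : F, Size F T t → ‖ι t - x‖ ≤ T ^ (-ω) → ∀ ℓ : ℂ, Complex.exp ℓ = ι t → ‖ℓ - l₀‖ < 1 →
          ¬ Dep (fun j => pw γ j ℓ) ξ F ι d A B T := by
  classical
  have : Countable Γ := hΓ.to_subtype
  have H : ∀ i : Σ m : ℕ, Fin m → Γ, ∃ E : Set ℂ, dimH E = 0 ∧ (Ind1 (fun k => (i.2 k : ℂ)) →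
      ∀ x : ℂ, x ∉ E → ∀ l₀ : ℂ, Complex.exp l₀ = x →
      ∀ (F : Type) [Field F] [NumberField F] (ι : F →+* ℂ) (d A : ℕ) (ω : ℝ), 0 < ω → ∃ B T₁ : ℝ, ∀ T : ℝ, T₁ ≤ T →
        ∀ t : F, Size F T t → ‖ι t - x‖ ≤ T ^ (-ω) → ∀ ℓ : ℂ, Complex.exp ℓ = ι t → ‖ℓ - l₀‖ < 1 →
          ¬ Dep (fun j => pw (fun k => (i.2 k : ℂ)) j ℓ) ξ F ι d A B T) := by
    intro i
    by_cases hi : Ind1 (fun k => (i.2 k : ℂ))
    · obtain ⟨E, h1, h2⟩ := near_log (pw (fun k => (i.2 k : ℂ))) (pw_an _) (pw_ind hi) ξ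
      exact ⟨E, h1, fun _ => h2⟩
    · exact ⟨∅, dimH_empty, fun h => absurd h hi⟩
  choose E hE0 hE using H
  refine ⟨⋃ i, E i, by rw [dimH_iUnion]; simp [hE0], fun x hx l₀ hl m γ hγΓ hγ => ?_⟩
  have h1 := hE ⟨m, fun k => ⟨γ k, hγΓ k⟩⟩ hγ x (fun h => hx (Set.mem_iUnion.2 ⟨_, h⟩)) l₀ hl
  exact h1

end Pool.Agent.X39.Near
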