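import Pool.Agent.X39.Near.Basic
import Pool.Agent.X123.ML.Cv

/-! Sets of rational numbers with few elements: they contain only finitely many approximations to almost
all real numbers, in particular only finitely many convergents. -/

set_option autoImplicit false

namespace Pool.Agent.X39.Near

open Filter Topology MeasureTheory

/-- a rational number of absolute value at most `R` and denominator at most `X` -/
lemma num_le {t : ℚ} {R X : ℝ} (h : |(t : ℝ)| ≤ R) (hd : (t.den : ℝ) ≤ X) :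
    |(t.num : ℝ)| ≤ R * X := by
  have hd0 : (0 : ℝ) < t.den := by exact_mod_cast t.pos
  have h1 : (t : ℝ) = t.num / t.den := by
    conv_lhs => rw [← Rat.num_div_den t]
    push_cast
    rfl
  rw [h1, abs_div, abs_of_pos hd0, div_le_iff₀ hd0] at h
  have hR : 0 ≤ R := by
    by_contra hcon
    have : R * t.den < 0 := mul_neg_of_neg_of_pos (not_le.1 hcon) hd0
    linarith [abs_nonneg (t.num : ℝ)]
  exact h.trans (mul_le_mul_of_nonneg_left hd hR)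

/-- the rational numbers of bounded numerator and denominator are finite in number -/
lemma finite_box (X Y : ℝ) : {t : ℚ | |(t.num : ℝ)| ≤ X ∧ (t.den : ℝ) ≤ Y}.Finite := by
  have h1 : ((Set.Icc (-⌊X⌋) ⌊X⌋ ×ˢ Set.Icc 0 ⌊Y⌋₊ : Set (ℤ × ℕ))).Finite :=
    (Set.finite_Icc _ _).prod (Set.finite_Icc _ _)
  refine Set.Finite.of_finite_image (f := fun t : ℚ => (t.num, t.den)) (h1.subset ?_) ?_
  · rintro _ ⟨t, ⟨h2, h3⟩, rfl⟩
    have h4 : |t.num| ≤ ⌊X⌋ := Int.le_floor.2 (by exact_mod_cast h2)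
    exact ⟨abs_le.1 h4, Nat.zero_le _, Nat.le_floor h3⟩
  · intro a _ b _ hab
    simp only [Prod.mk.injEq] at hab
    exact Rat.ext hab.1 hab.2

/-- **Sets of rational numbers with at most `C X ^ (s + ε)` elements of height at most `X`.** -/
theorem nearRat (S : Set ℚ) {s ω : ℝ} (hs : 0 ≤ s) (hω : 0 < ω)
    (hS : ∀ ε : ℝ, 0 < ε → ∃ C : ℝ, ∀ X : ℝ, 1 ≤ X →
      ({t : ℚ | t ∈ S ∧ |(t.num : ℝ)| ≤ X ∧ (t.den : ℝ) ≤ X}.ncard : ℝ) ≤ C * X ^ (s + ε)) :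
    ∃ E : Set ℝ, dimH E ≤ ENNReal.ofReal (s / ω) ∧ ∀ α : ℝ, α ∉ E → ∀ A : ℝ,
      {t : ℚ | t ∈ S ∧ |(t : ℝ) - α| ≤ A * (t.den : ℝ) ^ (-ω)}.Finite := by
  refine near S (fun t => (t : ℝ)) (fun t => (t.den : ℝ)) (fun t _ => by exact_mod_cast t.pos) hs hω ?_
  intro R ε hε
  obtain ⟨C, hC⟩ := hS ε hε
  refine ⟨|C| * ((R : ℝ) + 1) ^ (s + ε), fun X hX => ?_⟩
  have hR0 : (0 : ℝ) ≤ R := Nat.cast_nonneg R
  have hY : (1 : ℝ) ≤ ((R : ℝ) + 1) * X := by nlinarith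
  have hsub : {t : ℚ | t ∈ S ∧ |(t : ℝ)| ≤ R ∧ (t.den : ℝ) ≤ X} ⊆
      {t : ℚ | t ∈ S ∧ |(t.num : ℝ)| ≤ ((R : ℝ) + 1) * X ∧ (t.den : ℝ) ≤ ((R : ℝ) + 1) * X} := by
    rintro t ⟨h1, h2, h3⟩
    refine ⟨h1, (num_le h2 h3).trans (by nlinarith), h3.trans (by nlinarith)⟩
  have hfin : {t : ℚ | t ∈ S ∧ |(t.num : ℝ)| ≤ ((R : ℝ) + 1) * X ∧
      (t.den : ℝ) ≤ ((R : ℝ) + 1) * X}.Finite := (finite_box _ _).subset fun t ht => ht.2
  refine ⟨hfin.subset hsub, ?_⟩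
  have h1 : (({t : ℚ | t ∈ S ∧ |(t : ℝ)| ≤ R ∧ (t.den : ℝ) ≤ X}.ncard : ℕ) : ℝ) ≤
      C * (((R : ℝ) + 1) * X) ^ (s + ε) := by
    refine le_trans ?_ (hC _ hY)
    exact_mod_cast Set.ncard_le_ncard hsub hfin
  refine h1.trans ?_
  rw [Real.mul_rpow (by positivity) (by linarith), ← mul_assoc]
  refine mul_le_mul_of_nonneg_right ?_ (by positivity)
  exact mul_le_mul_of_nonneg_right (le_abs_self C) (by positivity)

/-- a power of a logarithm is at most a small power -/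
lemma log_pow_le (k : ℕ) {ε : ℝ} (hε : 0 < ε) :
    ∃ C : ℝ, 0 ≤ C ∧ ∀ X : ℝ, 1 ≤ X → (Real.log X) ^ k ≤ C * X ^ ε := by
  rcases Nat.eq_zero_or_pos k with rfl | hk
  · refine ⟨1, zero_le_one, fun X hX => ?_⟩
    rw [pow_zero, one_mul]
    exact Real.one_le_rpow hX hε.le
  · have hk0 : (0 : ℝ) < k := by exact_mod_cast hk
    have hd : 0 < ε / k := div_pos hε hk0
    refine ⟨(1 / (ε / k)) ^ k, by positivity, fun X hX => ?_⟩
    have h1 : Real.log X ≤ X ^ (ε / k) / (ε / k) := Real.log_le_rpow_div (by linarith) hd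
    have h2 : 0 ≤ Real.log X := Real.log_nonneg hX
    calc (Real.log X) ^ k ≤ (X ^ (ε / k) / (ε / k)) ^ k := pow_le_pow_left₀ h2 h1 k
      _ = (1 / (ε / k)) ^ k * X ^ ε := by
          rw [div_pow, ← Real.rpow_natCast (X ^ (ε / k)) k, ← Real.rpow_mul (by linarith),
            div_mul_cancel₀ _ hk0.ne']
          ring

/-- **Sets of rational numbers with few elements of each denominator.** -/
theorem nearDen (S : Set ℚ) {ω : ℝ} (hω : 0 < ω) (C k : ℕ)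
    (hS : ∀ B v : ℕ, 2 ≤ B → v ≤ B → ∀ T : Finset ℚ,
      (∀ t ∈ T, t.den = v ∧ |t.num| ≤ B ∧ t ∈ S) → (T.card : ℝ) ≤ C * Real.log B ^ k) :
    ∃ E : Set ℝ, dimH E ≤ ENNReal.ofReal (1 / ω) ∧ ∀ α : ℝ, α ∉ E → ∀ A : ℝ,
      {t : ℚ | t ∈ S ∧ |(t : ℝ) - α| ≤ A * (t.den : ℝ) ^ (-ω)}.Finite := by
  classical
  refine nearRat S zero_le_one hω fun ε hε => ?_
  obtain ⟨C₁, hC₁, hlog⟩ := log_pow_le k hε
  refine ⟨2 * C * C₁ * 2 ^ ε, fun X hX => ?_⟩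
  set B : ℕ := ⌊X⌋₊ + 1 with hB
  have hB2 : 2 ≤ B := by
    have : 1 ≤ ⌊X⌋₊ := Nat.le_floor (by exact_mod_cast hX)
    omega
  have hBX : X ≤ B := by
    rw [hB]
    push_cast
    exact (Nat.lt_floor_add_one X).le
  have hB2X : (B : ℝ) ≤ 2 * X := by
    rw [hB]
    push_cast
    have := Nat.floor_le (by linarith : (0 : ℝ) ≤ X)
    linarith
  have hfin : {t : ℚ | t ∈ S ∧ |(t.num : ℝ)| ≤ X ∧ (t.den : ℝ) ≤ X}.Finite :=
    (finite_box X X).subset fun t ht => ht.2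
  rw [Set.ncard_eq_toFinset_card _ hfin]
  have hmaps : ∀ t ∈ hfin.toFinset, t.den ∈ Finset.range B := by
    intro t ht
    rw [Set.Finite.mem_toFinset] at ht
    rw [Finset.mem_range, hB]
    have : t.den ≤ ⌊X⌋₊ := Nat.le_floor ht.2.2
    omega
  have h1 := Finset.card_eq_sum_card_fiberwise hmaps
  have h2 : ∀ v ∈ Finset.range B,
      (((hfin.toFinset.filter fun t => t.den = v).card : ℕ) : ℝ) ≤ C * Real.log B ^ k := by
    intro v hv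
    refine hS B v hB2 (Finset.mem_range.1 hv).le _ fun t ht => ?_
    rw [Finset.mem_filter, Set.Finite.mem_toFinset] at ht
    refine ⟨ht.2, ?_, ht.1.1⟩
    have h3 : |(t.num : ℝ)| ≤ B := ht.1.2.1.trans hBX
    exact_mod_cast h3
  rw [h1]
  push_cast
  have hBpos : (1 : ℝ) ≤ B := by exact_mod_cast (by omega : 1 ≤ B)
  calc ∑ v ∈ Finset.range B, (((hfin.toFinset.filter fun t => t.den = v).card : ℕ) : ℝ)
      ≤ ∑ _v ∈ Finset.range B, (C : ℝ) * Real.log B ^ k := Finset.sum_le_sum h2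
    _ = B * (C * Real.log B ^ k) := by
        rw [Finset.sum_const, Finset.card_range, nsmul_eq_mul]
    _ ≤ (2 * X) * (C * (C₁ * (2 * X) ^ ε)) := by
        refine mul_le_mul hB2X ?_ (by positivity) (by linarith)
        refine mul_le_mul_of_nonneg_left ?_ (Nat.cast_nonneg C)
        refine (hlog B hBpos).trans ?_
        exact mul_le_mul_of_nonneg_left (Real.rpow_le_rpow (by positivity) hB2X hε.le) hC₁
    _ = 2 * C * C₁ * 2 ^ ε * X ^ (1 + ε) := by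
        rw [Real.mul_rpow (by norm_num) (by linarith), Real.rpow_add (by linarith), Real.rpow_one]
        ring

/-- the convergents of an irrational number are in the complement of `S` from some point on, if `S`
contains only finitely many close approximations -/
theorem conv {ξ : ℝ} (hξ : Irrational ξ) {S : Set ℚ}
    (h : {t : ℚ | t ∈ S ∧ |(t : ℝ) - ξ| ≤ 1 * (t.den : ℝ) ^ (-(2 : ℝ))}.Finite) :
    ∃ n₀ : ℕ, ∀ n : ℕ, n₀ ≤ n → ξ.convergent n ∉ S := by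
  have h1 : Tendsto (fun n => ((ξ.convergent n : ℚ) : ℝ)) atTop (𝓝 ξ) := by
    have h2 : Tendsto (fun n => (GenContFract.of ξ).convs n) atTop (𝓝 ξ) :=
      GenContFract.of_convergence ξ
    exact h2.congr fun n => Real.convs_eq_convergent ξ n
  have h2 : ∀ᶠ n in atTop, ((ξ.convergent n : ℚ) : ℝ) ∉
      (fun t : ℚ => (t : ℝ)) '' {t : ℚ | t ∈ S ∧ |(t : ℝ) - ξ| ≤ 1 * (t.den : ℝ) ^ (-(2 : ℝ))} := by
    have h3 := (h.image (fun t : ℚ => (t : ℝ))).isClosed.isOpen_compl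
    have h4 : ξ ∈ ((fun t : ℚ => (t : ℝ)) ''
        {t : ℚ | t ∈ S ∧ |(t : ℝ) - ξ| ≤ 1 * (t.den : ℝ) ^ (-(2 : ℝ))})ᶜ := by
      rintro ⟨t, -, ht⟩
      exact hξ ⟨t, ht⟩
    exact h1.eventually (h3.mem_nhds h4)
  obtain ⟨n₀, hn⟩ := h2.exists_forall_of_atTop
  refine ⟨n₀, fun n hn1 hS => hn n hn1 ⟨_, ⟨hS, ?_⟩, rfl⟩⟩
  have h3 := Pool.Agent.X123.ML.convergent_close ξ hξ n
  rw [abs_sub_comm, one_mul, Real.rpow_neg (Nat.cast_nonneg _)]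
  refine h3.trans (le_of_eq ?_)
  rw [one_div]
  norm_cast

/-- the dimension bound for all exponents gives the statement for almost all numbers and all exponents -/
theorem ae_near {S : Set ℚ} {s : ℝ} (hs : 0 ≤ s)
    (h : ∀ ω : ℝ, 0 < ω → ∃ E : Set ℝ, dimH E ≤ ENNReal.ofReal (s / ω) ∧ ∀ α : ℝ, α ∉ E → ∀ A : ℝ,
      {t : ℚ | t ∈ S ∧ |(t : ℝ) - α| ≤ A * (t.den : ℝ) ^ (-ω)}.Finite) :
    ∀ᵐ α : ℝ, ∀ ω : ℝ, s < ω → ∀ A : ℝ,
      {t : ℚ | t ∈ S ∧ |(t : ℝ) - α| ≤ A * (t.den : ℝ) ^ (-ω)}.Finite := by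
  have h1 : ∀ k : ℕ, ∀ᵐ α : ℝ, ∀ A : ℝ,
      {t : ℚ | t ∈ S ∧ |(t : ℝ) - α| ≤ A * (t.den : ℝ) ^ (-(s + 1 / ((k : ℝ) + 1)))}.Finite := by
    intro k
    have hk : 0 < 1 / ((k : ℝ) + 1) := by positivity
    obtain ⟨E, h2, h3⟩ := h (s + 1 / ((k : ℝ) + 1)) (by linarith)
    have h4 : ∀ᵐ α : ℝ, α ∉ E := measure_eq_zero_iff_ae_notMem.1 (Pool.Agent.X39.Win.vol_zero h2 (by
      rw [div_lt_one (by linarith)]
      linarith))
    filter_upwards [h4] with α hα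
    exact h3 α hα
  filter_upwards [ae_all_iff.2 h1] with α hα ω hω A
  obtain ⟨k, hk⟩ := exists_nat_one_div_lt (sub_pos.2 hω)
  refine (hα k |A|).subset ?_
  rintro t ⟨h2, h3⟩
  refine ⟨h2, h3.trans ?_⟩
  have hd : (1 : ℝ) ≤ t.den := by exact_mod_cast t.pos
  calc A * (t.den : ℝ) ^ (-ω) ≤ |A| * (t.den : ℝ) ^ (-ω) :=
        mul_le_mul_of_nonneg_right (le_abs_self A) (by positivity)
    _ ≤ _ := mul_le_mul_of_nonneg_left (Real.rpow_le_rpow_of_exponent_le hd (by linarith))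
        (abs_nonneg A)

/-- the three forms for the property `P` of rational numbers -/
theorem pack {P : ℚ → Prop} {s : ℝ} (hs : 0 ≤ s)
    (h : ∀ ω : ℝ, 0 < ω → ∃ E : Set ℝ, dimH E ≤ ENNReal.ofReal (s / ω) ∧ ∀ α : ℝ, α ∉ E → ∀ A : ℝ,
      {t : ℚ | t ∈ {t : ℚ | ¬ P t} ∧ |(t : ℝ) - α| ≤ A * (t.den : ℝ) ^ (-ω)}.Finite) :
    (∀ ω : ℝ, 0 < ω → ∃ E : Set ℝ, dimH E ≤ ENNReal.ofReal (s / ω) ∧ ∀ ξ : ℝ, ξ ∉ E → ∀ A : ℝ,
      {t : ℚ | |(t : ℝ) - ξ| ≤ A * (t.den : ℝ) ^ (-ω) ∧ ¬ P t}.Finite) ∧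
    (∀ᵐ ξ : ℝ, ∀ ω : ℝ, s < ω → ∀ A : ℝ,
      {t : ℚ | |(t : ℝ) - ξ| ≤ A * (t.den : ℝ) ^ (-ω) ∧ ¬ P t}.Finite) ∧
    ∃ E : Set ℝ, dimH E ≤ ENNReal.ofReal (s / 2) ∧ ∀ ξ : ℝ, Irrational ξ → ξ ∉ E →
      ∃ n₀ : ℕ, ∀ n : ℕ, n₀ ≤ n → P (ξ.convergent n) := by
  refine ⟨fun ω hω => ?_, ?_, ?_⟩
  · obtain ⟨E, h1, h2⟩ := h ω hω
    exact ⟨E, h1, fun ξ hξ A => (h2 ξ hξ A).subset fun t ht => ⟨ht.2, ht.1⟩⟩
  · filter_upwards [ae_near hs h] with ξ hξ ω hω A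
    exact (hξ ω hω A).subset fun t ht => ⟨ht.2, ht.1⟩
  · obtain ⟨E, h1, h2⟩ := h 2 two_pos
    refine ⟨E, h1, fun ξ hirr hξ => ?_⟩
    obtain ⟨n₀, hn⟩ := conv hirr (h2 ξ hξ 1)
    exact ⟨n₀, fun n hn1 => not_not.1 (hn n hn1)⟩

end Pool.Agent.X39.Near
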