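import Pool.Agent.X39.Near.Cpx

/-! The relations between the values of functions, and the convergents of real numbers. -/

set_option autoImplicit false

namespace Pool.Agent.X39.Near

open Filter Topology MeasureTheory NumberField

/-- There is a polynomial `P` of degree at most `d` in each variable, with coefficients of the form
`∑ ξ_i ι(c_i)`, where the `c_i` are integers of `F` all of whose conjugates have absolute value at most
`T ^ A`, such that the value of `P` at the numbers `v (ι t)` is at most `T ^ (-B)` times the absolute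
value of some nonzero coefficient of `P`. -/
def Related {J : Type} {g : ℕ} (ξ : Fin g → ℂ) (v : ℂ → J → ℂ) (F : Type) [Field F] [NumberField F]
    (ι : F →+* ℂ) (d : ℕ) (A B T : ℝ) (t : F) : Prop :=
  ∃ P : MvPolynomial J ℂ, (∀ y, P.degreeOf y ≤ d) ∧
    (∀ s, ∃ c : Fin g → 𝓞 F, (∀ i (φ : F →+* ℂ), ‖φ (c i)‖ ≤ T ^ A) ∧ P.coeff s = ∑ i, ξ i * ι (c i)) ∧
    ∃ s₀, P.coeff s₀ ≠ 0 ∧ ‖MvPolynomial.aeval (v (ι t)) P‖ ≤ T ^ (-B) * ‖P.coeff s₀‖

/-- comparison of the levels -/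
lemma rpow_levels {A B B' T T' : ℝ} (hA : 0 ≤ A) (h1 : 1 ≤ T) (h2 : T ≤ T') (h3 : T' ≤ T ^ 2)
    (h4 : 2 * |B'| ≤ B) : T ^ A ≤ T' ^ A ∧ T ^ (-B) ≤ T' ^ (-B') := by
  refine ⟨Real.rpow_le_rpow (by linarith) h2 hA, ?_⟩
  calc T ^ (-B) ≤ T ^ (-(2 * |B'|)) := Real.rpow_le_rpow_of_exponent_le h1 (by linarith)
    _ = (T ^ (2 : ℕ)) ^ (-|B'|) := by
        rw [← Real.rpow_natCast T 2, ← Real.rpow_mul (by linarith)]
        push_cast
        ring_nf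
    _ ≤ T' ^ (-|B'|) := Real.rpow_le_rpow_of_nonpos (by linarith) h3 (by linarith [abs_nonneg B'])
    _ ≤ T' ^ (-B') :=
        Real.rpow_le_rpow_of_exponent_le (h1.trans h2) (by linarith [le_abs_self B'])

theorem Related.trans {J : Type} {g : ℕ} (ξ : Fin g → ℂ) (v : ℂ → J → ℂ) (F F' : Type) [Field F]
    [NumberField F] [Field F'] [NumberField F'] (ι : F →+* ℂ) (ι' : F' →+* ℂ) (e : F ≃+* F')
    (he : ∀ t, ι' (e t) = ι t) (d : ℕ) (A B T : ℝ) (t : F) (h : Related ξ v F ι d A B T t) :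
    Related ξ v F' ι' d A B T (e t) := by
  obtain ⟨P, h1, h2, s₀, h3, h4⟩ := h
  refine ⟨P, h1, fun s => ?_, s₀, h3, by rwa [he]⟩
  obtain ⟨c, h5, h6⟩ := h2 s
  refine ⟨fun i => RingOfIntegers.mapRingEquiv e (c i), fun i φ => h5 i (φ.comp (e : F →+* F')), ?_⟩
  rw [h6]
  exact Finset.sum_congr rfl fun i _ => by rw [← he]; rfl

theorem Related.level {J : Type} {g : ℕ} (ξ : Fin g → ℂ) (v : ℂ → J → ℂ) (F : Type) [Field F]
    [NumberField F] (ι : F →+* ℂ) (d : ℕ) (A B B' T T' : ℝ) (t : F) (hA : 0 ≤ A) (h1 : 1 ≤ T)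
    (h2 : T ≤ T') (h3 : T' ≤ T ^ 2) (h4 : 2 * |B'| ≤ B) (h : Related ξ v F ι d A B T t) :
    Related ξ v F ι d A B' T' t := by
  obtain ⟨h5, h6⟩ := rpow_levels hA h1 h2 h3 h4
  obtain ⟨P, p1, p2, s₀, p3, p4⟩ := h
  refine ⟨P, p1, fun s => ?_, s₀, p3, p4.trans (mul_le_mul_of_nonneg_right h6 (norm_nonneg _))⟩
  obtain ⟨c, c1, c2⟩ := p2 s
  exact ⟨c, fun i φ => (c1 i φ).trans h5, c2⟩

/-- the denominators of the convergents tend to infinity -/
theorem den_conv {ξ : ℝ} (hξ : Irrational ξ) (X : ℝ) :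
    ∃ n₀ : ℕ, ∀ n : ℕ, n₀ ≤ n → X < ((ξ.convergent n).den : ℝ) := by
  obtain ⟨n₀, h⟩ := conv hξ (S := {t : ℚ | (t.den : ℝ) ≤ X}) (by
    refine (finite_box ((|ξ| + 1) * X) X).subset ?_
    rintro t ⟨h1, h2⟩
    refine ⟨num_le ?_ h1, h1⟩
    have h3 : 1 * (t.den : ℝ) ^ (-(2 : ℝ)) ≤ 1 := by
      rw [one_mul]
      exact Real.rpow_le_one_of_one_le_of_nonpos (by exact_mod_cast t.pos) (by norm_num)
    calc |(t : ℝ)| = |ξ + ((t : ℝ) - ξ)| := by ring_nf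
      _ ≤ |ξ| + |(t : ℝ) - ξ| := abs_add_le _ _
      _ ≤ |ξ| + 1 := by linarith)
  exact ⟨n₀, fun n hn => not_le.1 (h n hn)⟩

/-- the size of a rational number -/
theorem size_rat {t : ℚ} {T : ℝ} (h1 : |(t.num : ℝ)| ≤ T) (h2 : (t.den : ℝ) ≤ T) : Size ℚ T t := by
  refine ⟨(t.num : 𝓞 ℚ), (t.den : 𝓞 ℚ), ?_, fun φ => ⟨?_, ?_⟩, ?_⟩
  · exact_mod_cast t.den_ne_zero
  · simpa using h1
  · simpa using h2
  · push_cast
    exact (Rat.num_div_den t).symm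

/-- **The convergents of real numbers.** -/
theorem conv_zero {U E : Set ℂ}
    (Rel : ∀ (F : Type) [Field F] [NumberField F], (F →+* ℂ) → ℕ → ℝ → ℝ → ℝ → F → Prop)
    (hlev : ∀ (F : Type) [Field F] [NumberField F] (ι : F →+* ℂ) (d : ℕ) (A B B' T T' : ℝ) (t : F),
      0 ≤ A → 1 ≤ T → T ≤ T' → T' ≤ T ^ 2 → 2 * |B'| ≤ B → Rel F ι d A B T t → Rel F ι d A B' T' t)
    (h : ∀ x ∈ U, x ∉ E → ∀ (F : Type) [Field F] [NumberField F] (ι : F →+* ℂ)
      (d A : ℕ) (ω : ℝ), 0 < ω → ∃ B T₁ : ℝ, ∀ T : ℝ, T₁ ≤ T → ∀ t : F, Size F T t →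
        ‖ι t - x‖ ≤ T ^ (-ω) → ¬ Rel F ι d A B T t)
    {x : ℝ} (hx : Irrational x) (hU : (x : ℂ) ∈ U) (hE : (x : ℂ) ∉ E) (d A : ℕ) :
    ∃ (B : ℝ) (n₀ : ℕ), ∀ k : ℕ, n₀ ≤ k →
      ¬ Rel ℚ (algebraMap ℚ ℂ) d A B (x.convergent k).den (x.convergent k) := by
  obtain ⟨B, T₁, hB⟩ := h x hU hE ℚ (algebraMap ℚ ℂ) d A 1 one_pos
  obtain ⟨n₀, hn⟩ := den_conv hx (max (|x| + 1) T₁)
  refine ⟨2 * |B|, n₀, fun k hk hRel => ?_⟩
  set t : ℚ := x.convergent k with ht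
  have hD := hn k hk
  have hd1 : (1 : ℝ) ≤ t.den := by exact_mod_cast t.pos
  have hdx : |x| + 1 ≤ t.den := (le_max_left _ _).trans hD.le
  have hdT : T₁ ≤ t.den := (le_max_right _ _).trans hD.le
  have hsq : (t.den : ℝ) ≤ (t.den : ℝ) ^ 2 := by nlinarith
  have hclose := Pool.Agent.X123.ML.convergent_close x hx k
  rw [← ht, abs_sub_comm] at hclose
  have hle1 : 1 / (t.den : ℝ) ^ 2 ≤ 1 := by
    rw [div_le_one (by positivity)]
    nlinarith
  have habs : |(t : ℝ)| ≤ |x| + 1 := by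
    calc |(t : ℝ)| = |x + ((t : ℝ) - x)| := by ring_nf
      _ ≤ |x| + |(t : ℝ) - x| := abs_add_le _ _
      _ ≤ |x| + 1 := by linarith
  have hnum : |(t.num : ℝ)| ≤ (t.den : ℝ) ^ 2 := by
    refine (num_le habs le_rfl).trans ?_
    rw [sq]
    exact mul_le_mul_of_nonneg_right hdx (by linarith)
  refine hB ((t.den : ℝ) ^ 2) (hdT.trans hsq) t (size_rat hnum hsq) ?_ ?_
  · have h1 : algebraMap ℚ ℂ t - (x : ℂ) = (((t : ℝ) - x : ℝ) : ℂ) := by
      push_cast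
      simp
    rw [h1, Complex.norm_real, Real.norm_eq_abs, Real.rpow_neg (by positivity), Real.rpow_one]
    rw [one_div] at hclose
    exact hclose
  · exact hlev ℚ _ d A (2 * |B|) B _ _ t (Nat.cast_nonneg A) hd1 hsq le_rfl le_rfl hRel

/-- **The theorem for relations between the values of functions.** -/
theorem related_main {J : Type} {g : ℕ} (ξ : Fin g → ℂ) (v : ℂ → J → ℂ) (U : Set ℂ) (hU : IsOpen U)
    (main : ∀ K : Set ℂ, IsCompact K → K ⊆ U → ∀ (m d : ℕ) (A ε : ℝ), 0 ≤ A → 0 < ε →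
      ∃ B C T₀ : ℝ, ∀ (F : Type) [Field F] [NumberField F], Module.finrank ℚ F ≤ m →
        ∀ (ι : F →+* ℂ) (T : ℝ), T₀ ≤ T →
          {t : F | ι t ∈ K ∧ Size F T t ∧ Related ξ v F ι d A B T t}.Finite ∧
          ({t : F | ι t ∈ K ∧ Size F T t ∧ Related ξ v F ι d A B T t}.ncard : ℝ) ≤ C * T ^ ε) :
    ∃ E : Set ℂ, dimH E = 0 ∧
      (∀ x ∈ U, x ∉ E → ∀ (F : Type) [Field F] [NumberField F] (ι : F →+* ℂ)
        (d A : ℕ) (ω : ℝ), 0 < ω → ∃ B T₁ : ℝ, ∀ T : ℝ, T₁ ≤ T → ∀ t : F, Size F T t →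
          ‖ι t - x‖ ≤ T ^ (-ω) → ¬ Related ξ v F ι d A B T t) ∧
      ∀ x : ℝ, Irrational x → (x : ℂ) ∈ U → (x : ℂ) ∉ E → ∀ d A : ℕ, ∃ (B : ℝ) (n₀ : ℕ), ∀ k : ℕ,
        n₀ ≤ k → ¬ Related ξ v ℚ (algebraMap ℚ ℂ) d A B (x.convergent k).den (x.convergent k) := by
  obtain ⟨E, h1, h2⟩ := zero_dim U hU (fun F _ _ => Related ξ v F)
    (fun F F' _ _ _ _ ι ι' e he d A B T t => Related.trans ξ v F F' ι ι' e he d A B T t)
    (fun F _ _ ι d A B B' T T' t => Related.level ξ v F ι d A B B' T T' t) main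
  exact ⟨E, h1, h2, fun x hx hxU hxE d A => conv_zero (fun F _ _ => Related ξ v F)
    (fun F _ _ ι d A B B' T T' t => Related.level ξ v F ι d A B B' T T' t) h2 hx hxU hxE d A⟩

/-- another index set -/
theorem Related.equiv {J J' : Type} (e : J ≃ J') {g : ℕ} {ξ : Fin g → ℂ} {v : ℂ → J → ℂ} {F : Type}
    [Field F] [NumberField F] {ι : F →+* ℂ} {d : ℕ} {A B T : ℝ} {t : F}
    (h : Related ξ v F ι d A B T t) : Related ξ (fun z j => v z (e.symm j)) F ι d A B T t := by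
  obtain ⟨P, h1, h2, s₀, h3, h4⟩ := h
  refine ⟨MvPolynomial.rename e P, fun y => ?_, fun s => ?_, s₀.mapDomain e, ?_, ?_⟩
  · have h5 := MvPolynomial.degreeOf_rename_of_injective (p := P) e.injective (e.symm y)
    rw [e.apply_symm_apply] at h5
    rw [h5]
    exact h1 _
  · have h5 : s = (s.mapDomain e.symm).mapDomain e := by
      rw [← Finsupp.mapDomain_comp]
      simp [Finsupp.mapDomain_id]
    rw [h5, MvPolynomial.coeff_rename_mapDomain e e.injective]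
    exact h2 _
  · rwa [MvPolynomial.coeff_rename_mapDomain e e.injective]
  · rw [MvPolynomial.coeff_rename_mapDomain e e.injective, MvPolynomial.aeval_rename]
    have h5 : ((fun j => v (ι t) (e.symm j)) ∘ e) = v (ι t) := by
      funext j
      simp
    rw [h5]
    exact h4

/-- sets of elements and sets of tuples of length one -/
theorem tuples_count {F : Type} {S : Set F} {Exc : Set (Fin 1 → F)} (h : ∀ t ∈ S, (fun _ => t) ∈ Exc)
    (hf : Exc.Finite) : S.Finite ∧ S.ncard ≤ Exc.ncard := by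
  have hinj : Function.Injective (fun t : F => (fun _ => t : Fin 1 → F)) := fun a b hab =>
    congrFun hab 0
  have h1 : (fun t : F => (fun _ => t : Fin 1 → F)) '' S ⊆ Exc := by
    rintro _ ⟨t, ht, rfl⟩
    exact h t ht
  refine ⟨Set.Finite.of_finite_image (hf.subset h1) hinj.injOn, ?_⟩
  rw [← hinj.injOn.ncard_image (s := S)]
  exact Set.ncard_le_ncard h1 hf

/-- the real points of a set of dimension `0` -/
theorem dimH_real {E : Set ℂ} (h : dimH E = 0) : dimH {x : ℝ | (x : ℂ) ∈ E} = 0 := by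
  have hiso : Isometry (fun x : ℝ => (x : ℂ)) := Complex.isometry_ofReal
  refine le_antisymm ?_ bot_le
  rw [← hiso.dimH_image, ← h]
  refine dimH_mono ?_
  rintro _ ⟨x, hx, rfl⟩
  exact hx

/-- **The theorem for the real points of an interval.** -/
theorem related_real {J : Type} {g : ℕ} (ξ : Fin g → ℂ) (v : ℂ → J → ℂ) (a₀ b₀ : ℝ)
    (main : ∀ a b : ℝ, a₀ < a → b < b₀ → ∀ (m d : ℕ) (A ε : ℝ), 0 ≤ A → 0 < ε →
      ∃ B C T₀ : ℝ, ∀ (F : Type) [Field F] [NumberField F], Module.finrank ℚ F ≤ m →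
        ∀ (ι : F →+* ℂ) (T : ℝ), T₀ ≤ T →
          {t : F | ((ι t).im = 0 ∧ a ≤ (ι t).re ∧ (ι t).re ≤ b) ∧ Size F T t ∧
            Related ξ v F ι d A B T t}.Finite ∧
          ({t : F | ((ι t).im = 0 ∧ a ≤ (ι t).re ∧ (ι t).re ≤ b) ∧ Size F T t ∧
            Related ξ v F ι d A B T t}.ncard : ℝ) ≤ C * T ^ ε) :
    ∃ E : Set ℝ, dimH E = 0 ∧
      (∀ x : ℝ, a₀ < x → x < b₀ → x ∉ E → ∀ (F : Type) [Field F] [NumberField F] (ι : F →+* ℂ)
        (d A : ℕ) (ω : ℝ), 0 < ω → ∃ B T₁ : ℝ, ∀ T : ℝ, T₁ ≤ T → ∀ t : F, Size F T t →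
          (ι t).im = 0 → |(ι t).re - x| ≤ T ^ (-ω) → ¬ Related ξ v F ι d A B T t) ∧
      ∀ x : ℝ, Irrational x → a₀ < x → x < b₀ → x ∉ E → ∀ d A : ℕ, ∃ (B : ℝ) (n₀ : ℕ), ∀ k : ℕ,
        n₀ ≤ k → ¬ Related ξ v ℚ (algebraMap ℚ ℂ) d A B (x.convergent k).den (x.convergent k) := by
  have hUo : IsOpen {z : ℂ | a₀ < z.re ∧ z.re < b₀} :=
    (isOpen_lt continuous_const Complex.continuous_re).inter
      (isOpen_lt Complex.continuous_re continuous_const)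
  have hlev : ∀ (F : Type) [Field F] [NumberField F] (ι : F →+* ℂ) (d : ℕ) (A B B' T T' : ℝ) (t : F),
      0 ≤ A → 1 ≤ T → T ≤ T' → T' ≤ T ^ 2 → 2 * |B'| ≤ B →
      ((ι t).im = 0 ∧ Related ξ v F ι d A B T t) → ((ι t).im = 0 ∧ Related ξ v F ι d A B' T' t) :=
    fun F _ _ ι d A B B' T T' t h1 h2 h3 h4 h5 h6 =>
      ⟨h6.1, Related.level ξ v F ι d A B B' T T' t h1 h2 h3 h4 h5 h6.2⟩
  obtain ⟨E, h1, h2⟩ := zero_dim {z : ℂ | a₀ < z.re ∧ z.re < b₀} hUo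
    (fun F _ _ ι d A B T t => (ι t).im = 0 ∧ Related ξ v F ι d A B T t)
    (fun F F' _ _ _ _ ι ι' e he d A B T t h =>
      ⟨by rw [he]; exact h.1, Related.trans ξ v F F' ι ι' e he d A B T t h.2⟩) hlev (by
      intro K hK hKU m d A ε hA hε
      -- a closed interval with the real parts of `K`
      obtain ⟨a, b, ha, hb, hab⟩ : ∃ a b : ℝ, a₀ < a ∧ b < b₀ ∧ ∀ z ∈ K, a ≤ z.re ∧ z.re ≤ b := by
        rcases K.eq_empty_or_nonempty with rfl | hne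
        · exact ⟨a₀ + 1, b₀ - 1, by linarith, by linarith, fun z hz => absurd hz (Set.notMem_empty z)⟩
        · obtain ⟨z₁, hz₁, h3⟩ := hK.exists_isMinOn hne Complex.continuous_re.continuousOn
          obtain ⟨z₂, hz₂, h4⟩ := hK.exists_isMaxOn hne Complex.continuous_re.continuousOn
          exact ⟨z₁.re, z₂.re, (hKU hz₁).1, (hKU hz₂).2, fun z hz => ⟨h3 hz, h4 hz⟩⟩
      obtain ⟨B, C, T₀, h⟩ := main a b ha hb m d A ε hA hε
      refine ⟨B, C, T₀, fun F _ _ hF ι T hT => ?_⟩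
      obtain ⟨h3, h4⟩ := h F hF ι T hT
      have hsub : {t : F | ι t ∈ K ∧ Size F T t ∧ (ι t).im = 0 ∧ Related ξ v F ι d A B T t} ⊆
          {t : F | ((ι t).im = 0 ∧ a ≤ (ι t).re ∧ (ι t).re ≤ b) ∧ Size F T t ∧
            Related ξ v F ι d A B T t} :=
        fun t ht => ⟨⟨ht.2.2.1, (hab _ ht.1).1, (hab _ ht.1).2⟩, ht.2.1, ht.2.2.2⟩
      exact ⟨h3.subset hsub, le_trans (by exact_mod_cast Set.ncard_le_ncard hsub h3) h4⟩)
  refine ⟨{x : ℝ | (x : ℂ) ∈ E}, dimH_real h1, ?_, ?_⟩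
  · intro x ha hb hxE F _ _ ι d A ω hω
    obtain ⟨B, T₁, h3⟩ := h2 (x : ℂ) ⟨by simpa using ha, by simpa using hb⟩ hxE F ι d A ω hω
    refine ⟨B, T₁, fun T hT t hsz him hclose hrel => h3 T hT t hsz ?_ ⟨him, hrel⟩⟩
    have h4 : ι t - (x : ℂ) = (((ι t).re - x : ℝ) : ℂ) := by
      apply Complex.ext
      · simp
      · simpa using him
    rw [h4, Complex.norm_real, Real.norm_eq_abs]
    exact hclose
  · intro x hx ha hb hxE d A
    obtain ⟨B, n₀, h3⟩ := conv_zero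
      (fun F _ _ ι d A B T t => (ι t).im = 0 ∧ Related ξ v F ι d A B T t) hlev h2 hx
      (show (x : ℂ) ∈ {z : ℂ | a₀ < z.re ∧ z.re < b₀} from ⟨by simpa using ha, by simpa using hb⟩)
      hxE d A
    refine ⟨B, n₀, fun k hk hrel => h3 k hk ⟨by simp, hrel⟩⟩

end Pool.Agent.X39.Near
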