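import Pool.Agent.X39.Near.MasterI
import Pool.Agent.X255.RH.Sing

/-!
# Singular matrices of numbers without relations
-/

set_option autoImplicit false

open NumberField Filter

namespace Pool.Agent.X39.Near

open MvPolynomial Pool.Agent.X255.NP

/-- a sum of different monomials -/
theorem coeff_mono {I σ R : Type} [Fintype I] [CommSemiring R] {m : I → σ →₀ ℕ} (hm : Function.Injective m)
    (a : I → R) (i : I) : (∑ i, monomial (m i) (a i)).coeff (m i) = a i := by
  classical
  rw [coeff_sum, Finset.sum_eq_single i]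
  · rw [coeff_monomial, if_pos rfl]
  · intro j _ hj
    rw [coeff_monomial, if_neg fun h => hj (hm h)]
  · intro h
    exact absurd (Finset.mem_univ i) h

theorem coeff_mono' {I σ R : Type} [Fintype I] [CommSemiring R] {m : I → σ →₀ ℕ} (hm : Function.Injective m)
    (a : I → R) (e : σ →₀ ℕ) : (∑ i, monomial (m i) (a i)).coeff e = 0 ∨
      ∃ i, e = m i ∧ (∑ i, monomial (m i) (a i)).coeff e = a i := by
  classical
  by_cases h : ∃ i, e = m i
  · obtain ⟨i, rfl⟩ := h
    exact Or.inr ⟨i, rfl, coeff_mono hm a i⟩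
  · left
    rw [coeff_sum]
    refine Finset.sum_eq_zero fun i _ => ?_
    rw [coeff_monomial, if_neg fun h' => h ⟨i, h'.symm⟩]

theorem degreeOf_mono {I σ R : Type} [Fintype I] [CommSemiring R] {m : I → σ →₀ ℕ} (hm : Function.Injective m)
    (a : I → R) {k : ℕ} {x : σ} (h : ∀ i, m i x ≤ k) : (∑ i, monomial (m i) (a i)).degreeOf x ≤ k := by
  classical
  rw [degreeOf_le_iff]
  intro e he
  rcases coeff_mono' hm a e with h1 | ⟨i, rfl, -⟩
  · exact absurd h1 (mem_support_iff.1 he)
  · exact h i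

/-- exponents of the unknowns -/
noncomputable def eJ {J : Type} [Fintype J] {k : ℕ} (l : J → Fin (k + 1)) : J →₀ ℕ :=
  Finsupp.equivFunOnFinite.symm fun x => (l x : ℕ)

/-- exponents of the constants -/
noncomputable def eC (q : ℕ) {g k : ℕ} (β : Fin g → Fin (k + 1)) : Fin q ⊕ Fin g →₀ ℕ :=
  Finsupp.equivFunOnFinite.symm (Sum.elim (fun _ => 0) fun x => (β x : ℕ))

theorem eJ_inj {J : Type} [Fintype J] {k : ℕ} : Function.Injective (eJ : (J → Fin (k + 1)) → J →₀ ℕ) := by
  intro l l' h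
  funext x
  exact Fin.ext (DFunLike.congr_fun h x)

theorem eC_inj (q : ℕ) {g k : ℕ} : Function.Injective (eC q : (Fin g → Fin (k + 1)) → Fin q ⊕ Fin g →₀ ℕ) := by
  intro l l' h
  funext x
  exact Fin.ext (DFunLike.congr_fun h (Sum.inr x))

/-- **Singular matrices.** -/
theorem det_of_notDep {J : Type} [Fintype J] [DecidableEq J] {q g : ℕ} (f : J → ℂ → ℂ)
    (u : Fin q → Polynomial ℂ) (w₀ : Polynomial ℂ) (ξ : Fin g → ℂ) (F : Type) [Field F] [NumberField F]
    (io : F →+* ℂ) {d : ℕ} {A B T : ℝ} {t : F} (h : ¬ Dependent f u w₀ ξ F io d A B T t)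
    (hT : 0 < T) {n : ℕ} (hn : n ≤ d) {R : ℝ} (hR1 : 0 ≤ R)
    (hb : (n.factorial : ℝ) * ((g + Fintype.card J + 1 : ℕ) * R) ^ n ≤ T ^ A)
    (w : Fin n → Fin n → Fin g → 𝓞 F) (c : Fin n → Fin n → J → 𝓞 F)
    (hw : ∀ i j b (φ : F →+* ℂ), ‖φ (w i j b : F)‖ ≤ R) (hc : ∀ i j q (φ : F →+* ℂ), ‖φ (c i j q : F)‖ ≤ R)
    (hdet : (Matrix.of fun i j => ∑ b, ξ b * io (w i j b : F) + ∑ q, f q (io t) * io (c i j q : F)).det = 0)
    (X : J → ℂ) :
    (Matrix.of fun i j => ∑ b, ξ b * io (w i j b : F) + ∑ q, X q * io (c i j q : F)).det = 0 := by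
  classical
  let MM : Matrix (Fin n) (Fin n) (MvPolynomial (Fin g ⊕ J) (𝓞 F)) := Matrix.of fun i j =>
    ∑ b, C (w i j b) * MvPolynomial.X (Sum.inl b) + ∑ q, C (c i j q) * MvPolynomial.X (Sum.inr q)
  set PP := MM.det with hPP
  have hev : ∀ (φ : F →+* ℂ) (u : Fin g → ℂ) (y : J → ℂ), eval₂ (φ.comp (algebraMap (𝓞 F) F)) (Sum.elim u y) PP =
      (Matrix.of fun i j => ∑ b, u b * φ (w i j b : F) + ∑ q, y q * φ (c i j q : F)).det := by
    intro φ u y
    have h1 := RingHom.map_det (eval₂Hom (φ.comp (algebraMap (𝓞 F) F)) (Sum.elim u y)) MM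
    rw [coe_eval₂Hom] at h1
    rw [hPP, h1]
    congr 1
    ext i j
    simp [MM, mul_comm]
  have hdeg : PP.totalDegree ≤ d := by
    refine (Pool.Agent.X255.RH.det_degR MM fun i j => ?_).trans hn
    simp only [MM, Matrix.of_apply]
    refine (totalDegree_add _ _).trans (max_le ?_ ?_)
    · refine (totalDegree_finsetSum_le fun b _ => ?_)
      refine (totalDegree_mul _ _).trans ?_
      rw [totalDegree_C, totalDegree_X]
    · refine (totalDegree_finsetSum_le fun b _ => ?_)
      refine (totalDegree_mul _ _).trans ?_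
      rw [totalDegree_C, totalDegree_X]
  have hdo : ∀ i, PP.degreeOf i ≤ d := fun i => (degreeOf_le_totalDegree _ _).trans hdeg
  have hbound : ∀ (s : Fin g ⊕ J →₀ ℕ) (φ : F →+* ℂ), ‖φ ((PP.coeff s : 𝓞 F) : F)‖ ≤ T ^ A := by
    intro s φ
    set ψ := φ.comp (algebraMap (𝓞 F) F) with hψ
    have h1 : φ ((PP.coeff s : 𝓞 F) : F) = (MvPolynomial.map ψ PP).coeff s := by
      rw [coeff_map]
      rfl
    have h2 : MvPolynomial.map ψ PP = (MM.map (MvPolynomial.map ψ)).det := by
      rw [hPP, RingHom.map_det]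
      rfl
    set R' : ℝ := (g + Fintype.card J + 1 : ℕ) * R with hR'
    have hR'0 : 0 ≤ R' := by positivity
    have hent : ∀ i j, l1 ((MM.map (MvPolynomial.map ψ)) i j) ≤ R' := by
      intro i j
      have h3 : (MM.map (MvPolynomial.map ψ)) i j = ∑ b, monomial (Finsupp.single (Sum.inl b) 1) (φ (w i j b : F)) +
          ∑ q, monomial (Finsupp.single (Sum.inr q) 1) (φ (c i j q : F)) := by
        simp only [MM, Matrix.map_apply, Matrix.of_apply, map_add, map_sum, map_mul, MvPolynomial.map_C,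
          MvPolynomial.map_X]
        congr 1
        · refine Finset.sum_congr rfl fun b _ => ?_
          rw [MvPolynomial.X, C_mul_monomial, mul_one]
          rfl
        · refine Finset.sum_congr rfl fun b _ => ?_
          rw [MvPolynomial.X, C_mul_monomial, mul_one]
          rfl
      rw [h3]
      refine (l1_add _ _).trans ?_
      have h4 : l1 (∑ b, monomial (Finsupp.single (Sum.inl b : Fin g ⊕ J) 1) (φ (w i j b : F))) ≤ g * R := by
        refine (l1_sum _ _).trans ?_
        simp only [l1_monomial]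
        refine (Finset.sum_le_sum fun b _ => hw i j b φ).trans ?_
        rw [Finset.sum_const, nsmul_eq_mul, Finset.card_univ, Fintype.card_fin]
      have h5 : l1 (∑ q, monomial (Finsupp.single (Sum.inr q : Fin g ⊕ J) 1) (φ (c i j q : F))) ≤ Fintype.card J * R := by
        refine (l1_sum _ _).trans ?_
        simp only [l1_monomial]
        refine (Finset.sum_le_sum fun b _ => hc i j b φ).trans ?_
        rw [Finset.sum_const, nsmul_eq_mul, Finset.card_univ]
      rw [hR']
      push_cast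
      nlinarith
    rw [h1, h2]
    exact (coeff_le_l1 _ s).trans ((Pool.Agent.X255.RH.l1_det _ hR'0 hent).trans hb)
  have hTA : 0 ≤ T ^ A := Real.rpow_nonneg hT.le _
  -- the polynomial
  set a : (J → Fin (d + 1)) → MvPolynomial (Fin q ⊕ Fin g) (𝓞 F) := fun l =>
    ∑ β : Fin g → Fin (d + 1), monomial (eC q β) (PP.coeff (Pool.Agent.X255.RH.sV2 β l)) with ha
  set P : MvPolynomial J (MvPolynomial (Fin q ⊕ Fin g) (𝓞 F)) := ∑ l, monomial (eJ l) (a l) with hP
  have haev : ∀ l, coefAt u w₀ ξ F io t (a l) = ∑ β : Fin g → Fin (d + 1), (∏ b, ξ b ^ (β b : ℕ)) *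
      (io.comp (algebraMap (𝓞 F) F)) (PP.coeff (Pool.Agent.X255.RH.sV2 β l)) := by
    intro l
    rw [ha]
    simp only [coefAt, map_sum]
    refine Finset.sum_congr rfl fun β _ => ?_
    rw [coe_eval₂Hom, eval₂_monomial, mul_comm]
    congr 1
    rw [Finsupp.prod_fintype _ _ fun i => pow_zero _, Fintype.prod_sum_type]
    simp [eC]
  have hbox := fun y => Pool.Agent.X255.RH.eval_box2 (io.comp (algebraMap (𝓞 F) F)) PP (k := d) (k' := d)
    (fun a => hdo _) (fun q => hdo _) ξ y
  have hval : MvPolynomial.eval₂ (coefAt u w₀ ξ F io t) (fun j => f j (io t)) P = 0 := by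
    have h1 : MvPolynomial.eval₂ (coefAt u w₀ ξ F io t) (fun j => f j (io t)) P =
        ∑ l : J → Fin (d + 1), (∑ β : Fin g → Fin (d + 1), (∏ b, ξ b ^ (β b : ℕ)) *
          (io.comp (algebraMap (𝓞 F) F)) (PP.coeff (Pool.Agent.X255.RH.sV2 β l))) * ∏ j, f j (io t) ^ (l j : ℕ) := by
      rw [hP, eval₂_sum]
      refine Finset.sum_congr rfl fun l _ => ?_
      rw [eval₂_monomial, haev, Finsupp.prod_fintype _ _ fun i => pow_zero _]
      rfl
    rw [h1, ← hbox, hev io ξ]
    exact hdet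
  have hzero : ∀ l, coefAt u w₀ ξ F io t (a l) = 0 := by
    intro l
    by_contra hl
    apply h
    refine ⟨P, fun x => degreeOf_mono eJ_inj a fun l => Nat.lt_succ_iff.1 (l x).2, fun e v => ?_, fun e s φ => ?_,
      eJ l, ?_, ?_⟩
    · rcases coeff_mono' eJ_inj a e with h1 | ⟨l', -, h1⟩
      · rw [hP, h1]
        simp
      · rw [hP, h1]
        refine degreeOf_mono (eC_inj q) _ fun β => ?_
        rcases v with v | v
        · simp [eC]
        · exact Nat.lt_succ_iff.1 (β v).2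
    · rcases coeff_mono' eJ_inj a e with h1 | ⟨l', -, h1⟩
      · rw [hP, h1]
        simpa using hTA
      · rw [hP, h1]
        rcases coeff_mono' (eC_inj q) (fun β => PP.coeff (Pool.Agent.X255.RH.sV2 β l')) s with h2 | ⟨β, -, h2⟩
        · have h3 : (a l').coeff s = 0 := h2
          rw [h3]
          simpa using hTA
        · have h3 : (a l').coeff s = PP.coeff (Pool.Agent.X255.RH.sV2 β l') := h2
          rw [h3]
          exact hbound _ φ
    · rw [hP, coeff_mono eJ_inj]
      exact hl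
    · rw [hval, norm_zero]
      exact mul_nonneg (Real.rpow_nonneg hT.le _) (norm_nonneg _)
  rw [← hev io ξ X, hbox X]
  refine Finset.sum_eq_zero fun l _ => ?_
  rw [← haev, hzero, zero_mul]

/-- Q1 for matrices with coefficients in a subfield -/
theorem zero_of_notDep {J : Type} [Fintype J] [DecidableEq J] {q g : ℕ} (f : J → ℂ → ℂ)
    (u : Fin q → Polynomial ℂ) (w₀ : Polynomial ℂ) (ξ : Fin g → ℂ) (F : Type) [Field F] [NumberField F]
    (io : F →+* ℂ) {d : ℕ} {A B T : ℝ} {t : F} (h : ¬ Dependent f u w₀ ξ F io d A B T t)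
    (hT : 0 < T) {n : ℕ} (hn : n ≤ d) {R : ℝ} (hR1 : 0 ≤ R)
    (hb : (n.factorial : ℝ) * ((g + Fintype.card J + 1 : ℕ) * R) ^ n ≤ T ^ A)
    (K : Type) [Field K] [NumberField K] (j : K →+* F)
    (hV : ∀ n : ℕ, 1 ≤ n → ∀ w : Fin n → Fin n → Fin g → K,
      (Matrix.of fun i j' => ∑ b, ξ b * io (j (w i j' b))).det = 0 →
      ∃ u v : Fin n → K, u ≠ 0 ∧ v ≠ 0 ∧ ∑ i, ∑ j', io (j (u i)) * (∑ b, ξ b * io (j (w i j' b))) * io (j (v j')) = 0)
    (w : Fin n → Fin n → Fin g → 𝓞 K) (c : Fin n → Fin n → J → 𝓞 K)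
    (hw : ∀ i j b (φ : K →+* ℂ), ‖φ (w i j b : K)‖ ≤ R) (hc : ∀ i j q (φ : K →+* ℂ), ‖φ (c i j q : K)‖ ≤ R)
    (hdet : (Matrix.of fun i j' => ∑ b, ξ b * io (j (w i j' b)) + ∑ q, f q (io t) * io (j (c i j' q))).det = 0) :
    ∃ u v : Fin n → K, u ≠ 0 ∧ v ≠ 0 ∧ ∑ i, ∑ j', io (j (u i)) *
      (∑ b, ξ b * io (j (w i j' b)) + ∑ q, f q (io t) * io (j (c i j' q))) * io (j (v j')) = 0 := by
  classical
  set jo : 𝓞 K →+* 𝓞 F := RingOfIntegers.mapRingHom j with hjo
  have hall := det_of_notDep f u w₀ ξ F io h hT hn hR1 hb (fun i k b => jo (w i k b)) (fun i k b => jo (c i k b))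
    (fun i k b φ => hw i k b (φ.comp j)) (fun i k b φ => hc i k b (φ.comp j)) hdet
  letI : Algebra K ℂ := (io.comp j).toAlgebra
  have halg : ∀ x : K, algebraMap K ℂ x = io (j x) := fun x => rfl
  let W : Matrix (Fin n) (Fin n) ℂ := Matrix.of fun i k => ∑ b, ξ b * io (j (w i k b))
  let Cm : J → Matrix (Fin n) (Fin n) K := fun q => Matrix.of fun i k => (c i k q : K)
  have hsmul : ∀ (b : Fin g) (x : K), ξ b * io (j x) = x • ξ b := by
    intro b x
    rw [Algebra.smul_def, mul_comm]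
    rfl
  have hZ : Pool.Agent.Y921.SR.ZeroProp (Submodule.span K (Set.range ξ)) := by
    intro m hm M hM hdet
    have h1 : ∀ i k, ∃ x : Fin g → K, ∑ b, x b • ξ b = M i k := fun i k =>
      (Submodule.mem_span_range_iff_exists_fun K).1 (hM i k)
    choose x hx using h1
    have h2 : (Matrix.of fun i j' => ∑ b, ξ b * io (j (x i j' b))) = M := by
      ext i k
      rw [Matrix.of_apply, ← hx i k]
      exact Finset.sum_congr rfl fun b _ => hsmul b _
    obtain ⟨u, v, hu, hv, huv⟩ := hV m hm x (by rw [h2]; exact hdet)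
    refine ⟨u, v, hu, hv, ?_⟩
    rw [← huv]
    refine Finset.sum_congr rfl fun i _ => Finset.sum_congr rfl fun k _ => ?_
    rw [← hx i k, Algebra.smul_def, halg, map_mul, map_mul]
    have h3 : ∑ b, x i k b • ξ b = ∑ b, ξ b * io (j (x i k b)) := Finset.sum_congr rfl fun b _ => (hsmul b _).symm
    rw [h3]
    ring
  obtain ⟨u, v, hu, hv, huv, hC⟩ := Pool.Agent.Y921.SR.family (σ := J) hZ W (fun i k => by
    change (∑ b, ξ b * io (j (w i k b))) ∈ Submodule.span K (Set.range ξ)
    refine Submodule.sum_mem _ fun b _ => ?_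
    rw [hsmul]
    exact Submodule.smul_mem _ _ (Submodule.subset_span ⟨b, rfl⟩)) Cm (fun X => by
    rw [← hall X]
    congr 1
    ext i k
    simp only [W, Cm, Matrix.add_apply, Matrix.sum_apply, Matrix.smul_apply, Matrix.map_apply, Matrix.of_apply,
      smul_eq_mul]
    rfl)
  refine ⟨u, v, hu, hv, ?_⟩
  have h1 : ∀ i k, io (j (u i)) * (∑ b, ξ b * io (j (w i k b)) + ∑ q, f q (io t) * io (j (c i k q))) * io (j (v k)) =
      (u i * v k) • W i k + ∑ q, f q (io t) * io (j (u i * ((c i k q : K) * v k))) := by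
    intro i k
    rw [Algebra.smul_def, mul_add, add_mul, Finset.mul_sum Finset.univ (fun q => f q (io t) * io (j (c i k q))),
      Finset.sum_mul]
    congr 1
    · simp only [W, Matrix.of_apply, halg, map_mul]
      ring
    · refine Finset.sum_congr rfl fun q _ => ?_
      simp only [map_mul]
      ring
  simp only [h1, Finset.sum_add_distrib]
  have h2 : ∑ i : Fin n, ∑ k : Fin n, (u i * v k) • W i k = (0 : ℂ) := huv
  rw [h2, zero_add]
  have h3 : ∑ i : Fin n, ∑ k : Fin n, ∑ q : J, f q (io t) * io (j (u i * ((c i k q : K) * v k))) =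
      ∑ q : J, f q (io t) * io (j (dotProduct u (Matrix.mulVec (Cm q) v))) := by
    have h4 : ∀ q, f q (io t) * io (j (dotProduct u (Matrix.mulVec (Cm q) v))) =
        ∑ i, ∑ k, f q (io t) * io (j (u i * ((c i k q : K) * v k))) := by
      intro q
      simp only [dotProduct, Matrix.mulVec, Cm, Matrix.of_apply, map_sum, map_mul, Finset.mul_sum]
    simp only [h4]
    rw [Finset.sum_comm (s := (Finset.univ : Finset J))]
    exact Finset.sum_congr rfl fun i _ => Finset.sum_comm
  rw [h3]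
  refine Finset.sum_eq_zero fun q _ => ?_
  rw [hC q]
  simp

end Pool.Agent.X39.Near
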