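import Pool.Agent.X39.Near.Master
import Pool.Agent.X142.MH.Few

/-!
# Linear forms in rational polynomials in numbers without relations of bounded complexity
-/

set_option autoImplicit false

open NumberField Filter

namespace Pool.Agent.X39.Near

open MvPolynomial

/-- **Linear forms in rational polynomials.** -/
theorem words_lower {κ : Type} [Fintype κ] {r : Type} [Fintype r] (G : r → MvPolynomial κ ℚ)
    (hG : ∀ c : r → ℂ, ∑ w, C (c w) * MvPolynomial.map (algebraMap ℚ ℂ) (G w) = 0 → c = 0) :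
    ∃ (d₀ : ℕ) (T₀ : ℝ), ∀ (g : ℕ) (f : κ → ℂ → ℂ) (ξ : Fin g → ℂ) (F : Type) [Field F] [NumberField F]
      (io : F →+* ℂ) (d : ℕ) (A B T : ℝ) (t : F), T₀ ≤ T → d₀ ≤ d →
      ¬ Dependent f (fun k : Fin 0 => k.elim0) 1 ξ F io d (A + 1) B T t →
      ∀ c : r → MvPolynomial (Fin g) (𝓞 F), (∀ w v, (c w).degreeOf v ≤ d) →
        (∀ w s (φ : F →+* ℂ), ‖φ ((c w).coeff s : 𝓞 F)‖ ≤ T ^ A) → ∀ w₀,
        T ^ (-(B + 1)) * ‖eval₂ (io.comp (algebraMap (𝓞 F) F)) ξ (c w₀)‖ ≤
          ‖∑ w, eval₂ (io.comp (algebraMap (𝓞 F) F)) ξ (c w) * aeval (fun y => f y (io t)) (G w)‖ := by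
  classical
  -- all monomials
  set M : Finset (κ →₀ ℕ) := Finset.univ.biUnion fun w => (G w).support with hM
  have hMw : ∀ w s, s ∉ M → (G w).coeff s = 0 := by
    intro w s hs
    by_contra h
    exact hs (Finset.mem_biUnion.2 ⟨w, Finset.mem_univ _, mem_support_iff.2 h⟩)
  obtain ⟨D, hD, hDn⟩ := Pool.Agent.X142.MH.exists_denom
    ((Finset.univ ×ˢ M).image fun p : r × (κ →₀ ℕ) => (G p.1).coeff p.2)
  have hnn : ∀ w s, ∃ n : ℤ, (D : ℚ) * (G w).coeff s = n := by
    intro w s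
    by_cases hs : s ∈ M
    · exact hDn _ (Finset.mem_image.2 ⟨(w, s), Finset.mem_product.2 ⟨Finset.mem_univ _, hs⟩, rfl⟩)
    · exact ⟨0, by rw [hMw w s hs]; simp⟩
  choose n hn using hnn
  have hn0 : ∀ w s, s ∉ M → n w s = 0 := by
    intro w s hs
    have h1 := hn w s
    rw [hMw w s hs, mul_zero] at h1
    exact_mod_cast h1.symm
  have hDC : (D : ℂ) ≠ 0 := by exact_mod_cast hD
  have hnC : ∀ w s, (n w s : ℂ) = D * (((G w).coeff s : ℚ) : ℂ) := by
    intro w s
    have h3 : ((D : ℚ) * (G w).coeff s : ℚ) = (n w s : ℤ) := hn w s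
    exact_mod_cast h3.symm
  set d₀ : ℕ := Finset.univ.sup fun w : r => (G w).totalDegree with hd
  set N0 : ℝ := ∑ s ∈ M, ∑ w, |(n w s : ℝ)| with hN0
  have hN0s : ∀ s, ∑ w, |(n w s : ℝ)| ≤ N0 := by
    intro s
    by_cases hs : s ∈ M
    · exact Finset.single_le_sum (f := fun s => ∑ w, |(n w s : ℝ)|)
        (fun _ _ => Finset.sum_nonneg fun _ _ => abs_nonneg _) hs
    · have h1 : ∑ w, |(n w s : ℝ)| = 0 := Finset.sum_eq_zero fun w _ => by rw [hn0 w s hs]; simp
      rw [h1]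
      exact Finset.sum_nonneg fun _ _ => Finset.sum_nonneg fun _ _ => abs_nonneg _
  -- the coefficient map
  set Λ : (r → ℂ) →ₗ[ℂ] (M → ℂ) :=
    { toFun := fun c s => ∑ w, c w * (((G w).coeff (s : κ →₀ ℕ) : ℚ) : ℂ)
      map_add' := fun c c' => by
        funext s
        simp only [Pi.add_apply, add_mul, Finset.sum_add_distrib]
      map_smul' := fun a c => by
        funext s
        simp only [Pi.smul_apply, smul_eq_mul, RingHom.id_apply, Finset.mul_sum, mul_assoc] } with hΛ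
  have hcoefP : ∀ (c : r → ℂ) (s : κ →₀ ℕ),
      (∑ w, C (c w) * MvPolynomial.map (algebraMap ℚ ℂ) (G w)).coeff s =
        ∑ w, c w * (((G w).coeff s : ℚ) : ℂ) := by
    intro c s
    rw [coeff_sum]
    refine Finset.sum_congr rfl fun w _ => ?_
    rw [coeff_C_mul, coeff_map]
    rfl
  have hker : LinearMap.ker Λ = ⊥ := by
    rw [LinearMap.ker_eq_bot']
    intro c hc
    apply hG
    ext s
    rw [hcoefP, coeff_zero]
    by_cases hs : s ∈ M
    · exact congrFun hc ⟨s, hs⟩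
    · refine Finset.sum_eq_zero fun w _ => ?_
      rw [hMw w s hs, Rat.cast_zero, mul_zero]
  obtain ⟨K, hK0, hK⟩ := Λ.exists_antilipschitzWith hker
  have hKb : ∀ c : r → ℂ, ‖c‖ ≤ K * ‖Λ c‖ := by
    intro c
    have := hK.le_mul_dist c 0
    rwa [dist_zero_right, map_zero, dist_zero_right] at this
  refine ⟨d₀, max 1 (max N0 K), ?_⟩
  intro g f ξ F _ _ io d A B T t hT hdd hdep c hcd hcA w₀
  have hT1 : 1 ≤ T := (le_max_left _ _).trans hT
  have hTN : N0 ≤ T := (le_max_left _ _).trans ((le_max_right _ _).trans hT)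
  have hTK : (K : ℝ) ≤ T := (le_max_right _ _).trans ((le_max_right _ _).trans hT)
  have hT0 : 0 < T := by linarith
  set e := io.comp (algebraMap (𝓞 F) F) with he
  set a : r → ℂ := fun w => eval₂ e ξ (c w) with ha
  by_contra hcon
  rw [not_le] at hcon
  apply hdep
  have hw₀ : a w₀ ≠ 0 := by
    intro h0
    rw [show eval₂ e ξ (c w₀) = 0 from h0, norm_zero, mul_zero] at hcon
    exact absurd hcon (not_lt.2 (norm_nonneg _))
  set b : (κ →₀ ℕ) → MvPolynomial (Fin g) (𝓞 F) := fun s => ∑ w, C ((n w s : ℤ) : 𝓞 F) * c w with hb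
  have hb0 : ∀ s, s ∉ M → b s = 0 := by
    intro s hs
    refine Finset.sum_eq_zero fun w _ => ?_
    rw [hn0 w s hs, Int.cast_zero, C_0, zero_mul]
  set P : MvPolynomial κ (MvPolynomial (Fin 0 ⊕ Fin g) (𝓞 F)) :=
    ∑ s ∈ M, monomial s (rename Sum.inr (b s)) with hP
  have hPc : ∀ s, P.coeff s = rename Sum.inr (b s) := by
    intro s
    rw [hP, coeff_sum]
    by_cases hs : s ∈ M
    · rw [Finset.sum_eq_single s]
      · rw [coeff_monomial, if_pos rfl]
      · intro s' _ h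
        rw [coeff_monomial, if_neg h]
      · exact fun h => absurd hs h
    · rw [hb0 s hs, map_zero]
      refine Finset.sum_eq_zero fun s' hs' => ?_
      rw [coeff_monomial, if_neg]
      rintro rfl
      exact hs hs'
  have hev : ∀ p : MvPolynomial (Fin g) (𝓞 F),
      coefAt (fun k : Fin 0 => k.elim0) 1 ξ F io t (rename Sum.inr p) = eval₂ e ξ p := by
    intro p
    unfold coefAt
    rw [coe_eval₂Hom, eval₂_rename]
    rfl
  have hevb : ∀ s, eval₂ e ξ (b s) = D * ∑ w, a w * (((G w).coeff s : ℚ) : ℂ) := by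
    intro s
    rw [hb]
    simp only
    rw [eval₂_sum, Finset.mul_sum]
    refine Finset.sum_congr rfl fun w _ => ?_
    rw [eval₂_mul, eval₂_C, map_intCast, hnC]
    simp only [ha]
    ring
  -- the large coefficient
  have hΛ0 : ‖a‖ ≤ K * ‖Λ a‖ := hKb a
  have ha0 : 0 < ‖a‖ := lt_of_lt_of_le (norm_pos_iff.2 hw₀) (norm_le_pi_norm a w₀)
  have hΛpos : 0 < ‖Λ a‖ := by
    by_contra h
    have h1 : ‖Λ a‖ = 0 := le_antisymm (not_lt.1 h) (norm_nonneg _)
    rw [h1, mul_zero] at hΛ0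
    linarith
  obtain ⟨s, hsM⟩ : ∃ s : M, ‖Λ a s‖ = ‖Λ a‖ := by
    have hne : Nonempty M := by
      by_contra h
      rw [not_nonempty_iff] at h
      have h1 : Λ a = 0 := funext fun s => h.elim s
      rw [h1, norm_zero] at hΛpos
      exact lt_irrefl _ hΛpos
    obtain ⟨s, _, hs⟩ := Finset.exists_max_image Finset.univ (fun s : M => ‖Λ a s‖)
      ⟨hne.some, Finset.mem_univ _⟩
    refine ⟨s, le_antisymm (norm_le_pi_norm _ s) ?_⟩
    exact (pi_norm_le_iff_of_nonneg (norm_nonneg _)).2 fun s' => hs s' (Finset.mem_univ _)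
  have hsv : coefAt (fun k : Fin 0 => k.elim0) 1 ξ F io t (P.coeff (s : κ →₀ ℕ)) = D * Λ a s := by
    rw [hPc, hev, hevb]
    rfl
  refine ⟨P, ?_, ?_, ?_, (s : κ →₀ ℕ), ?_, ?_⟩
  · intro y
    rw [degreeOf_le_iff]
    intro s' hs'
    have hs'M : s' ∈ M := by
      by_contra h
      rw [mem_support_iff, hPc, hb0 s' h, map_zero] at hs'
      exact hs' rfl
    obtain ⟨w, -, hw⟩ := Finset.mem_biUnion.1 hs'M
    exact (degreeOf_le_iff.1 ((degreeOf_le_totalDegree _ _).trans
      (Finset.le_sup (f := fun w : r => (G w).totalDegree) (Finset.mem_univ w))) s' hw).trans hdd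
  · intro s' v
    rw [hPc]
    rcases v with v | v
    · exact v.elim0
    · rw [degreeOf_rename_of_injective Sum.inr_injective]
      refine (degreeOf_sum_le _ _ _).trans (Finset.sup_le fun w _ => ?_)
      exact (degreeOf_C_mul_le _ _ _).trans (hcd w v)
  · intro s' s'' φ
    rw [hPc]
    by_cases hu : ∃ u, Finsupp.mapDomain (Sum.inr : Fin g → Fin 0 ⊕ Fin g) u = s''
    · obtain ⟨u, rfl⟩ := hu
      rw [coeff_rename_mapDomain _ Sum.inr_injective]
      have h1 : (b s').coeff u = ∑ w, ((n w s' : ℤ) : 𝓞 F) * (c w).coeff u := by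
        rw [hb]
        simp only
        rw [coeff_sum]
        exact Finset.sum_congr rfl fun w _ => by rw [coeff_C_mul]
      have h2 : φ (((b s').coeff u : 𝓞 F) : F) = ∑ w, (n w s' : ℂ) * φ (((c w).coeff u : 𝓞 F) : F) := by
        rw [h1, show ((∑ w, ((n w s' : ℤ) : 𝓞 F) * (c w).coeff u : 𝓞 F) : F) =
          ∑ w, (n w s' : F) * (((c w).coeff u : 𝓞 F) : F) by simp [map_sum], map_sum]
        refine Finset.sum_congr rfl fun w _ => ?_
        rw [map_mul, map_intCast]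
      rw [h2]
      refine (norm_sum_le _ _).trans ?_
      calc ∑ w, ‖(n w s' : ℂ) * φ (((c w).coeff u : 𝓞 F) : F)‖ ≤ ∑ w, |(n w s' : ℝ)| * T ^ A := by
            refine Finset.sum_le_sum fun w _ => ?_
            rw [norm_mul, Complex.norm_intCast]
            exact mul_le_mul_of_nonneg_left (hcA w u φ) (abs_nonneg _)
        _ = (∑ w, |(n w s' : ℝ)|) * T ^ A := by rw [Finset.sum_mul]
        _ ≤ T * T ^ A := mul_le_mul_of_nonneg_right ((hN0s s').trans hTN) (Real.rpow_pos_of_pos hT0 _).le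
        _ = T ^ (A + 1) := by rw [Real.rpow_add hT0, Real.rpow_one, mul_comm]
    · rw [coeff_rename_eq_zero _ _ _ fun u' hu' => absurd ⟨u', hu'⟩ hu]
      have h1 : φ (((0 : 𝓞 F)) : F) = 0 := by simp
      rw [h1, norm_zero]
      exact (Real.rpow_pos_of_pos hT0 _).le
  · rw [hsv]
    refine mul_ne_zero hDC fun h => ?_
    rw [h, norm_zero] at hsM
    linarith
  · have hG' : ∀ w, aeval (fun y => f y (io t)) (G w) =
        ∑ s ∈ M, (((G w).coeff s : ℚ) : ℂ) * s.prod fun y k => f y (io t) ^ k := by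
      intro w
      rw [aeval_def, eval₂_eq]
      have h1 : ∀ s : κ →₀ ℕ, (∏ i ∈ s.support, f i (io t) ^ s i) = s.prod fun y k => f y (io t) ^ k :=
        fun s => rfl
      simp only [h1]
      refine Finset.sum_subset (fun s hs => Finset.mem_biUnion.2 ⟨w, Finset.mem_univ _, hs⟩) fun s _ hs => ?_
      rw [notMem_support_iff.1 hs, map_zero, zero_mul]
    have h1 : MvPolynomial.eval₂ (coefAt (fun k : Fin 0 => k.elim0) 1 ξ F io t) (fun j => f j (io t)) P =
        D * ∑ w, a w * aeval (fun y => f y (io t)) (G w) := by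
      rw [hP, eval₂_sum]
      simp only [eval₂_monomial, hev, hevb, hG']
      simp only [Finset.mul_sum, Finset.sum_mul]
      rw [Finset.sum_comm]
      refine Finset.sum_congr rfl fun w _ => Finset.sum_congr rfl fun s _ => ?_
      ring
    rw [h1, hsv, norm_mul, norm_mul, hsM]
    have h2 : ‖a w₀‖ ≤ T * ‖Λ a‖ :=
      (norm_le_pi_norm a w₀).trans (hΛ0.trans (mul_le_mul_of_nonneg_right hTK (norm_nonneg _)))
    have h3 : ‖∑ w, a w * aeval (fun y => f y (io t)) (G w)‖ ≤ T ^ (-B) * ‖Λ a‖ := by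
      refine hcon.le.trans ?_
      calc T ^ (-(B + 1)) * ‖a w₀‖ ≤ T ^ (-(B + 1)) * (T * ‖Λ a‖) :=
            mul_le_mul_of_nonneg_left h2 (Real.rpow_pos_of_pos hT0 _).le
        _ = T ^ (-B) * ‖Λ a‖ := by
            rw [neg_add, Real.rpow_add hT0, Real.rpow_neg_one]
            field_simp
    calc ‖(D : ℂ)‖ * ‖∑ w, a w * aeval (fun y => f y (io t)) (G w)‖
        ≤ ‖(D : ℂ)‖ * (T ^ (-B) * ‖Λ a‖) := mul_le_mul_of_nonneg_left h3 (norm_nonneg _)
      _ = T ^ (-B) * (‖(D : ℂ)‖ * ‖Λ a‖) := by ring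

end Pool.Agent.X39.Near
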